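import Pool.Agent.Helper45.QPerm.Blocks

open scoped InnerProductSpace ComplexOrder ENNReal Topology

namespace Helper45.QPerm

section PQ

variable {m : ℕ} {A : Type} [CStarAlgebra A] {u : Fin (2 + 2 + m) → Fin (2 + 2 + m) → A}

/-- the magic unitary of two projections -/
def pq {B : Type} [CStarAlgebra B] (m : ℕ) (p q : B) :
    Fin (2 + 2 + m) → Fin (2 + 2 + m) → B := blk (blk (two p) (two q)) (idm m)

lemma isMagic_pq {B : Type} [CStarAlgebra B] {p q : B} (hp : IsStarProjection p)
    (hq : IsStarProjection q) : IsMagic (2 + 2 + m) (pq m p q) :=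
  isMagic_blk (isMagic_blk (isMagic_two hp) (isMagic_two hq)) (isMagic_idm m)

/-- the homomorphism given by two projections -/
noncomputable def homPQ (hA : IsQuantumPermutationAlgebra (2 + 2 + m) A u) {B : Type}
    [CStarAlgebra B] {p q : B} (hp : IsStarProjection p) (hq : IsStarProjection q) :
    A →⋆ₐ[ℂ] B := (hA.universal B (pq m p q) (isMagic_pq hp hq)).choose

lemma homPQ_apply (hA : IsQuantumPermutationAlgebra (2 + 2 + m) A u) {B : Type}
    [CStarAlgebra B] {p q : B} (hp : IsStarProjection p) (hq : IsStarProjection q) (i j) :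
    homPQ hA hp hq (u i j) = pq m p q i j :=
  (hA.universal B (pq m p q) (isMagic_pq hp hq)).choose_spec.1 i j

def i0 (m : ℕ) : Fin (2 + 2 + m) := Fin.castAdd m (Fin.castAdd 2 0)
def i2 (m : ℕ) : Fin (2 + 2 + m) := Fin.castAdd m (Fin.natAdd 2 0)

lemma pq_i0 {B : Type} [CStarAlgebra B] (p q : B) : pq m p q (i0 m) (i0 m) = p := by
  unfold pq i0
  rw [blk_cast_cast, blk_cast_cast]
  simp [two]

lemma pq_i2 {B : Type} [CStarAlgebra B] (p q : B) : pq m p q (i2 m) (i2 m) = q := by
  unfold pq i2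
  rw [blk_cast_cast, blk_nat_nat]
  simp [two]

lemma norm_pq_sub_le {B : Type} [CStarAlgebra B] (p q q' : B) (i j : Fin (2 + 2 + m)) :
    ‖pq m p q i j - pq m p q' i j‖ ≤ ‖q - q'‖ := by
  have h0 : (0 : ℝ) ≤ ‖q - q'‖ := norm_nonneg _
  unfold pq
  induction i using Fin.addCases with
  | left i =>
    induction j using Fin.addCases with
    | left j =>
      rw [blk_cast_cast, blk_cast_cast]
      induction i using Fin.addCases with
      | left i =>
        induction j using Fin.addCases with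
        | left j => rw [blk_cast_cast, blk_cast_cast, sub_self, norm_zero]; exact h0
        | right j => rw [blk_cast_nat, blk_cast_nat, sub_self, norm_zero]; exact h0
      | right i =>
        induction j using Fin.addCases with
        | left j => rw [blk_nat_cast, blk_nat_cast, sub_self, norm_zero]; exact h0
        | right j =>
          rw [blk_nat_nat, blk_nat_nat]
          unfold two
          split_ifs
          · exact le_rfl
          · rw [sub_sub_sub_cancel_left, norm_sub_rev]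
    | right j => rw [blk_cast_nat, blk_cast_nat, sub_self, norm_zero]; exact h0
  | right i =>
    induction j using Fin.addCases with
    | left j => rw [blk_nat_cast, blk_nat_cast, sub_self, norm_zero]; exact h0
    | right j => rw [blk_nat_nat, blk_nat_nat, sub_self, norm_zero]; exact h0

lemma pq_mem {H : Type} [NormedAddCommGroup H] [InnerProductSpace ℂ H] [CompleteSpace H]
    (N : VonNeumannAlgebra H) {p q : H →L[ℂ] H} (hp : p ∈ N) (hq : q ∈ N)
    (i j : Fin (2 + 2 + m)) : pq m p q i j ∈ N := by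
  unfold pq
  induction i using Fin.addCases with
  | left i =>
    induction j using Fin.addCases with
    | left j =>
      rw [blk_cast_cast]
      induction i using Fin.addCases with
      | left i =>
        induction j using Fin.addCases with
        | left j =>
          rw [blk_cast_cast]
          unfold two
          split_ifs
          · exact hp
          · exact sub_mem (one_mem _) hp
        | right j => rw [blk_cast_nat]; exact zero_mem _
      | right i =>
        induction j using Fin.addCases with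
        | left j => rw [blk_nat_cast]; exact zero_mem _
        | right j =>
          rw [blk_nat_nat]
          unfold two
          split_ifs
          · exact hq
          · exact sub_mem (one_mem _) hq
    | right j => rw [blk_cast_nat]; exact zero_mem _
  | right i =>
    induction j using Fin.addCases with
    | left j => rw [blk_nat_cast]; exact zero_mem _
    | right j =>
      rw [blk_nat_nat]
      unfold idm
      split_ifs
      · exact one_mem _
      · exact zero_mem _

end PQ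

/-! ### rank one projections in dimension two -/

section RankOne

abbrev H2 : Type := l2 (Fin 2)

lemma bij2 : Function.Bijective fun p : Unit × Fin 2 =>
    (1 : Unit →* Equiv.Perm (Fin 2)) p.1 ((id : Fin 2 → Fin 2) p.2) := by
  constructor
  · rintro ⟨_, i⟩ ⟨_, j⟩ h
    have : i = j := h
    rw [this]
  · intro i
    exact ⟨((), i), rfl⟩

/-- `M₂(ℂ)` with its normalised trace -/
noncomputable def M2 : TracialVN H2 :=
  modelVN (1 : Unit →* Equiv.Perm (Fin 2)) (N := 2) two_pos id bij2

lemma mem_M2 (x : H2 →L[ℂ] H2) : x ∈ M2.alg := by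
  change x ∈ commAlg _
  rw [mem_commAlg]
  intro g
  rw [MonoidHom.one_apply, permOp_one, one_mul, mul_one]

lemma tr_M2 (x : H2 →L[ℂ] H2) :
    M2.tr x = (2 : ℂ)⁻¹ * (⟪δ 0, x (δ 0)⟫_ℂ + ⟪δ 1, x (δ 1)⟫_ℂ) := by
  have := vecFunctional_modelVec (id : Fin 2 → Fin 2) x
  rw [Fin.sum_univ_two] at this
  exact_mod_cast this

/-- the unit vector at angle `t` -/
noncomputable def ev (t : ℝ) : H2 := (Real.cos t : ℂ) • δ 0 + (Real.sin t : ℂ) • δ 1

lemma inner_δ01 : ⟪(δ 0 : H2), δ 1⟫_ℂ = 0 := by
  rw [inner_δ_left, δ_apply]; simp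

lemma inner_δ10 : ⟪(δ 1 : H2), δ 0⟫_ℂ = 0 := by
  rw [inner_δ_left, δ_apply]; simp

lemma inner_δδ (i : Fin 2) : ⟪(δ i : H2), δ i⟫_ℂ = 1 := by
  rw [inner_δ_left, δ_apply]; simp

lemma inner_δ0_ev (t : ℝ) : ⟪(δ 0 : H2), ev t⟫_ℂ = Real.cos t := by
  rw [ev, inner_add_right, inner_smul_right, inner_smul_right, inner_δδ, inner_δ01]; simp

lemma inner_δ1_ev (t : ℝ) : ⟪(δ 1 : H2), ev t⟫_ℂ = Real.sin t := by
  rw [ev, inner_add_right, inner_smul_right, inner_smul_right, inner_δδ, inner_δ10]; simp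

lemma inner_ev (s t : ℝ) : ⟪ev s, ev t⟫_ℂ = Real.cos (s - t) := by
  rw [ev, inner_add_left, inner_smul_left, inner_smul_left, inner_δ0_ev, inner_δ1_ev,
    Complex.conj_ofReal, Complex.conj_ofReal, Real.cos_sub]
  push_cast
  ring

lemma norm_ev (t : ℝ) : ‖ev t‖ = 1 := by
  have h := inner_self_eq_norm_sq_to_K (𝕜 := ℂ) (ev t)
  rw [inner_ev, sub_self, Real.cos_zero] at h
  have h2 : ‖ev t‖ ^ 2 = 1 := by
    have h3 : ((‖ev t‖ ^ 2 : ℝ) : ℂ) = ((1 : ℝ) : ℂ) := by
      rw [h]; push_cast; rfl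
    exact_mod_cast h3
  exact (pow_eq_one_iff_of_nonneg (norm_nonneg _) two_ne_zero).mp h2

/-- the projection onto the line at angle `t` -/
noncomputable def Pt (t : ℝ) : H2 →L[ℂ] H2 := (ℂ ∙ ev t).starProjection

lemma Pt_apply (t : ℝ) (x : H2) : Pt t x = ⟪ev t, x⟫_ℂ • ev t :=
  Submodule.starProjection_unit_singleton ℂ (norm_ev t) x

lemma isStarProjection_Pt (t : ℝ) : IsStarProjection (Pt t) := isStarProjection_starProjection

lemma tr_Pt (t : ℝ) : M2.tr (Pt t) = 1 / 2 := by
  rw [tr_M2, Pt_apply, Pt_apply, inner_smul_right, inner_smul_right, ← inner_conj_symm (ev t),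
    ← inner_conj_symm (ev t), inner_δ0_ev, inner_δ1_ev, Complex.conj_ofReal, Complex.conj_ofReal]
  have := Real.cos_sq_add_sin_sq t
  have h2 : (Real.cos t : ℂ) * Real.cos t + (Real.sin t : ℂ) * Real.sin t = 1 := by
    rw [← sq, ← sq]; exact_mod_cast this
  rw [h2]; norm_num

lemma Pt_mul (s t : ℝ) : Pt s * Pt t * Pt s = ((Real.cos (s - t) ^ 2 : ℝ) : ℂ) • Pt s := by
  ext1 x
  change Pt s (Pt t (Pt s x)) = ((Real.cos (s - t) ^ 2 : ℝ) : ℂ) • Pt s x
  rw [Pt_apply s x, map_smul, Pt_apply t, map_smul, map_smul, Pt_apply s, inner_ev, inner_ev,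
    ← neg_sub s t, Real.cos_neg, smul_smul, smul_smul, smul_smul]
  congr 1
  push_cast
  ring

lemma norm_Pt_sub_le (s t : ℝ) : ‖Pt s - Pt t‖ ≤ 2 * ‖ev s - ev t‖ := by
  refine ContinuousLinearMap.opNorm_le_bound _ (by positivity) fun x => ?_
  have h : (Pt s - Pt t) x = ⟪ev s, x⟫_ℂ • (ev s - ev t) + ⟪ev s - ev t, x⟫_ℂ • ev t := by
    rw [_root_.sub_apply, Pt_apply, Pt_apply, inner_sub_left, smul_sub, sub_smul]
    abel
  rw [h]
  refine (norm_add_le _ _).trans ?_
  rw [norm_smul, norm_smul, norm_ev]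
  have h1 := norm_inner_le_norm (𝕜 := ℂ) (ev s) x
  have h2 := norm_inner_le_norm (𝕜 := ℂ) (ev s - ev t) x
  rw [norm_ev] at h1
  nlinarith [norm_nonneg (ev s - ev t), norm_nonneg x]

lemma continuous_ev : Continuous ev := by
  unfold ev
  fun_prop

end RankOne

section Main

variable {m : ℕ} {A : Type} [CStarAlgebra A] {u : Fin (2 + 2 + m) → Fin (2 + 2 + m) → A}

/-- the trace of the pair of lines at angle `t` -/
noncomputable def angleState (hA : IsQuantumPermutationAlgebra (2 + 2 + m) A u) (t : ℝ) :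
    TracialState A :=
  pull M2 (homPQ hA (isStarProjection_Pt 0) (isStarProjection_Pt t)) (fun _ => mem_M2 _)

/-- the obvious coupling -/
noncomputable def angleCoupling (hA : IsQuantumPermutationAlgebra (2 + 2 + m) A u) (s t : ℝ) :
    Coupling (angleState hA s) (angleState hA t) :=
  pullCoupling M2 _ _ (fun _ => mem_M2 _) (fun _ => mem_M2 _)

lemma norm_L_le_norm {H : Type} [NormedAddCommGroup H] [InnerProductSpace ℂ H] [CompleteSpace H]
    (M : TracialVN H) (x : H →L[ℂ] H) : ‖M.L x‖ ≤ ‖x‖ := by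
  have := M.norm_L_mul_le x 1
  rwa [mul_one, M.norm_L_one, mul_one] at this

lemma angle_norm_le (hA : IsQuantumPermutationAlgebra (2 + 2 + m) A u) (s t : ℝ)
    (i j : Fin (2 + 2 + m)) :
    ‖(angleCoupling hA s t).α (u i j) - (angleCoupling hA s t).β (u i j)‖ ≤ ‖Pt s - Pt t‖ := by
  change ‖homPQ hA (isStarProjection_Pt 0) (isStarProjection_Pt s) (u i j) -
    homPQ hA (isStarProjection_Pt 0) (isStarProjection_Pt t) (u i j)‖ ≤ _
  rw [homPQ_apply, homPQ_apply]
  exact norm_pq_sub_le _ _ _ i j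

lemma angle_costOne_le (hA : IsQuantumPermutationAlgebra (2 + 2 + m) A u) (s t : ℝ) :
    costOne u (angleCoupling hA s t) ≤ (2 + 2 + m : ℕ) * ‖Pt s - Pt t‖ := by
  have hn : (0 : ℝ) < (2 + 2 + m : ℕ) := by positivity
  have h1 : ∀ i j, (1 / 2 : ℝ) * ((angleCoupling hA s t).M.tr
      (CFC.abs ((angleCoupling hA s t).α (u i j) - (angleCoupling hA s t).β (u i j)))).re ≤
      ‖Pt s - Pt t‖ := by
    intro i j
    have h2 := (angleCoupling hA s t).M.tr_abs_le
      ((angleCoupling hA s t).α (u i j) - (angleCoupling hA s t).β (u i j))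
    have h3 := norm_L_le_norm (angleCoupling hA s t).M
      ((angleCoupling hA s t).α (u i j) - (angleCoupling hA s t).β (u i j))
    have h4 := angle_norm_le hA s t i j
    have h5 := norm_nonneg (Pt s - Pt t)
    linarith
  have h2 := Finset.sum_le_sum fun i (_ : i ∈ (Finset.univ : Finset (Fin (2 + 2 + m)))) =>
    Finset.sum_le_sum fun j (_ : j ∈ (Finset.univ : Finset (Fin (2 + 2 + m)))) => h1 i j
  simp only [Finset.sum_const, Finset.card_univ, Fintype.card_fin, nsmul_eq_mul] at h2
  rw [costOne_eq]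
  rw [div_mul_eq_mul_div, one_mul, div_le_iff₀ hn]
  linarith

/-- lower bound for `d_∧` -/
lemma angle_costWedge_ge (hA : IsQuantumPermutationAlgebra (2 + 2 + m) A u) {t : ℝ}
    (ht : Real.cos t ^ 2 ≠ 1) (c : Coupling (angleState hA 0) (angleState hA t)) :
    1 / (2 * (2 + 2 + m : ℕ)) ≤ costWedge u c := by
  have hn : (0 : ℝ) < (2 + 2 + m : ℕ) := by positivity
  -- relation for `α`
  have h1 : c.α (u (i0 m) (i0 m)) = c.α (u (i2 m) (i2 m)) := by
    have : c.α (u (i0 m) (i0 m) - u (i2 m) (i2 m)) = 0 := by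
      apply c.α_eq_zero
      apply pull_star_mul_self_eq_zero
      rw [map_sub, homPQ_apply, homPQ_apply, pq_i0, pq_i2, sub_self]
    rw [map_sub] at this
    exact sub_eq_zero.mp this
  -- relation for `β`
  have h2 : c.β (u (i0 m) (i0 m)) * c.β (u (i2 m) (i2 m)) * c.β (u (i0 m) (i0 m)) =
      ((Real.cos t ^ 2 : ℝ) : ℂ) • c.β (u (i0 m) (i0 m)) := by
    have : c.β (u (i0 m) (i0 m) * u (i2 m) (i2 m) * u (i0 m) (i0 m) -
        ((Real.cos t ^ 2 : ℝ) : ℂ) • u (i0 m) (i0 m)) = 0 := by
      apply c.β_eq_zero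
      apply pull_star_mul_self_eq_zero
      rw [map_sub, map_mul, map_mul, map_smul, homPQ_apply, homPQ_apply, pq_i0, pq_i2, Pt_mul,
        zero_sub, Real.cos_neg, sub_self]
    rw [map_sub, map_mul, map_mul, map_smul] at this
    exact sub_eq_zero.mp this
  have hu := hA.magic
  set p := c.α (u (i0 m) (i0 m)) with hp
  set P := c.β (u (i0 m) (i0 m)) with hP
  set Q := c.β (u (i2 m) (i2 m)) with hQ
  have hpp : IsStarProjection p := proj_map hu c.α _ _
  have hPP : IsStarProjection P := proj_map hu c.β _ _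
  have hQQ : IsStarProjection Q := proj_map hu c.β _ _
  have hcap : ∀ x, P x = x → Q x = x → x = 0 := by
    intro x hx hx'
    have h3 := congrArg (fun g : c.H →L[ℂ] c.H => g x) h2
    change P (Q (P x)) = ((Real.cos t ^ 2 : ℝ) : ℂ) • P x at h3
    rw [hx, hx', hx] at h3
    have h4 : ((1 - Real.cos t ^ 2 : ℝ) : ℂ) • x = 0 := by
      push_cast at h3 ⊢
      rw [sub_smul, one_smul, ← h3, sub_self]
    rcases smul_eq_zero.mp h4 with h5 | h5
    · exact absurd (sub_eq_zero.mp (by exact_mod_cast h5)).symm ht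
    · exact h5
  have htrp : (c.M.tr p).re = 1 / 2 := by
    rw [hp, c.α_tr, angleState, pull_apply, homPQ_apply, pq_i0, tr_Pt]
    norm_num
  have htrP : (c.M.tr P).re = 1 / 2 := by
    rw [hP, c.β_tr, angleState, pull_apply, homPQ_apply, pq_i0, tr_Pt]
    norm_num
  have htrQ : (c.M.tr Q).re = 1 / 2 := by
    rw [hQ, c.β_tr, angleState, pull_apply, homPQ_apply, pq_i2, tr_Pt]
    norm_num
  -- dimension
  have hdim : (c.M.tr (meet p P)).re + (c.M.tr (meet p Q)).re ≤ (c.M.tr p).re := by
    apply c.M.tr_add_tr_le (meet_isStarProjection _ _) (meet_isStarProjection _ _) hpp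
      (meet_mem _ (c.α_mem _) (c.β_mem _)) (meet_mem _ (c.α_mem _) (c.β_mem _)) (c.α_mem _)
      (meet_mul hpp hPP).1 (meet_mul hpp hQQ).1
    intro x hx hx'
    apply hcap x
    · rw [← hx]; exact (meet_apply_mem hpp hPP x).2
    · rw [← hx']; exact (meet_apply_mem hpp hQQ x).2
  -- the cost
  have h3 := n_mul_costWedge' hu (by omega) c
  have h4 : ∀ i j, 0 ≤ (c.M.tr (c.β (u i j))).re -
      (c.M.tr (meet (c.α (u i j)) (c.β (u i j)))).re := by
    intro i j
    rw [← c.M.norm_sub_meet_sq' (proj_map hu c.α i j) (proj_map hu c.β i j)]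
    positivity
  have h02 : i0 m ≠ i2 m := by
    intro h
    have := congrArg Fin.val h
    simp [i0, i2] at this
  have h5 : ((c.M.tr P).re - (c.M.tr (meet p P)).re) + ((c.M.tr Q).re -
      (c.M.tr (meet p Q)).re) ≤ ∑ i, ∑ j, ((c.M.tr (c.β (u i j))).re -
      (c.M.tr (meet (c.α (u i j)) (c.β (u i j)))).re) := by
    have h6 := Finset.add_le_sum (s := Finset.univ) (f := fun i => ∑ j, ((c.M.tr (c.β (u i j))).re -
      (c.M.tr (meet (c.α (u i j)) (c.β (u i j)))).re))
      (fun i _ => Finset.sum_nonneg fun j _ => h4 i j) (Finset.mem_univ (i0 m))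
      (Finset.mem_univ (i2 m)) h02
    refine le_trans (add_le_add ?_ ?_) h6
    · exact Finset.single_le_sum (f := fun j => ((c.M.tr (c.β (u (i0 m) j))).re -
        (c.M.tr (meet (c.α (u (i0 m) j)) (c.β (u (i0 m) j)))).re)) (fun j _ => h4 _ j)
        (Finset.mem_univ (i0 m))
    · have h7 := Finset.single_le_sum (f := fun j => ((c.M.tr (c.β (u (i2 m) j))).re -
        (c.M.tr (meet (c.α (u (i2 m) j)) (c.β (u (i2 m) j)))).re)) (fun j _ => h4 _ j)
        (Finset.mem_univ (i2 m))
      rwa [← h1] at h7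
  rw [← h3] at h5
  rw [div_le_iff₀ (by positivity)]
  linarith

/-- the sequence of angles -/
noncomputable def ang (k : ℕ) : ℝ := 1 / ((k : ℝ) + 1)

lemma ang_pos (k : ℕ) : 0 < ang k := by unfold ang; positivity

lemma ang_le (k : ℕ) : ang k ≤ 1 := by
  unfold ang
  rw [div_le_one (by positivity)]
  have : (0 : ℝ) ≤ k := Nat.cast_nonneg k
  linarith

lemma cos_ang_sq_ne (k : ℕ) : Real.cos (ang k) ^ 2 ≠ 1 := by
  have h1 : Real.sin (ang k) ≠ 0 := by
    apply ne_of_gt
    apply Real.sin_pos_of_pos_of_lt_pi (ang_pos k)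
    linarith [ang_le k, Real.pi_gt_three]
  intro h
  have h2 := Real.cos_sq_add_sin_sq (ang k)
  rw [h] at h2
  exact h1 (pow_eq_zero_iff two_ne_zero |>.mp (by linarith))

lemma tendsto_ang : Filter.Tendsto ang Filter.atTop (nhds 0) :=
  tendsto_one_div_add_atTop_nhds_zero_nat

lemma tendsto_Pt : Filter.Tendsto (fun k => ‖Pt 0 - Pt (ang k)‖) Filter.atTop (nhds 0) := by
  have h1 : Filter.Tendsto (fun k => 2 * ‖ev 0 - ev (ang k)‖) Filter.atTop (nhds 0) := by
    have h2 : Filter.Tendsto (fun k => ev (ang k)) Filter.atTop (nhds (ev 0)) :=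
      (continuous_ev.tendsto 0).comp tendsto_ang
    have h3 := ((tendsto_const_nhds (x := ev 0)).sub h2).norm.const_mul 2
    simpa using h3
  exact squeeze_zero (fun k => norm_nonneg _) (fun k => norm_Pt_sub_le _ _) h1

lemma angle_dWedge_ge (hA : IsQuantumPermutationAlgebra (2 + 2 + m) A u) (k : ℕ) :
    ((1 / (2 * (2 + 2 + m : ℕ)) : ℝ) : EReal) ≤
      dWedge u (angleState hA 0) (angleState hA (ang k)) :=
  le_iInf fun c => by exact_mod_cast angle_costWedge_ge hA (cos_ang_sq_ne k) c

/-- `𝒪₂ ≠ 𝒪₃` for `n ≥ 4`: the relevant set. -/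
theorem exists_open_wedge_not_one (hA : IsQuantumPermutationAlgebra (2 + 2 + m) A u) :
    ∃ U : Set (TracialState A), IsOpen[topWedge u] U ∧ ¬ IsOpen[topOne u] U := by
  refine ⟨(Set.range fun k => angleState hA (ang k))ᶜ, ?_, ?_⟩
  · apply isOpen_compl_range (controls_wedge hA) (φ := angleState hA 0)
      (c := 1 / (2 * (2 + 2 + m : ℕ)))
    · intro a
      rw [Metric.tendsto_atTop]
      intro ε hε
      obtain ⟨δ, hδ, h⟩ := weak_control hA a hε
      obtain ⟨K, hK⟩ := Metric.tendsto_atTop.mp tendsto_Pt δ hδ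
      refine ⟨K, fun k hk => ?_⟩
      rw [dist_comm, dist_eq_norm]
      apply h _ _ (angleCoupling hA 0 (ang k))
      intro i j
      refine (norm_L_le_norm _ _).trans ((angle_norm_le hA _ _ i j).trans ?_)
      have := hK k hk
      rw [dist_zero_right, norm_norm] at this
      exact this.le
    · positivity
    · intro k
      exact angle_dWedge_ge hA k
  · apply not_isOpen_compl_range (φ := angleState hA 0)
    · intro k hk
      have h1 := angle_dWedge_ge hA k
      rw [hk] at h1
      have h2 : dWedge u (angleState hA 0) (angleState hA 0) ≤ 0 :=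
        dWedge_self hA.magic (by omega) M2 _ _
      have h3 : (0 : EReal) < ((1 / (2 * (2 + 2 + m : ℕ)) : ℝ) : EReal) := by
        exact_mod_cast (by positivity : (0 : ℝ) < 1 / (2 * (2 + 2 + m : ℕ)))
      exact absurd (h3.trans_le (h1.trans h2)) (lt_irrefl _)
    · intro ε hε
      have hn : (0 : ℝ) < (2 + 2 + m : ℕ) := by positivity
      obtain ⟨K, hK⟩ := Metric.tendsto_atTop.mp tendsto_Pt (ε / (2 + 2 + m : ℕ)) (by positivity)
      refine ⟨K, iInf_lt_iff.mpr ⟨angleCoupling hA 0 (ang K), ?_⟩⟩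
      have h1 := hK K le_rfl
      rw [dist_zero_right, norm_norm, lt_div_iff₀ hn] at h1
      have h2 := angle_costOne_le hA 0 (ang K)
      have h3 : costOne u (angleCoupling hA 0 (ang K)) < ε := by linarith
      exact_mod_cast h3

end Main

end Helper45.QPerm
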