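import Pool.Agent.Helper45.QPerm.Defs

open scoped InnerProductSpace ComplexOrder

namespace Helper45.QPerm

section Basic

variable {A : Type} [CStarAlgebra A] {φ ψ : TracialState A}

lemma Coupling.α_mem (c : Coupling φ ψ) (a : A) : c.α a ∈ c.M.alg := c.hα.1 a
lemma Coupling.β_mem (c : Coupling φ ψ) (a : A) : c.β a ∈ c.M.alg := c.hβ.1 a
lemma Coupling.α_tr (c : Coupling φ ψ) (a : A) : c.M.tr (c.α a) = φ.1 a := c.hα.2 a
lemma Coupling.β_tr (c : Coupling φ ψ) (a : A) : c.M.tr (c.β a) = ψ.1 a := c.hβ.2 a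

lemma costWedge_eq {n : ℕ} (u : Fin n → Fin n → A) (c : Coupling φ ψ) : costWedge u c =
    1 - (1 / n : ℝ) * ∑ i, ∑ j, (c.M.tr (meet (c.α (u i j)) (c.β (u i j)))).re := rfl

lemma costOne_eq {n : ℕ} (u : Fin n → Fin n → A) (c : Coupling φ ψ) : costOne u c =
    (1 / n : ℝ) * ∑ i, ∑ j, (1 / 2 : ℝ) *
      (c.M.tr (CFC.abs (c.α (u i j) - c.β (u i j)))).re := rfl

end Basic

end Helper45.QPerm
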