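import Pool.Agent.Helper45.QPerm.Model

open scoped InnerProductSpace ComplexOrder ENNReal Topology

namespace Helper45.QPerm

section Blocks

variable {B : Type*} [CStarAlgebra B]

/-- block diagonal sum of magic unitaries -/
def blk {B : Type*} [Zero B] {a b : ℕ} (v : Fin a → Fin a → B) (w : Fin b → Fin b → B) :
    Fin (a + b) → Fin (a + b) → B := fun i j =>
  Fin.addCases (fun i' => Fin.addCases (fun j' => v i' j') (fun _ => 0) j)
    (fun i' => Fin.addCases (fun _ => 0) (fun j' => w i' j') j) i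

lemma blk_cast_cast {B : Type*} [Zero B] {a b : ℕ} (v : Fin a → Fin a → B) (w : Fin b → Fin b → B) (i j : Fin a) :
    blk v w (Fin.castAdd b i) (Fin.castAdd b j) = v i j := by simp [blk]

lemma blk_nat_nat {B : Type*} [Zero B] {a b : ℕ} (v : Fin a → Fin a → B) (w : Fin b → Fin b → B) (i j : Fin b) :
    blk v w (Fin.natAdd a i) (Fin.natAdd a j) = w i j := by simp [blk]

lemma blk_cast_nat {B : Type*} [Zero B] {a b : ℕ} (v : Fin a → Fin a → B) (w : Fin b → Fin b → B) (i : Fin a)
    (j : Fin b) : blk v w (Fin.castAdd b i) (Fin.natAdd a j) = 0 := by simp [blk]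

lemma blk_nat_cast {B : Type*} [Zero B] {a b : ℕ} (v : Fin a → Fin a → B) (w : Fin b → Fin b → B) (i : Fin b)
    (j : Fin a) : blk v w (Fin.natAdd a i) (Fin.castAdd b j) = 0 := by simp [blk]

lemma isMagic_blk {a b : ℕ} {v : Fin a → Fin a → B} {w : Fin b → Fin b → B}
    (hv : IsMagic a v) (hw : IsMagic b w) : IsMagic (a + b) (blk v w) where
  proj := by
    intro i j
    induction i using Fin.addCases with
    | left i =>
      induction j using Fin.addCases with
      | left j => rw [blk_cast_cast]; exact hv.proj i j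
      | right j => rw [blk_cast_nat]; exact IsStarProjection.zero _
    | right i =>
      induction j using Fin.addCases with
      | left j => rw [blk_nat_cast]; exact IsStarProjection.zero _
      | right j => rw [blk_nat_nat]; exact hw.proj i j
  row := by
    intro i
    rw [Fin.sum_univ_add]
    induction i using Fin.addCases with
    | left i => simp only [blk_cast_cast, blk_cast_nat, Finset.sum_const_zero, add_zero, hv.row]
    | right i => simp only [blk_nat_cast, blk_nat_nat, Finset.sum_const_zero, zero_add, hw.row]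
  col := by
    intro i
    rw [Fin.sum_univ_add]
    induction i using Fin.addCases with
    | left i => simp only [blk_cast_cast, blk_nat_cast, Finset.sum_const_zero, add_zero, hv.col]
    | right i => simp only [blk_cast_nat, blk_nat_nat, Finset.sum_const_zero, zero_add, hw.col]

/-- the `2 × 2` magic unitary of a projection -/
def two {B : Type*} [One B] [Sub B] (p : B) : Fin 2 → Fin 2 → B := fun i j => if i = j then p else 1 - p

lemma isMagic_two {p : B} (hp : IsStarProjection p) : IsMagic 2 (two p) where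
  proj := by
    intro i j
    unfold two
    split_ifs
    · exact hp
    · exact hp.one_sub
  row := by
    intro i
    fin_cases i <;> simp [two]
  col := by
    intro i
    fin_cases i <;> simp [two]

/-- the identity magic unitary -/
def idm {B : Type*} [Zero B] [One B] (m : ℕ) : Fin m → Fin m → B := fun i j => if i = j then 1 else 0

lemma isMagic_idm (m : ℕ) : IsMagic m (idm (B := B) m) where
  proj := by
    intro i j
    unfold idm
    split_ifs
    · exact IsStarProjection.one _
    · exact IsStarProjection.zero _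
  row := by intro i; simp [idm]
  col := by intro i; simp [idm]

end Blocks

section Pull

variable {H : Type} [NormedAddCommGroup H] [InnerProductSpace ℂ H] [CompleteSpace H]
variable {A : Type} [CStarAlgebra A]

lemma TracialVN.norm_tr_apply_le (M : TracialVN H) (π : A →⋆ₐ[ℂ] (H →L[ℂ] H)) (a : A) :
    ‖M.tr (π a)‖ ≤ ‖a‖ := by
  calc ‖M.tr (π a)‖ ≤ ‖M.L (π a)‖ := M.norm_tr_le _
    _ = ‖M.L (π a * 1)‖ := by rw [mul_one]
    _ ≤ ‖π a‖ * ‖M.L 1‖ := M.norm_L_mul_le _ _
    _ ≤ ‖a‖ := by rw [M.norm_L_one, mul_one]; exact NonUnitalStarAlgHom.norm_apply_le π a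

/-- the tracial state `τ ∘ π` -/
noncomputable def pull (M : TracialVN H) (π : A →⋆ₐ[ℂ] (H →L[ℂ] H)) (hπ : ∀ a, π a ∈ M.alg) :
    TracialState A :=
  ⟨LinearMap.mkContinuous
    { toFun := fun a => M.tr (π a)
      map_add' := fun a b => by rw [map_add, M.tr_add]
      map_smul' := fun c a => by rw [map_smul, M.tr_smul]; rfl } 1
      (fun a => by rw [one_mul]; exact M.norm_tr_apply_le π a), by
    refine ⟨fun a => ?_, ?_, fun a b => ?_⟩
    · change 0 ≤ M.tr (π (star a * a))
      rw [map_mul, map_star, ← M.norm_L_sq]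
      exact_mod_cast (sq_nonneg ‖M.L (π a)‖ : (0:ℝ) ≤ ‖M.L (π a)‖ ^ 2)
    · change M.tr (π 1) = 1
      rw [map_one, M.tr_one]
    · change M.tr (π (a * b)) = M.tr (π (b * a))
      rw [map_mul, map_mul, M.tr_comm (hπ a) (hπ b)]⟩

lemma pull_apply (M : TracialVN H) (π : A →⋆ₐ[ℂ] (H →L[ℂ] H)) (hπ : ∀ a, π a ∈ M.alg) (a : A) :
    (pull M π hπ).1 a = M.tr (π a) := rfl

/-- two homomorphisms into the same tracial von Neumann algebra give a coupling -/
noncomputable def pullCoupling (M : TracialVN H) (π ρ : A →⋆ₐ[ℂ] (H →L[ℂ] H))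
    (hπ : ∀ a, π a ∈ M.alg) (hρ : ∀ a, ρ a ∈ M.alg) : Coupling (pull M π hπ) (pull M ρ hρ) where
  H := H
  M := M
  α := π
  β := ρ
  hα := ⟨hπ, fun _ => rfl⟩
  hβ := ⟨hρ, fun _ => rfl⟩

/-- a coupling with the two homomorphisms and given traces -/
noncomputable def mkCoupling {φ ψ : TracialState A} (M : TracialVN H)
    (π ρ : A →⋆ₐ[ℂ] (H →L[ℂ] H))
    (hπ : ∀ a, π a ∈ M.alg) (hρ : ∀ a, ρ a ∈ M.alg) (h1 : ∀ a, M.tr (π a) = φ.1 a)
    (h2 : ∀ a, M.tr (ρ a) = ψ.1 a) : Coupling φ ψ where
  H := H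
  M := M
  α := π
  β := ρ
  hα := ⟨hπ, h1⟩
  hβ := ⟨hρ, h2⟩

variable {n : ℕ} {u : Fin n → Fin n → A}

lemma meet_self {p : H →L[ℂ] H} (hp : IsStarProjection p) : meet p p = p := by
  have h1 := mul_meet_of_le (p := p) (q := p) (e := p) hp.isIdempotentElem hp.isIdempotentElem
  have h2 := (mul_meet (p := p) (q := p) hp hp).1
  rw [h1] at h2
  exact h2.symm

lemma dWedge_self (hu : IsMagic n u) (hn : 0 < n) (M : TracialVN H) (π : A →⋆ₐ[ℂ] (H →L[ℂ] H))
    (hπ : ∀ a, π a ∈ M.alg) : dWedge u (pull M π hπ) (pull M π hπ) ≤ 0 := by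
  refine (iInf_le _ (pullCoupling M π π hπ hπ)).trans ?_
  have h := n_mul_costWedge hu hn (pullCoupling M π π hπ hπ)
  have h2 : ∀ i j, meet ((pullCoupling M π π hπ hπ).α (u i j))
      ((pullCoupling M π π hπ hπ).β (u i j)) = (pullCoupling M π π hπ hπ).α (u i j) := by
    intro i j
    exact meet_self (proj_map hu π i j)
  simp only [h2, sub_self, Finset.sum_const_zero] at h
  have hn' : (n : ℝ) ≠ 0 := by exact_mod_cast hn.ne'
  have h3 := (mul_eq_zero.mp h).resolve_left hn'
  rw [h3]
  simp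

lemma dOne_self (M : TracialVN H) (π : A →⋆ₐ[ℂ] (H →L[ℂ] H))
    (hπ : ∀ a, π a ∈ M.alg) : dOne u (pull M π hπ) (pull M π hπ) ≤ 0 := by
  refine (iInf_le _ (pullCoupling M π π hπ hπ)).trans ?_
  have h2 : ∀ i j, CFC.abs (((pullCoupling M π π hπ hπ).α (u i j)) -
      ((pullCoupling M π π hπ hπ).β (u i j))) = 0 := by
    intro i j
    change CFC.abs (π (u i j) - π (u i j)) = 0
    rw [sub_self, CFC.abs_zero]
  rw [costOne_eq]
  simp only [h2]
  have h3 : (pullCoupling M π π hπ hπ).M.tr 0 = 0 := TracialVN.tr_zero _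
  simp [h3]

lemma Coupling.α_eq_zero {φ ψ : TracialState A} (c : Coupling φ ψ) {x : A}
    (h : φ.1 (star x * x) = 0) : c.α x = 0 := by
  apply c.M.faithful _ (c.α_mem x)
  change c.M.tr _ = 0
  rw [← map_star, ← map_mul, c.α_tr, h]

lemma Coupling.β_eq_zero {φ ψ : TracialState A} (c : Coupling φ ψ) {x : A}
    (h : ψ.1 (star x * x) = 0) : c.β x = 0 := by
  apply c.M.faithful _ (c.β_mem x)
  change c.M.tr _ = 0
  rw [← map_star, ← map_mul, c.β_tr, h]

lemma pull_star_mul_self_eq_zero (M : TracialVN H) (π : A →⋆ₐ[ℂ] (H →L[ℂ] H))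
    (hπ : ∀ a, π a ∈ M.alg) {x : A} (h : π x = 0) : (pull M π hπ).1 (star x * x) = 0 := by
  rw [pull_apply, map_mul, h, mul_zero, M.tr_zero]

end Pull

end Helper45.QPerm
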