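import Mathlib

/-!
# Tracial states of the quantum permutation algebra: definitions

Definitions for the problem on the four topologies on the trace space of `C(S_n^+)`.
-/

open scoped InnerProductSpace ComplexOrder

namespace Helper45.QPerm

/-- A magic unitary of size `n` in a unital C*-algebra: every entry is a projection and all rows
and columns sum to `1`. -/
structure IsMagic {B : Type*} [CStarAlgebra B] (n : ℕ) (v : Fin n → Fin n → B) : Prop where
  proj : ∀ i j, IsStarProjection (v i j)
  row : ∀ i, ∑ k, v i k = 1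
  col : ∀ j, ∑ k, v k j = 1

/-- `(A, u)` is the universal unital C*-algebra `C(S_n^+)` generated by the entries of an
`n × n` magic unitary `u`. -/
structure IsQuantumPermutationAlgebra (n : ℕ) (A : Type) [CStarAlgebra A]
    (u : Fin n → Fin n → A) : Prop where
  magic : IsMagic n u
  universal : ∀ (B : Type) [CStarAlgebra B] (v : Fin n → Fin n → B), IsMagic n v →
    ∃! f : A →⋆ₐ[ℂ] B, ∀ i j, f (u i j) = v i j

/-- `φ` is a tracial state: positive, unital and tracial. -/
abbrev IsTracialState {A : Type} [CStarAlgebra A] (φ : StrongDual ℂ A) : Prop :=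
  (∀ a, 0 ≤ φ (star a * a)) ∧ φ 1 = 1 ∧ ∀ a b, φ (a * b) = φ (b * a)

/-- Tracial states of a unital C*-algebra, as elements of the norm dual. -/
@[ext] structure TracialState (A : Type) [CStarAlgebra A] : Type where
  toDual : StrongDual ℂ A
  prop : IsTracialState toDual

/-- The functional `x ↦ ∑ₖ ⟨ξₖ, x ξₖ⟩` on the bounded operators of a Hilbert space. -/
noncomputable def vecFunctional {H : Type} [NormedAddCommGroup H] [InnerProductSpace ℂ H]
    (ξ : ℕ → H) (x : H →L[ℂ] H) : ℂ := ∑' k, ⟪ξ k, x (ξ k)⟫_ℂ

/-- The functional given by `ξ` is tracial on the von Neumann algebra `S`. -/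
def IsTracialOn {H : Type} [NormedAddCommGroup H] [InnerProductSpace ℂ H] [CompleteSpace H]
    (S : VonNeumannAlgebra H) (ξ : ℕ → H) : Prop :=
  ∀ x ∈ S, ∀ y ∈ S, vecFunctional ξ (x * y) = vecFunctional ξ (y * x)

/-- The functional given by `ξ` is faithful on the von Neumann algebra `S`. -/
def IsFaithfulOn {H : Type} [NormedAddCommGroup H] [InnerProductSpace ℂ H] [CompleteSpace H]
    (S : VonNeumannAlgebra H) (ξ : ℕ → H) : Prop :=
  ∀ x ∈ S, vecFunctional ξ (star x * x) = 0 → x = 0

/-- A von Neumann algebra `alg ⊆ B(H)` together with a faithful normal tracial state `tr`.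
The normal positive functionals on a von Neumann algebra in `B(H)` are exactly the restrictions
of the functionals `x ↦ ∑ₖ ⟨ξₖ, x ξₖ⟩` with `∑ₖ ‖ξₖ‖² < ∞`; the state is recorded by such a
sequence `vec` of vectors. -/
structure TracialVN (H : Type) [NormedAddCommGroup H] [InnerProductSpace ℂ H]
    [CompleteSpace H] where
  alg : VonNeumannAlgebra H
  vec : ℕ → H
  summable_vec : Summable fun k => ‖vec k‖ ^ 2
  unital : vecFunctional vec 1 = 1
  tracial : IsTracialOn alg vec
  faithful : IsFaithfulOn alg vec

/-- The faithful normal tracial state of `M` (it is applied to elements of `M.alg`). -/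
noncomputable def TracialVN.tr {H : Type} [NormedAddCommGroup H] [InnerProductSpace ℂ H]
    [CompleteSpace H] (M : TracialVN H) (x : H →L[ℂ] H) : ℂ := vecFunctional M.vec x

/-- Unital *-homomorphisms from `A` to the bounded operators on `H`. -/
abbrev Rep (A H : Type) [CStarAlgebra A] [NormedAddCommGroup H] [InnerProductSpace ℂ H]
    [CompleteSpace H] : Type := A →⋆ₐ[ℂ] (H →L[ℂ] H)

/-- `π` is a unital *-homomorphism from `A` to the von Neumann algebra of `M` under which the
trace of `M` pulls back to `φ`. -/
def TracialVN.Represents {A H : Type} [CStarAlgebra A] [NormedAddCommGroup H]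
    [InnerProductSpace ℂ H] [CompleteSpace H] (M : TracialVN H) (φ : TracialState A)
    (π : Rep A H) : Prop :=
  (∀ a, π a ∈ M.alg) ∧ ∀ a, M.tr (π a) = φ.toDual a

/-- A tracial coupling of two tracial states. -/
structure Coupling {A : Type} [CStarAlgebra A] (φ ψ : TracialState A) where
  H : Type
  [normed : NormedAddCommGroup H]
  [inner : InnerProductSpace ℂ H]
  [complete : CompleteSpace H]
  M : TracialVN H
  α : Rep A H
  β : Rep A H
  hα : M.Represents φ α
  hβ : M.Represents ψ β

attribute [instance] Coupling.normed Coupling.inner Coupling.complete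

/-- The meet `p ∧ q`: the orthogonal projection onto the intersection of the ranges of `p` and
`q` (for projections `p, q` the intersection is closed, so the closure changes nothing). -/
noncomputable def meet {H : Type} [NormedAddCommGroup H] [InnerProductSpace ℂ H]
    [CompleteSpace H] (p q : H →L[ℂ] H) : H →L[ℂ] H :=
  (LinearMap.range (p : H →ₗ[ℂ] H) ⊓ LinearMap.range (q : H →ₗ[ℂ] H)).topologicalClosure.starProjection

/-- `|x| = (x* x)^(1/2)` in a unital C*-algebra with its order. -/
noncomputable def cAbs {B : Type} [CStarAlgebra B] [PartialOrder B] [StarOrderedRing B]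
    (x : B) : B := CFC.abs x

/-- `|x|` for a bounded operator `x`. -/
noncomputable def opAbs {H : Type} [NormedAddCommGroup H] [InnerProductSpace ℂ H]
    [CompleteSpace H] (x : H →L[ℂ] H) : H →L[ℂ] H := cAbs x

/-- `τ(π(a) ∧ ρ(a))`, where `τ` is the trace of `M`. -/
noncomputable def TracialVN.meetTr {A H : Type} [CStarAlgebra A] [NormedAddCommGroup H]
    [InnerProductSpace ℂ H] [CompleteSpace H] (M : TracialVN H) (π ρ : Rep A H) (a : A) : ℝ :=
  (M.tr (meet (π a) (ρ a))).re

/-- `‖π(a) - ρ(a)‖_{L¹(M,τ)} = τ(|π(a) - ρ(a)|)`, where `τ` is the trace of `M`. -/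
noncomputable def TracialVN.absTr {A H : Type} [CStarAlgebra A] [NormedAddCommGroup H]
    [InnerProductSpace ℂ H] [CompleteSpace H] (M : TracialVN H) (π ρ : Rep A H) (a : A) : ℝ :=
  (M.tr (opAbs (π a - ρ a))).re

/-- The quantity `1 - (1/n) ∑ τ(α₁(u_ij) ∧ α₂(u_ij))` of a coupling. -/
noncomputable def costWedge {n : ℕ} {A : Type} [CStarAlgebra A] (u : Fin n → Fin n → A)
    {φ ψ : TracialState A} (c : Coupling φ ψ) : ℝ :=
  1 - (1 / n : ℝ) * ∑ i, ∑ j, c.M.meetTr c.α c.β (u i j)

/-- The quantity `(1/n) ∑ (1/2) ‖α₁(u_ij) - α₂(u_ij)‖_{L¹}` of a coupling. -/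
noncomputable def costOne {n : ℕ} {A : Type} [CStarAlgebra A] (u : Fin n → Fin n → A)
    {φ ψ : TracialState A} (c : Coupling φ ψ) : ℝ :=
  (1 / n : ℝ) * ∑ i, ∑ j, (1 / 2 : ℝ) * c.M.absTr c.α c.β (u i j)

/-- The distance `d_∧` (infimum over all tracial couplings). -/
noncomputable def dWedge {n : ℕ} {A : Type} [CStarAlgebra A] (u : Fin n → Fin n → A)
    (φ ψ : TracialState A) : EReal := ⨅ c : Coupling φ ψ, (costWedge u c : EReal)

/-- The distance `d₁` (infimum over all tracial couplings). -/
noncomputable def dOne {n : ℕ} {A : Type} [CStarAlgebra A] (u : Fin n → Fin n → A)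
    (φ ψ : TracialState A) : EReal := ⨅ c : Coupling φ ψ, (costOne u c : EReal)

/-- The total variation distance `(1/2) ‖φ - ψ‖`. -/
noncomputable def dTV {A : Type} [CStarAlgebra A] (φ ψ : TracialState A) : EReal :=
  ((1 / 2 * ‖φ.toDual - ψ.toDual‖ : ℝ) : EReal)

/-- The topology of a distance function `d`: a set is open iff with each of its points it
contains a `d`-ball around that point. -/
def distTopology {X : Type} (d : X → X → EReal) : TopologicalSpace X where
  IsOpen U := ∀ x ∈ U, ∃ ε : ℝ, 0 < ε ∧ ∀ y, d x y < ε → y ∈ U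
  isOpen_univ := fun _ _ => ⟨1, one_pos, fun _ _ => trivial⟩
  isOpen_inter := by
    intro s t hs ht x hx
    obtain ⟨e, he, h⟩ := hs x hx.1
    obtain ⟨e', he', h'⟩ := ht x hx.2
    refine ⟨min e e', lt_min he he', fun y hy => ⟨h y (lt_of_lt_of_le hy ?_), h' y (lt_of_lt_of_le hy ?_)⟩⟩
    · exact_mod_cast min_le_left e e'
    · exact_mod_cast min_le_right e e'
  isOpen_sUnion := by
    intro s hs x hx
    obtain ⟨t, ht, hxt⟩ := hx
    obtain ⟨e, he, h⟩ := hs t ht x hxt
    exact ⟨e, he, fun y hy => ⟨t, ht, h y hy⟩⟩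

/-- `𝒪₁`: the weak-* topology. -/
noncomputable def topWeak (A : Type) [CStarAlgebra A] : TopologicalSpace (TracialState A) :=
  TopologicalSpace.induced (fun φ : TracialState A => fun a : A => φ.toDual a) inferInstance

/-- `𝒪₂`: the topology of `d₁`. -/
noncomputable def topOne {n : ℕ} {A : Type} [CStarAlgebra A] (u : Fin n → Fin n → A) :
    TopologicalSpace (TracialState A) := distTopology (dOne u)

/-- `𝒪₃`: the topology of `d_∧`. -/
noncomputable def topWedge {n : ℕ} {A : Type} [CStarAlgebra A] (u : Fin n → Fin n → A) :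
    TopologicalSpace (TracialState A) := distTopology (dWedge u)

/-- `𝒪₄`: the total variation topology. -/
noncomputable def topTV (A : Type) [CStarAlgebra A] : TopologicalSpace (TracialState A) :=
  distTopology (dTV (A := A))

end Helper45.QPerm
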