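import Mathlib

open MeasureTheory Topology

namespace Helper45.QPerm

section Density

variable {K : Type*} [MetricSpace K] [CompactSpace K] [MeasurableSpace K] [BorelSpace K]

lemma integrable_cont {E : Type*} [NormedAddCommGroup E] {X : Type*} [TopologicalSpace X]
    [CompactSpace X] [MeasurableSpace X] [OpensMeasurableSpace X] (μ : Measure X)
    [IsFiniteMeasure μ] [SecondCountableTopologyEither X E] {f : X → E}
    (hf : Continuous f) : Integrable f μ :=
  hf.integrable_of_hasCompactSupport (HasCompactSupport.of_compactSpace f)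

/-- A coupling density. -/
lemma exists_density {ι : Type*} [Fintype ι] (f : ι → K → ℝ) (hfc : ∀ i, Continuous (f i))
    (hf0 : ∀ i x, 0 ≤ f i x) (hf1 : ∀ x, ∑ i, f i x = 1) {δ D κ : ℝ} (hδ : 0 ≤ δ)
    (hfd : ∀ i x y, f i x ≠ 0 → f i y ≠ 0 → dist x y ≤ δ) (hD : ∀ x y : K, dist x y ≤ D)
    (hκ : 0 < κ) (hκ1 : κ ≤ 1) (μ ν : Measure K) [IsProbabilityMeasure μ] [IsProbabilityMeasure ν]
    (hμν : ∑ i, |∫ x, f i x ∂μ - ∫ x, f i x ∂ν| ≤ κ) :
    ∃ ρ : K × K → ℝ, Continuous ρ ∧ (∀ p, 0 ≤ ρ p) ∧ (∀ x, ∫ y, ρ (x, y) ∂ν = 1) ∧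
      (∀ y, ∫ x, ρ (x, y) ∂μ = 1) ∧
      ∫ p, dist p.1 p.2 ^ 2 * ρ p ∂(μ.prod ν) ≤ δ ^ 2 + D ^ 2 * κ := by
  set a : ι → ℝ := fun i => ∫ x, f i x ∂μ with ha
  set b : ι → ℝ := fun i => ∫ x, f i x ∂ν with hb
  have ha0 : ∀ i, 0 ≤ a i := fun i => integral_nonneg fun x => hf0 i x
  have hb0 : ∀ i, 0 ≤ b i := fun i => integral_nonneg fun x => hf0 i x
  have hint : ∀ i, Integrable (f i) μ := fun i => integrable_cont μ (hfc i)
  have hint' : ∀ i, Integrable (f i) ν := fun i => integrable_cont ν (hfc i)
  have ha1 : ∑ i, a i = 1 := by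
    simp only [ha]
    rw [← integral_finsetSum _ (fun i _ => hint i)]
    simp [hf1]
  have hb1 : ∑ i, b i = 1 := by
    simp only [hb]
    rw [← integral_finsetSum _ (fun i _ => hint' i)]
    simp [hf1]
  set m : ι → ℝ := fun i => (1 - κ / 2) * min (a i) (b i) with hm
  have hm0 : ∀ i, 0 ≤ m i := fun i => mul_nonneg (by linarith) (le_min (ha0 i) (hb0 i))
  have hma : ∀ i, m i ≤ a i := fun i => by
    have h1 : 0 ≤ min (a i) (b i) := le_min (ha0 i) (hb0 i)
    have h2 := min_le_left (a i) (b i)
    simp only [hm]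
    nlinarith
  have hmb : ∀ i, m i ≤ b i := fun i => by
    have h1 : 0 ≤ min (a i) (b i) := le_min (ha0 i) (hb0 i)
    have h2 := min_le_right (a i) (b i)
    simp only [hm]
    nlinarith
  set r : ℝ := 1 - ∑ i, m i with hr
  have hmin : ∑ i, min (a i) (b i) = 1 - (∑ i, |a i - b i|) / 2 := by
    have : ∀ i, min (a i) (b i) = (a i + b i - |a i - b i|) / 2 := by
      intro i
      rcases le_total (a i) (b i) with h | h
      · rw [min_eq_left h, abs_of_nonpos (by linarith)]; ring
      · rw [min_eq_right h, abs_of_nonneg (by linarith)]; ring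
    simp only [this]
    rw [← Finset.sum_div, Finset.sum_sub_distrib, Finset.sum_add_distrib, ha1, hb1]
    ring
  have hmin1 : ∑ i, min (a i) (b i) ≤ 1 := by
    rw [hmin]
    have : 0 ≤ ∑ i, |a i - b i| := Finset.sum_nonneg fun i _ => abs_nonneg _
    linarith
  have hmsum : ∑ i, m i = (1 - κ / 2) * ∑ i, min (a i) (b i) := by
    simp only [hm]
    rw [Finset.mul_sum]
  have hr1 : κ / 2 ≤ r := by
    rw [hr, hmsum]
    nlinarith
  have hr0 : 0 < r := by linarith
  have hr2 : r ≤ κ := by
    rw [hr, hmsum, hmin]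
    nlinarith
  set g : ι → ℝ := fun i => m i / a i with hg
  set g' : ι → ℝ := fun i => m i / b i with hg'
  set c : ι → ℝ := fun i => m i / (a i * b i) with hc
  have hg0 : ∀ i, 0 ≤ g i := fun i => div_nonneg (hm0 i) (ha0 i)
  have hg'0 : ∀ i, 0 ≤ g' i := fun i => div_nonneg (hm0 i) (hb0 i)
  have hc0 : ∀ i, 0 ≤ c i := fun i => div_nonneg (hm0 i) (mul_nonneg (ha0 i) (hb0 i))
  have hg1 : ∀ i, g i ≤ 1 := fun i => div_le_one_of_le₀ (hma i) (ha0 i)
  have hg'1 : ∀ i, g' i ≤ 1 := fun i => div_le_one_of_le₀ (hmb i) (hb0 i)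
  have hga : ∀ i, g i * a i = m i := by
    intro i
    rcases (ha0 i).eq_or_lt with h | h
    · have : m i = 0 := le_antisymm (h ▸ hma i) (hm0 i)
      rw [← h, mul_zero, this]
    · exact div_mul_cancel₀ _ h.ne'
  have hg'b : ∀ i, g' i * b i = m i := by
    intro i
    rcases (hb0 i).eq_or_lt with h | h
    · have : m i = 0 := le_antisymm (h ▸ hmb i) (hm0 i)
      rw [← h, mul_zero, this]
    · exact div_mul_cancel₀ _ h.ne'
  have hcb : ∀ i, c i * b i = g i := by
    intro i
    rcases (hb0 i).eq_or_lt with h | h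
    · have h2 : m i = 0 := le_antisymm (h ▸ hmb i) (hm0 i)
      simp only [hg, h2, zero_div, ← h, mul_zero]
    · simp only [hc, hg]
      rw [div_mul_eq_mul_div, mul_div_mul_right _ _ h.ne']
  have hca : ∀ i, c i * a i = g' i := by
    intro i
    rcases (ha0 i).eq_or_lt with h | h
    · have h2 : m i = 0 := le_antisymm (h ▸ hma i) (hm0 i)
      simp only [hg', h2, zero_div, ← h, mul_zero]
    · simp only [hc, hg']
      rw [div_mul_eq_mul_div, mul_comm (a i) (b i), mul_div_mul_right _ _ h.ne']
  set G : K → ℝ := fun x => ∑ i, g i * f i x with hG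
  set G' : K → ℝ := fun x => ∑ i, g' i * f i x with hG'
  have hGc : Continuous G := by
    simp only [hG]
    exact continuous_finsetSum _ fun i _ => continuous_const.mul (hfc i)
  have hG'c : Continuous G' := by
    simp only [hG']
    exact continuous_finsetSum _ fun i _ => continuous_const.mul (hfc i)
  have hG1 : ∀ x, G x ≤ 1 := by
    intro x
    rw [← hf1 x]
    exact Finset.sum_le_sum fun i _ => mul_le_of_le_one_left (hf0 i x) (hg1 i)
  have hG'1 : ∀ x, G' x ≤ 1 := by
    intro x
    rw [← hf1 x]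
    exact Finset.sum_le_sum fun i _ => mul_le_of_le_one_left (hf0 i x) (hg'1 i)
  have hGi : ∫ x, (1 - G x) ∂μ = r := by
    rw [integral_sub (integrable_const _) (integrable_cont μ hGc)]
    simp only [hG]
    rw [integral_finsetSum _ (fun i _ => (hint i).const_mul _)]
    simp only [integral_const_mul]
    have : ∑ i, g i * ∫ x, f i x ∂μ = ∑ i, m i := Finset.sum_congr rfl fun i _ => hga i
    rw [this]
    simp [hr]
  have hG'i : ∫ x, (1 - G' x) ∂ν = r := by
    rw [integral_sub (integrable_const _) (integrable_cont ν hG'c)]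
    simp only [hG']
    rw [integral_finsetSum _ (fun i _ => (hint' i).const_mul _)]
    simp only [integral_const_mul]
    have : ∑ i, g' i * ∫ x, f i x ∂ν = ∑ i, m i := Finset.sum_congr rfl fun i _ => hg'b i
    rw [this]
    simp [hr]
  refine ⟨fun p => ∑ i, c i * (f i p.1 * f i p.2) + r⁻¹ * ((1 - G p.1) * (1 - G' p.2)),
    ?_, ?_, ?_, ?_, ?_⟩
  · refine Continuous.add (continuous_finsetSum _ fun i _ => continuous_const.mul
      (((hfc i).comp continuous_fst).mul ((hfc i).comp continuous_snd))) ?_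
    exact continuous_const.mul ((continuous_const.sub (hGc.comp continuous_fst)).mul
      (continuous_const.sub (hG'c.comp continuous_snd)))
  · intro p
    refine add_nonneg (Finset.sum_nonneg fun i _ => mul_nonneg (hc0 i)
      (mul_nonneg (hf0 i _) (hf0 i _))) (mul_nonneg (inv_nonneg.mpr hr0.le) (mul_nonneg ?_ ?_))
    · linarith [hG1 p.1]
    · linarith [hG'1 p.2]
  · intro x
    simp only
    rw [integral_add]
    · rw [integral_finsetSum _ (fun i _ => ((hint' i).const_mul _).const_mul _)]
      simp only [integral_const_mul]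
      rw [hG'i]
      have : ∑ i, c i * (f i x * ∫ y, f i y ∂ν) = G x := by
        simp only [hG]
        refine Finset.sum_congr rfl fun i _ => ?_
        rw [← hcb i]
        change c i * (f i x * b i) = _
        ring
      rw [this]
      field_simp
      ring
    · exact integrable_finsetSum _ fun i _ => ((hint' i).const_mul _).const_mul _
    · exact (((integrable_const _).sub (integrable_cont ν hG'c)).const_mul _).const_mul _
  · intro y
    simp only
    rw [integral_add]
    · rw [integral_finsetSum _ (fun i _ => ((hint i).mul_const _).const_mul _)]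
      simp only [integral_const_mul, integral_mul_const]
      rw [hGi]
      have : ∑ i, c i * ((∫ x, f i x ∂μ) * f i y) = G' y := by
        simp only [hG']
        refine Finset.sum_congr rfl fun i _ => ?_
        rw [← hca i]
        change c i * (a i * f i y) = _
        ring
      rw [this]
      field_simp
      ring
    · exact integrable_finsetSum _ fun i _ => ((hint i).mul_const _).const_mul _
    · exact (((integrable_const _).sub (integrable_cont μ hGc)).mul_const _).const_mul _
  · have hle : ∀ p : K × K, dist p.1 p.2 ^ 2 *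
        (∑ i, c i * (f i p.1 * f i p.2) + r⁻¹ * ((1 - G p.1) * (1 - G' p.2))) ≤
        ∑ i, (δ ^ 2 * c i) * (f i p.1 * f i p.2) +
          (D ^ 2 * r⁻¹) * ((1 - G p.1) * (1 - G' p.2)) := by
      intro p
      rw [mul_add, Finset.mul_sum]
      refine add_le_add (Finset.sum_le_sum fun i _ => ?_) ?_
      · by_cases h1 : f i p.1 = 0
        · simp [h1]
        by_cases h2 : f i p.2 = 0
        · simp [h2]
        have h3 := hfd i p.1 p.2 h1 h2
        have h4 : dist p.1 p.2 ^ 2 ≤ δ ^ 2 := pow_le_pow_left₀ dist_nonneg h3 2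
        rw [mul_assoc]
        exact mul_le_mul_of_nonneg_right h4 (mul_nonneg (hc0 i) (mul_nonneg (hf0 i _) (hf0 i _)))
      · have h4 : dist p.1 p.2 ^ 2 ≤ D ^ 2 := pow_le_pow_left₀ dist_nonneg (hD _ _) 2
        rw [mul_assoc]
        refine mul_le_mul_of_nonneg_right h4 (mul_nonneg (inv_nonneg.mpr hr0.le)
          (mul_nonneg ?_ ?_))
        · linarith [hG1 p.1]
        · linarith [hG'1 p.2]
    have hi1 : ∀ i, Integrable (fun p : K × K => (δ ^ 2 * c i) * (f i p.1 * f i p.2))
        (μ.prod ν) := fun i => ((hint i).mul_prod (hint' i)).const_mul _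
    have hi2 : Integrable (fun p : K × K => (D ^ 2 * r⁻¹) * ((1 - G p.1) * (1 - G' p.2)))
        (μ.prod ν) :=
      (((integrable_const _).sub (integrable_cont μ hGc)).mul_prod
        ((integrable_const _).sub (integrable_cont ν hG'c))).const_mul _
    refine (integral_mono (integrable_cont _ ?_)
      ((integrable_finsetSum _ fun i _ => hi1 i).add hi2) hle).trans ?_
    · refine (continuous_dist.pow 2).mul (Continuous.add (continuous_finsetSum _ fun i _ =>
        continuous_const.mul
        (((hfc i).comp continuous_fst).mul ((hfc i).comp continuous_snd))) ?_)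
      exact continuous_const.mul ((continuous_const.sub (hGc.comp continuous_fst)).mul
        (continuous_const.sub (hG'c.comp continuous_snd)))
    have e0 : ∫ p : K × K, (∑ i, (δ ^ 2 * c i) * (f i p.1 * f i p.2) +
        (D ^ 2 * r⁻¹) * ((1 - G p.1) * (1 - G' p.2))) ∂(μ.prod ν) =
        ∑ i, (δ ^ 2 * c i) * (a i * b i) + (D ^ 2 * r⁻¹) * (r * r) := by
      rw [integral_add (integrable_finsetSum _ fun i _ => hi1 i) hi2,
        integral_finsetSum _ (fun i _ => hi1 i)]
      congr 1
      · refine Finset.sum_congr rfl fun i _ => ?_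
        rw [integral_const_mul, integral_prod_mul (f i) (f i)]
      · rw [integral_const_mul, integral_prod_mul (fun x => 1 - G x) (fun x => 1 - G' x), hGi, hG'i]
    refine e0.le.trans ?_
    have e1 : ∑ i, (δ ^ 2 * c i) * (a i * b i) = δ ^ 2 * ∑ i, m i := by
      rw [Finset.mul_sum]
      refine Finset.sum_congr rfl fun i _ => ?_
      rw [← hga i, ← hcb i]
      ring
    have e2 : (D ^ 2 * r⁻¹) * (r * r) = D ^ 2 * r := by
      field_simp
    rw [e1, e2]
    have e3 : ∑ i, m i ≤ 1 := by
      rw [hmsum]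
      have : 0 ≤ ∑ i, min (a i) (b i) := Finset.sum_nonneg fun i _ => le_min (ha0 i) (hb0 i)
      nlinarith
    nlinarith [sq_nonneg δ, sq_nonneg D]

end Density

end Helper45.QPerm
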