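import Pool.Agent.Helper45.QPerm.Angle

open scoped InnerProductSpace ComplexOrder ENNReal Topology

namespace Helper45.QPerm

/-! ### Cyclic shift inside blocks of length `K` -/

section Cyc

variable (K : ℕ) [NeZero K]

/-- cyclic shift inside the blocks `[qK, (q+1)K)` of `ℤ` -/
def cyc : Equiv.Perm ℤ :=
  (Int.divModEquiv K).symm.permCongr (Equiv.prodCongr (Equiv.refl ℤ) (Equiv.addRight (1 : Fin K)))

lemma cyc_apply (i : ℤ) : cyc K i =
    (Int.divModEquiv K).symm ((Int.divModEquiv K i).1, (Int.divModEquiv K i).2 + 1) := rfl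

lemma cyc_pow : (cyc K) ^ K = 1 := by
  have h1 : ∀ e : Equiv.Perm (ℤ × Fin K), ∀ k : ℕ,
      ((Int.divModEquiv K).symm.permCongr e) ^ k = (Int.divModEquiv K).symm.permCongr (e ^ k) := by
    intro e k
    exact (map_pow ((Int.divModEquiv K).symm.permCongrHom) e k).symm
  unfold cyc
  rw [h1]
  have h2 : ∀ k : ℕ, (Equiv.prodCongr (Equiv.refl ℤ) (Equiv.addRight (1 : Fin K))) ^ k =
      (Equiv.prodCongr (Equiv.refl ℤ) (Equiv.addRight ((k • (1 : Fin K)) : Fin K)) :
        Equiv.Perm (ℤ × Fin K)) := by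
    intro k
    induction k with
    | zero =>
      ext x
      · rfl
      · simp
    | succ k ih =>
      rw [pow_succ, ih]
      ext x
      · rfl
      · simp [succ_nsmul, add_assoc, add_comm]
  rw [h2]
  have h3 : (K • (1 : Fin K)) = 0 := by
    have h4 := card_nsmul_eq_zero (x := (1 : Fin K))
    rwa [Fintype.card_fin] at h4
  rw [h3]
  ext x
  change (Int.divModEquiv K).symm ((Int.divModEquiv K x).1, (Int.divModEquiv K x).2 + 0) = x
  rw [add_zero]
  exact (Int.divModEquiv K).symm_apply_apply x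

lemma divMod_add (i g : ℤ) : Int.divModEquiv K (i + K * g) =
    ((Int.divModEquiv K i).1 + g, (Int.divModEquiv K i).2) := by
  rw [← Equiv.eq_symm_apply]
  conv_lhs => rw [← (Int.divModEquiv K).symm_apply_apply i]
  simp only [Int.divModEquiv_symm_apply]
  ring

lemma cyc_add (i g : ℤ) : cyc K (i + K * g) = cyc K i + K * g := by
  rw [cyc_apply, cyc_apply, divMod_add]
  simp only [Int.divModEquiv_symm_apply]
  ring

/-- the exceptional residue class -/
def exc : Set ℤ := {i | (Int.divModEquiv K i).2 + 1 = 0}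

lemma cyc_eq_of_not_exc {i : ℤ} (h : i ∉ exc K) : cyc K i = i + 1 := by
  rw [cyc_apply]
  conv_rhs => rw [← (Int.divModEquiv K).symm_apply_apply i]
  simp only [Int.divModEquiv_symm_apply]
  have h1 : (((Int.divModEquiv K i).2 + 1 : Fin K) : ℕ) = ((Int.divModEquiv K i).2 : ℕ) + 1 := by
    have h2 : (Int.divModEquiv K i).2 + 1 ≠ 0 := h
    obtain ⟨k, hk⟩ := Nat.exists_eq_succ_of_ne_zero (NeZero.ne K)
    subst hk
    rw [Fin.val_add_one]
    split_ifs with h3
    · exfalso
      apply h2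
      rw [h3]
      exact Fin.last_add_one k
    · rfl
  rw [h1]
  push_cast
  ring

lemma exc_add (i g : ℤ) : i + K * g ∈ exc K ↔ i ∈ exc K := by
  unfold exc
  rw [Set.mem_ofPred_eq, Set.mem_ofPred_eq, divMod_add]

/-- image of the exceptional class -/
lemma cyc_mem_iff (i : ℤ) : cyc K i ∈ {j : ℤ | (Int.divModEquiv K j).2 = 0} ↔ i ∈ exc K := by
  rw [Set.mem_ofPred_eq, cyc_apply, Equiv.apply_symm_apply]
  rfl

lemma succ_mem_iff (i : ℤ) : i + 1 ∈ {j : ℤ | (Int.divModEquiv K j).2 = 0} ↔ i ∈ exc K := by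
  by_cases h : i ∈ exc K
  · simp only [h, iff_true, Set.mem_ofPred_eq]
    have h1 : (Int.divModEquiv K i).2 + 1 = 0 := h
    have h2 : i + 1 = (Int.divModEquiv K).symm ((Int.divModEquiv K i).1 + 1, 0) := by
      conv_lhs => rw [← (Int.divModEquiv K).symm_apply_apply i]
      simp only [Int.divModEquiv_symm_apply]
      have h3 : ((Int.divModEquiv K i).2 : ℕ) + 1 = K := by
        obtain ⟨k, hk⟩ := Nat.exists_eq_succ_of_ne_zero (NeZero.ne K)
        subst hk
        have h4 : (Int.divModEquiv (k + 1) i).2 = Fin.last k := by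
          rw [← Fin.last_add_one k] at h1
          exact add_right_cancel h1
        rw [h4]
        rfl
      have h5 : (((Int.divModEquiv K i).2 : ℕ) : ℤ) + 1 = K := by exact_mod_cast h3
      have h6 : (((0 : Fin K) : ℕ) : ℤ) = 0 := by simp
      rw [h6]
      linear_combination h5
    rw [h2, Equiv.apply_symm_apply]
  · rw [← cyc_eq_of_not_exc K h, cyc_mem_iff]

end Cyc

/-! ### The permutations of `ℤ × Bool` -/

abbrev ZB : Type := ℤ × Bool

/-- the involution `(i, b) ↦ (i, !b)` -/
def sP : Equiv.Perm ZB where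
  toFun x := (x.1, !x.2)
  invFun x := (x.1, !x.2)
  left_inv x := by simp
  right_inv x := by simp

/-- the involution `(i, true) ↔ (τ i, false)` -/
def rP (τ : Equiv.Perm ℤ) : Equiv.Perm ZB where
  toFun x := match x.2 with
    | true => (τ x.1, false)
    | false => (τ.symm x.1, true)
  invFun x := match x.2 with
    | true => (τ x.1, false)
    | false => (τ.symm x.1, true)
  left_inv := by rintro ⟨i, b⟩; cases b <;> simp
  right_inv := by rintro ⟨i, b⟩; cases b <;> simp

@[simp] lemma sP_apply (i : ℤ) (b : Bool) : sP (i, b) = (i, !b) := rfl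
@[simp] lemma rP_true (τ : Equiv.Perm ℤ) (i : ℤ) : rP τ (i, true) = (τ i, false) := rfl
@[simp] lemma rP_false (τ : Equiv.Perm ℤ) (i : ℤ) : rP τ (i, false) = (τ.symm i, true) := rfl

lemma sP_mul_self : sP * sP = 1 := by
  ext ⟨i, b⟩ <;> simp

lemma rP_mul_self (τ : Equiv.Perm ℤ) : rP τ * rP τ = 1 := by
  ext ⟨i, b⟩ <;> cases b <;> simp

lemma sr_pow (τ : Equiv.Perm ℤ) (k : ℕ) (i : ℤ) :
    ((sP * rP τ) ^ k) (i, true) = ((τ ^ k) i, true) ∧
    ((sP * rP τ) ^ k) (i, false) = ((τ⁻¹ ^ k) i, false) := by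
  induction k generalizing i with
  | zero => simp
  | succ k ih =>
    constructor
    · rw [pow_succ, Equiv.Perm.mul_apply, Equiv.Perm.mul_apply, rP_true, sP_apply, pow_succ,
        Equiv.Perm.mul_apply]
      exact (ih (τ i)).1
    · rw [pow_succ, Equiv.Perm.mul_apply, Equiv.Perm.mul_apply, rP_false, sP_apply, pow_succ,
        Equiv.Perm.mul_apply]
      exact (ih (τ.symm i)).2

lemma sr_pow_eq_one {τ : Equiv.Perm ℤ} {k : ℕ} (h : τ ^ k = 1) : (sP * rP τ) ^ k = 1 := by
  ext1 ⟨i, b⟩
  cases b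
  · rw [(sr_pow τ k i).2, inv_pow, h, inv_one]; rfl
  · rw [(sr_pow τ k i).1, h]; rfl

/-- translation -/
def trP (j : ℤ) : Equiv.Perm ZB where
  toFun x := (x.1 + j, x.2)
  invFun x := (x.1 - j, x.2)
  left_inv x := by simp
  right_inv x := by simp

@[simp] lemma trP_apply (j i : ℤ) (b : Bool) : trP j (i, b) = (i + j, b) := rfl

/-- translation action by multiples of `K` -/
def trHom (K : ℕ) : Multiplicative ℤ →* Equiv.Perm ZB where
  toFun g := trP (K * g.toAdd)
  map_one' := by ext ⟨i, b⟩ <;> simp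
  map_mul' := by
    intro g h
    ext ⟨i, b⟩
    · simp [mul_add]; ring
    · simp

lemma trHom_apply (K : ℕ) (g : Multiplicative ℤ) : trHom K g = trP (K * g.toAdd) := rfl

/-- the reflection -/
def flP (j : ℤ) : Equiv.Perm ZB where
  toFun x := (j - x.1, !x.2)
  invFun x := (j - x.1, !x.2)
  left_inv x := by simp
  right_inv x := by simp

@[simp] lemma flP_apply (j i : ℤ) (b : Bool) : flP j (i, b) = (j - i, !b) := rfl

/-- the successor -/
def suc : Equiv.Perm ℤ := Equiv.addRight 1

lemma suc_apply (i : ℤ) : suc i = i + 1 := rfl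
lemma suc_symm_apply (i : ℤ) : suc.symm i = i - 1 := rfl

lemma trP_sP (j : ℤ) : trP j * sP = sP * trP j := by
  ext ⟨i, b⟩ <;> simp

lemma flP_sP (j : ℤ) : flP j * sP = sP * flP j := by
  ext ⟨i, b⟩ <;> simp

lemma trP_rP {τ : Equiv.Perm ℤ} {j : ℤ} (h : ∀ i, τ (i + j) = τ i + j) :
    trP j * rP τ = rP τ * trP j := by
  have h' : ∀ i, τ.symm (i + j) = τ.symm i + j := by
    intro i
    rw [Equiv.symm_apply_eq, h, Equiv.apply_symm_apply]
  ext1 ⟨i, b⟩
  cases b
  · simp [h']
  · simp [h]

lemma flP_rP (j : ℤ) : flP j * rP suc = rP suc * flP j := by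
  ext1 ⟨i, b⟩
  cases b
  · simp [suc_apply, suc_symm_apply]
    ring
  · simp [suc_apply, suc_symm_apply]
    ring

lemma suc_pow (k : ℕ) (i : ℤ) : (suc ^ k) i = i + k := by
  induction k generalizing i with
  | zero => simp
  | succ k ih =>
    rw [pow_succ, Equiv.Perm.mul_apply, ih, suc_apply]
    push_cast; ring

/-! ### The models -/

/-- representatives for translation by multiples of `K` -/
def reps (K : ℕ) (j : Fin (K * 2)) : ZB :=
  (((finProdFinEquiv.symm j).1 : ℕ), decide ((finProdFinEquiv.symm j).2 = 1))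

lemma reps_bij (K : ℕ) [NeZero K] :
    Function.Bijective fun p : Multiplicative ℤ × Fin (K * 2) => trHom K p.1 (reps K p.2) := by
  let e1 : Multiplicative ℤ × Fin (K * 2) ≃ ℤ × (Fin K × Fin 2) :=
    Equiv.prodCongr Multiplicative.toAdd finProdFinEquiv.symm
  let e2 : ℤ × (Fin K × Fin 2) ≃ (ℤ × Fin K) × Fin 2 := (Equiv.prodAssoc _ _ _).symm
  let e3 : (ℤ × Fin K) × Fin 2 ≃ ℤ × Bool :=
    Equiv.prodCongr (Int.divModEquiv K).symm finTwoEquiv
  have h : (fun p : Multiplicative ℤ × Fin (K * 2) => trHom K p.1 (reps K p.2)) =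
      ((e1.trans e2).trans e3) := by
    funext ⟨g, j⟩
    simp only [reps, trHom_apply, trP_apply, Equiv.trans_apply, e1, e2, e3, Equiv.prodCongr_apply,
      Prod.map_apply, Equiv.prodAssoc_symm_apply, Int.divModEquiv_symm_apply]
    ext
    · simp only
      ring
    · simp only
      generalize (finProdFinEquiv.symm j).2 = c
      fin_cases c <;> rfl
  rw [h]
  exact Equiv.bijective _

/-- the tracial von Neumann algebra of operators commuting with translation by `K` -/
noncomputable def MK (K : ℕ) [NeZero K] : TracialVN (l2 ZB) :=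
  modelVN (trHom K) (N := K * 2) (by have := NeZero.pos K; omega) (reps K) (reps_bij K)

lemma tr_MK (K : ℕ) [NeZero K] (x : l2 ZB →L[ℂ] l2 ZB) :
    (MK K).tr x = ((K * 2 : ℕ) : ℂ)⁻¹ * ∑ j, ⟪δ (reps K j), x (δ (reps K j))⟫_ℂ :=
  vecFunctional_modelVec (reps K) x

/-- half of one plus a permutation -/
noncomputable def half {X : Type} (σ : Equiv.Perm X) : l2 X →L[ℂ] l2 X :=
  (1 / 2 : ℂ) • (1 + permOp σ)

lemma isStarProjection_half {X : Type} {σ : Equiv.Perm X} (h : σ * σ = 1) :
    IsStarProjection (half σ) := by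
  have h1 : permOp σ * permOp σ = 1 := by rw [← permOp_mul, h, permOp_one]
  have h2 : star (permOp σ) = permOp σ := by
    rw [permOp_adjoint, inv_eq_of_mul_eq_one_left h]
  refine ⟨?_, ?_⟩
  · change half σ * half σ = half σ
    unfold half
    rw [smul_mul_smul_comm, add_mul, one_mul, mul_add, mul_one, h1,
      show (1 + permOp σ + (permOp σ + 1) : l2 X →L[ℂ] l2 X) = (2 : ℂ) • (1 + permOp σ) by
        rw [two_smul]; abel, smul_smul]
    congr 1
    norm_num
  · change star (half σ) = half σ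
    unfold half
    rw [star_smul, star_add, star_one, h2]
    congr 1
    simp

lemma two_half_sub {X : Type} (σ : Equiv.Perm X) : (2 : ℂ) • half σ - 1 = permOp σ := by
  unfold half
  rw [smul_smul, show (2 : ℂ) * (1 / 2) = 1 by norm_num, one_smul]
  abel

lemma half_comm {X : Type} {σ τ : Equiv.Perm X} (h : τ * σ = σ * τ) :
    permOp τ * half σ = half σ * permOp τ := by
  unfold half
  rw [mul_smul_comm, smul_mul_assoc, mul_add, add_mul, one_mul, mul_one, ← permOp_mul, h,
    permOp_mul]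

lemma half_s_mem (K : ℕ) [NeZero K] : half sP ∈ (MK K).alg := by
  change _ ∈ commAlg _
  rw [mem_commAlg]
  intro g
  rw [trHom_apply]
  exact half_comm (trP_sP _)

lemma half_r_mem (K : ℕ) [NeZero K] {τ : Equiv.Perm ℤ}
    (h : ∀ i g : ℤ, τ (i + K * g) = τ i + K * g) : half (rP τ) ∈ (MK K).alg := by
  change _ ∈ commAlg _
  rw [mem_commAlg]
  intro g
  rw [trHom_apply]
  exact half_comm (trP_rP fun i => h i _)

end Helper45.QPerm
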