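import Pool.Agent.Helper45.QPerm.Dihedral

open scoped InnerProductSpace ComplexOrder ENNReal Topology

namespace Helper45.QPerm

/-- the commutant of a set -/
noncomputable def vnComm {H : Type} [NormedAddCommGroup H] [InnerProductSpace ℂ H]
    [CompleteSpace H] (S : Set (H →L[ℂ] H)) : VonNeumannAlgebra H where
  toStarSubalgebra := StarSubalgebra.centralizer ℂ S
  centralizer_centralizer' := by
    have h : ((StarSubalgebra.centralizer ℂ S).carrier : Set (H →L[ℂ] H)) =
        Set.centralizer (S ∪ star S) := rfl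
    rw [h, Set.centralizer_centralizer_centralizer]

lemma comm_of_gen {n : ℕ} {A : Type} [CStarAlgebra A] {u : Fin n → Fin n → A}
    (hA : IsQuantumPermutationAlgebra n A u) {X : Type} (π : A →⋆ₐ[ℂ] (l2 X →L[ℂ] l2 X))
    (σ : Equiv.Perm X) (h : ∀ i j, permOp σ * π (u i j) = π (u i j) * permOp σ) (a : A) :
    permOp σ * π a = π a * permOp σ := by
  have h1 := map_mem hA π (vnComm {permOp σ}) (fun i j => by
    change _ ∈ StarSubalgebra.centralizer ℂ _
    rw [StarSubalgebra.mem_centralizer_iff]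
    rintro _ rfl
    refine ⟨h i j, ?_⟩
    have h2 := congrArg star (h i j)
    have hs : star (π (u i j)) = π (u i j) := (proj_map hA.magic π i j).isSelfAdjoint
    rw [star_mul, star_mul, hs] at h2
    exact h2.symm) a
  change _ ∈ StarSubalgebra.centralizer ℂ _ at h1
  rw [StarSubalgebra.mem_centralizer_iff] at h1
  exact (h1 _ rfl).1

/-! ### meets of halves -/

section MeetHalf

variable {X : Type} {σ τ : Equiv.Perm X}

lemma half_δ (σ : Equiv.Perm X) (x : X) : half σ (δ x) = (1 / 2 : ℂ) • (δ x + δ (σ x)) := by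
  unfold half
  rw [_root_.smul_apply, _root_.add_apply, one_apply_eq_self, permOp_δ]

lemma one_sub_half_δ (σ : Equiv.Perm X) (x : X) :
    (1 - half σ) (δ x) = (1 / 2 : ℂ) • (δ x - δ (σ x)) := by
  rw [_root_.sub_apply, one_apply_eq_self, half_δ]
  module

lemma meet_half_δ (hσ : σ * σ = 1) (hτ : τ * τ = 1) {x : X} (h : σ x = τ x) :
    meet (half σ) (half τ) (δ x) = half σ (δ x) := by
  have hp := isStarProjection_half hσ
  have hq := isStarProjection_half hτ
  have hτx : half τ (half σ (δ x)) = half σ (δ x) := by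
    have : half σ (δ x) = half τ (δ x) := by rw [half_δ, half_δ, h]
    rw [this]
    exact congrArg (fun f : l2 X →L[ℂ] l2 X => f (δ x)) hq.isIdempotentElem
  have hσx : half σ (half σ (δ x)) = half σ (δ x) :=
    congrArg (fun f : l2 X →L[ℂ] l2 X => f (δ x)) hp.isIdempotentElem
  have h1 : meet (half σ) (half τ) (half σ (δ x)) = half σ (δ x) := by
    apply Submodule.starProjection_eq_self_iff.mpr
    apply Submodule.le_topologicalClosure
    exact ⟨⟨_, hσx⟩, ⟨_, hτx⟩⟩
  have h2 := congrArg (fun f : l2 X →L[ℂ] l2 X => f (δ x)) (mul_meet hp hq).1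
  change meet (half σ) (half τ) (half σ (δ x)) = meet (half σ) (half τ) (δ x) at h2
  rw [← h2, h1]

lemma meet_one_sub_half_δ (hσ : σ * σ = 1) (hτ : τ * τ = 1) {x : X} (h : σ x = τ x) :
    meet (1 - half σ) (1 - half τ) (δ x) = (1 - half σ) (δ x) := by
  have hp := (isStarProjection_half hσ).one_sub
  have hq := (isStarProjection_half hτ).one_sub
  have hτx : (1 - half τ) ((1 - half σ) (δ x)) = (1 - half σ) (δ x) := by
    have : (1 - half σ) (δ x) = (1 - half τ) (δ x) := by
      rw [one_sub_half_δ, one_sub_half_δ, h]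
    rw [this]
    exact congrArg (fun f : l2 X →L[ℂ] l2 X => f (δ x)) hq.isIdempotentElem
  have hσx : (1 - half σ) ((1 - half σ) (δ x)) = (1 - half σ) (δ x) :=
    congrArg (fun f : l2 X →L[ℂ] l2 X => f (δ x)) hp.isIdempotentElem
  have h1 : meet (1 - half σ) (1 - half τ) ((1 - half σ) (δ x)) = (1 - half σ) (δ x) := by
    apply Submodule.starProjection_eq_self_iff.mpr
    apply Submodule.le_topologicalClosure
    exact ⟨⟨_, hσx⟩, ⟨_, hτx⟩⟩
  have h2 := congrArg (fun f : l2 X →L[ℂ] l2 X => f (δ x)) (mul_meet hp hq).1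
  change meet (1 - half σ) (1 - half τ) ((1 - half σ) (δ x)) =
    meet (1 - half σ) (1 - half τ) (δ x) at h2
  rw [← h2, h1]

lemma re_inner_proj_nonneg {e : l2 X →L[ℂ] l2 X} (he : IsStarProjection e) (x : l2 X) :
    0 ≤ (⟪x, e x⟫_ℂ).re := by
  have h1 : ⟪x, e x⟫_ℂ = ⟪e x, e x⟫_ℂ := by
    have h2 : ⟪e x, e x⟫_ℂ = ⟪x, (star e) (e x)⟫_ℂ := by
      rw [ContinuousLinearMap.star_eq_adjoint, ContinuousLinearMap.adjoint_inner_right]
    rw [h2, he.isSelfAdjoint.star_eq]
    congr 1
    exact (congrArg (fun f : l2 X →L[ℂ] l2 X => f x) he.isIdempotentElem).symm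
  rw [h1]
  exact inner_self_nonneg (𝕜 := ℂ)

lemma re_inner_proj_le {e : l2 X →L[ℂ] l2 X} (he : IsStarProjection e) (x : X) :
    (⟪δ x, e (δ x)⟫_ℂ).re ≤ 1 := by
  refine (Complex.re_le_norm _).trans ((norm_inner_le_norm _ _).trans ?_)
  rw [norm_δ, one_mul]
  refine (e.le_opNorm _).trans ?_
  rw [norm_δ, mul_one]
  exact norm_proj_le he

end MeetHalf

section Count

variable (K : ℕ) [NeZero K]

lemma divMod_natCast (c : Fin K) : Int.divModEquiv K ((c : ℕ) : ℤ) = (0, c) := by
  rw [← Equiv.eq_symm_apply]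
  simp

lemma cyc_symm_eq {i : ℤ} (h : (Int.divModEquiv K i).2 ≠ 0) : (cyc K).symm i = i - 1 := by
  have h1 : i - 1 ∉ exc K := by
    rw [← succ_mem_iff]
    simpa using h
  rw [Equiv.symm_apply_eq, cyc_eq_of_not_exc K h1]
  ring

lemma bad_subset : {j : Fin (K * 2) | rP suc (reps K j) ≠ rP (cyc K) (reps K j)} ⊆
    {finProdFinEquiv ((-1 : Fin K), (1 : Fin 2)), finProdFinEquiv ((0 : Fin K), (0 : Fin 2))} := by
  intro j hj
  obtain ⟨⟨c, d⟩, rfl⟩ := finProdFinEquiv.surjective j
  have hr : reps K (finProdFinEquiv (c, d)) = (((c : ℕ) : ℤ), decide (d = 1)) := by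
    simp [reps]
  rw [Set.mem_ofPred_eq, hr] at hj
  fin_cases d
  · -- `d = 0`
    right
    have h0 : (decide ((0 : Fin 2) = 1)) = false := by decide
    simp only [Fin.zero_eta, Fin.isValue, h0, rP_false, ne_eq] at hj
    have h1 : (Int.divModEquiv K ((c : ℕ) : ℤ)).2 = 0 := by
      by_contra hne
      apply hj
      rw [cyc_symm_eq K hne, suc_symm_apply]
    rw [divMod_natCast] at h1
    simp only at h1
    rw [h1]
    rfl
  · left
    have h1 : ((c : ℕ) : ℤ) ∈ exc K := by
      by_contra hne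
      apply hj
      change rP suc (((c : ℕ) : ℤ), true) = rP (cyc K) (((c : ℕ) : ℤ), true)
      rw [rP_true, rP_true, cyc_eq_of_not_exc K hne, suc_apply]
    have h2 : (Int.divModEquiv K ((c : ℕ) : ℤ)).2 + 1 = 0 := h1
    rw [divMod_natCast] at h2
    have h3 : c = -1 := eq_neg_of_add_eq_zero_left h2
    rw [h3]
    rfl

open Classical in
lemma card_bad : (Finset.univ.filter fun j : Fin (K * 2) =>
    rP suc (reps K j) ≠ rP (cyc K) (reps K j)).card ≤ 2 := by
  have h : (Finset.univ.filter fun j : Fin (K * 2) =>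
      rP suc (reps K j) ≠ rP (cyc K) (reps K j)) ⊆
      {finProdFinEquiv ((-1 : Fin K), (1 : Fin 2)), finProdFinEquiv ((0 : Fin K), (0 : Fin 2))} := by
    intro j hj
    rw [Finset.mem_filter] at hj
    have := bad_subset K hj.2
    simpa using this
  exact (Finset.card_le_card h).trans Finset.card_le_two

end Count

section Main

variable {m : ℕ} {A : Type} [CStarAlgebra A] {u : Fin (2 + 2 + m) → Fin (2 + 2 + m) → A}
variable (hA : IsQuantumPermutationAlgebra (2 + 2 + m) A u)

/-- difference of the traces of a projection and of a meet -/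
lemma tr_sub_meet_le (K : ℕ) [NeZero K] {p E : l2 ZB →L[ℂ] l2 ZB} (hp : IsStarProjection p)
    (hE : IsStarProjection E)
    (h : ∀ x, rP suc x = rP (cyc K) x → E (δ x) = p (δ x)) :
    ((MK K).tr p).re - ((MK K).tr E).re ≤ 1 / K := by
  classical
  have hK : (0 : ℝ) < K := by exact_mod_cast NeZero.pos K
  have h0 : ((MK K).tr p).re - ((MK K).tr E).re = ((K * 2 : ℕ) : ℝ)⁻¹ *
      ∑ j, ((⟪δ (reps K j), p (δ (reps K j))⟫_ℂ).re - (⟪δ (reps K j), E (δ (reps K j))⟫_ℂ).re) := by
    have hc : ((K * 2 : ℕ) : ℂ)⁻¹ = ((((K * 2 : ℕ) : ℝ)⁻¹ : ℝ) : ℂ) := by push_cast; rfl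
    rw [tr_MK, tr_MK, hc, Complex.re_ofReal_mul, Complex.re_ofReal_mul, ← mul_sub,
      Complex.re_sum, Complex.re_sum, Finset.sum_sub_distrib]
  have h1 : ∑ j, ((⟪δ (reps K j), p (δ (reps K j))⟫_ℂ).re -
      (⟪δ (reps K j), E (δ (reps K j))⟫_ℂ).re) ≤
      ∑ j : Fin (K * 2), if rP suc (reps K j) ≠ rP (cyc K) (reps K j) then (1 : ℝ) else 0 := by
    refine Finset.sum_le_sum fun j _ => ?_
    split_ifs with hj
    · have h2 := re_inner_proj_le hp (reps K j)
      have h3 := re_inner_proj_nonneg hE (δ (reps K j))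
      linarith
    · rw [h _ (not_not.mp hj), sub_self]
  rw [← Finset.sum_filter, Finset.sum_const, nsmul_eq_mul, mul_one] at h1
  have h2 : ((Finset.univ.filter fun j : Fin (K * 2) =>
    rP suc (reps K j) ≠ rP (cyc K) (reps K j)).card : ℝ) ≤ 2 := by exact_mod_cast card_bad K
  rw [h0]
  calc ((K * 2 : ℕ) : ℝ)⁻¹ * _ ≤ ((K * 2 : ℕ) : ℝ)⁻¹ * 2 := by
        gcongr
        exact h1.trans h2
    _ = 1 / K := by
        push_cast
        field_simp

/-- the infinite representation -/
noncomputable def πinf : A →⋆ₐ[ℂ] (l2 ZB →L[ℂ] l2 ZB) :=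
  homPQ hA (isStarProjection_half sP_mul_self) (isStarProjection_half (rP_mul_self suc))

/-- the periodic representation -/
noncomputable def πK (K : ℕ) [NeZero K] : A →⋆ₐ[ℂ] (l2 ZB →L[ℂ] l2 ZB) :=
  homPQ hA (isStarProjection_half sP_mul_self) (isStarProjection_half (rP_mul_self (cyc K)))

lemma πinf_mem (K : ℕ) [NeZero K] (a : A) : πinf hA a ∈ (MK K).alg := by
  apply map_mem hA
  intro i j
  rw [πinf, homPQ_apply]
  apply pq_mem _ (half_s_mem K) (half_r_mem K _)
  intro i g
  simp only [suc_apply]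
  ring

lemma πK_mem (K : ℕ) [NeZero K] (a : A) : πK hA K a ∈ (MK K).alg := by
  apply map_mem hA
  intro i j
  rw [πK, homPQ_apply]
  exact pq_mem _ (half_s_mem K) (half_r_mem K (fun i g => cyc_add K i g)) i j

lemma pq_comm {X : Type} (σ : Equiv.Perm X) {p q : l2 X →L[ℂ] l2 X}
    (hp : permOp σ * p = p * permOp σ) (hq : permOp σ * q = q * permOp σ)
    (hps : star p = p) (hqs : star q = q)
    (i j : Fin (2 + 2 + m)) :
    permOp σ * pq m p q i j = pq m p q i j * permOp σ := by
  have hmem : ∀ r : l2 X →L[ℂ] l2 X, permOp σ * r = r * permOp σ → star r = r →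
      r ∈ vnComm {permOp σ} := by
    intro r hr hrs
    change _ ∈ StarSubalgebra.centralizer ℂ _
    rw [StarSubalgebra.mem_centralizer_iff]
    rintro _ rfl
    refine ⟨hr, ?_⟩
    have h2 := congrArg star hr
    rw [star_mul, star_mul, hrs] at h2
    exact h2.symm
  have h1 := pq_mem (vnComm {permOp σ}) (hmem p hp hps) (hmem q hq hqs) i j
  change _ ∈ StarSubalgebra.centralizer ℂ _ at h1
  rw [StarSubalgebra.mem_centralizer_iff] at h1
  exact (h1 _ rfl).1

lemma inner_πinf (a : A) (x : ZB) :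
    ⟪δ x, πinf hA a (δ x)⟫_ℂ = ⟪δ ((0, false) : ZB), πinf hA a (δ (0, false))⟫_ℂ := by
  have hs := (isStarProjection_half sP_mul_self).isSelfAdjoint
  have hr := (isStarProjection_half (rP_mul_self suc)).isSelfAdjoint
  obtain ⟨j, b⟩ := x
  cases b
  · have h1 : permOp (trP j) * πinf hA a = πinf hA a * permOp (trP j) := by
      apply comm_of_gen hA
      intro i k
      rw [πinf, homPQ_apply]
      refine pq_comm _ (half_comm (trP_sP j)) (half_comm (trP_rP ?_)) hs hr i k
      intro i
      simp only [suc_apply]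
      ring
    have h2 := inner_permOp (trP j) h1 (0, false) (0, false)
    simpa using h2
  · have h1 : permOp (flP j) * πinf hA a = πinf hA a * permOp (flP j) := by
      apply comm_of_gen hA
      intro i k
      rw [πinf, homPQ_apply]
      exact pq_comm _ (half_comm (flP_sP j)) (half_comm (flP_rP j)) hs hr i k
    have h2 := inner_permOp (flP j) h1 (0, false) (0, false)
    simpa using h2

lemma tr_πinf (K : ℕ) [NeZero K] (a : A) :
    (MK K).tr (πinf hA a) = ⟪δ ((0, false) : ZB), πinf hA a (δ (0, false))⟫_ℂ := by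
  rw [tr_MK]
  have h1 : ∀ j, ⟪δ (reps K j), πinf hA a (δ (reps K j))⟫_ℂ =
      ⟪δ ((0, false) : ZB), πinf hA a (δ (0, false))⟫_ℂ := fun j => inner_πinf hA a _
  simp only [h1, Finset.sum_const, Finset.card_univ, Fintype.card_fin, nsmul_eq_mul]
  have hK : ((K * 2 : ℕ) : ℂ) ≠ 0 := by
    have := NeZero.pos K
    exact_mod_cast (by omega : K * 2 ≠ 0)
  field_simp

/-- the limit state -/
noncomputable def stInf : TracialState A := pull (MK 1) (πinf hA) (πinf_mem hA 1)

/-- the approximating states -/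
noncomputable def stK (K : ℕ) [NeZero K] : TracialState A := pull (MK K) (πK hA K) (πK_mem hA K)

noncomputable def dihCoupling (K : ℕ) [NeZero K] : Coupling (stInf hA) (stK hA K) :=
  mkCoupling (MK K) (πinf hA) (πK hA K) (πinf_mem hA K) (πK_mem hA K)
    (fun a => by rw [stInf, pull_apply, tr_πinf, tr_πinf]) (fun a => rfl)

lemma dih_entry_le (K : ℕ) [NeZero K] (i j : Fin (2 + 2 + m)) :
    ((MK K).tr (πinf hA (u i j))).re -
      ((MK K).tr (meet (πinf hA (u i j)) (πK hA K (u i j)))).re ≤ 1 / K := by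
  have hK : (0 : ℝ) < K := by exact_mod_cast NeZero.pos K
  have hself : ∀ p : l2 ZB →L[ℂ] l2 ZB, IsStarProjection p →
      ((MK K).tr p).re - ((MK K).tr (meet p p)).re ≤ 1 / K := by
    intro p hp
    rw [meet_self hp, sub_self]
    positivity
  rw [πinf, πK, homPQ_apply, homPQ_apply]
  have hm := isMagic_pq (m := m) (isStarProjection_half sP_mul_self)
    (isStarProjection_half (rP_mul_self suc))
  unfold pq at hm ⊢
  induction i using Fin.addCases with
  | left i =>
    induction j using Fin.addCases with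
    | left j =>
      have hpr := hm.proj (Fin.castAdd m i) (Fin.castAdd m j)
      rw [blk_cast_cast] at hpr
      rw [blk_cast_cast, blk_cast_cast]
      induction i using Fin.addCases with
      | left i =>
        induction j using Fin.addCases with
        | left j => rw [blk_cast_cast] at hpr; rw [blk_cast_cast, blk_cast_cast]; exact hself _ hpr
        | right j => rw [blk_cast_nat] at hpr; rw [blk_cast_nat, blk_cast_nat]; exact hself _ hpr
      | right i =>
        induction j using Fin.addCases with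
        | left j => rw [blk_nat_cast] at hpr; rw [blk_nat_cast, blk_nat_cast]; exact hself _ hpr
        | right j =>
          rw [blk_nat_nat, blk_nat_nat]
          unfold two
          split_ifs
          · exact tr_sub_meet_le K (isStarProjection_half (rP_mul_self suc))
              (meet_isStarProjection _ _)
              (fun x hx => meet_half_δ (rP_mul_self suc) (rP_mul_self (cyc K)) hx)
          · exact tr_sub_meet_le K (isStarProjection_half (rP_mul_self suc)).one_sub
              (meet_isStarProjection _ _)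
              (fun x hx => meet_one_sub_half_δ (rP_mul_self suc) (rP_mul_self (cyc K)) hx)
    | right j =>
      have hpr := hm.proj (Fin.castAdd m i) (Fin.natAdd _ j)
      rw [blk_cast_nat] at hpr
      rw [blk_cast_nat, blk_cast_nat]
      exact hself _ hpr
  | right i =>
    induction j using Fin.addCases with
    | left j =>
      have hpr := hm.proj (Fin.natAdd _ i) (Fin.castAdd m j)
      rw [blk_nat_cast] at hpr
      rw [blk_nat_cast, blk_nat_cast]
      exact hself _ hpr
    | right j =>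
      have hpr := hm.proj (Fin.natAdd _ i) (Fin.natAdd _ j)
      rw [blk_nat_nat] at hpr
      rw [blk_nat_nat, blk_nat_nat]
      exact hself _ hpr

lemma dih_costWedge_le (K : ℕ) [NeZero K] :
    costWedge u (dihCoupling hA K) ≤ (2 + 2 + m : ℕ) / K := by
  have hn : (0 : ℝ) < (2 + 2 + m : ℕ) := by positivity
  have hK : (0 : ℝ) < K := by exact_mod_cast NeZero.pos K
  have h1 := n_mul_costWedge hA.magic (by omega) (dihCoupling hA K)
  have h2 := Finset.sum_le_sum fun i (_ : i ∈ (Finset.univ : Finset (Fin (2 + 2 + m)))) =>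
    Finset.sum_le_sum fun j (_ : j ∈ (Finset.univ : Finset (Fin (2 + 2 + m)))) =>
      dih_entry_le hA K i j
  simp only [Finset.sum_const, Finset.card_univ, Fintype.card_fin, nsmul_eq_mul] at h2
  have h3 : ((2 + 2 + m : ℕ) : ℝ) * costWedge u (dihCoupling hA K) ≤
      (2 + 2 + m : ℕ) * ((2 + 2 + m : ℕ) * (1 / (K : ℝ))) := by
    rw [h1]
    exact h2
  have h4 := le_of_mul_le_mul_left h3 hn
  rw [div_eq_mul_one_div]
  exact h4

lemma norm_two_smul_sub_one_le {p : A} (hp : IsStarProjection p) : ‖(2 : ℂ) • p - 1‖ ≤ 1 := by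
  have h1 : star ((2 : ℂ) • p - 1) * ((2 : ℂ) • p - 1) = 1 := by
    have hs : star ((2 : ℂ) • p - 1) = (2 : ℂ) • p - 1 := by
      rw [star_sub, star_smul, star_one, hp.isSelfAdjoint.star_eq]
      simp
    rw [hs, two_smul, sub_mul, mul_sub, mul_add, add_mul, hp.isIdempotentElem.eq]
    noncomm_ring
  have h2 := CStarRing.norm_star_mul_self (x := (2 : ℂ) • p - 1)
  rw [h1] at h2
  have h3 : ‖(1 : A)‖ ≤ 1 := by
    rcases subsingleton_or_nontrivial A with h | h
    · rw [Subsingleton.elim (1 : A) 0, norm_zero]; exact zero_le_one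
    · rw [norm_one]
  nlinarith [norm_nonneg ((2 : ℂ) • p - 1)]

lemma dih_dTV_ge (K : ℕ) [NeZero K] : ((1 / 2 : ℝ) : EReal) ≤ dTV (stInf hA) (stK hA K) := by
  set x : A := (((2 : ℂ) • u (i0 m) (i0 m) - 1) * ((2 : ℂ) • u (i2 m) (i2 m) - 1)) ^ K with hx
  have hxn : ‖x‖ ≤ 1 := by
    have h1 := norm_two_smul_sub_one_le (hA.magic.proj (i0 m) (i0 m))
    have h2 := norm_two_smul_sub_one_le (hA.magic.proj (i2 m) (i2 m))
    refine (norm_pow_le' _ (NeZero.pos K)).trans (pow_le_one₀ (norm_nonneg _) ?_)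
    refine (norm_mul_le _ _).trans ?_
    nlinarith [norm_nonneg ((2 : ℂ) • u (i0 m) (i0 m) - 1),
      norm_nonneg ((2 : ℂ) • u (i2 m) (i2 m) - 1)]
  have hinf : πinf hA x = permOp ((sP * rP suc) ^ K) := by
    have hpow : ∀ k : ℕ, permOp ((sP * rP suc) ^ k) = (permOp sP * permOp (rP suc)) ^ k := by
      intro k
      induction k with
      | zero => rw [pow_zero, pow_zero, permOp_one]
      | succ k ih => rw [pow_succ, permOp_mul, ih, permOp_mul, pow_succ]
    rw [hx, map_pow, map_mul, map_sub, map_sub, map_smul, map_smul, map_one, πinf, homPQ_apply,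
      homPQ_apply, pq_i0, pq_i2, two_half_sub, two_half_sub, hpow]
  have hKK : πK hA K x = 1 := by
    have hpow : ∀ k : ℕ, permOp ((sP * rP (cyc K)) ^ k) =
        (permOp sP * permOp (rP (cyc K))) ^ k := by
      intro k
      induction k with
      | zero => rw [pow_zero, pow_zero, permOp_one]
      | succ k ih => rw [pow_succ, permOp_mul, ih, permOp_mul, pow_succ]
    rw [hx, map_pow, map_mul, map_sub, map_sub, map_smul, map_smul, map_one, πK, homPQ_apply,
      homPQ_apply, pq_i0, pq_i2, two_half_sub, two_half_sub, ← hpow,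
      sr_pow_eq_one (cyc_pow K), permOp_one]
  have h1 : (stInf hA).1 x = 0 := by
    rw [stInf, pull_apply, tr_πinf, hinf, permOp_δ, (sr_pow suc K 0).2, inner_δ_left, δ_apply,
      if_neg]
    intro h
    have h2 : (suc⁻¹ ^ K) 0 = 0 := congrArg Prod.fst h
    rw [inv_pow, Equiv.Perm.inv_eq_iff_eq, suc_pow] at h2
    have := NeZero.pos K
    omega
  have h2 : (stK hA K).1 x = 1 := by
    rw [stK, pull_apply, hKK, (MK K).tr_one]
  have h3 : 1 ≤ ‖(stInf hA).1 - (stK hA K).1‖ := by
    have h4 : ‖((stInf hA).1 - (stK hA K).1) x‖ ≤ ‖(stInf hA).1 - (stK hA K).1‖ * ‖x‖ :=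
      ContinuousLinearMap.le_opNorm _ _
    rw [_root_.sub_apply, h1, h2] at h4
    have h5 : ‖(0 - 1 : ℂ)‖ = 1 := by simp
    rw [h5] at h4
    nlinarith [norm_nonneg ((stInf hA).1 - (stK hA K).1)]
  unfold dTV
  have h4 : (1 / 2 : ℝ) ≤ 1 / 2 * ‖(stInf hA).1 - (stK hA K).1‖ := by linarith
  exact_mod_cast h4

/-- `𝒪₃ ≠ 𝒪₄` for `n ≥ 4`: the relevant set. -/
theorem exists_open_TV_not_wedge (hA : IsQuantumPermutationAlgebra (2 + 2 + m) A u) :
    ∃ U : Set (TracialState A), IsOpen[topTV A] U ∧ ¬ IsOpen[topWedge u] U := by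
  have hlim : ∀ ε : ℝ, 0 < ε → ∃ N : ℕ, ∀ k ≥ N, ((2 + 2 + m : ℕ) : ℝ) / ((k + 1 : ℕ) : ℝ) < ε := by
    intro ε hε
    obtain ⟨N, hN⟩ := exists_nat_gt (((2 + 2 + m : ℕ) : ℝ) / ε)
    refine ⟨N, fun k hk => ?_⟩
    rw [div_lt_iff₀ (by positivity)]
    rw [div_lt_iff₀ hε] at hN
    have h1 : (N : ℝ) ≤ ((k + 1 : ℕ) : ℝ) := by exact_mod_cast (by omega : N ≤ k + 1)
    nlinarith
  refine ⟨(Set.range fun k : ℕ => stK hA (k + 1))ᶜ, ?_, ?_⟩
  · apply isOpen_compl_range controls_TV (φ := stInf hA) (c := 1 / 2)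
    · intro a
      rw [Metric.tendsto_atTop]
      intro ε hε
      obtain ⟨δ, hδ, h⟩ := weak_control hA a hε
      obtain ⟨N, hN⟩ := hlim ((δ / 2) ^ 2 / (2 + 2 + m : ℕ)) (by positivity)
      refine ⟨N, fun k hk => ?_⟩
      rw [dist_comm, dist_eq_norm]
      apply h _ _ (dihCoupling hA (k + 1))
      intro i j
      refine (norm_le_costWedge hA.magic _ i j).trans ?_
      have h1 := (dih_costWedge_le hA (k + 1)).trans (hN k hk).le
      rw [le_div_iff₀ (by positivity)] at h1
      have h2 : √((2 + 2 + m : ℕ) * costWedge u (dihCoupling hA (k + 1))) ≤ δ / 2 := by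
        rw [Real.sqrt_le_left (by positivity)]
        linarith
      linarith
    · norm_num
    · intro k
      exact dih_dTV_ge hA (k + 1)
  · apply not_isOpen_compl_range (φ := stInf hA)
    · intro k hk
      have h1 := dih_dTV_ge hA (k + 1)
      rw [hk] at h1
      have h2 : dTV (stInf hA) (stInf hA) = 0 := by
        unfold dTV
        simp
      rw [h2] at h1
      have h3 : (0 : EReal) < ((1 / 2 : ℝ) : EReal) := by
        exact_mod_cast (by norm_num : (0 : ℝ) < 1 / 2)
      exact absurd (h3.trans_le h1) (lt_irrefl _)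
    · intro ε hε
      obtain ⟨N, hN⟩ := hlim ε hε
      refine ⟨N, iInf_lt_iff.mpr ⟨dihCoupling hA (N + 1), ?_⟩⟩
      have h3 := lt_of_le_of_lt (dih_costWedge_le hA (N + 1)) (hN N le_rfl)
      exact_mod_cast h3

end Main

end Helper45.QPerm
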