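import Pool.Agent.Helper45.QPerm.Top

open scoped InnerProductSpace ComplexOrder ENNReal Topology

namespace Helper45.QPerm

section General

variable {H : Type} [NormedAddCommGroup H] [InnerProductSpace ℂ H] [CompleteSpace H]

lemma meet_mem (N : VonNeumannAlgebra H) {p q : H →L[ℂ] H} (hp : p ∈ N) (hq : q ∈ N) :
    meet p q ∈ N := by
  rw [VonNeumannAlgebra.IsStarProjection.mem_iff (meet_isStarProjection p q)]
  intro y hy
  have hrange : (meet p q).range = (LinearMap.range (p : H →ₗ[ℂ] H) ⊓
      LinearMap.range (q : H →ₗ[ℂ] H)).topologicalClosure := by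
    exact Submodule.range_starProjection _
  rw [hrange, Module.End.mem_invtSubmodule_iff_forall_mem_of_mem]
  have hyp : ∀ r ∈ N, r * y = y * r := VonNeumannAlgebra.mem_commutant_iff.mp hy
  have h1 : (LinearMap.range (p : H →ₗ[ℂ] H) ⊓
      LinearMap.range (q : H →ₗ[ℂ] H)) ≤ Submodule.comap (y : H →ₗ[ℂ] H)
      (LinearMap.range (p : H →ₗ[ℂ] H) ⊓ LinearMap.range (q : H →ₗ[ℂ] H)).topologicalClosure := by
    rintro x ⟨⟨a, ha⟩, ⟨b, hb⟩⟩
    apply Submodule.le_topologicalClosure
    refine ⟨⟨y a, ?_⟩, ⟨y b, ?_⟩⟩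
    · have := congrArg (fun f : H →L[ℂ] H => f a) (hyp p hp)
      rw [← ha]
      exact this
    · have := congrArg (fun f : H →L[ℂ] H => f b) (hyp q hq)
      rw [← hb]
      exact this
  have h2 := Submodule.topologicalClosure_minimal _ h1 (by
    exact (Submodule.isClosed_topologicalClosure _).preimage y.continuous)
  intro x hx
  exact h2 hx

lemma map_mem {n : ℕ} {A : Type} [CStarAlgebra A] {u : Fin n → Fin n → A}
    (hA : IsQuantumPermutationAlgebra n A u) (π : A →⋆ₐ[ℂ] (H →L[ℂ] H))
    (N : VonNeumannAlgebra H) (h : ∀ i j, π (u i j) ∈ N) (a : A) : π a ∈ N := by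
  have hcl : IsClosed (N.toStarSubalgebra : Set (H →L[ℂ] H)) := by
    have : (N.toStarSubalgebra : Set (H →L[ℂ] H)) =
        Set.centralizer (Set.centralizer (N : Set (H →L[ℂ] H))) := by
      rw [N.centralizer_centralizer]
      rfl
    rw [this]
    exact Set.isClosed_centralizer _
  have hπ : Continuous π := AddMonoidHomClass.continuous_of_bound π 1
    (by simpa using NonUnitalStarAlgHom.norm_apply_le π)
  exact hA.mem_of_closed (N.toStarSubalgebra.comap π) (hcl.preimage hπ) h a

end General

namespace TracialVN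

variable {H : Type} [NormedAddCommGroup H] [InnerProductSpace ℂ H] [CompleteSpace H]
variable (M : TracialVN H)

lemma tr_pow_comm {a b : H →L[ℂ] H} (ha : a ∈ M.alg) (hb : b ∈ M.alg) (m : ℕ) :
    M.tr ((1 - a * b) ^ m) = M.tr ((1 - b * a) ^ m) := by
  have h1 : ∀ m : ℕ, (1 - a * b) ^ m * a = a * (1 - b * a) ^ m := by
    intro m
    induction m with
    | zero => simp
    | succ m ih =>
      rw [pow_succ, pow_succ, mul_assoc, show (1 - a * b) * a = a * (1 - b * a) by noncomm_ring,
        ← mul_assoc, ih, mul_assoc]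
  induction m with
  | zero => simp
  | succ m ih =>
    have h2 : (1 - a * b) ^ (m + 1) = (1 - a * b) ^ m - a * ((1 - b * a) ^ m * b) := by
      rw [pow_succ, mul_sub, mul_one, ← mul_assoc, h1]
      noncomm_ring
    have h3 : (1 - b * a) ^ (m + 1) = (1 - b * a) ^ m - ((1 - b * a) ^ m * b) * a := by
      rw [pow_succ]
      noncomm_ring
    have h4 : (1 - b * a) ^ m * b ∈ M.alg :=
      mul_mem (pow_mem (sub_mem (one_mem _) (mul_mem hb ha)) m) hb
    rw [h2, h3, tr_sub, tr_sub, ih, M.tr_comm ha h4]

/-- if `e, f` are projections in `M` whose ranges intersect trivially, then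
`τ(e) + τ(f) ≤ 1`. -/
lemma tr_add_tr_le_one {e f : H →L[ℂ] H} (he : IsStarProjection e) (hf : IsStarProjection f)
    (heM : e ∈ M.alg) (hfM : f ∈ M.alg) (h : ∀ x, e x = x → f x = x → x = 0) :
    (M.tr e).re + (M.tr f).re ≤ 1 := by
  have hee : e * e = e := he.isIdempotentElem
  have hff : f * f = f := hf.isIdempotentElem
  have hes : star e = e := he.isSelfAdjoint
  have hfs : star f = f := hf.isSelfAdjoint
  have hne : ‖e‖ ≤ 1 := norm_proj_le he
  have hnf : ‖f‖ ≤ 1 := norm_proj_le hf
  set R : H →L[ℂ] H := f * e * f with hR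
  have hnR : ‖R‖ ≤ 1 := by
    calc ‖f * e * f‖ ≤ ‖f‖ * ‖e‖ * ‖f‖ := (norm_mul_le _ _).trans (by gcongr; exact norm_mul_le _ _)
      _ ≤ 1 * 1 * 1 := by gcongr
      _ = 1 := by norm_num
  -- the basic inequality
  have key : ∀ m : ℕ, (M.tr e).re + (M.tr f).re - 1 ≤ (M.tr (R ^ m)).re := by
    intro m
    rcases Nat.eq_zero_or_pos m with rfl | hm
    · have h1 : (M.tr e).re ≤ 1 := by
        have := M.tr_proj_le (IsStarProjection.one _) he (one_mul e)
        rwa [tr_one, Complex.one_re] at this
      have h2 : (M.tr f).re ≤ 1 := by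
        have := M.tr_proj_le (IsStarProjection.one _) hf (one_mul f)
        rwa [tr_one, Complex.one_re] at this
      rw [pow_zero, tr_one, Complex.one_re]
      linarith
    · have h1 : ∀ m : ℕ, 0 < m → (1 - (f * (1 - e)) * ((1 - e) * f)) ^ m = (1 - f) + R ^ m := by
        intro m hm
        have h0 : 1 - (f * (1 - e)) * ((1 - e) * f) = (1 - f) + R := by
          have : (f * (1 - e)) * ((1 - e) * f) = f - R := by
            rw [hR]
            calc (f * (1 - e)) * ((1 - e) * f) = f * f - f * e * f - f * e * f + f * (e * e) * f := by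
                  noncomm_ring
              _ = f - f * e * f := by rw [hee, hff]; abel
          rw [this]; abel
        have h01 : (1 - f) * R = 0 := by
          rw [hR]
          calc (1 - f) * (f * e * f) = f * e * f - (f * f) * e * f := by noncomm_ring
            _ = 0 := by rw [hff, sub_self]
        have h02 : R * (1 - f) = 0 := by
          rw [hR]
          calc (f * e * f) * (1 - f) = f * e * f - f * e * (f * f) := by noncomm_ring
            _ = 0 := by rw [hff, sub_self]
        have h03 : (1 - f) * (1 - f) = 1 - f := by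
          calc (1 - f) * (1 - f) = 1 - f - f + f * f := by noncomm_ring
            _ = 1 - f := by rw [hff]; abel
        rw [h0]
        induction m with
        | zero => exact absurd hm (lt_irrefl 0)
        | succ m ih =>
          rcases Nat.eq_zero_or_pos m with rfl | hm'
          · simp
          · rw [pow_succ, ih hm', add_mul, mul_add, mul_add, h03, h01]
            have h04 : R ^ m * (1 - f) = 0 := by
              obtain ⟨k, rfl⟩ := Nat.exists_eq_succ_of_ne_zero hm'.ne'
              rw [Nat.succ_eq_add_one, pow_succ, mul_assoc, h02, mul_zero]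
            rw [h04, ← pow_succ]
            abel
      have h2 : ∀ m : ℕ, 0 < m → (1 - ((1 - e) * f) * (f * (1 - e))) ^ m =
          e + ((1 - e) * (1 - f) * (1 - e)) ^ m := by
        intro m hm
        have hE : (1 - e) * (1 - e) = 1 - e := by
          calc (1 - e) * (1 - e) = 1 - e - e + e * e := by noncomm_ring
            _ = 1 - e := by rw [hee]; abel
        have h0 : 1 - ((1 - e) * f) * (f * (1 - e)) = e + (1 - e) * (1 - f) * (1 - e) := by
          have h00 : ((1 - e) * f) * (f * (1 - e)) = (1 - e) * f * (1 - e) := by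
            calc ((1 - e) * f) * (f * (1 - e)) = (1 - e) * (f * f) * (1 - e) := by noncomm_ring
              _ = _ := by rw [hff]
          have h000 : (1 - e) * (1 - f) * (1 - e) = (1 - e) * (1 - e) - (1 - e) * f * (1 - e) := by
            noncomm_ring
          rw [h00, h000, hE]; abel
        set S : H →L[ℂ] H := (1 - e) * (1 - f) * (1 - e) with hS
        have h01 : e * S = 0 := by
          rw [hS]
          calc e * ((1 - e) * (1 - f) * (1 - e)) = (e - e * e) * (1 - f) * (1 - e) := by
                noncomm_ring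
            _ = 0 := by rw [hee]; simp
        have h02 : S * e = 0 := by
          rw [hS]
          calc ((1 - e) * (1 - f) * (1 - e)) * e = (1 - e) * (1 - f) * (e - e * e) := by
                noncomm_ring
            _ = 0 := by rw [hee]; simp
        rw [h0]
        induction m with
        | zero => exact absurd hm (lt_irrefl 0)
        | succ m ih =>
          rcases Nat.eq_zero_or_pos m with rfl | hm'
          · simp
          · rw [pow_succ, ih hm', add_mul, mul_add, mul_add, hee, h01]
            have h04 : S ^ m * e = 0 := by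
              obtain ⟨k, rfl⟩ := Nat.exists_eq_succ_of_ne_zero hm'.ne'
              rw [Nat.succ_eq_add_one, pow_succ, mul_assoc, h02, mul_zero]
            rw [h04, ← pow_succ]
            abel
      have hEM : (1 - e) ∈ M.alg := sub_mem (one_mem _) heM
      have h3 := M.tr_pow_comm (mul_mem hfM hEM) (mul_mem hEM hfM) m
      rw [h1 m hm, h2 m hm, tr_add, tr_add, tr_sub, tr_one] at h3
      have h4 : 0 ≤ (M.tr (((1 - e) * (1 - f) * (1 - e)) ^ m)).re := by
        refine (Complex.le_def.mp (M.tr_nonneg ?_)).1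
        apply CStarAlgebra.pow_nonneg
        have h5 : (1 - e) * (1 - f) * (1 - e) = star ((1 - f) * (1 - e)) * ((1 - f) * (1 - e)) := by
          rw [star_mul, star_sub, star_sub, star_one, hes, hfs]
          calc (1 - e) * (1 - f) * (1 - e) = (1 - e) * (1 - f) * (1 - e) := rfl
            _ = (1 - e) * ((1 - f - f + f * f)) * (1 - e) := by rw [hff]; congr 2; abel
            _ = _ := by noncomm_ring
        rw [h5]
        exact star_mul_self_nonneg _
      have h6 := congrArg Complex.re h3
      simp only [Complex.add_re, Complex.sub_re, Complex.one_re] at h6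
      linarith
  -- the averages converge to `0`
  have hfix : ∀ x, R x = x → x = 0 := by
    intro x hx
    have hfx : f x = x := by
      have h1 : f (R x) = R x := congrArg (fun g : H →L[ℂ] H => g x)
        (show f * R = R by rw [hR, ← mul_assoc, ← mul_assoc, hff])
      rwa [hx] at h1
    have h2 : f (e x) = x := by
      have : f (e (f x)) = x := hx
      rwa [hfx] at this
    have h3 : ‖e x‖ = ‖x‖ := by
      apply le_antisymm
      · calc ‖e x‖ ≤ ‖e‖ * ‖x‖ := e.le_opNorm x
          _ ≤ 1 * ‖x‖ := by gcongr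
          _ = ‖x‖ := one_mul _
      · calc ‖x‖ = ‖f (e x)‖ := by rw [h2]
          _ ≤ ‖f‖ * ‖e x‖ := f.le_opNorm _
          _ ≤ 1 * ‖e x‖ := by gcongr
          _ = ‖e x‖ := one_mul _
    have h4 : ⟪x, e x⟫_ℂ = ⟪e x, e x⟫_ℂ := by
      have h5 : ⟪e x, e x⟫_ℂ = ⟪x, (star e) (e x)⟫_ℂ := by
        rw [ContinuousLinearMap.star_eq_adjoint, ContinuousLinearMap.adjoint_inner_right]
      rw [h5, hes]
      congr 1
      exact (congrArg (fun g : H →L[ℂ] H => g x) hee).symm
    have h5 : ‖x - e x‖ ^ 2 = 0 := by
      have h6 := norm_sub_sq (𝕜 := ℂ) x (e x)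
      have h7 : RCLike.re ⟪x, e x⟫_ℂ = ‖x‖ ^ 2 := by
        rw [h4, inner_self_eq_norm_sq_to_K, ← h3]
        norm_cast
      rw [h6, h7, h3]; ring
    have h6 : e x = x := by
      have := pow_eq_zero_iff (two_ne_zero) |>.mp h5
      exact (sub_eq_zero.mp (norm_eq_zero.mp this)).symm
    exact h x h6 hfx
  have hlim : ∀ x, Filter.Tendsto (fun N : ℕ => birkhoffAverage ℂ R _root_.id N x) Filter.atTop
      (nhds 0) := by
    intro x
    have h1 := R.tendsto_birkhoffAverage_orthogonalProjection hnR x
    have h2 := hfix _ ((R.eqLocus (1 : H →L[ℂ] H)).orthogonalProjectionOnto x).2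
    rwa [h2] at h1
  -- the averages of the inequality
  have hR0 : ∀ k : ℕ, ‖R ^ k‖ ≤ 1 := by
    intro k
    rcases subsingleton_or_nontrivial (H →L[ℂ] H) with hs | hs
    · rw [Subsingleton.elim (R ^ k) 0, norm_zero]; exact zero_le_one
    · calc ‖R ^ k‖ ≤ ‖R‖ ^ k := norm_pow_le R k
        _ ≤ 1 := pow_le_one₀ (norm_nonneg _) hnR
  let a : ℕ → H →L[ℂ] H := fun N => ((N : ℂ)⁻¹) • ∑ k ∈ Finset.range N, R ^ k
  have ha_norm : ∀ N, ‖a N‖ ≤ 1 := by
    intro N
    rcases Nat.eq_zero_or_pos N with rfl | hN
    · simp [a]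
    · have hN' : (0 : ℝ) < N := by exact_mod_cast hN
      calc ‖a N‖ = (N : ℝ)⁻¹ * ‖∑ k ∈ Finset.range N, R ^ k‖ := by
            simp [a, norm_smul]
        _ ≤ (N : ℝ)⁻¹ * ∑ k ∈ Finset.range N, ‖R ^ k‖ := by
            gcongr; exact norm_sum_le _ _
        _ ≤ (N : ℝ)⁻¹ * ∑ k ∈ Finset.range N, (1 : ℝ) := by
            gcongr with k hk; exact hR0 k
        _ = 1 := by simp [hN'.ne']
  have ha_apply : ∀ N x, a N x = birkhoffAverage ℂ R _root_.id N x := by
    intro N x
    simp only [a, birkhoffAverage, birkhoffSum, id]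
    rw [_root_.smul_apply, _root_.sum_apply]
    congr 1
    refine Finset.sum_congr rfl fun k _ => ?_
    have hpow : ∀ k : ℕ, ∀ y : H, (R ^ k) y = R^[k] y := by
      intro k
      induction k with
      | zero => intro y; simp
      | succ k ih =>
        intro y
        rw [pow_succ, Function.iterate_succ_apply, ← ih]
        rfl
    exact hpow k x
  have htr : Filter.Tendsto (fun N => M.tr (a N)) Filter.atTop (nhds 0) := by
    have h0 : (0 : ℂ) = ∑' _k : ℕ, (0 : ℂ) := by simp
    rw [h0]
    refine tendsto_tsum_of_dominated_convergence (bound := fun k => ‖M.vec k‖ ^ 2)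
      M.summable_vec (fun k => ?_) (Filter.Eventually.of_forall fun N k => ?_)
    · have h1 := hlim (M.vec k)
      have h2 : Filter.Tendsto (fun N => ⟪M.vec k, a N (M.vec k)⟫_ℂ) Filter.atTop
          (nhds ⟪M.vec k, (0 : H)⟫_ℂ) := by
        refine tendsto_const_nhds.inner ?_
        simpa only [ha_apply] using h1
      simpa using h2
    · calc ‖⟪M.vec k, a N (M.vec k)⟫_ℂ‖ ≤ ‖M.vec k‖ * ‖a N (M.vec k)‖ := norm_inner_le_norm _ _
        _ ≤ ‖M.vec k‖ * (1 * ‖M.vec k‖) := by
            gcongr
            exact ((a N).le_opNorm _).trans (by gcongr; exact ha_norm N)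
        _ = ‖M.vec k‖ ^ 2 := by ring
  have hre : Filter.Tendsto (fun N => (M.tr (a N)).re) Filter.atTop (nhds 0) := by
    have := (Complex.continuous_re.tendsto 0).comp htr
    rw [Complex.zero_re] at this
    exact this
  have hav : ∀ N : ℕ, 0 < N → (M.tr e).re + (M.tr f).re - 1 ≤ (M.tr (a N)).re := by
    intro N hN
    have hN' : (0 : ℝ) < N := by exact_mod_cast hN
    have h1 : (M.tr (a N)).re = (N : ℝ)⁻¹ * ∑ k ∈ Finset.range N, (M.tr (R ^ k)).re := by
      simp only [a]
      rw [tr_smul, tr_sum, ← Complex.re_sum]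
      have : ((N : ℂ)⁻¹) = (((N : ℝ)⁻¹ : ℝ) : ℂ) := by push_cast; rfl
      rw [this, Complex.re_ofReal_mul]
    rw [h1, ← div_eq_inv_mul, le_div_iff₀ hN']
    calc ((M.tr e).re + (M.tr f).re - 1) * N =
        ∑ k ∈ Finset.range N, ((M.tr e).re + (M.tr f).re - 1) := by
          rw [Finset.sum_const, Finset.card_range, nsmul_eq_mul, mul_comm]
      _ ≤ _ := Finset.sum_le_sum fun k _ => key k
  have hfin : (M.tr e).re + (M.tr f).re - 1 ≤ 0 :=
    ge_of_tendsto hre (Filter.eventually_atTop.mpr ⟨1, fun N hN => hav N hN⟩)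
  linarith

/-- if `e, f ≤ p` are projections in `M` whose ranges intersect trivially, then
`τ(e) + τ(f) ≤ τ(p)`. -/
lemma tr_add_tr_le {e f p : H →L[ℂ] H} (he : IsStarProjection e) (hf : IsStarProjection f)
    (hp : IsStarProjection p) (heM : e ∈ M.alg) (hfM : f ∈ M.alg) (hpM : p ∈ M.alg)
    (hep : p * e = e) (hfp : p * f = f)
    (h : ∀ x, e x = x → f x = x → x = 0) :
    (M.tr e).re + (M.tr f).re ≤ (M.tr p).re := by
  have hep' : e * p = e := by
    have := congrArg star hep
    rwa [star_mul, hp.isSelfAdjoint.star_eq, he.isSelfAdjoint.star_eq] at this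
  have hee : e * e = e := he.isIdempotentElem
  have hpp : p * p = p := hp.isIdempotentElem
  have he' : IsStarProjection (e + (1 - p)) := by
    refine ⟨?_, he.isSelfAdjoint.add ((IsSelfAdjoint.one _).sub hp.isSelfAdjoint)⟩
    change (e + (1 - p)) * (e + (1 - p)) = e + (1 - p)
    have : (e + (1 - p)) * (e + (1 - p)) = e * e + (e - e * p) + (e - p * e) +
        (1 - p - p + p * p) := by noncomm_ring
    rw [this, hee, hep, hep', hpp]
    abel
  have h1 := M.tr_add_tr_le_one he' hf (add_mem heM (sub_mem (one_mem _) hpM)) hfM (by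
    intro x hx hfx
    have hpx : p x = x := by
      have h2 : p (f x) = f x := congrArg (fun g : H →L[ℂ] H => g x) hfp
      rwa [hfx] at h2
    have h3 : e x = x := by
      have h4 : e x + (x - p x) = x := hx
      rwa [hpx, sub_self, add_zero] at h4
    exact h x h3 hfx)
  rw [tr_add, tr_sub, tr_one, Complex.add_re, Complex.sub_re, Complex.one_re] at h1
  linarith

end TracialVN

end Helper45.QPerm
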