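import Pool.Agent.Helper45.QPerm.Defs

open scoped ENNReal

namespace Helper45.QPerm

section Exist

noncomputable instance {I : Type*} {A : I → Type*} [∀ i, Nontrivial (A i)]
    [∀ i, CStarAlgebra (A i)] : CStarAlgebra (lp A ∞) where

/-- a magic unitary in a nontrivial C*-algebra -/
structure MP (n : ℕ) : Type 1 where
  B : Type
  [alg : CStarAlgebra B]
  [nt : Nontrivial B]
  v : Fin n → Fin n → B
  magic : IsMagic n v

attribute [instance] MP.alg MP.nt

variable {n : ℕ}

/-- the free algebra -/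
abbrev FA (n : ℕ) : Type := FreeAlgebra ℂ (Fin n × Fin n)

noncomputable def liftA {B : Type} [CStarAlgebra B] (v : Fin n → Fin n → B) : FA n →ₐ[ℂ] B :=
  FreeAlgebra.lift ℂ (fun p => v p.1 p.2)

lemma liftA_ι {B : Type} [CStarAlgebra B] (v : Fin n → Fin n → B) (p : Fin n × Fin n) :
    liftA v (FreeAlgebra.ι ℂ p) = v p.1 p.2 := by
  unfold liftA
  rw [FreeAlgebra.lift_ι_apply]

lemma liftA_bdd (x : FA n) : ∃ C : ℝ, ∀ m : MP n, ‖liftA m.v x‖ ≤ C := by
  induction x using FreeAlgebra.induction with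
  | grade0 r =>
    refine ⟨‖r‖, fun m => ?_⟩
    rw [AlgHomClass.commutes, norm_algebraMap']
  | grade1 p =>
    refine ⟨1, fun m => ?_⟩
    rw [liftA_ι]
    exact IsStarProjection.norm_le _ (m.magic.proj _ _)
  | mul a b ha hb =>
    obtain ⟨C, hC⟩ := ha
    obtain ⟨D, hD⟩ := hb
    refine ⟨C * D, fun m => ?_⟩
    rw [map_mul]
    exact (norm_mul_le _ _).trans (mul_le_mul (hC m) (hD m) (norm_nonneg _)
      ((norm_nonneg _).trans (hC m)))
  | add a b ha hb =>
    obtain ⟨C, hC⟩ := ha
    obtain ⟨D, hD⟩ := hb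
    refine ⟨C + D, fun m => ?_⟩
    rw [map_add]
    exact (norm_add_le _ _).trans (add_le_add (hC m) (hD m))

/-- the trivial magic unitary -/
noncomputable def mpOne (n : ℕ) : MP n where
  B := ℂ
  v i j := if i = j then 1 else 0
  magic :=
    { proj := fun i j => by
        refine ⟨?_, ?_⟩
        · change (if i = j then (1 : ℂ) else 0) * (if i = j then (1 : ℂ) else 0) = _
          split_ifs <;> simp
        · change star (if i = j then (1 : ℂ) else 0) = _
          split_ifs <;> simp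
      row := fun i => by simp
      col := fun j => by simp }

lemma exists_universal_family (n : ℕ) : ∃ m : FA n × ℕ → MP n,
    ∀ (x : FA n) (k : ℕ) (m' : MP n), ‖liftA m'.v x‖ < ‖liftA (m (x, k)).v x‖ + 1 / (k + 1 : ℝ) := by
  have h : ∀ p : FA n × ℕ, ∃ m : MP n, ∀ m' : MP n,
      ‖liftA m'.v p.1‖ < ‖liftA m.v p.1‖ + 1 / (p.2 + 1 : ℝ) := by
    rintro ⟨x, k⟩
    obtain ⟨C, hC⟩ := liftA_bdd x
    set S : Set ℝ := {r | ∃ m : MP n, r = ‖liftA m.v x‖} with hS
    have hne : S.Nonempty := ⟨_, mpOne n, rfl⟩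
    have hb : BddAbove S := ⟨C, by rintro _ ⟨m, rfl⟩; exact hC m⟩
    have hlt : sSup S - 1 / (k + 1 : ℝ) < sSup S := by
      have : (0 : ℝ) < 1 / (k + 1) := by positivity
      linarith
    obtain ⟨_, ⟨m, rfl⟩, hm⟩ := exists_lt_of_lt_csSup hne hlt
    refine ⟨m, fun m' => ?_⟩
    have := le_csSup hb ⟨m', rfl⟩
    simp only
    linarith
  choose m hm using h
  exact ⟨m, fun x k m' => hm (x, k) m'⟩

/-- the big product magic unitary -/
noncomputable def bigU (m : FA n × ℕ → MP n) (i j : Fin n) : lp (fun k => (m k).B) ∞ :=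
  ⟨fun k => (m k).v i j, by
    apply memℓp_infty
    refine ⟨1, ?_⟩
    rintro _ ⟨k, rfl⟩
    exact IsStarProjection.norm_le _ ((m k).magic.proj _ _)⟩

lemma bigU_magic (m : FA n × ℕ → MP n) : IsMagic n (bigU m) where
  proj i j := by
    refine ⟨?_, ?_⟩
    · apply lp.ext
      funext k
      exact ((m k).magic.proj i j).isIdempotentElem
    · apply lp.ext
      funext k
      exact ((m k).magic.proj i j).isSelfAdjoint
  row i := by
    apply lp.ext
    funext k
    rw [lp.coeFn_sum]
    simp only [Finset.sum_apply]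
    exact (m k).magic.row i
  col j := by
    apply lp.ext
    funext k
    rw [lp.coeFn_sum]
    simp only [Finset.sum_apply]
    exact (m k).magic.col j

/-- evaluation of the free algebra in the product -/
lemma liftA_bigU (m : FA n × ℕ → MP n) (x : FA n) (k : FA n × ℕ) :
    (liftA (bigU m) x : lp (fun k => (m k).B) ∞) k = liftA (m k).v x := by
  induction x using FreeAlgebra.induction with
  | grade0 r =>
    rw [AlgHomClass.commutes, AlgHomClass.commutes, Algebra.algebraMap_eq_smul_one,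
      Algebra.algebraMap_eq_smul_one]
    rfl
  | grade1 p =>
    rw [liftA_ι, liftA_ι]
    rfl
  | mul a b ha hb =>
    rw [map_mul, map_mul, ← ha, ← hb]
    rfl
  | add a b ha hb =>
    rw [map_add, map_add, ← ha, ← hb]
    rfl

lemma liftA_le {m : FA n × ℕ → MP n} (hm : ∀ (x : FA n) (k : ℕ) (m' : MP n),
    ‖liftA m'.v x‖ < ‖liftA (m (x, k)).v x‖ + 1 / (k + 1 : ℝ)) (m' : MP n) (x : FA n) :
    ‖liftA m'.v x‖ ≤ ‖liftA (bigU m) x‖ := by
  have h1 : ∀ k : ℕ, ‖liftA m'.v x‖ ≤ ‖liftA (bigU m) x‖ + 1 / (k + 1 : ℝ) := by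
    intro k
    have h2 := lp.norm_apply_le_norm ENNReal.top_ne_zero (liftA (bigU m) x) (x, k)
    rw [liftA_bigU] at h2
    linarith [hm x k m']
  have h3 : Filter.Tendsto (fun k : ℕ => ‖liftA (bigU m) x‖ + 1 / (k + 1 : ℝ)) Filter.atTop
      (nhds (‖liftA (bigU m) x‖ + 0)) :=
    tendsto_const_nhds.add tendsto_one_div_add_atTop_nhds_zero_nat
  rw [add_zero] at h3
  exact ge_of_tendsto' h3 h1

/-- the set of generators -/
def gens {B : Type} (v : Fin n → Fin n → B) : Set B := Set.range fun p : Fin n × Fin n => v p.1 p.2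

lemma adjoin_eq_range {B : Type} [CStarAlgebra B] {v : Fin n → Fin n → B} (hv : IsMagic n v) {b : B}
    (hb : b ∈ StarAlgebra.adjoin ℂ (gens v)) : ∃ x : FA n, liftA v x = b := by
  have h3 : (StarAlgebra.adjoin ℂ (gens v)).toSubalgebra = Algebra.adjoin ℂ (gens v) := by
    rw [StarAlgebra.adjoin_toSubalgebra]
    congr 1
    apply Set.union_eq_self_of_subset_right
    rintro x ⟨⟨i, j⟩, hx⟩
    refine ⟨(i, j), ?_⟩
    have := (hv.proj i j).isSelfAdjoint
    rw [← star_star x, ← hx]
    exact this.star_eq.symm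
  have h4 : b ∈ Algebra.adjoin ℂ (gens v) := by
    rw [← h3]; exact hb
  clear hb
  induction h4 using Algebra.adjoin_induction with
  | mem x hx =>
    obtain ⟨p, rfl⟩ := hx
    exact ⟨FreeAlgebra.ι ℂ p, liftA_ι v p⟩
  | algebraMap r => exact ⟨algebraMap ℂ _ r, AlgHomClass.commutes _ _⟩
  | add x y _ _ hx hy =>
    obtain ⟨a, rfl⟩ := hx
    obtain ⟨b, rfl⟩ := hy
    exact ⟨a + b, map_add _ _ _⟩
  | mul x y _ _ hx hy =>
    obtain ⟨a, rfl⟩ := hx
    obtain ⟨b, rfl⟩ := hy
    exact ⟨a * b, map_mul _ _ _⟩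

/-- the C*-algebra generated by a magic unitary -/
def cAlg {B : Type} [CStarAlgebra B] (v : Fin n → Fin n → B) : StarSubalgebra ℂ B :=
  (StarAlgebra.adjoin ℂ (gens v)).topologicalClosure

instance cAlg_closed {B : Type} [CStarAlgebra B] (v : Fin n → Fin n → B) :
    IsClosed (cAlg v : Set B) := StarSubalgebra.isClosed_topologicalClosure _

lemma mem_cAlg {B : Type} [CStarAlgebra B] (v : Fin n → Fin n → B) (i j : Fin n) :
    v i j ∈ cAlg v :=
  StarSubalgebra.le_topologicalClosure _ (StarAlgebra.subset_adjoin ℂ _ ⟨(i, j), rfl⟩)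

/-- the generators of `cAlg` -/
def cGen {B : Type} [CStarAlgebra B] (v : Fin n → Fin n → B) (i j : Fin n) : cAlg v :=
  ⟨v i j, mem_cAlg v i j⟩

lemma cGen_magic {B : Type} [CStarAlgebra B] {v : Fin n → Fin n → B} (hv : IsMagic n v) :
    IsMagic n (cGen v) where
  proj i j := by
    refine ⟨?_, ?_⟩
    · exact Subtype.ext (hv.proj i j).isIdempotentElem
    · exact Subtype.ext (hv.proj i j).isSelfAdjoint
  row i := by
    apply Subtype.ext
    simp only [cGen, AddSubmonoidClass.coe_finsetSum, OneMemClass.coe_one]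
    exact hv.row i
  col j := by
    apply Subtype.ext
    simp only [cGen, AddSubmonoidClass.coe_finsetSum, OneMemClass.coe_one]
    exact hv.col j

lemma cAlg_hom_ext {B C : Type} [CStarAlgebra B] [CStarAlgebra C] {v : Fin n → Fin n → B}
    {f g : cAlg v →⋆ₐ[ℂ] C} (h : ∀ i j, f (cGen v i j) = g (cGen v i j)) : f = g := by
  have hf : Continuous f := AddMonoidHomClass.continuous_of_bound f 1 (fun x => by
    rw [one_mul]; exact NonUnitalStarAlgHom.norm_apply_le f x)
  have hg : Continuous g := AddMonoidHomClass.continuous_of_bound g 1 (fun x => by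
    rw [one_mul]; exact NonUnitalStarAlgHom.norm_apply_le g x)
  refine StarAlgHom.ext_topologicalClosure hf hg ?_
  refine StarAlgHom.ext_adjoin ?_
  rintro ⟨_, hx⟩ ⟨⟨i, j⟩, rfl⟩
  exact h i j

/-- magic unitary in a product -/
lemma prod_magic {B C : Type} [CStarAlgebra B] [CStarAlgebra C] {v : Fin n → Fin n → B}
    {w : Fin n → Fin n → C} (hv : IsMagic n v) (hw : IsMagic n w) :
    IsMagic n (fun i j => (v i j, w i j)) where
  proj i j := by
    refine ⟨?_, ?_⟩
    · exact Prod.ext (hv.proj i j).isIdempotentElem (hw.proj i j).isIdempotentElem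
    · exact Prod.ext (hv.proj i j).isSelfAdjoint (hw.proj i j).isSelfAdjoint
  row i := by
    apply Prod.ext
    · rw [Prod.fst_sum]; exact hv.row i
    · rw [Prod.snd_sum]; exact hw.row i
  col j := by
    apply Prod.ext
    · rw [Prod.fst_sum]; exact hv.col j
    · rw [Prod.snd_sum]; exact hw.col j

lemma liftA_prod {B C : Type} [CStarAlgebra B] [CStarAlgebra C] (v : Fin n → Fin n → B)
    (w : Fin n → Fin n → C) (x : FA n) :
    liftA (fun i j => (v i j, w i j)) x = (liftA v x, liftA w x) := by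
  induction x using FreeAlgebra.induction with
  | grade0 r => rw [AlgHomClass.commutes, AlgHomClass.commutes, AlgHomClass.commutes]; rfl
  | grade1 p => rw [liftA_ι, liftA_ι, liftA_ι]
  | mul a b ha hb => rw [map_mul, map_mul, map_mul, ha, hb]; rfl
  | add a b ha hb => rw [map_add, map_add, map_add, ha, hb]; rfl

/-- the universal property from the norm inequality -/
lemma exists_hom {B C : Type} [CStarAlgebra B] [CStarAlgebra C] {v : Fin n → Fin n → B}
    {w : Fin n → Fin n → C} (hv : IsMagic n v) (hw : IsMagic n w)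
    (hle : ∀ x : FA n, ‖liftA w x‖ ≤ ‖liftA v x‖) :
    ∃ f : cAlg v →⋆ₐ[ℂ] C, ∀ i j, f (cGen v i j) = w i j := by
  have hvw := prod_magic hv hw
  have hnorm : ∀ d ∈ cAlg (fun i j => (v i j, w i j)), ‖d.2‖ ≤ ‖d.1‖ := by
    intro d hd
    have hcl : IsClosed {d : B × C | ‖d.2‖ ≤ ‖d.1‖} :=
      isClosed_le continuous_snd.norm continuous_fst.norm
    have h1 : ((StarAlgebra.adjoin ℂ (gens (fun i j => (v i j, w i j)))) : Set (B × C)) ⊆
        {d : B × C | ‖d.2‖ ≤ ‖d.1‖} := by
      intro d hd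
      obtain ⟨x, rfl⟩ := adjoin_eq_range hvw hd
      rw [liftA_prod]
      exact hle x
    have h2 : d ∈ closure ((StarAlgebra.adjoin ℂ (gens (fun i j => (v i j, w i j)))) :
        Set (B × C)) := by
      rw [← StarSubalgebra.topologicalClosure_coe]
      exact hd
    exact closure_minimal h1 hcl h2
  let F : cAlg (fun i j => (v i j, w i j)) →⋆ₐ[ℂ] B :=
    (StarAlgHom.fst ℂ B C).comp (cAlg (fun i j => (v i j, w i j))).subtype
  let G : cAlg (fun i j => (v i j, w i j)) →⋆ₐ[ℂ] C :=
    (StarAlgHom.snd ℂ B C).comp (cAlg (fun i j => (v i j, w i j))).subtype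
  have hF : ∀ d, F d = d.1.1 := fun d => rfl
  have hG : ∀ d, G d = d.1.2 := fun d => rfl
  have hiso : Isometry F := by
    apply AddMonoidHomClass.isometry_of_norm
    intro d
    rw [hF]
    have h1 := hnorm d.1 d.2
    change ‖d.1.1‖ = ‖d.1‖
    rw [Prod.norm_def, max_eq_left h1]
  have hinj : Function.Injective F := hiso.injective
  have hrange : cAlg v ≤ F.range := by
    apply StarSubalgebra.topologicalClosure_minimal
    · apply StarAlgebra.adjoin_le
      rintro _ ⟨⟨i, j⟩, rfl⟩
      exact ⟨cGen _ i j, rfl⟩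
    · have h1 := hiso.isClosedEmbedding.isClosed_range
      have h2 : (F.range : Set B) = Set.range F := rfl
      rw [h2]
      exact h1
  let E := StarAlgEquiv.ofInjective F hinj
  refine ⟨G.comp (((E.symm : F.range ≃⋆ₐ[ℂ] _) : F.range →⋆ₐ[ℂ] _).comp
    (StarSubalgebra.inclusion hrange)), fun i j => ?_⟩
  have h1 : StarSubalgebra.inclusion hrange (cGen v i j) =
      E (cGen (fun i j => (v i j, w i j)) i j) := by
    apply Subtype.ext
    rfl
  change G (E.symm (StarSubalgebra.inclusion hrange (cGen v i j))) = w i j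
  rw [h1, StarAlgEquiv.symm_apply_apply, hG]
  rfl

/-- `C(S_n^+)` exists. -/
theorem exists_isQuantumPermutationAlgebra (n : ℕ) :
    ∃ (A : Type) (_ : CStarAlgebra A) (u : Fin n → Fin n → A), IsQuantumPermutationAlgebra n A u := by
  obtain ⟨m, hm⟩ := exists_universal_family n
  refine ⟨cAlg (bigU m), inferInstance, cGen (bigU m), cGen_magic (bigU_magic m), ?_⟩
  intro B _ w hw
  have hex : ∃ f : cAlg (bigU m) →⋆ₐ[ℂ] B, ∀ i j, f (cGen (bigU m) i j) = w i j := by
    rcases subsingleton_or_nontrivial B with hB | hB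
    · refine exists_hom (bigU_magic m) hw fun x => ?_
      rw [Subsingleton.elim (liftA w x) 0, norm_zero]
      exact norm_nonneg _
    · exact exists_hom (bigU_magic m) hw fun x => liftA_le hm ⟨B, w, hw⟩ x
  obtain ⟨f, hf⟩ := hex
  refine ⟨f, hf, fun g hg => cAlg_hom_ext fun i j => ?_⟩
  rw [hf, hg]

end Exist

end Helper45.QPerm
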