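import Pool.Agent.Helper45.QPerm.Four

open scoped InnerProductSpace ComplexOrder ENNReal Topology Pointwise

namespace Helper45.QPerm

section MagicRel

attribute [local instance] CStarAlgebra.spectralOrder CStarAlgebra.spectralOrderedRing

lemma orth_of_sum {B : Type*} [CStarAlgebra B] {ι : Type*} [Fintype ι] [DecidableEq ι] {p : ι → B}
    (hp : ∀ i, IsStarProjection (p i)) (hs : ∑ i, p i = 1) {j k : ι} (hjk : j ≠ k) :
    p j * p k = 0 := by
  have h1 : ∑ i, p k * p i * p k = p k := by
    rw [← Finset.sum_mul, ← Finset.mul_sum, hs, mul_one, (hp k).isIdempotentElem.eq]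
  have h2 : ∑ i ∈ Finset.univ.erase k, p k * p i * p k = 0 := by
    have h3 := Finset.add_sum_erase Finset.univ (fun i => p k * p i * p k) (Finset.mem_univ k)
    rw [h1, (hp k).isIdempotentElem.eq, (hp k).isIdempotentElem.eq] at h3
    exact left_eq_add.mp h3.symm
  have hnn : ∀ i, 0 ≤ p k * p i * p k := by
    intro i
    have : p k * p i * p k = star (p i * p k) * (p i * p k) := by
      rw [star_mul, (hp k).isSelfAdjoint.star_eq, (hp i).isSelfAdjoint.star_eq, mul_assoc,
        mul_assoc, ← mul_assoc (p i) (p i), (hp i).isIdempotentElem.eq]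
    rw [this]
    exact star_mul_self_nonneg _
  have h4 := (Finset.sum_eq_zero_iff_of_nonneg (fun i _ => hnn i)).mp h2 j
    (Finset.mem_erase.mpr ⟨hjk, Finset.mem_univ j⟩)
  have h5 : star (p j * p k) * (p j * p k) = 0 := by
    rw [star_mul, (hp k).isSelfAdjoint.star_eq, (hp j).isSelfAdjoint.star_eq, mul_assoc,
      ← mul_assoc (p j) (p j), (hp j).isIdempotentElem.eq, ← mul_assoc]
    exact h4
  exact CStarRing.star_mul_self_eq_zero_iff _ |>.mp h5

lemma IsMagic.rel {B : Type*} [CStarAlgebra B] {u : Fin 4 → Fin 4 → B} (hu : IsMagic 4 u) :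
    Rel u where
  row := by
    intro i j k
    split_ifs with h
    · subst h; exact (hu.proj i j).isIdempotentElem
    · exact orth_of_sum (fun j => hu.proj i j) (hu.row i) h
  col := by
    intro i j k
    split_ifs with h
    · subst h; exact (hu.proj j i).isIdempotentElem
    · exact orth_of_sum (fun j => hu.proj j i) (hu.col i) h
  rsum := hu.row
  csum := hu.col

end MagicRel

section Gen

variable {B : Type*} [CStarAlgebra B] {u : Fin 4 → Fin 4 → B}

lemma fy_star (hu : IsMagic 4 u) (i b : Fin 4) : star (fy u i b) = fy u i b := by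
  unfold fy
  rw [star_sum]
  refine Finset.sum_congr rfl fun j _ => ?_
  rw [star_zsmul, (hu.proj i j).isSelfAdjoint.star_eq]

lemma fx_star (hu : IsMagic 4 u) (a b : Fin 4) : star (fx u a b) = fx u a b := by
  unfold fx
  rw [star_smul, star_sum]
  have h : star (1 / 4 : ℂ) = 1 / 4 := by
    have : (1 / 4 : ℂ) = ((1 / 4 : ℝ) : ℂ) := by push_cast; rfl
    rw [this]
    exact Complex.conj_ofReal _
  rw [h]
  congr 1
  refine Finset.sum_congr rfl fun i _ => ?_
  rw [star_zsmul, fy_star hu]

lemma u_eq_fy (u : Fin 4 → Fin 4 → B) (i j : Fin 4) : u i j = (1 / 4 : ℂ) • ∑ b, kh b j • fy u i b := by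
  unfold fy
  simp only [Finset.smul_sum (r := (kh _ _)), smul_smul]
  rw [Finset.sum_comm]
  have h1 : ∀ k, ∑ b, (kh b j * kh b k) • u i k = if k = j then (4 : ℤ) • u i j else 0 := by
    intro k
    rw [← Finset.sum_smul]
    have h2 : ∑ a, kh a j * kh a k = if j = k then 4 else 0 := by
      rw [← kh_orth j k]
      refine Finset.sum_congr rfl fun a _ => ?_
      rw [kh_symm a j, kh_symm a k]
    rw [h2]
    by_cases h : j = k
    · subst h; simp
    · rw [if_neg h, if_neg (fun h' => h h'.symm), zero_smul]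
  simp only [h1, Finset.sum_ite_eq', Finset.mem_univ, if_true]
  rw [← Int.cast_smul_eq_zsmul ℂ, smul_smul]
  norm_num

/-- the nine generators -/
noncomputable def gx (u : Fin 4 → Fin 4 → B) (p : Fin 3 × Fin 3) : B := fx u p.1.succ p.2.succ

lemma gx_star (hu : IsMagic 4 u) (p : Fin 3 × Fin 3) : star (gx u p) = gx u p := fx_star hu _ _

lemma gx_comm (hu : IsMagic 4 u) (p q : Fin 3 × Fin 3) :
    gx u p * gx u q = gx u q * gx u p ∨ gx u p * gx u q = -(gx u q * gx u p) := by
  obtain ⟨a, b⟩ := p
  obtain ⟨c, d⟩ := q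
  unfold gx
  simp only
  by_cases h1 : a = c
  · by_cases h2 : b = d
    · left; rw [h1, h2]
    · right
      rw [h1]
      exact hu.rel.anti_row (Fin.succ_ne_zero _) (Fin.succ_ne_zero _) (Fin.succ_ne_zero _)
        (fun h => h2 (Fin.succ_injective _ h))
  · by_cases h2 : b = d
    · right
      rw [h2]
      exact hu.rel.anti_col (Fin.succ_ne_zero _) (Fin.succ_ne_zero _) (Fin.succ_ne_zero _)
        (fun h => h1 (Fin.succ_injective _ h))
    · left
      exact hu.rel.commute (Fin.succ_ne_zero _) (Fin.succ_ne_zero _) (Fin.succ_ne_zero _)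
        (Fin.succ_ne_zero _) (fun h => h1 (Fin.succ_injective _ h).symm)
        (fun h => h2 (Fin.succ_injective _ h))

lemma u_mem_adjoin_gx (hu : IsMagic 4 u) (i j : Fin 4) :
    u i j ∈ Algebra.adjoin ℂ (Set.range (gx u)) := by
  have h1 : ∀ a b, fx u a b ∈ Algebra.adjoin ℂ (Set.range (gx u)) := by
    intro a b
    induction a using Fin.cases with
    | zero =>
      rw [hu.rel.fx_zero_left]
      split_ifs
      · exact one_mem _
      · exact zero_mem _
    | succ a =>
      induction b using Fin.cases with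
      | zero =>
        rw [hu.rel.fx_zero_right]
        split_ifs
        · exact one_mem _
        · exact zero_mem _
      | succ b => exact Algebra.subset_adjoin ⟨(a, b), rfl⟩
  rw [u_eq_fy u i j]
  apply Subalgebra.smul_mem
  refine sum_mem fun b _ => zsmul_mem ?_ _
  rw [fy_eq]
  exact sum_mem fun a _ => zsmul_mem (h1 a b) _

end Gen

/-! ### Algebras generated by (anti)commuting elements with scalar squares -/

section FinDim

variable {R : Type*} [Ring R] [Algebra ℂ R]

/-- span of ordered products -/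
def PL : List R → Submodule ℂ R
  | [] => 1
  | (x :: l) => PL l ⊔ PL l * Submodule.span ℂ {x}

variable {S : Set R}

lemma PL_comm (hS : ∀ x ∈ S, ∀ y ∈ S, x * y = y * x ∨ x * y = -(y * x)) {l : List R}
    (hl : ∀ x ∈ l, x ∈ S) {y : R} (hy : y ∈ S) :
    Submodule.span ℂ {y} * PL l ≤ PL l * Submodule.span ℂ {y} := by
  induction l with
  | nil =>
    change Submodule.span ℂ {y} * 1 ≤ 1 * Submodule.span ℂ {y}
    rw [mul_one, one_mul]
  | cons x l ih =>
    have ih' := ih (fun z hz => hl z (List.mem_cons_of_mem _ hz))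
    have hx : x ∈ S := hl x List.mem_cons_self
    change Submodule.span ℂ {y} * (PL l ⊔ PL l * Submodule.span ℂ {x}) ≤
      (PL l ⊔ PL l * Submodule.span ℂ {x}) * Submodule.span ℂ {y}
    rw [Submodule.mul_sup, Submodule.sup_mul]
    refine sup_le_sup ih' ?_
    have hyx : Submodule.span ℂ {y} * Submodule.span ℂ {x} ≤
        Submodule.span ℂ {x} * Submodule.span ℂ {y} := by
      rw [Submodule.span_mul_span, Submodule.span_mul_span, Set.singleton_mul_singleton,
        Set.singleton_mul_singleton, Submodule.span_singleton_le_iff_mem]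
      rcases hS y hy x hx with h | h
      · rw [h]; exact Submodule.mem_span_singleton_self _
      · rw [h]; exact Submodule.neg_mem _ (Submodule.mem_span_singleton_self _)
    calc Submodule.span ℂ {y} * (PL l * Submodule.span ℂ {x}) =
          (Submodule.span ℂ {y} * PL l) * Submodule.span ℂ {x} := (mul_assoc _ _ _).symm
      _ ≤ (PL l * Submodule.span ℂ {y}) * Submodule.span ℂ {x} := mul_le_mul' ih' le_rfl
      _ = PL l * (Submodule.span ℂ {y} * Submodule.span ℂ {x}) := mul_assoc _ _ _
      _ ≤ PL l * (Submodule.span ℂ {x} * Submodule.span ℂ {y}) := mul_le_mul' le_rfl hyx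
      _ = (PL l * Submodule.span ℂ {x}) * Submodule.span ℂ {y} := (mul_assoc _ _ _).symm

lemma PL_mul (hS : ∀ x ∈ S, ∀ y ∈ S, x * y = y * x ∨ x * y = -(y * x))
    (hsq : ∀ x ∈ S, ∃ t : ℂ, x * x = t • 1) {l : List R}
    (hl : ∀ x ∈ l, x ∈ S) : PL l * PL l ≤ PL l := by
  induction l with
  | nil => change (1 : Submodule ℂ R) * 1 ≤ 1; rw [mul_one]
  | cons x l ih =>
    have ih' := ih (fun z hz => hl z (List.mem_cons_of_mem _ hz))
    have hx : x ∈ S := hl x List.mem_cons_self
    have hc := PL_comm hS (fun z hz => hl z (List.mem_cons_of_mem _ hz)) hx (l := l)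
    change (PL l ⊔ PL l * Submodule.span ℂ {x}) * (PL l ⊔ PL l * Submodule.span ℂ {x}) ≤
      PL l ⊔ PL l * Submodule.span ℂ {x}
    set X := Submodule.span ℂ {x} with hX
    have hXX : X * X ≤ 1 := by
      obtain ⟨t, ht⟩ := hsq x hx
      rw [hX, Submodule.span_mul_span, Set.singleton_mul_singleton, ht,
        Submodule.span_singleton_le_iff_mem]
      exact Submodule.smul_mem _ _ (Submodule.one_le.mp le_rfl)
    rw [Submodule.mul_sup, Submodule.sup_mul, Submodule.sup_mul]
    refine sup_le (sup_le (ih'.trans le_sup_left) ?_) (sup_le ?_ ?_)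
    · refine le_trans ?_ (le_sup_right (a := PL l))
      calc PL l * X * PL l = PL l * (X * PL l) := mul_assoc _ _ _
        _ ≤ PL l * (PL l * X) := mul_le_mul' le_rfl hc
        _ = (PL l * PL l) * X := (mul_assoc _ _ _).symm
        _ ≤ PL l * X := mul_le_mul' ih' le_rfl
    · refine le_trans ?_ (le_sup_right (a := PL l))
      calc PL l * (PL l * X) = (PL l * PL l) * X := (mul_assoc _ _ _).symm
        _ ≤ PL l * X := mul_le_mul' ih' le_rfl
    · refine le_trans ?_ (le_sup_left (b := PL l * X))
      calc PL l * X * (PL l * X) = PL l * (X * PL l) * X := by simp only [mul_assoc]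
        _ ≤ PL l * (PL l * X) * X :=
            mul_le_mul' (mul_le_mul' le_rfl hc) le_rfl
        _ = (PL l * PL l) * (X * X) := by simp only [mul_assoc]
        _ ≤ PL l * 1 := mul_le_mul' ih' hXX
        _ = PL l := mul_one _

lemma PL_one (l : List R) : (1 : R) ∈ PL l := by
  induction l with
  | nil => exact (Submodule.one_le.mp le_rfl)
  | cons x l ih => exact Submodule.mem_sup_left ih

lemma PL_mem {l : List R} {x : R} (hx : x ∈ l) : x ∈ PL l := by
  induction l with
  | nil => exact absurd hx List.not_mem_nil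
  | cons y l ih =>
    rcases List.mem_cons.mp hx with rfl | hx'
    · apply Submodule.mem_sup_right
      have := Submodule.mul_mem_mul (PL_one l) (Submodule.mem_span_singleton_self (R := ℂ) x)
      rwa [one_mul] at this
    · exact Submodule.mem_sup_left (ih hx')

lemma PL_finrank (l : List R) :
    Module.Finite ℂ (PL l) ∧ Module.finrank ℂ (PL l) ≤ 2 ^ l.length := by
  induction l with
  | nil =>
    change Module.Finite ℂ (1 : Submodule ℂ R) ∧ Module.finrank ℂ (1 : Submodule ℂ R) ≤ 2 ^ 0
    rw [Submodule.one_eq_span]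
    refine ⟨inferInstance, ?_⟩
    rw [pow_zero]
    exact (finrank_span_le_card ({1} : Set R)).trans (by simp)
  | cons x l ih =>
    obtain ⟨h1, h2⟩ := ih
    have h3 : PL l * Submodule.span ℂ {x} = (PL l).map (LinearMap.mulRight ℂ x) := by
      ext z
      rw [Submodule.mem_mul_span_singleton, Submodule.mem_map]
      rfl
    change Module.Finite ℂ (PL l ⊔ PL l * Submodule.span ℂ {x} : Submodule ℂ R) ∧
      Module.finrank ℂ (PL l ⊔ PL l * Submodule.span ℂ {x} : Submodule ℂ R) ≤ 2 ^ (l.length + 1)
    rw [h3]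
    refine ⟨inferInstance, ?_⟩
    refine (Submodule.finrank_add_le_finrank_add_finrank _ _).trans ?_
    have h4 := Submodule.finrank_map_le (LinearMap.mulRight ℂ x) (PL l)
    rw [pow_succ]
    omega

end FinDim

end Helper45.QPerm
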