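import Pool.Agent.Helper45.QPerm.GNS
import Pool.Agent.Helper45.QPerm.Four2

open scoped InnerProductSpace ComplexOrder ENNReal Topology

namespace Helper45.QPerm

attribute [local instance] CStarAlgebra.spectralOrder CStarAlgebra.spectralOrderedRing

section TraceSet

variable (A : Type) [CStarAlgebra A]

/-- tracial states as functions -/
def TS : Set (A → ℂ) := {f | (∀ a b, f (a + b) = f a + f b) ∧ (∀ (c : ℂ) a, f (c • a) = c * f a) ∧
  (∀ a, ‖f a‖ ≤ ‖a‖) ∧ (∀ a, 0 ≤ f (star a * a)) ∧ f 1 = 1 ∧ ∀ a b, f (a * b) = f (b * a)}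

variable {A}

lemma TracialState.norm_le (φ : TracialState A) (a : A) : ‖φ.1 a‖ ≤ ‖a‖ := by
  have := norm_le_of_pos φ.2.1 a
  rwa [φ.2.2.1, Complex.one_re, one_mul] at this

lemma TracialState.mem_TS (φ : TracialState A) : (fun a => φ.1 a) ∈ TS A :=
  ⟨fun a b => map_add _ a b, fun c a => by simp, φ.norm_le, φ.2.1, φ.2.2.1, φ.2.2.2⟩

lemma exists_of_mem_TS {f : A → ℂ} (hf : f ∈ TS A) : ∃ φ : TracialState A, ∀ a, φ.1 a = f a := by
  obtain ⟨h1, h2, h3, h4, h5, h6⟩ := hf
  let g : StrongDual ℂ A := LinearMap.mkContinuous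
    { toFun := f, map_add' := h1, map_smul' := h2 } 1 (fun a => by rw [one_mul]; exact h3 a)
  exact ⟨⟨g, h4, h5, h6⟩, fun a => rfl⟩

lemma isClosed_TS : IsClosed (TS A) := by
  unfold TS
  have hc : ∀ a : A, Continuous fun f : A → ℂ => f a := fun a => continuous_apply a
  refine IsClosed.inter (s₁ := {f : A → ℂ | ∀ a b, f (a + b) = f a + f b}) ?_ ?_
  · simp only [Set.ofPred_forall]
    exact isClosed_iInter fun a => isClosed_iInter fun b =>
      isClosed_eq (hc _) ((hc a).add (hc b))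
  refine IsClosed.inter (s₁ := {f : A → ℂ | ∀ (c : ℂ) a, f (c • a) = c * f a}) ?_ ?_
  · simp only [Set.ofPred_forall]
    exact isClosed_iInter fun c => isClosed_iInter fun a =>
      isClosed_eq (hc _) (continuous_const.mul (hc a))
  refine IsClosed.inter (s₁ := {f : A → ℂ | ∀ a, ‖f a‖ ≤ ‖a‖}) ?_ ?_
  · simp only [Set.ofPred_forall]
    exact isClosed_iInter fun a => isClosed_le (hc a).norm continuous_const
  refine IsClosed.inter (s₁ := {f : A → ℂ | ∀ a, 0 ≤ f (star a * a)}) ?_ ?_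
  · simp only [Set.ofPred_forall]
    exact isClosed_iInter fun a => isClosed_le continuous_const (hc _)
  refine IsClosed.inter (s₁ := {f : A → ℂ | f 1 = 1}) ?_ ?_
  · exact isClosed_eq (hc _) continuous_const
  · change IsClosed {f : A → ℂ | ∀ a b, f (a * b) = f (b * a)}
    simp only [Set.ofPred_forall]
    exact isClosed_iInter fun a => isClosed_iInter fun b =>
      isClosed_eq (hc _) (hc _)

lemma isCompact_TS : IsCompact (TS A) := by
  have h1 : IsCompact (Set.pi Set.univ fun a : A => Metric.closedBall (0 : ℂ) ‖a‖) :=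
    isCompact_univ_pi fun a => isCompact_closedBall _ _
  refine h1.of_isClosed_subset isClosed_TS ?_
  intro f hf a _
  rw [mem_closedBall_zero_iff]
  exact hf.2.2.1 a

lemma convex_TS : Convex ℝ (TS A) := by
  intro f hf g hg s t hs ht hst
  obtain ⟨h1, h2, h3, h4, h5, h6⟩ := hf
  obtain ⟨k1, k2, k3, k4, k5, k6⟩ := hg
  have e : ∀ a, (s • f + t • g) a = (s : ℂ) * f a + (t : ℂ) * g a := fun a => by
    simp [Complex.real_smul]
  refine ⟨fun a b => ?_, fun c a => ?_, fun a => ?_, fun a => ?_, ?_, fun a b => ?_⟩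
  · rw [e, e, e, h1, k1]; ring
  · rw [e, e, h2, k2]; ring
  · rw [e]
    calc ‖(s : ℂ) * f a + (t : ℂ) * g a‖ ≤ ‖(s : ℂ) * f a‖ + ‖(t : ℂ) * g a‖ := norm_add_le _ _
      _ = s * ‖f a‖ + t * ‖g a‖ := by
          rw [norm_mul, norm_mul, Complex.norm_real, Complex.norm_real, Real.norm_of_nonneg hs,
            Real.norm_of_nonneg ht]
      _ ≤ s * ‖a‖ + t * ‖a‖ := by
          gcongr
          · exact h3 a
          · exact k3 a
      _ = ‖a‖ := by rw [← add_mul, hst, one_mul]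
  · rw [e]
    have hs' : (0 : ℂ) ≤ (s : ℂ) := by exact_mod_cast hs
    have ht' : (0 : ℂ) ≤ (t : ℂ) := by exact_mod_cast ht
    exact add_nonneg (mul_nonneg hs' (h4 a)) (mul_nonneg ht' (k4 a))
  · rw [e, h5, k5, mul_one, mul_one]
    exact_mod_cast hst
  · rw [e, e, h6, k6]

/-- domination by an extreme tracial state -/
lemma extreme_dom {φ : TracialState A} (hφ : (fun a => φ.1 a) ∈ (TS A).extremePoints ℝ)
    (ψ : StrongDual ℂ A) (h0 : ∀ a, 0 ≤ ψ (star a * a)) (ht : ∀ a b, ψ (a * b) = ψ (b * a))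
    (C : ℝ) (hC : ∀ a, ψ (star a * a) ≤ C * φ.1 (star a * a)) (a : A) :
    ψ a = ψ 1 * φ.1 a := by
  have hψ1 : 0 ≤ ψ 1 := by simpa using h0 1
  obtain ⟨s, hs0, hs⟩ : ∃ s : ℝ, 0 ≤ s ∧ ψ 1 = (s : ℂ) := by
    refine ⟨(ψ 1).re, (Complex.le_def.mp hψ1).1, ?_⟩
    exact (Complex.eq_re_of_ofReal_le hψ1)
  have hb : ∀ b, ‖ψ b‖ ≤ s * ‖b‖ := fun b => by
    have := norm_le_of_pos h0 b
    rwa [hs, Complex.ofReal_re] at this
  rcases hs0.eq_or_lt with h | hspos
  · have h1 : ψ a = 0 := by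
      have := hb a
      rw [← h, zero_mul] at this
      exact norm_le_zero_iff.mp this
    rw [h1, hs, ← h]; simp
  -- choose a small multiple
  set r : ℝ := 1 / (|C| + s + 1) with hr
  have hden : 0 < |C| + s + 1 := by positivity
  have hr0 : 0 < r := by positivity
  have hrs : r * s < 1 := by
    rw [hr, one_div, inv_mul_lt_iff₀ hden]
    linarith [abs_nonneg C]
  have hrC : r * C ≤ 1 := by
    rw [hr, one_div, inv_mul_le_iff₀ hden]
    linarith [le_abs_self C]
  -- the two tracial states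
  set f1 : A → ℂ := fun b => (1 / s : ℝ) * ψ b with hf1
  have hf1m : f1 ∈ TS A := by
    refine ⟨fun a b => ?_, fun c a => ?_, fun a => ?_, fun a => ?_, ?_, fun a b => ?_⟩
    · simp only [hf1, map_add]; ring
    · simp only [hf1, map_smul, smul_eq_mul]; ring
    · simp only [hf1]
      rw [norm_mul, Complex.norm_real, Real.norm_of_nonneg (by positivity), one_div,
        inv_mul_le_iff₀ hspos]
      exact hb a
    · have : (0 : ℂ) ≤ ((1 / s : ℝ) : ℂ) := by exact_mod_cast (by positivity : (0:ℝ) ≤ 1 / s)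
      exact mul_nonneg this (h0 a)
    · simp only [hf1]
      rw [hs, ← Complex.ofReal_mul, one_div_mul_cancel hspos.ne']
      simp
    · simp only [hf1, ht]
  set q : ℝ := 1 - r * s with hq
  have hq0 : 0 < q := by linarith
  let χ : StrongDual ℂ A := ((1 / q : ℝ) : ℂ) • (φ.1 - (r : ℂ) • ψ)
  have hχ : ∀ b, χ b = (1 / q : ℝ) * (φ.1 b - r * ψ b) := fun b => rfl
  have hχ0 : ∀ b, 0 ≤ χ (star b * b) := by
    intro b
    rw [hχ]
    have : (0 : ℂ) ≤ ((1 / q : ℝ) : ℂ) := by exact_mod_cast (by positivity : (0:ℝ) ≤ 1 / q)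
    refine mul_nonneg this ?_
    have hr' : (0 : ℂ) ≤ (r : ℂ) := by exact_mod_cast hr0.le
    have h2 := mul_le_mul_of_nonneg_left (hC b) hr'
    have h3 : (r : ℂ) * (C * φ.1 (star b * b)) ≤ φ.1 (star b * b) := by
      have h4 : ((r * C : ℝ) : ℂ) ≤ ((1 : ℝ) : ℂ) := by exact_mod_cast hrC
      have h5 := mul_le_mul_of_nonneg_right h4 (φ.2.1 b)
      rw [← mul_assoc, ← Complex.ofReal_mul]
      simpa using h5
    exact sub_nonneg.mpr (h2.trans h3)
  have hχ1 : χ 1 = 1 := by
    rw [hχ, φ.2.2.1, hs, ← Complex.ofReal_mul]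
    have : ((1 / q : ℝ) : ℂ) * (1 - ((r * s : ℝ) : ℂ)) = ((1 / q * (1 - r * s) : ℝ) : ℂ) := by
      push_cast; ring
    rw [this, ← hq, one_div_mul_cancel hq0.ne']
    simp
  have hχt : ∀ a b, χ (a * b) = χ (b * a) := fun a b => by
    rw [hχ, hχ, ht, φ.2.2.2]
  have hf2m : (fun b => χ b) ∈ TS A := TracialState.mem_TS ⟨χ, hχ0, hχ1, hχt⟩
  have hseg : (fun a => φ.1 a) ∈ openSegment ℝ f1 (fun b => χ b) := by
    refine ⟨r * s, q, by positivity, hq0, by rw [hq]; ring, ?_⟩
    funext b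
    simp only [Pi.add_apply, Pi.smul_apply, Complex.real_smul, hf1, hχ]
    have e1 : ((r * s : ℝ) : ℂ) * (((1 / s : ℝ) : ℂ) * ψ b) = (r : ℂ) * ψ b := by
      rw [← mul_assoc, ← Complex.ofReal_mul]
      congr 2
      field_simp
    have e2 : (q : ℂ) * (((1 / q : ℝ) : ℂ) * (φ.1 b - r * ψ b)) = φ.1 b - r * ψ b := by
      rw [← mul_assoc, ← Complex.ofReal_mul, mul_one_div_cancel hq0.ne']
      simp
    rw [e1, e2]; ring
  have h6 := hφ.2 hf1m hf2m hseg
  have h7 : f1 a = φ.1 a := by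
    exact congrFun h6 a
  rw [hs, ← h7]
  simp only [hf1]
  rw [← mul_assoc, ← Complex.ofReal_mul, mul_one_div_cancel hspos.ne']
  simp

end TraceSet

section FourGNS

variable {A : Type} [CStarAlgebra A] {u : Fin 4 → Fin 4 → A}

/-- squares of the nine generators are central -/
lemma gx_sq_central (hA : IsQuantumPermutationAlgebra 4 A u) (p : Fin 3 × Fin 3) (a : A) :
    gx u p * gx u p * a = a * (gx u p * gx u p) := by
  have h1 : ∀ q, gx u p * gx u p * gx u q = gx u q * (gx u p * gx u p) := by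
    intro q
    rcases gx_comm hA.magic p q with h | h
    · rw [mul_assoc, h, ← mul_assoc, h, mul_assoc]
    · rw [mul_assoc, h, mul_neg, ← mul_assoc, h, neg_mul, neg_neg, mul_assoc]
  let S : Subalgebra ℂ A := Subalgebra.centralizer ℂ {gx u p * gx u p}
  have h2 : ∀ x ∈ Algebra.adjoin ℂ (Set.range (gx u)), gx u p * gx u p * x = x * (gx u p * gx u p) := by
    intro x hx
    induction hx using Algebra.adjoin_induction with
    | mem x hx => obtain ⟨q, rfl⟩ := hx; exact h1 q
    | algebraMap r => exact (Algebra.commutes r _).symm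
    | add x y _ _ hx hy => rw [mul_add, add_mul, hx, hy]
    | mul x y _ _ hx hy => rw [← mul_assoc, hx, mul_assoc, hy, ← mul_assoc]
  have h3 : (genAlg u : Set A) ⊆ {a | gx u p * gx u p * a = a * (gx u p * gx u p)} := by
    intro x hx
    apply h2
    have : genAlg u ≤ Algebra.adjoin ℂ (Set.range (gx u)) := by
      apply Algebra.adjoin_le
      rintro _ ⟨⟨i, j⟩, rfl⟩
      exact u_mem_adjoin_gx hA.magic i j
    exact this hx
  have h4 : IsClosed {a | gx u p * gx u p * a = a * (gx u p * gx u p)} :=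
    isClosed_eq (by fun_prop) (by fun_prop)
  exact closure_minimal h3 h4 (hA.dense a)

variable {φ : TracialState A}

lemma extreme_scalar (hA : IsQuantumPermutationAlgebra 4 A u)
    (hφ : (fun a => φ.1 a) ∈ (TS A).extremePoints ℝ) (p : Fin 3 × Fin 3) (a : A) :
    φ.1 (gx u p * gx u p * a) = φ.1 (gx u p * gx u p) * φ.1 a := by
  set g := gx u p with hg
  have hgs : star g = g := gx_star hA.magic p
  let ψ : StrongDual ℂ A := φ.1.comp (ContinuousLinearMap.mul ℂ A (g * g))
  have hψ : ∀ a, ψ a = φ.1 (g * g * a) := fun a => rfl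
  have hψ' : ∀ a, ψ (star a * a) = φ.1 (star (a * g) * (a * g)) := by
    intro a
    rw [hψ, star_mul, hgs, mul_assoc g, φ.2.2.2 g]
    simp only [mul_assoc]
  have h0 : ∀ a, 0 ≤ ψ (star a * a) := fun a => by rw [hψ']; exact φ.2.1 _
  have ht : ∀ a b, ψ (a * b) = ψ (b * a) := by
    intro a b
    have e1 : g * g * (a * b) = (g * g * a) * b := by simp only [mul_assoc]
    have e2 : b * (g * g * a) = g * g * (b * a) := by
      rw [← mul_assoc b, ← gx_sq_central hA p b, mul_assoc]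
    rw [hψ, hψ, e1, φ.2.2.2, e2]
  have hC : ∀ a, ψ (star a * a) ≤ (‖g‖ ^ 2 : ℝ) * φ.1 (star a * a) := by
    intro a
    rw [hψ']
    have e1 := norm_η_sq φ.2.1 (a * g)
    have e2 := norm_η_sq φ.2.1 a
    have e3 := norm_η_mul_le' φ.2.1 φ.2.2.2 a g
    have i1 := (Complex.le_def.mp (φ.2.1 (a * g)))
    have i2 := (Complex.le_def.mp (φ.2.1 a))
    rw [Complex.le_def]
    constructor
    · rw [Complex.re_ofReal_mul, ← e1, ← e2, ← mul_pow]
      refine pow_le_pow_left₀ (norm_nonneg _) ?_ 2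
      rw [mul_comm]; exact e3
    · rw [Complex.im_ofReal_mul, ← i1.2, ← i2.2]; simp
  have := extreme_dom hφ ψ h0 ht _ hC a
  rw [hψ, hψ, mul_one] at this
  exact this

lemma π_sq_scalar (hA : IsQuantumPermutationAlgebra 4 A u)
    (hφ : (fun a => φ.1 a) ∈ (TS A).extremePoints ℝ) (p : Fin 3 × Fin 3) :
    πη φ.2.1 (gx u p * gx u p) = φ.1 (gx u p * gx u p) • (1 : HT φ →L[ℂ] HT φ) := by
  set c := gx u p * gx u p with hc
  apply ext_η
  intro b
  have h1 : ‖η φ.2.1 (c * b - φ.1 c • b)‖ ^ 2 = 0 := by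
    rw [norm_η_sq]
    have e : ∀ d, φ.1 (d * (c * b - φ.1 c • b)) = 0 := by
      intro d
      rw [mul_sub, map_sub, ← mul_assoc, ← gx_sq_central hA p d, mul_assoc,
        extreme_scalar hA hφ p, mul_smul_comm, map_smul, smul_eq_mul, sub_self]
    rw [e, Complex.zero_re]
  have h2 : η φ.2.1 (c * b) - η φ.2.1 (φ.1 c • b) = 0 := by
    rw [← η_sub]
    exact norm_eq_zero.mp (pow_eq_zero_iff two_ne_zero |>.mp h1)
  rw [πη_apply, sub_eq_zero.mp h2, η_smul]
  rfl

section Generic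

variable {R : Type*} [Ring R] [Algebra ℂ R]

/-- the list of the nine operators -/
noncomputable def nineList (u : Fin 4 → Fin 4 → A) (π : A →ₐ[ℂ] R) : List R :=
  (Finset.univ : Finset (Fin 3 × Fin 3)).toList.map fun p => π (gx u p)

lemma nineList_length (π : A →ₐ[ℂ] R) : (nineList u π).length = 9 := by
  unfold nineList
  rw [List.length_map, Finset.length_toList]
  rfl

lemma genAlg_mem_PL (hu : IsMagic 4 u) (π : A →ₐ[ℂ] R)
    (hπ : ∀ p, ∃ t : ℂ, π (gx u p * gx u p) = t • 1) {x : A} (hx : x ∈ genAlg u) :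
    π x ∈ PL (nineList u π) := by
  let S : Set R := Set.range fun p => π (gx u p)
  have hS : ∀ x ∈ S, ∀ y ∈ S, x * y = y * x ∨ x * y = -(y * x) := by
    rintro _ ⟨p, rfl⟩ _ ⟨q, rfl⟩
    rcases gx_comm hu p q with h | h
    · left; simp only [← map_mul, h]
    · right; simp only [← map_mul, h, map_neg]
  have hsq : ∀ x ∈ S, ∃ t : ℂ, x * x = t • 1 := by
    rintro _ ⟨p, rfl⟩
    obtain ⟨t, ht⟩ := hπ p
    exact ⟨t, by simp only [← map_mul, ht]⟩
  have hl : ∀ x ∈ nineList u π, x ∈ S := by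
    intro x hx
    unfold nineList at hx
    rw [List.mem_map] at hx
    obtain ⟨p, -, rfl⟩ := hx
    exact ⟨p, rfl⟩
  have hmul := PL_mul hS hsq hl
  have hg : ∀ p, π (gx u p) ∈ PL (nineList u π) := by
    intro p
    apply PL_mem
    unfold nineList
    rw [List.mem_map]
    exact ⟨p, by simp, rfl⟩
  have h1 : ∀ y ∈ Algebra.adjoin ℂ (Set.range (gx u)), π y ∈ PL (nineList u π) := by
    intro y hy
    induction hy using Algebra.adjoin_induction with
    | mem x hx => obtain ⟨q, rfl⟩ := hx; exact hg q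
    | algebraMap r =>
      rw [AlgHomClass.commutes, Algebra.algebraMap_eq_smul_one]
      exact Submodule.smul_mem _ _ (PL_one _)
    | add x y _ _ hx hy => rw [map_add]; exact Submodule.add_mem _ hx hy
    | mul x y _ _ hx hy => rw [map_mul]; exact hmul (Submodule.mul_mem_mul hx hy)
  apply h1
  have : genAlg u ≤ Algebra.adjoin ℂ (Set.range (gx u)) := by
    apply Algebra.adjoin_le
    rintro _ ⟨⟨i, j⟩, rfl⟩
    exact u_mem_adjoin_gx hu i j
  exact this hx

/-- finite-dimensionality, abstractly -/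
lemma finite_abstract {E : Type*} [NormedAddCommGroup E] [NormedSpace ℂ E]
    (hA : IsQuantumPermutationAlgebra 4 A u) (π : A →ₐ[ℂ] R)
    (hπ : ∀ p, ∃ t : ℂ, π (gx u p * gx u p) = t • 1) (ev : R →ₗ[ℂ] E)
    (hc : Continuous fun a => ev (π a)) (hd : DenseRange fun a => ev (π a)) :
    FiniteDimensional ℂ E ∧ Module.finrank ℂ E ≤ 512 := by
  have hfin : Module.Finite ℂ (PL (nineList u π)) := (PL_finrank _).1
  have hfin' : FiniteDimensional ℂ ((PL (nineList u π)).map ev) := inferInstance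
  have hcl : IsClosed (((PL (nineList u π)).map ev : Submodule ℂ E) : Set E) :=
    Submodule.closed_of_finiteDimensional _
  have h1 : ∀ a : A, ev (π a) ∈ ((PL (nineList u π)).map ev : Submodule ℂ E) := by
    intro a
    have h4 : (genAlg u : Set A) ⊆ (fun a : A => ev (π a)) ⁻¹'
        (((PL (nineList u π)).map ev : Submodule ℂ E) : Set E) := by
      intro x hx
      exact ⟨π x, genAlg_mem_PL hA.magic π hπ hx, rfl⟩
    exact closure_minimal h4 (hcl.preimage hc) (hA.dense a)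
  have htop : ((PL (nineList u π)).map ev : Submodule ℂ E) = ⊤ := by
    rw [eq_top_iff]
    intro v _
    have h5 : closure (Set.range fun a => ev (π a)) ⊆
        (((PL (nineList u π)).map ev : Submodule ℂ E) : Set E) := by
      apply closure_minimal _ hcl
      rintro _ ⟨a, rfl⟩
      exact h1 a
    exact h5 (hd v)
  have h3 : FiniteDimensional ℂ E := by
    rw [htop] at hfin'
    exact Module.Finite.equiv (Submodule.topEquiv (R := ℂ) (M := E))
  refine ⟨h3, ?_⟩
  have h4 := Submodule.finrank_map_le ev (PL (nineList u π))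
  rw [htop, finrank_top] at h4
  refine h4.trans ((PL_finrank _).2.trans ?_)
  rw [nineList_length]
  norm_num

end Generic

/-- evaluation at the cyclic vector -/
noncomputable def evΩ (φ : TracialState A) : (HT φ →L[ℂ] HT φ) →ₗ[ℂ] HT φ where
  toFun x := x (η φ.2.1 1)
  map_add' _ _ := rfl
  map_smul' _ _ := rfl

lemma norm_η_one (φ : TracialState A) : ‖η φ.2.1 (1 : A)‖ = 1 := by
  have h4 : ‖η φ.2.1 (1 : A)‖ ^ 2 = 1 := by
    have h5 := norm_η_sq φ.2.1 1
    have h6 : (φ.1 (star 1 * 1)).re = 1 := by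
      rw [star_one, one_mul, φ.2.2.1, Complex.one_re]
    exact h5.trans h6
  exact (pow_eq_one_iff_of_nonneg (norm_nonneg _) two_ne_zero).mp h4

lemma η_continuous (φ : TracialState A) : Continuous fun a : A => η φ.2.1 a := by
  have h3 : ∀ a b : A, ‖η φ.2.1 a - η φ.2.1 b‖ ≤ ‖a - b‖ := by
    intro a b
    rw [← η_sub]
    have := norm_η_mul_le φ.2.1 (a - b) 1
    rw [mul_one, norm_η_one, mul_one] at this
    exact this
  refine (LipschitzWith.of_dist_le_mul (K := 1) fun a b => ?_).continuous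
  rw [dist_eq_norm, dist_eq_norm, NNReal.coe_one, one_mul]
  exact h3 a b

lemma HT_finite (hA : IsQuantumPermutationAlgebra 4 A u)
    (hφ : (fun a => φ.1 a) ∈ (TS A).extremePoints ℝ) :
    FiniteDimensional ℂ (HT φ) ∧ Module.finrank ℂ (HT φ) ≤ 512 := by
  have e : ∀ a : A, evΩ φ ((πη φ.2.1 : A →⋆ₐ[ℂ] (HT φ →L[ℂ] HT φ)) a) = η φ.2.1 a := by
    intro a
    change πη φ.2.1 a (η φ.2.1 1) = _
    rw [πη_apply, mul_one]
  refine finite_abstract hA ((πη φ.2.1 : A →⋆ₐ[ℂ] (HT φ →L[ℂ] HT φ)).toAlgHom)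
    (fun p => ⟨_, π_sq_scalar hA hφ p⟩) (evΩ φ) ?_ ?_
  · refine (η_continuous φ).congr fun a => ?_
    exact (e a).symm
  · have h1 : (fun a => evΩ φ ((πη φ.2.1 : A →⋆ₐ[ℂ] (HT φ →L[ℂ] HT φ)).toAlgHom a)) = η φ.2.1 :=
      funext e
    rw [h1]
    exact η_dense φ.2.1

end FourGNS

end Helper45.QPerm
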