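import Pool.Agent.Helper45.QPerm.Weak

open scoped InnerProductSpace ComplexOrder ENNReal Topology

namespace Helper45.QPerm

/-! ### The Klein four-group structure on `Fin 4` -/

/-- addition -/
def kx (a b : Fin 4) : Fin 4 := ![![0, 1, 2, 3], ![1, 0, 3, 2], ![2, 3, 0, 1], ![3, 2, 1, 0]] a b

/-- characters -/
def kh (a i : Fin 4) : ℤ := ![![1, 1, 1, 1], ![1, -1, 1, -1], ![1, 1, -1, -1], ![1, -1, -1, 1]] a i

lemma kh_symm (a b : Fin 4) : kh a b = kh b a := by revert a b; decide
lemma kh_mul (a b i : Fin 4) : kh a i * kh b i = kh (kx a b) i := by revert a b i; decide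
lemma kh_sum (a : Fin 4) : ∑ i, kh a i = if a = 0 then 4 else 0 := by revert a; decide
lemma kx_eq_zero (a b : Fin 4) : kx a b = 0 ↔ a = b := by revert a b; decide
lemma kx_kx (a b : Fin 4) : kx a (kx a b) = b := by revert a b; decide
lemma kx_comm (a b : Fin 4) : kx a b = kx b a := by revert a b; decide

lemma kh_orth (a b : Fin 4) : ∑ i, kh a i * kh b i = if a = b then 4 else 0 := by
  revert a b; decide

lemma kh_triple (a b d : Fin 4) : ∑ i, kh d i * (kh a i * kh b i) =
    if b = kx a d then 4 else 0 := by revert a b d; decide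

section Ring

variable {B : Type*} [Ring B] [Algebra ℂ B]

/-- relations used: entries of a row/column are orthogonal idempotents summing to one -/
structure Rel (u : Fin 4 → Fin 4 → B) : Prop where
  row : ∀ i j k, u i j * u i k = if j = k then u i j else 0
  col : ∀ i j k, u j i * u k i = if j = k then u j i else 0
  rsum : ∀ i, ∑ j, u i j = 1
  csum : ∀ j, ∑ i, u i j = 1

variable (u : Fin 4 → Fin 4 → B)

/-- Fourier coefficients in the second variable -/
noncomputable def fy (i b : Fin 4) : B := ∑ j, kh b j • u i j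

/-- double Fourier coefficients -/
noncomputable def fx (a b : Fin 4) : B := (1 / 4 : ℂ) • ∑ i, kh a i • fy u i b

variable {u}

lemma Rel.fy_mul (hu : Rel u) (i b c : Fin 4) : fy u i b * fy u i c = fy u i (kx b c) := by
  unfold fy
  rw [Finset.sum_mul]
  refine Finset.sum_congr rfl fun j _ => ?_
  rw [Finset.mul_sum]
  simp only [smul_mul_smul_comm, hu.row, smul_ite, smul_zero, Finset.sum_ite_eq,
    Finset.mem_univ, if_true, kh_mul]

lemma fy_eq (i b : Fin 4) : fy u i b = ∑ a, kh a i • fx u a b := by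
  unfold fx
  have h0 : ∀ a, kh a i • ((1 / 4 : ℂ) • ∑ k, kh a k • fy u k b) =
      (1 / 4 : ℂ) • ∑ k, (kh a i * kh a k) • fy u k b := by
    intro a
    rw [smul_comm, Finset.smul_sum]
    simp only [smul_smul]
  simp only [h0]
  rw [← Finset.smul_sum, Finset.sum_comm]
  have h1 : ∀ k, ∑ a, (kh a i * kh a k) • fy u k b = if k = i then (4 : ℤ) • fy u i b else 0 := by
    intro k
    rw [← Finset.sum_smul]
    have h2 : ∑ a, kh a i * kh a k = if i = k then 4 else 0 := by
      rw [← kh_orth i k]
      refine Finset.sum_congr rfl fun a _ => ?_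
      rw [kh_symm a i, kh_symm a k]
    rw [h2]
    by_cases h : i = k
    · subst h; simp
    · rw [if_neg h, if_neg (fun h' => h h'.symm), zero_smul]
  simp only [h1, Finset.sum_ite_eq', Finset.mem_univ, if_true]
  rw [← Int.cast_smul_eq_zsmul ℂ, smul_smul]
  norm_num

/-- first convolution relation -/
lemma Rel.conv (hu : Rel u) (d b c : Fin 4) :
    ∑ a, fx u a b * fx u (kx a d) c = fx u d (kx b c) := by
  have h1 : fx u d (kx b c) = (1 / 4 : ℂ) • ∑ i, kh d i • (fy u i b * fy u i c) := by
    unfold fx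
    congr 1
    refine Finset.sum_congr rfl fun i _ => ?_
    rw [hu.fy_mul]
  rw [h1]
  have h2 : ∀ i, kh d i • (fy u i b * fy u i c) =
      ∑ a, ∑ a', (kh d i * (kh a i * kh a' i)) • (fx u a b * fx u a' c) := by
    intro i
    rw [fy_eq i b, fy_eq i c, Finset.sum_mul, Finset.smul_sum]
    refine Finset.sum_congr rfl fun a _ => ?_
    rw [Finset.mul_sum, Finset.smul_sum]
    refine Finset.sum_congr rfl fun a' _ => ?_
    rw [smul_mul_smul_comm, smul_smul]
  simp only [h2]
  rw [Finset.sum_comm, Finset.smul_sum]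
  refine Finset.sum_congr rfl fun a _ => ?_
  rw [Finset.sum_comm]
  have h3 : ∀ a', ∑ i, (kh d i * (kh a i * kh a' i)) • (fx u a b * fx u a' c) =
      if a' = kx a d then (4 : ℤ) • (fx u a b * fx u a' c) else 0 := by
    intro a'
    rw [← Finset.sum_smul, kh_triple]
    split_ifs
    · rfl
    · rw [zero_smul]
  simp only [h3, Finset.sum_ite_eq', Finset.mem_univ, if_true]
  rw [← Int.cast_smul_eq_zsmul ℂ, smul_smul]
  norm_num

/-- transposition -/
lemma Rel.transpose (hu : Rel u) : Rel (fun i j => u j i) where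
  row := fun i j k => hu.col i j k
  col := fun i j k => hu.row i j k
  rsum := hu.csum
  csum := hu.rsum

lemma fx_transpose (a b : Fin 4) : fx (fun i j => u j i) a b = fx u b a := by
  unfold fx fy
  congr 1
  simp only [Finset.smul_sum, smul_smul]
  rw [Finset.sum_comm]
  refine Finset.sum_congr rfl fun i _ => Finset.sum_congr rfl fun j _ => ?_
  rw [mul_comm]

/-- second convolution relation -/
lemma Rel.conv' (hu : Rel u) (d a c : Fin 4) :
    ∑ b, fx u a b * fx u c (kx b d) = fx u (kx a c) d := by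
  have := hu.transpose.conv d a c
  simpa only [fx_transpose] using this

lemma Rel.fx_zero_left (hu : Rel u) (b : Fin 4) : fx u 0 b = if b = 0 then 1 else 0 := by
  unfold fx fy
  have h0 : ∀ i, kh 0 i = 1 := by decide
  simp only [h0, one_smul]
  rw [Finset.sum_comm]
  simp only [← Finset.smul_sum, hu.csum]
  rw [← Finset.sum_smul, kh_sum]
  split_ifs
  · rw [← Int.cast_smul_eq_zsmul ℂ, smul_smul]
    norm_num
  · simp

lemma Rel.fx_zero_right (hu : Rel u) (a : Fin 4) : fx u a 0 = if a = 0 then 1 else 0 := by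
  rw [← hu.transpose.fx_zero_left a, fx_transpose]

/-- anticommutation in a column -/
lemma Rel.anti_col (hu : Rel u) {b p q : Fin 4} (hb : b ≠ 0) (hp : p ≠ 0) (hq : q ≠ 0)
    (hpq : p ≠ q) : fx u p b * fx u q b = -(fx u q b * fx u p b) := by
  have hd : kx p q ≠ 0 := fun h => hpq ((kx_eq_zero p q).mp h)
  have h1 := hu.conv (kx p q) b b
  rw [(kx_eq_zero b b).mpr rfl, hu.fx_zero_right, if_neg hd] at h1
  have h2 : ∑ a, fx u a b * fx u (kx a (kx p q)) b = fx u p b * fx u q b + fx u q b * fx u p b := by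
    have e0 : fx u 0 b = 0 := by rw [hu.fx_zero_left, if_neg hb]
    revert hp hq hpq
    clear h1 hd
    fin_cases p <;> fin_cases q <;>
      simp [kx, Fin.sum_univ_four, e0] <;> abel
  rw [h2] at h1
  exact eq_neg_of_add_eq_zero_left h1

/-- anticommutation in a row -/
lemma Rel.anti_row (hu : Rel u) {b p q : Fin 4} (hb : b ≠ 0) (hp : p ≠ 0) (hq : q ≠ 0)
    (hpq : p ≠ q) : fx u b p * fx u b q = -(fx u b q * fx u b p) := by
  have := hu.transpose.anti_col hb hp hq hpq
  simpa only [fx_transpose] using this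

/-- commutation in different rows and columns -/
lemma Rel.commute (hu : Rel u) {p q b c : Fin 4} (hp : p ≠ 0) (hq : q ≠ 0) (hb : b ≠ 0)
    (hc : c ≠ 0) (hpq : p ≠ q) (hbc : b ≠ c) : fx u q b * fx u p c = fx u p c * fx u q b := by
  have h1 := hu.conv (kx p q) b c
  have h2 := hu.conv' (kx b c) p q
  have e0 : ∀ b, b ≠ 0 → fx u 0 b = 0 := fun b hb => by rw [hu.fx_zero_left, if_neg hb]
  have e0' : ∀ b, b ≠ 0 → fx u b 0 = 0 := fun b hb => by rw [hu.fx_zero_right, if_neg hb]
  have h3 : ∑ a, fx u a b * fx u (kx a (kx p q)) c = fx u p b * fx u q c + fx u q b * fx u p c := by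
    have e1 := e0 b hb
    have e2 := e0 c hc
    revert hp hq hpq
    clear h1 h2
    fin_cases p <;> fin_cases q <;>
      simp [kx, Fin.sum_univ_four, e1, e2] <;> abel
  have h4 : ∑ d, fx u p d * fx u q (kx d (kx b c)) = fx u p b * fx u q c + fx u p c * fx u q b := by
    have e1 := e0' p hp
    have e2 := e0' q hq
    revert hb hc hbc
    clear h1 h2 h3 e0 e0'
    fin_cases b <;> fin_cases c <;>
      simp [kx, Fin.sum_univ_four, e1, e2] <;> abel
  rw [h3] at h1
  rw [h4, ← h1] at h2
  exact (add_left_cancel h2).symm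

end Ring

end Helper45.QPerm
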