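import Pool.Agent.Helper45.QPerm.Omega

open scoped InnerProductSpace ComplexOrder ENNReal Topology
open scoped Matrix.Norms.L2Operator
open MeasureTheory

namespace Helper45.QPerm

/-! ### Partition of unity with small supports -/

section PartUnity

variable {K : Type*} [MetricSpace K] [CompactSpace K]

lemma exists_small_partition {δ : ℝ} (hδ : 0 < δ) :
    ∃ (ι : Type) (_ : Fintype ι) (f : ι → K → ℝ), (∀ i, Continuous (f i)) ∧ (∀ i x, 0 ≤ f i x) ∧
      (∀ x, ∑ i, f i x = 1) ∧ ∀ i x y, f i x ≠ 0 → f i y ≠ 0 → dist x y ≤ δ := by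
  obtain ⟨t, -, ht⟩ := (isCompact_univ (X := K)).elim_finite_subcover_image
    (b := Set.univ) (c := fun x : K => Metric.ball x (δ / 2)) (fun x _ => Metric.isOpen_ball)
    (fun x _ => Set.mem_biUnion (Set.mem_univ x) (Metric.mem_ball_self (by positivity)))
  obtain ⟨htf, ht⟩ := ht
  have : Fintype t := htf.fintype
  let h : t → K → ℝ := fun c x => max 0 (δ / 2 - dist x c)
  have hc : ∀ c, Continuous (h c) := fun c => by
    simp only [h]
    fun_prop
  have h0 : ∀ c x, 0 ≤ h c x := fun c x => le_max_left _ _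
  have hs : ∀ x, 0 < ∑ c, h c x := by
    intro x
    obtain ⟨c, hc1, hc2⟩ := Set.mem_iUnion₂.mp (ht (Set.mem_univ x))
    refine Finset.sum_pos' (fun c _ => h0 c x) ⟨⟨c, hc1⟩, Finset.mem_univ _, ?_⟩
    rw [Metric.mem_ball] at hc2
    exact lt_max_of_lt_right (by simpa using hc2)
  let e : Fin (Fintype.card t) ≃ t := (Fintype.equivFin t).symm
  refine ⟨Fin (Fintype.card t), inferInstance, fun i x => h (e i) x / ∑ c, h c x, ?_, ?_, ?_, ?_⟩
  · intro i
    exact (hc _).div (continuous_finsetSum _ fun c _ => hc c) fun x => (hs x).ne'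
  · intro i x
    exact div_nonneg (h0 _ _) (hs x).le
  · intro x
    rw [← Finset.sum_div, Equiv.sum_comp e (fun c => h c x), div_self (hs x).ne']
  · intro i x y hx hy
    have key : ∀ z, h (e i) z / ∑ c, h c z ≠ 0 → dist z (e i) ≤ δ / 2 := by
      intro z hz
      by_contra hcon
      apply hz
      have : h (e i) z = 0 := max_eq_left (by linarith)
      rw [this, zero_div]
    have h1 := key x hx
    have h2 := key y hy
    have h3 := dist_triangle_right x y (e i : K)
    linarith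

end PartUnity

section KSpace

/-- the space of `N`-dimensional magic unitaries -/
def KK (N : ℕ) : Type := {v : Fin 4 → Fin 4 → Matrix (Fin N) (Fin N) ℂ // IsMagic 4 v}

noncomputable instance (N : ℕ) : MetricSpace (KK N) :=
  inferInstanceAs (MetricSpace {v : Fin 4 → Fin 4 → Matrix (Fin N) (Fin N) ℂ // IsMagic 4 v})

noncomputable instance (N : ℕ) : MeasurableSpace (KK N) := borel _
instance (N : ℕ) : BorelSpace (KK N) := ⟨rfl⟩

instance (N : ℕ) : CompactSpace (KK N) := by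
  have h1 : IsCompact {v : Fin 4 → Fin 4 → Matrix (Fin N) (Fin N) ℂ | IsMagic 4 v} := by
    have : ProperSpace (Fin 4 → Fin 4 → Matrix (Fin N) (Fin N) ℂ) :=
      FiniteDimensional.proper ℂ _
    apply Metric.isCompact_of_isClosed_isBounded
    · have e : {v : Fin 4 → Fin 4 → Matrix (Fin N) (Fin N) ℂ | IsMagic 4 v} =
          (⋂ i, ⋂ j, {v | v i j * v i j = v i j ∧ star (v i j) = v i j}) ∩
          ((⋂ i, {v | ∑ k, v i k = 1}) ∩ ⋂ j, {v | ∑ k, v k j = 1}) := by
        ext v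
        simp only [Set.mem_ofPred_eq, Set.mem_inter_iff, Set.mem_iInter]
        constructor
        · intro h
          exact ⟨fun i j => ⟨(h.proj i j).isIdempotentElem, (h.proj i j).isSelfAdjoint⟩,
            h.row, h.col⟩
        · rintro ⟨h1, h2, h3⟩
          exact ⟨fun i j => ⟨(h1 i j).1, (h1 i j).2⟩, h2, h3⟩
      rw [e]
      refine (isClosed_iInter fun i => isClosed_iInter fun j => ?_).inter
        ((isClosed_iInter fun i => ?_).inter (isClosed_iInter fun j => ?_))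
      · exact (isClosed_eq (by fun_prop) (by fun_prop)).inter
          (isClosed_eq (by fun_prop) (by fun_prop))
      · exact isClosed_eq (by fun_prop) (by fun_prop)
      · exact isClosed_eq (by fun_prop) (by fun_prop)
    · rw [isBounded_iff_forall_norm_le]
      refine ⟨1, fun v hv => ?_⟩
      rw [pi_norm_le_iff_of_nonneg zero_le_one]
      intro i
      rw [pi_norm_le_iff_of_nonneg zero_le_one]
      intro j
      exact IsStarProjection.norm_le _ (hv.proj i j)
  exact isCompact_iff_compactSpace.mp h1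

variable {N : ℕ}

lemma KK.continuous_entry (i j : Fin 4) : Continuous fun x : KK N => x.1 i j :=
  (continuous_apply_apply i j).comp continuous_subtype_val

lemma KK.dist_entry (x y : KK N) (i j : Fin 4) : ‖x.1 i j - y.1 i j‖ ≤ dist x y := by
  rw [← dist_eq_norm]
  exact (dist_le_pi_dist (x.1 i) (y.1 i) j).trans (dist_le_pi_dist x.1 y.1 i)

variable {A : Type} [CStarAlgebra A] {u : Fin 4 → Fin 4 → A}

lemma exists_Phi (hA : IsQuantumPermutationAlgebra 4 A u) (N : ℕ) :
    ∃ Φ : A →⋆ₐ[ℂ] C(KK N, Matrix (Fin N) (Fin N) ℂ), ∀ i j x, Φ (u i j) x = x.1 i j := by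
  have hm : IsMagic 4 (fun i j => (⟨fun x : KK N => x.1 i j, KK.continuous_entry i j⟩ :
      C(KK N, Matrix (Fin N) (Fin N) ℂ))) :=
    { proj := fun i j => by
        refine ⟨?_, ?_⟩
        · ext1 x; exact (x.2.proj i j).isIdempotentElem
        · ext1 x; exact (x.2.proj i j).isSelfAdjoint
      row := fun i => by
        ext1 x
        rw [ContinuousMap.sum_apply]
        exact x.2.row i
      col := fun j => by
        ext1 x
        rw [ContinuousMap.sum_apply]
        exact x.2.col j }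
  obtain ⟨Φ, hΦ, -⟩ := hA.universal _ _ hm
  exact ⟨Φ, fun i j x => by rw [hΦ]; rfl⟩

/-- the function on `A` represented by a probability measure -/
noncomputable def RR (Φ : A →⋆ₐ[ℂ] C(KK N, Matrix (Fin N) (Fin N) ℂ))
    (μ : ProbabilityMeasure (KK N)) (a : A) : ℂ := ∫ x, trF N (Φ a x) ∂(μ : Measure (KK N))

lemma trF_cont (F : C(KK N, Matrix (Fin N) (Fin N) ℂ)) : Continuous fun x => trF N (F x) :=
  (trF N).continuous.comp F.continuous

lemma continuous_integral_real {X : Type*} [TopologicalSpace X] [CompactSpace X]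
    [MeasurableSpace X] [OpensMeasurableSpace X] {f : X → ℝ} (hf : Continuous f) :
    Continuous fun μ : ProbabilityMeasure X => ∫ x, f x ∂(μ : Measure X) :=
  ProbabilityMeasure.continuous_integral_boundedContinuousFunction
    (BoundedContinuousFunction.mkOfCompact ⟨f, hf⟩)

lemma RR_continuous (Φ : A →⋆ₐ[ℂ] C(KK N, Matrix (Fin N) (Fin N) ℂ)) : Continuous (RR Φ) := by
  refine continuous_pi fun a => ?_
  have h1 : ∀ μ : ProbabilityMeasure (KK N), RR Φ μ a =
      ((∫ x, (trF N (Φ a x)).re ∂(μ : Measure (KK N)) : ℝ) : ℂ) +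
      ((∫ x, (trF N (Φ a x)).im ∂(μ : Measure (KK N)) : ℝ) : ℂ) * Complex.I := by
    intro μ
    exact (integral_re_add_im (𝕜 := ℂ) (integrable_cont _ (trF_cont (Φ a)))).symm
  simp only [h1]
  have h2 := continuous_integral_real (Complex.continuous_re.comp (trF_cont (Φ a)))
  have h3 := continuous_integral_real (Complex.continuous_im.comp (trF_cont (Φ a)))
  exact (Complex.continuous_ofReal.comp h2).add ((Complex.continuous_ofReal.comp h3).mul
    continuous_const)

lemma RR_convex (Φ : A →⋆ₐ[ℂ] C(KK N, Matrix (Fin N) (Fin N) ℂ)) :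
    Convex ℝ (Set.range (RR Φ)) := by
  rintro _ ⟨μ, rfl⟩ _ ⟨ν, rfl⟩ s t hs ht hst
  have hp : IsProbabilityMeasure (ENNReal.ofReal s • (μ : Measure (KK N)) +
      ENNReal.ofReal t • (ν : Measure (KK N))) := by
    constructor
    rw [Measure.add_apply, Measure.smul_apply, Measure.smul_apply, measure_univ, measure_univ,
      smul_eq_mul, smul_eq_mul, mul_one, mul_one, ← ENNReal.ofReal_add hs ht, hst,
      ENNReal.ofReal_one]
  refine ⟨⟨_, hp⟩, ?_⟩
  funext a
  change ∫ x, trF N (Φ a x) ∂(ENNReal.ofReal s • (μ : Measure (KK N)) +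
      ENNReal.ofReal t • (ν : Measure (KK N))) = _
  have hi : ∀ μ : ProbabilityMeasure (KK N), Integrable (fun x => trF N (Φ a x))
    (μ : Measure (KK N)) := fun μ => integrable_cont _ (trF_cont (Φ a))
  rw [integral_add_measure ((hi μ).smul_measure ENNReal.ofReal_ne_top)
    ((hi ν).smul_measure ENNReal.ofReal_ne_top), integral_smul_measure, integral_smul_measure,
    ENNReal.toReal_ofReal hs, ENNReal.toReal_ofReal ht]
  rfl

/-- evaluation at a point -/
def evalHom {X B : Type*} [TopologicalSpace X] [CompactSpace X] [CStarAlgebra B] (x : X) :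
    C(X, B) →⋆ₐ[ℂ] B where
  toFun F := F x
  map_one' := rfl
  map_mul' _ _ := rfl
  map_zero' := rfl
  map_add' _ _ := rfl
  commutes' _ := rfl
  map_star' _ := rfl

lemma RR_range (hA : IsQuantumPermutationAlgebra 4 A u) (hN0 : 0 < N)
    (hN : ∀ D, 0 < D → D ≤ 512 → D ∣ N)
    (Φ : A →⋆ₐ[ℂ] C(KK N, Matrix (Fin N) (Fin N) ℂ)) (hΦ : ∀ i j x, Φ (u i j) x = x.1 i j) :
    TS A ⊆ Set.range (RR Φ) := by
  have hcl : IsClosed (Set.range (RR Φ)) := (isCompact_range (RR_continuous Φ)).isClosed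
  rw [← closure_convexHull_extremePoints (isCompact_TS (A := A)) convex_TS]
  refine closure_minimal (convexHull_min ?_ (RR_convex Φ)) hcl
  intro f hf
  obtain ⟨φ, hφ⟩ := exists_of_mem_TS hf.1
  have hφ' : (fun a => φ.1 a) = f := funext hφ
  have hext : (fun a => φ.1 a) ∈ (TS A).extremePoints ℝ := by rw [hφ']; exact hf
  obtain ⟨g, hg⟩ := extreme_rep hA hext hN0 hN
  have hm : IsMagic 4 (fun i j => g (u i j)) :=
    { proj := fun i j => (hA.magic.proj i j).map g
      row := fun i => by rw [← map_sum, hA.magic.row, map_one]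
      col := fun j => by rw [← map_sum, hA.magic.col, map_one] }
  let x : KK N := ⟨_, hm⟩
  refine ⟨⟨Measure.dirac x, inferInstance⟩, ?_⟩
  funext a
  change ∫ y, trF N (Φ a y) ∂(Measure.dirac x) = f a
  rw [integral_dirac, ← hφ, hg, trF_apply]
  congr 2
  have h1 : (evalHom x).comp Φ = g := by
    apply hA.hom_ext
    intro i j
    change Φ (u i j) x = _
    rw [hΦ]
  rw [← h1]
  rfl

/-- coupling of nearby measures -/
lemma dOne_le_of_measures (hN0 : 0 < N)
    (Φ : A →⋆ₐ[ℂ] C(KK N, Matrix (Fin N) (Fin N) ℂ)) (hΦ : ∀ i j x, Φ (u i j) x = x.1 i j)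
    {φ ψ : TracialState A} (μ ν : ProbabilityMeasure (KK N)) (hφ : ∀ a, RR Φ μ a = φ.1 a)
    (hψ : ∀ a, RR Φ ν a = ψ.1 a) (ρ : KK N × KK N → ℝ) (hρ : Continuous ρ) (hρ0 : ∀ p, 0 ≤ ρ p)
    (hρ1 : ∀ x, ∫ y, ρ (x, y) ∂(ν : Measure (KK N)) = 1)
    (hρ2 : ∀ y, ∫ x, ρ (x, y) ∂(μ : Measure (KK N)) = 1) {s : ℝ} (hs : 0 ≤ s)
    (hcost : ∫ p, dist p.1 p.2 ^ 2 * ρ p ∂((μ : Measure (KK N)).prod ν) ≤ s ^ 2) :
    dOne u φ ψ ≤ ((4 * s : ℝ) : EReal) := by
  have hρi : Integrable ρ ((μ : Measure (KK N)).prod ν) := integrable_cont _ hρ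
  have hρ3 : ∫ p, ρ p ∂((μ : Measure (KK N)).prod ν) = 1 := by
    rw [integral_prod _ hρi]
    simp [hρ1]
  let ω := omega hN0 (μ : Measure (KK N)) ν ρ hρ hρ0 hρ3
  let p1 : C(KK N × KK N, KK N) := ⟨Prod.fst, continuous_fst⟩
  let p2 : C(KK N × KK N, KK N) := ⟨Prod.snd, continuous_snd⟩
  let α : A →⋆ₐ[ℂ] C(KK N × KK N, Matrix (Fin N) (Fin N) ℂ) :=
    (ContinuousMap.compStarAlgHom' ℂ (Matrix (Fin N) (Fin N) ℂ) p1).comp Φ
  let β : A →⋆ₐ[ℂ] C(KK N × KK N, Matrix (Fin N) (Fin N) ℂ) :=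
    (ContinuousMap.compStarAlgHom' ℂ (Matrix (Fin N) (Fin N) ℂ) p2).comp Φ
  have hα : ∀ a p, α a p = Φ a p.1 := fun a p => rfl
  have hβ : ∀ a p, β a p = Φ a p.2 := fun a p => rfl
  have hic : ∀ F : C(KK N × KK N, Matrix (Fin N) (Fin N) ℂ),
      Integrable (fun p => trF N (F p) * (ρ p : ℂ)) ((μ : Measure (KK N)).prod ν) := fun F =>
    integrable_cont _ (((trF N).continuous.comp F.continuous).mul
      (Complex.continuous_ofReal.comp hρ))
  have h1 : ∀ a, ω.1 (α a) = φ.1 a := by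
    intro a
    rw [omega_apply, integral_prod _ (hic _), ← hφ]
    unfold RR
    refine integral_congr_ae (Filter.Eventually.of_forall fun x => ?_)
    simp only [hα]
    rw [integral_const_mul, integral_complex_ofReal, hρ1, Complex.ofReal_one, mul_one]
  have h2 : ∀ a, ω.1 (β a) = ψ.1 a := by
    intro a
    rw [omega_apply, integral_prod_symm _ (hic _), ← hψ]
    unfold RR
    refine integral_congr_ae (Filter.Eventually.of_forall fun y => ?_)
    simp only [hβ]
    rw [integral_const_mul, integral_complex_ofReal, hρ2, Complex.ofReal_one, mul_one]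
  have h3 := dOne_le_of_hom u ω α β h1 h2 hs (fun i j => by
    rw [omega_star_mul]
    refine le_trans (integral_mono (integrable_cont _ ?_) (integrable_cont _ ?_) fun p => ?_) hcost
    · exact (hs_continuous.comp (α (u i j) - β (u i j)).continuous).mul hρ
    · exact (continuous_dist.pow 2).mul hρ
    · refine mul_le_mul_of_nonneg_right ((hs_le hN0 _).trans ?_) (hρ0 p)
      refine pow_le_pow_left₀ (norm_nonneg _) ?_ 2
      change ‖Φ (u i j) p.1 - Φ (u i j) p.2‖ ≤ dist p.1 p.2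
      rw [hΦ, hΦ]
      exact KK.dist_entry _ _ i j)
  exact_mod_cast h3

end KSpace

section Main

variable {A : Type} [CStarAlgebra A] {u : Fin 4 → Fin 4 → A}

lemma exists_weak_nhd (hA : IsQuantumPermutationAlgebra 4 A u) (φ : TracialState A) {ε : ℝ}
    (hε : 0 < ε) : ∃ W : Set (TracialState A), IsOpen[topWeak A] W ∧ φ ∈ W ∧
      ∀ ψ ∈ W, dOne u φ ψ < ε := by
  obtain ⟨N, hN0, hN⟩ : ∃ N, 0 < N ∧ ∀ D, 0 < D → D ≤ 512 → D ∣ N :=
    ⟨Nat.factorial 512, Nat.factorial_pos _, fun D h1 h2 => Nat.dvd_factorial h1 h2⟩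
  obtain ⟨Φ, hΦ⟩ := exists_Phi hA N
  have hR := RR_range hA hN0 hN Φ hΦ
  obtain ⟨D, hD⟩ := Metric.isBounded_iff.mp (isCompact_univ (X := KK N)).isBounded
  have hD' : ∀ x y : KK N, dist x y ≤ D := fun x y => hD (Set.mem_univ _) (Set.mem_univ _)
  set κ : ℝ := min 1 (ε ^ 2 / (256 * (D ^ 2 + 1))) with hκ
  have hκ0 : 0 < κ := lt_min one_pos (by positivity)
  have hκ1 : κ ≤ 1 := min_le_left _ _
  have hκD : D ^ 2 * κ ≤ ε ^ 2 / 256 := by
    have h1 : κ ≤ ε ^ 2 / (256 * (D ^ 2 + 1)) := min_le_right _ _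
    rw [le_div_iff₀ (by positivity)] at h1
    nlinarith
  obtain ⟨ι, _, f, hfc, hf0, hf1, hfd⟩ := exists_small_partition (K := KK N)
    (δ := ε / 16) (by positivity)
  let S : ProbabilityMeasure (KK N) → ProbabilityMeasure (KK N) → ℝ := fun μ ν =>
    ∑ i, |∫ x, f i x ∂(μ : Measure (KK N)) - ∫ x, f i x ∂(ν : Measure (KK N))|
  have hSc : ∀ μ, Continuous (S μ) := fun μ => continuous_finsetSum _ fun i _ =>
    (continuous_const.sub (continuous_integral_real (hfc i))).abs
  have hS0 : ∀ μ, S μ μ = 0 := fun μ => by simp [S]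
  let V : Set (ProbabilityMeasure (KK N)) :=
    ⋃ μ ∈ {μ | RR Φ μ = fun a => φ.1 a}, {ν | S μ ν < κ}
  have hV : IsOpen V := isOpen_biUnion fun μ _ => isOpen_lt (hSc μ) continuous_const
  have hVc : IsClosed (RR Φ '' Vᶜ) :=
    (hV.isClosed_compl.isCompact.image (RR_continuous Φ)).isClosed
  refine ⟨(fun φ : TracialState A => fun a : A => φ.1 a) ⁻¹' (RR Φ '' Vᶜ)ᶜ,
    ⟨_, hVc.isOpen_compl, rfl⟩, ?_, ?_⟩
  · rintro ⟨μ, hμ, hμφ⟩
    apply hμ
    refine Set.mem_biUnion (x := μ) hμφ ?_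
    change S μ μ < κ
    rw [hS0]
    exact hκ0
  · intro ψ hψ
    obtain ⟨ν, hν⟩ := hR ψ.mem_TS
    have hνV : ν ∈ V := by
      by_contra hcon
      exact hψ ⟨ν, hcon, hν⟩
    obtain ⟨μ, hμ, hS⟩ := Set.mem_iUnion₂.mp hνV
    obtain ⟨ρ, h1, h2, h3, h4, h5⟩ := exists_density f hfc hf0 hf1 (by positivity) hfd hD' hκ0 hκ1
      (μ : Measure (KK N)) ν (le_of_lt hS)
    have h6 := dOne_le_of_measures hN0 Φ hΦ μ ν (congrFun hμ) (congrFun hν) ρ h1 h2 h3 h4
      (s := ε / 8) (by positivity) (h5.trans (by nlinarith))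
    refine lt_of_le_of_lt h6 ?_
    exact_mod_cast (by linarith : 4 * (ε / 8) < ε)

theorem topWeak_le_topOne (hA : IsQuantumPermutationAlgebra 4 A u) : topWeak A ≤ topOne u := by
  intro U hU
  refine (@isOpen_iff_forall_mem_open _ (topWeak A) U).mpr ?_
  intro φ hφ
  obtain ⟨ε, hε, h⟩ := hU φ hφ
  obtain ⟨W, hW, hφW, hWd⟩ := exists_weak_nhd hA φ hε
  exact ⟨W, fun ψ hψ => h ψ (hWd ψ hψ), hW, hφW⟩

theorem topOne_eq_topWeak (hA : IsQuantumPermutationAlgebra 4 A u) : topOne u = topWeak A :=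
  le_antisymm (topOne_le_topWeak hA) (topWeak_le_topOne hA)

end Main


end Helper45.QPerm
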