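import Pool.Agent.Helper45.QPerm.Words

open scoped InnerProductSpace ComplexOrder ENNReal Topology

namespace Helper45.QPerm

/-! ### Third roots of unity -/

/-- a primitive third root of unity -/
noncomputable def ω : ℂ := ⟨-1 / 2, √3 / 2⟩

lemma ω_sq : ω ^ 2 = ⟨-1 / 2, -√3 / 2⟩ := by
  have h : √3 * √3 = 3 := Real.mul_self_sqrt (by norm_num)
  rw [sq]
  apply Complex.ext
  · simp only [ω, Complex.mul_re]
    linarith
  · simp only [ω, Complex.mul_im]
    ring

lemma ω_star : star ω = ω ^ 2 := by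
  rw [ω_sq]
  apply Complex.ext
  · simp [ω]
  · simp [ω]
    ring

lemma ω_sum : 1 + ω + ω ^ 2 = 0 := by
  rw [ω_sq]
  apply Complex.ext
  · simp [ω]; norm_num
  · simp [ω]; ring

lemma ω_cube : ω ^ 3 = 1 := by
  have h : ω ^ 3 - 1 = (ω - 1) * (1 + ω + ω ^ 2) := by ring
  rw [ω_sum, mul_zero] at h
  exact sub_eq_zero.mp h

/-- the third roots of unity -/
noncomputable def z3 (l : Fin 3) : ℂ := ![1, ω, ω ^ 2] l

lemma z3_cube (l : Fin 3) : z3 l ^ 3 = 1 := by
  fin_cases l
  · simp [z3]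
  · simp [z3, ω_cube]
  · simp [z3, ← pow_mul]
    rw [show 6 = 3 * 2 by norm_num, pow_mul, ω_cube, one_pow]

lemma z3_star (l : Fin 3) : star (z3 l) = z3 l ^ 2 := by
  fin_cases l
  · simp [z3]
  · simp only [z3]
    exact ω_star
  · simp only [z3]
    change star (ω ^ 2) = (ω ^ 2) ^ 2
    rw [star_pow, ω_star]

section Circ

/-- spectral projection of an element of order three -/
noncomputable def q3 {B : Type*} [Ring B] [Algebra ℂ B] (r : B) (l : Fin 3) : B :=
  (1 / 3 : ℂ) • (1 + z3 l • r + z3 l ^ 2 • (r * r))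

/-- the circulant `3 × 3` magic unitary -/
noncomputable def circ {B : Type*} [Ring B] [Algebra ℂ B] (r : B) : Fin 3 → Fin 3 → B :=
  fun i j => q3 r (j - i)

lemma sum_q3 {B : Type*} [Ring B] [Algebra ℂ B] (r : B) : ∑ l, q3 r l = 1 := by
  have h : ω ^ 2 = -1 - ω := by linear_combination ω_sum
  have h4 : (ω ^ 2) ^ 2 = ω := by
    have : (ω ^ 2) ^ 2 = ω ^ 3 * ω := by ring
    rw [this, ω_cube, one_mul]
  rw [Fin.sum_univ_three]
  simp only [q3, z3]
  change (1 / 3 : ℂ) • (1 + (1 : ℂ) • r + (1 : ℂ) ^ 2 • (r * r)) +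
    (1 / 3 : ℂ) • (1 + ω • r + ω ^ 2 • (r * r)) +
    (1 / 3 : ℂ) • (1 + (ω ^ 2) • r + (ω ^ 2) ^ 2 • (r * r)) = 1
  rw [h4, h]
  module

lemma sum_star_q3 {B : Type*} [Ring B] [Algebra ℂ B] (r : B) :
    ∑ l, star (z3 l) • q3 r l = r := by
  have h : ω ^ 2 = -1 - ω := by linear_combination ω_sum
  have h4 : (ω ^ 2) ^ 2 = ω := by
    have : (ω ^ 2) ^ 2 = ω ^ 3 * ω := by ring
    rw [this, ω_cube, one_mul]
  have h5 : ω * ω = -1 - ω := by rw [← h]; ring
  simp only [z3_star]
  rw [Fin.sum_univ_three]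
  simp only [q3, z3]
  change (1 : ℂ) ^ 2 • (1 / 3 : ℂ) • (1 + (1 : ℂ) • r + (1 : ℂ) ^ 2 • (r * r)) +
    ω ^ 2 • (1 / 3 : ℂ) • (1 + ω • r + ω ^ 2 • (r * r)) +
    (ω ^ 2) ^ 2 • (1 / 3 : ℂ) • (1 + (ω ^ 2) • r + (ω ^ 2) ^ 2 • (r * r)) = r
  rw [h4, h]
  have e1 : (1 : ℂ) ^ 2 • (1 / 3 : ℂ) • (1 + (1 : ℂ) • r + (1 : ℂ) ^ 2 • (r * r)) +
    (-1 - ω) • (1 / 3 : ℂ) • (1 + ω • r + (-1 - ω) • (r * r)) +
    ω • (1 / 3 : ℂ) • (1 + (-1 - ω) • r + ω • (r * r)) =
    ((1 / 3 : ℂ) * (1 + 2 * (-1 - ω) * ω)) • r +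
      ((1 / 3 : ℂ) * (1 + (-1 - ω) * (-1 - ω) + ω * ω)) • (r * r) := by module
  rw [e1]
  have e2 : (1 / 3 : ℂ) * (1 + 2 * (-1 - ω) * ω) = 1 := by
    linear_combination (-2 / 3 : ℂ) * h5
  have e3 : (1 / 3 : ℂ) * (1 + (-1 - ω) * (-1 - ω) + ω * ω) = 0 := by
    linear_combination (2 / 3 : ℂ) * h5
  rw [e2, e3]
  simp

lemma isStarProjection_q3 {B : Type*} [CStarAlgebra B] {r : B} (hs : star r = r * r)
    (h3 : r * r * r = 1) (l : Fin 3) : IsStarProjection (q3 r l) := by
  have hz := z3_cube l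
  have r2 : r * (r * r) = 1 := by rw [← mul_assoc]; exact h3
  have r3 : r * r * (r * r) = r := by rw [mul_assoc, r2, mul_one]
  refine ⟨?_, ?_⟩
  · change q3 r l * q3 r l = q3 r l
    unfold q3
    generalize z3 l = z at *
    have hz2 : z * z ^ 2 = 1 := by rw [← hz]; ring
    have hz3 : z ^ 2 * z = 1 := by rw [← hz]; ring
    have hz4 : z ^ 2 * z ^ 2 = z := by
      have : z ^ 2 * z ^ 2 = z ^ 3 * z := by ring
      rw [this, hz, one_mul]
    have hzz : z * z = z ^ 2 := by ring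
    have key : (1 + z • r + z ^ 2 • (r * r)) * (1 + z • r + z ^ 2 • (r * r)) =
        (3 : ℂ) • (1 + z • r + z ^ 2 • (r * r)) := by
      simp only [add_mul, mul_add, one_mul, mul_one, smul_mul_smul_comm, hz2, hz3, hz4, h3, r2,
        r3, hzz]
      module
    rw [smul_mul_smul_comm, key, smul_smul]
    congr 1
    norm_num
  · change star (q3 r l) = q3 r l
    unfold q3
    have hz1 := z3_star l
    generalize z3 l = z at *
    have hz4 : star (z ^ 2) = z := by
      have : star (z ^ 2) = z ^ 3 * z := by rw [star_pow, hz1]; ring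
      rw [this, hz, one_mul]
    have hss : star (r * r) = r := by rw [star_mul, hs, r3]
    rw [star_smul, star_add, star_add, star_smul, star_smul, star_one, hss, hs, hz1, hz4]
    have h13 : star (1 / 3 : ℂ) = 1 / 3 := by
      have : (1 / 3 : ℂ) = ((1 / 3 : ℝ) : ℂ) := by push_cast; rfl
      rw [this]
      exact Complex.conj_ofReal _
    rw [h13]
    module

lemma isMagic_circ {B : Type*} [CStarAlgebra B] {r : B} (hs : star r = r * r)
    (h3 : r * r * r = 1) : IsMagic 3 (circ r) where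
  proj := fun i j => isStarProjection_q3 hs h3 _
  row := by
    intro i
    have := (Equiv.subRight i).sum_comp (fun l => q3 r l)
    rw [sum_q3] at this
    exact this
  col := by
    intro j
    have := (Equiv.subLeft j).sum_comp (fun l => q3 r l)
    rw [sum_q3] at this
    exact this

end Circ

/-! ### the magic unitary of a pair `(s, r)` -/

section SR

/-- the entries -/
noncomputable def sr {B : Type*} [Ring B] [Algebra ℂ B] (m : ℕ) (s r : B) :
    Fin (2 + 3 + m) → Fin (2 + 3 + m) → B :=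
  blk (blk (two ((1 / 2 : ℂ) • (1 + s))) (circ r)) (idm m)

lemma isMagic_sr {B : Type*} [CStarAlgebra B] {m : ℕ} {s r : B} (hs : star s = s)
    (hs2 : s * s = 1) (hr : star r = r * r) (h3 : r * r * r = 1) : IsMagic (2 + 3 + m) (sr m s r) := by
  refine isMagic_blk (isMagic_blk (isMagic_two ⟨?_, ?_⟩) (isMagic_circ hr h3)) (isMagic_idm m)
  · change (1 / 2 : ℂ) • (1 + s) * (1 / 2 : ℂ) • (1 + s) = (1 / 2 : ℂ) • (1 + s)
    rw [smul_mul_smul_comm, add_mul, one_mul, mul_add, mul_one, hs2]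
    module
  · change star ((1 / 2 : ℂ) • (1 + s)) = _
    rw [star_smul, star_add, star_one, hs]
    congr 1
    simp

lemma map_blk {B C : Type*} [Zero B] [Zero C] (φ : B → C) (h0 : φ 0 = 0) {a b : ℕ}
    (v : Fin a → Fin a → B) (w : Fin b → Fin b → B) (i j : Fin (a + b)) :
    φ (blk v w i j) = blk (fun i j => φ (v i j)) (fun i j => φ (w i j)) i j := by
  induction i using Fin.addCases with
  | left i =>
    induction j using Fin.addCases with
    | left j => rw [blk_cast_cast, blk_cast_cast]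
    | right j => rw [blk_cast_nat, blk_cast_nat, h0]
  | right i =>
    induction j using Fin.addCases with
    | left j => rw [blk_nat_cast, blk_nat_cast, h0]
    | right j => rw [blk_nat_nat, blk_nat_nat]

lemma map_sr {B C : Type*} [Ring B] [Ring C] [Algebra ℂ B] [Algebra ℂ C] (φ : B →ₐ[ℂ] C) (m : ℕ)
    (s r : B) (i j) : φ (sr m s r i j) = sr m (φ s) (φ r) i j := by
  unfold sr
  rw [map_blk φ (map_zero φ)]
  have h1 : (fun i j => φ (blk (two ((1 / 2 : ℂ) • (1 + s))) (circ r) i j)) =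
      blk (two ((1 / 2 : ℂ) • (1 + φ s))) (circ (φ r)) := by
    funext i j
    rw [map_blk φ (map_zero φ)]
    have h2 : (fun i j => φ (two ((1 / 2 : ℂ) • (1 + s)) i j)) =
        two ((1 / 2 : ℂ) • (1 + φ s)) := by
      funext i j
      unfold two
      split_ifs
      · rw [map_smul, map_add, map_one]
      · rw [map_sub, map_smul, map_add, map_one]
    have h3 : (fun i j => φ (circ r i j)) = circ (φ r) := by
      funext i j
      unfold circ q3
      rw [map_smul, map_add, map_add, map_smul, map_smul, map_mul, map_one]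
    rw [h2, h3]
  have h4 : (fun i j => φ ((idm m : Fin m → Fin m → B) i j)) = idm m := by
    funext i j
    unfold idm
    split_ifs
    · rw [map_one]
    · rw [map_zero]
  rw [h1, h4]

def j0 (m : ℕ) : Fin (2 + 3 + m) := Fin.castAdd m (Fin.castAdd 3 0)
def j2 (m : ℕ) (l : Fin 3) : Fin (2 + 3 + m) := Fin.castAdd m (Fin.natAdd 2 l)

lemma sr_j0 {B : Type*} [Ring B] [Algebra ℂ B] (m : ℕ) (s r : B) :
    sr m s r (j0 m) (j0 m) = (1 / 2 : ℂ) • (1 + s) := by
  unfold sr j0
  rw [blk_cast_cast, blk_cast_cast]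
  simp [two]

lemma sr_j2 {B : Type*} [Ring B] [Algebra ℂ B] (m : ℕ) (s r : B) (l : Fin 3) :
    sr m s r (j2 m 0) (j2 m l) = q3 r l := by
  unfold sr j2
  rw [blk_cast_cast, blk_nat_nat]
  simp [circ]

end SR

/-! ### group models -/

section GroupModel

variable {G : Type} [Group G]

/-- right translation action -/
def rightHom (G : Type) [Group G] : G →* Equiv.Perm G where
  toFun g := Equiv.mulRight g⁻¹
  map_one' := by ext x; simp
  map_mul' g h := by ext x; simp [mul_assoc]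

lemma rightHom_bij : Function.Bijective fun p : G × Fin 1 =>
    rightHom G p.1 ((fun _ => 1 : Fin 1 → G) p.2) := by
  constructor
  · rintro ⟨g, i⟩ ⟨h, j⟩ hgh
    have h1 : (1 : G) * g⁻¹ = 1 * h⁻¹ := hgh
    rw [one_mul, one_mul, inv_inj] at h1
    rw [h1, Subsingleton.elim i j]
  · intro g
    refine ⟨(g⁻¹, 0), ?_⟩
    change (1 : G) * (g⁻¹)⁻¹ = g
    rw [inv_inv, one_mul]

/-- the group von Neumann algebra -/
noncomputable def MG (G : Type) [Group G] : TracialVN (l2 G) :=
  modelVN (rightHom G) one_pos (fun _ => 1) rightHom_bij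

lemma tr_MG (x : l2 G →L[ℂ] l2 G) : (MG G).tr x = ⟪δ (1 : G), x (δ 1)⟫_ℂ := by
  have h := vecFunctional_modelVec (fun _ => 1 : Fin 1 → G) x
  simp only [Finset.univ_unique, Fin.default_eq_zero, Finset.sum_singleton, Nat.cast_one,
    inv_one, one_mul] at h
  exact h

lemma lam_mem (g : G) : lam g ∈ (MG G).alg := by
  change _ ∈ commAlg _
  rw [mem_commAlg]
  intro h
  unfold lam
  rw [← permOp_mul, ← permOp_mul]
  congr 1
  ext x
  simp [rightHom, mul_assoc]

open Classical in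
lemma tr_lam (g : G) : (MG G).tr (lam g) = if g = 1 then 1 else 0 := by
  rw [tr_MG, lam_δ, mul_one, inner_δ_left, δ_apply]

variable {m : ℕ} {A : Type} [CStarAlgebra A] {u : Fin (2 + 3 + m) → Fin (2 + 3 + m) → A}
variable (hA : IsQuantumPermutationAlgebra (2 + 3 + m) A u)

lemma isMagic_lam {S R : G} (hS : S * S = 1) (hR : R * R * R = 1) :
    IsMagic (2 + 3 + m) (sr m (lam S) (lam R)) := by
  have hSi : S⁻¹ = S := inv_eq_of_mul_eq_one_left hS
  have hRi : R⁻¹ = R * R := inv_eq_of_mul_eq_one_left hR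
  apply isMagic_sr
  · rw [lam_star, hSi]
  · rw [← lam_mul, hS, lam_one]
  · rw [lam_star, hRi, lam_mul]
  · rw [← lam_mul, ← lam_mul, hR, lam_one]

/-- the representation of `C(S_n^+)` given by a pair of group elements -/
noncomputable def πG {S R : G} (hS : S * S = 1) (hR : R * R * R = 1) :
    A →⋆ₐ[ℂ] (l2 G →L[ℂ] l2 G) :=
  (hA.universal _ _ (isMagic_lam (m := m) hS hR)).choose

lemma πG_apply {S R : G} (hS : S * S = 1) (hR : R * R * R = 1) (i j) :
    πG hA hS hR (u i j) = sr m (lam S) (lam R) i j :=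
  (hA.universal _ _ (isMagic_lam (m := m) hS hR)).choose_spec.1 i j

/-- the element of `A` representing `s` -/
noncomputable def aA (u : Fin (2 + 3 + m) → Fin (2 + 3 + m) → A) : A :=
  (2 : ℂ) • u (j0 m) (j0 m) - 1

/-- the element of `A` representing `r` -/
noncomputable def bA (u : Fin (2 + 3 + m) → Fin (2 + 3 + m) → A) : A :=
  ∑ l, star (z3 l) • u (j2 m 0) (j2 m l)

lemma πG_aA {S R : G} (hS : S * S = 1) (hR : R * R * R = 1) : πG hA hS hR (aA u) = lam S := by
  unfold aA
  rw [map_sub, map_smul, map_one, πG_apply, sr_j0]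
  module

lemma πG_bA {S R : G} (hS : S * S = 1) (hR : R * R * R = 1) : πG hA hS hR (bA u) = lam R := by
  unfold bA
  rw [map_sum]
  simp only [map_smul, πG_apply, sr_j2]
  exact sum_star_q3 _

lemma πG_mem {S R : G} (hS : S * S = 1) (hR : R * R * R = 1) (a : A) :
    πG hA hS hR a ∈ (MG G).alg := by
  apply map_mem hA
  intro i j
  rw [πG_apply]
  -- the entries lie in the algebra
  have h1 : ∀ i j, sr m (lam S) (lam R) i j ∈ (MG G).alg.toStarSubalgebra.toSubalgebra := by
    intro i j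
    have h2 := map_sr ((MG G).alg.toStarSubalgebra.toSubalgebra.val) m
      (⟨lam S, lam_mem S⟩ : (MG G).alg.toStarSubalgebra.toSubalgebra)
      (⟨lam R, lam_mem R⟩ : (MG G).alg.toStarSubalgebra.toSubalgebra) i j
    change _ = sr m (lam S) (lam R) i j at h2
    rw [← h2]
    exact Subtype.prop _
  exact h1 i j

/-- the corresponding tracial state -/
noncomputable def stG {S R : G} (hS : S * S = 1) (hR : R * R * R = 1) : TracialState A :=
  pull (MG G) (πG hA hS hR) (πG_mem hA hS hR)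

/-- letters in `A` -/
noncomputable def xA (u : Fin (2 + 3 + m) → Fin (2 + 3 + m) → A) : Fin 5 → A :=
  ![1, 1, aA u, bA u, bA u * bA u]

/-- letters in `G` -/
def yG (S R : G) : Fin 5 → G := ![1, 1, S, R, R * R]

lemma πG_xA {S R : G} (hS : S * S = 1) (hR : R * R * R = 1) (s : Fin 5) :
    πG hA hS hR (xA u s) = lam (yG S R s) := by
  fin_cases s
  · change πG hA hS hR 1 = lam 1
    rw [map_one, lam_one]
  · change πG hA hS hR 1 = lam 1
    rw [map_one, lam_one]
  · exact πG_aA hA hS hR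
  · exact πG_bA hA hS hR
  · change πG hA hS hR (bA u * bA u) = lam (R * R)
    rw [map_mul, πG_bA, lam_mul]

lemma lam_wd (y : Fin 5 → G) {k : ℕ} (f : Fin k → Fin 5) :
    lam (wd y f) = wd (fun s => lam (y s)) f := by
  induction k with
  | zero => rw [wd_zero, wd_zero, lam_one]
  | succ k ih => rw [← Fin.cons_self_tail f, wd_cons, wd_cons, lam_mul, ih]

lemma πG_wd {S R : G} (hS : S * S = 1) (hR : R * R * R = 1) {k : ℕ} (f : Fin k → Fin 5) :
    πG hA hS hR (wd (xA u) f) = lam (wd (yG S R) f) := by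
  rw [map_wd, lam_wd]
  congr 1
  funext s
  exact πG_xA hA hS hR s

end GroupModel

end Helper45.QPerm
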