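import Pool.Agent.Helper45.QPerm.Free

open scoped InnerProductSpace ComplexOrder ENNReal Topology

namespace Helper45.QPerm

section Aux

lemma norm_sum_le_of_inner {ι E F : Type*} [NormedAddCommGroup E] [InnerProductSpace ℂ E]
    [NormedAddCommGroup F] [InnerProductSpace ℂ F] {v : ι → E} {w : ι → F} {c : ι → ι → ℝ}
    (hc : ∀ i j, 0 ≤ c i j) (hv : ∀ i j, ⟪v i, v j⟫_ℂ = (c i j : ℂ))
    (hw : ∀ i j, ⟪w i, w j⟫_ℂ = (c i j : ℂ)) {S T : Finset ι} (hST : S ⊆ T) :
    ‖∑ i ∈ S, v i‖ ≤ ‖∑ i ∈ T, w i‖ := by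
  have h1 : ∀ (S : Finset ι), ‖∑ i ∈ S, v i‖ ^ 2 = ∑ i ∈ S, ∑ j ∈ S, c i j := by
    intro S
    have h : ((‖∑ i ∈ S, v i‖ ^ 2 : ℝ) : ℂ) = ((∑ i ∈ S, ∑ j ∈ S, c i j : ℝ) : ℂ) := by
      have h0 := inner_self_eq_norm_sq_to_K (𝕜 := ℂ) (∑ i ∈ S, v i)
      rw [sum_inner] at h0
      simp only [inner_sum, hv] at h0
      push_cast
      exact h0.symm
    exact_mod_cast h
  have h2 : ∀ (S : Finset ι), ‖∑ i ∈ S, w i‖ ^ 2 = ∑ i ∈ S, ∑ j ∈ S, c i j := by
    intro S
    have h : ((‖∑ i ∈ S, w i‖ ^ 2 : ℝ) : ℂ) = ((∑ i ∈ S, ∑ j ∈ S, c i j : ℝ) : ℂ) := by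
      have h0 := inner_self_eq_norm_sq_to_K (𝕜 := ℂ) (∑ i ∈ S, w i)
      rw [sum_inner] at h0
      simp only [inner_sum, hw] at h0
      push_cast
      exact h0.symm
    exact_mod_cast h
  rw [← pow_le_pow_iff_left₀ (norm_nonneg _) (norm_nonneg _) two_ne_zero, h1, h2]
  calc ∑ i ∈ S, ∑ j ∈ S, c i j ≤ ∑ i ∈ S, ∑ j ∈ T, c i j :=
        Finset.sum_le_sum fun i _ => Finset.sum_le_sum_of_subset_of_nonneg hST
          (fun j _ _ => hc i j)
    _ ≤ ∑ i ∈ T, ∑ j ∈ T, c i j := Finset.sum_le_sum_of_subset_of_nonneg hST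
          (fun i _ _ => Finset.sum_nonneg fun j _ => hc i j)

end Aux

section Main

variable {G : Type} [Group G] {m : ℕ} {A : Type} [CStarAlgebra A]
  {u : Fin (2 + 3 + m) → Fin (2 + 3 + m) → A}
variable (hA : IsQuantumPermutationAlgebra (2 + 3 + m) A u)

open Classical in
lemma stG_inner {S R : G} (hS : S * S = 1) (hR : R * R * R = 1) {k : ℕ} (f g : Fin k → Fin 5) :
    (stG hA hS hR).1 (star (wd (xA u) f) * wd (xA u) g) =
      if wd (yG S R) f = wd (yG S R) g then 1 else 0 := by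
  rw [stG, pull_apply, map_mul, map_star, πG_wd, πG_wd, lam_star, ← lam_mul, tr_lam]
  simp only [inv_mul_eq_one]

lemma norm_sum_words {S R : G} (hgap : ‖(2 : ℂ) • (1 : l2 G →L[ℂ] l2 G) + lam S + lam R +
    lam (R * R)‖ ≤ 497 / 100) (k : ℕ) :
    ‖∑ f : Fin k → Fin 5, δ (wd (yG S R) f)‖ ≤ (497 / 100) ^ k := by
  have h1 : ∑ f : Fin k → Fin 5, δ (wd (yG S R) f) =
      ((∑ s, lam (yG S R s)) ^ k : l2 G →L[ℂ] l2 G) (δ 1) := by
    rw [pow_eq_sum_wd, _root_.sum_apply]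
    refine Finset.sum_congr rfl fun f _ => ?_
    rw [← lam_wd, lam_δ, mul_one]
  have h2 : ∑ s, lam (yG S R s) = (2 : ℂ) • (1 : l2 G →L[ℂ] l2 G) + lam S + lam R +
    lam (R * R) := by
    rw [Fin.sum_univ_five]
    change lam 1 + lam 1 + lam S + lam R + lam (R * R) = _
    rw [lam_one, two_smul]
  rw [h1, h2]
  rcases Nat.eq_zero_or_pos k with rfl | hk
  · rw [pow_zero, pow_zero, one_apply_eq_self, norm_δ]
  · calc _ ≤ ‖((2 : ℂ) • (1 : l2 G →L[ℂ] l2 G) + lam S + lam R + lam (R * R)) ^ k‖ *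
          ‖(δ 1 : l2 G)‖ := ContinuousLinearMap.le_opNorm _ _
      _ ≤ ‖(2 : ℂ) • (1 : l2 G →L[ℂ] l2 G) + lam S + lam R + lam (R * R)‖ ^ k * 1 := by
          rw [norm_δ]
          gcongr
          exact norm_pow_le' _ hk
      _ ≤ (497 / 100) ^ k * 1 := by gcongr
      _ = _ := mul_one _

lemma sum_bound {S R : G} (hS : S * S = 1) (hR : R * R * R = 1)
    (hgap : ‖(2 : ℂ) • (1 : l2 G →L[ℂ] l2 G) + lam S + lam R + lam (R * R)‖ ≤ 497 / 100)
    {K : Type} [Group K] [Fintype K] (θ : G →* K) {S' R' : K} (hS' : S' * S' = 1)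
    (hR' : R' * R' * R' = 1) (hθS : θ S = S') (hθR : θ R = R')
    (c : Coupling (stG hA hS hR) (stG hA hS' hR')) (k : ℕ) :
    ‖∑ f : Fin k → Fin 5, ⟪c.M.L (wd (fun s => c.α (xA u s)) f),
      c.M.L (wd (fun s => c.β (xA u s)) f)⟫_ℂ‖ ≤ Fintype.card K * (497 / 100) ^ k := by
  classical
  have hW : ∀ f : Fin k → Fin 5, wd (fun s => c.α (xA u s)) f = c.α (wd (xA u) f) :=
    fun f => (map_wd c.α _ f).symm
  have hV : ∀ f : Fin k → Fin 5, wd (fun s => c.β (xA u s)) f = c.β (wd (xA u) f) :=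
    fun f => (map_wd c.β _ f).symm
  simp only [hW, hV]
  have hyy : ∀ f : Fin k → Fin 5, wd (yG S' R') f = θ (wd (yG S R) f) := by
    intro f
    rw [map_wd]
    congr 1
    funext s
    fin_cases s
    · exact (map_one θ).symm
    · exact (map_one θ).symm
    · exact hθS.symm
    · exact hθR.symm
    · change R' * R' = θ (R * R)
      rw [map_mul, hθR]
  have hWin : ∀ f g : Fin k → Fin 5, ⟪c.M.L (c.α (wd (xA u) f)), c.M.L (c.α (wd (xA u) g))⟫_ℂ =
      (((if wd (yG S R) f = wd (yG S R) g then 1 else 0 : ℝ)) : ℂ) := by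
    intro f g
    rw [c.M.inner_L, ← map_star, ← map_mul, c.α_tr, stG_inner]
    split_ifs <;> simp
  have hδin : ∀ f g : Fin k → Fin 5, ⟪(δ (wd (yG S R) f) : l2 G), δ (wd (yG S R) g)⟫_ℂ =
      (((if wd (yG S R) f = wd (yG S R) g then 1 else 0 : ℝ)) : ℂ) := by
    intro f g
    rw [inner_δ_left, δ_apply]
    by_cases h : wd (yG S R) f = wd (yG S R) g
    · rw [if_pos h, if_pos h.symm]; simp
    · rw [if_neg h, if_neg (fun h' => h h'.symm)]; simp
  have hVeq : ∀ f g : Fin k → Fin 5, wd (yG S' R') f = wd (yG S' R') g →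
      c.β (wd (xA u) f) = c.β (wd (xA u) g) := by
    intro f g h
    have : c.β (wd (xA u) f - wd (xA u) g) = 0 := by
      apply c.β_eq_zero
      apply pull_star_mul_self_eq_zero
      rw [map_sub, πG_wd, πG_wd, h, sub_self]
    rw [map_sub] at this
    exact sub_eq_zero.mp this
  have hVn : ∀ f : Fin k → Fin 5, ‖c.M.L (c.β (wd (xA u) f))‖ = 1 := by
    intro f
    have h1 : ‖c.M.L (c.β (wd (xA u) f))‖ ^ 2 = 1 := by
      rw [c.M.norm_L_sq', ← map_star, ← map_mul, c.β_tr, stG_inner]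
      simp
    exact (pow_eq_one_iff_of_nonneg (norm_nonneg _) two_ne_zero).mp h1
  rw [← Finset.sum_fiberwise Finset.univ (fun f : Fin k → Fin 5 => wd (yG S' R') f)]
  refine (norm_sum_le _ _).trans ?_
  have hterm : ∀ h : K, ‖∑ f : Fin k → Fin 5 with wd (yG S' R') f = h,
      ⟪c.M.L (c.α (wd (xA u) f)), c.M.L (c.β (wd (xA u) f))⟫_ℂ‖ ≤ (497 / 100) ^ k := by
    intro h
    rcases (Finset.univ.filter fun f : Fin k → Fin 5 => wd (yG S' R') f = h).eq_empty_or_nonempty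
      with he | ⟨f0, hf0⟩
    · rw [he, Finset.sum_empty, norm_zero]
      positivity
    · have hf0' := (Finset.mem_filter.mp hf0).2
      have h1 : ∑ f : Fin k → Fin 5 with wd (yG S' R') f = h,
          ⟪c.M.L (c.α (wd (xA u) f)), c.M.L (c.β (wd (xA u) f))⟫_ℂ =
          ⟪∑ f : Fin k → Fin 5 with wd (yG S' R') f = h, c.M.L (c.α (wd (xA u) f)),
            c.M.L (c.β (wd (xA u) f0))⟫_ℂ := by
        rw [sum_inner]
        refine Finset.sum_congr rfl fun f hf => ?_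
        have hf' := (Finset.mem_filter.mp hf).2
        rw [hVeq f f0 (hf'.trans hf0'.symm)]
      rw [h1]
      refine (norm_inner_le_norm _ _).trans ?_
      rw [hVn, mul_one]
      refine (norm_sum_le_of_inner (c := fun f g => if wd (yG S R) f = wd (yG S R) g then 1 else 0)
        (fun f g => by positivity) hWin hδin (Finset.filter_subset _ _)).trans ?_
      exact norm_sum_words hgap k
  calc _ ≤ ∑ _h : K, ((497 / 100 : ℝ)) ^ k := Finset.sum_le_sum fun h _ => hterm h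
    _ = _ := by rw [Finset.sum_const, Finset.card_univ, nsmul_eq_mul]

lemma xA_mem_genAlg (s : Fin 5) : xA u s ∈ genAlg u := by
  have hu : ∀ i j, u i j ∈ genAlg u := fun i j => Algebra.subset_adjoin ⟨(i, j), rfl⟩
  have ha : aA u ∈ genAlg u := sub_mem (Subalgebra.smul_mem _ (hu _ _) _) (one_mem _)
  have hb : bA u ∈ genAlg u := sum_mem fun l _ => Subalgebra.smul_mem _ (hu _ _) _
  fin_cases s
  · exact one_mem _
  · exact one_mem _
  · exact ha
  · exact hb
  · exact mul_mem hb hb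

/-- uniform lower bound for `d₁` -/
theorem free_costOne_ge {S R : G} (hS : S * S = 1) (hR : R * R * R = 1)
    (hgap : ‖(2 : ℂ) • (1 : l2 G →L[ℂ] l2 G) + lam S + lam R + lam (R * R)‖ ≤ 497 / 100) :
    ∃ c0 : ℝ, 0 < c0 ∧ ∀ (K : Type) [Group K] [Fintype K] (θ : G →* K) {S' R' : K}
    (hS' : S' * S' = 1) (hR' : R' * R' * R' = 1), θ S = S' → θ R = R' →
    ∀ c : Coupling (stG hA hS hR) (stG hA hS' hR'), c0 ≤ costOne u c := by
  choose C hC0 hC using fun s : Fin 5 => control (u := u) (xA_mem_genAlg (u := u) s)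
  set D : ℝ := ∑ s, C s ^ 2 with hD
  have hD0 : 0 ≤ D := Finset.sum_nonneg fun s _ => sq_nonneg _
  have hn : (0 : ℝ) < (2 + 3 + m : ℕ) := by positivity
  set η : ℝ := 1 / 25 / (D + 1) with hη
  have hη0 : 0 < η := by positivity
  refine ⟨η / (4 * (2 + 3 + m : ℕ)), by positivity, ?_⟩
  intro K _ _ θ S' R' hS' hR' hθS hθR c
  by_contra hcon
  push Not at hcon
  rw [lt_div_iff₀ (by positivity)] at hcon
  have h1 : ∀ i j, ‖c.M.L (c.α (u i j) - c.β (u i j))‖ ≤ √η := by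
    intro i j
    apply Real.le_sqrt_of_sq_le
    have := sq_le_costOne hA.magic c i j
    linarith
  have hRi : R⁻¹ = R * R := inv_eq_of_mul_eq_one_left hR
  have hRi' : R'⁻¹ = R' * R' := inv_eq_of_mul_eq_one_left hR'
  have hSi : S⁻¹ = S := inv_eq_of_mul_eq_one_left hS
  have hSi' : S'⁻¹ = S' := inv_eq_of_mul_eq_one_left hS'
  -- relations in the coupling
  have hαz : ∀ x : A, πG hA hS hR x = 0 → c.α x = 0 := fun x hx =>
    c.α_eq_zero (pull_star_mul_self_eq_zero _ _ _ hx)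
  have hβz : ∀ x : A, πG hA hS' hR' x = 0 → c.β x = 0 := fun x hx =>
    c.β_eq_zero (pull_star_mul_self_eq_zero _ _ _ hx)
  have hαeq : ∀ x y : A, πG hA hS hR x = πG hA hS hR y → c.α x = c.α y := fun x y hx => by
    have := hαz (x - y) (by rw [map_sub, hx, sub_self])
    rwa [map_sub, sub_eq_zero] at this
  have hβeq : ∀ x y : A, πG hA hS' hR' x = πG hA hS' hR' y → c.β x = c.β y := fun x y hx => by
    have := hβz (x - y) (by rw [map_sub, hx, sub_self])
    rwa [map_sub, sub_eq_zero] at this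
  have hyι : ∀ s : Fin 5, (yG S R s)⁻¹ = yG S R (Equiv.swap 3 4 s) := by
    intro s
    fin_cases s
    · exact inv_one
    · exact inv_one
    · exact hSi
    · exact hRi
    · change (R * R)⁻¹ = R
      rw [← hRi, inv_inv]
  have hyι' : ∀ s : Fin 5, (yG S' R' s)⁻¹ = yG S' R' (Equiv.swap 3 4 s) := by
    intro s
    fin_cases s
    · exact inv_one
    · exact inv_one
    · exact hSi'
    · exact hRi'
    · change (R' * R')⁻¹ = R'
      rw [← hRi', inv_inv]
  have hrig := rigidity c.M (fun s => c.β (xA u s)) (fun s => c.α (xA u s))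
    (fun s => c.β_mem _) (fun s => c.α_mem _) (Equiv.swap 3 4)
    (fun s => by
      rw [← map_star]
      apply hβeq
      rw [map_star, πG_xA, πG_xA, lam_star, hyι'])
    (fun s => by
      rw [← map_star]
      apply hαeq
      rw [map_star, πG_xA, πG_xA, lam_star, hyι])
    (fun s => by
      rw [← map_star, ← map_mul, ← map_one c.β]
      apply hβeq
      rw [map_mul, map_star, πG_xA, lam_star, ← lam_mul, inv_mul_cancel, lam_one, map_one])
    (fun s => by
      rw [← map_star, ← map_mul, ← map_one c.α]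
      apply hαeq
      rw [map_mul, map_star, πG_xA, lam_star, ← lam_mul, inv_mul_cancel, lam_one, map_one])
    (C := Fintype.card K) (ρ := 497 / 100) (by norm_num)
    (fun k => sum_bound hA hS hR hgap θ hS' hR' hθS hθR c k)
  have h2 : ∀ s, ‖c.M.L (c.β (xA u s) - c.α (xA u s))‖ ^ 2 ≤ C s ^ 2 * η := by
    intro s
    have h3 := hC s _ _ c (√η) h1 (Real.sqrt_nonneg _)
    have h4 : ‖c.M.L (c.β (xA u s) - c.α (xA u s))‖ = ‖c.M.L (c.α (xA u s) - c.β (xA u s))‖ := by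
      rw [c.M.L_sub, c.M.L_sub, norm_sub_rev]
    rw [h4]
    calc _ ≤ (C s * √η) ^ 2 := pow_le_pow_left₀ (norm_nonneg _) h3 2
      _ = C s ^ 2 * η := by rw [mul_pow, Real.sq_sqrt hη0.le]
  have h3 : ∑ s : Fin 5, (1 - C s ^ 2 * η / 2) ≤ 497 / 100 := by
    refine le_trans (Finset.sum_le_sum fun s _ => ?_) hrig
    have := h2 s
    linarith
  rw [Finset.sum_sub_distrib, Finset.sum_const, Finset.card_univ, Fintype.card_fin,
    ← Finset.sum_div, ← Finset.sum_mul, ← hD] at h3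
  have h4 : D * η ≤ 1 / 25 := by
    rw [hη, mul_div_assoc', div_le_iff₀ (by positivity)]
    nlinarith
  simp only [nsmul_eq_mul, Nat.cast_ofNat, mul_one] at h3
  linarith

/-! ### weak convergence -/

/-- simultaneous description of `πG` on the generated algebra -/
lemma exists_groupAlgebra {S R : G} (hS : S * S = 1) (hR : R * R * R = 1) {x : A}
    (hx : x ∈ genAlg u) :
    ∃ (F : Finset G) (z : G → ℂ), πG hA hS hR x = ∑ g ∈ F, z g • lam g ∧
      ∀ (K : Type) [Group K] (θ : G →* K) {S' R' : K} (hS' : S' * S' = 1)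
      (hR' : R' * R' * R' = 1), θ S = S' → θ R = R' →
      πG hA hS' hR' x = ∑ g ∈ F, z g • lam (θ g) := by
  classical
  -- we use the group algebra
  suffices h : ∃ z : MonoidAlgebra ℂ G,
      πG hA hS hR x = MonoidAlgebra.lift ℂ (l2 G →L[ℂ] l2 G) G
        ({ toFun := lam, map_one' := lam_one, map_mul' := lam_mul } : G →* (l2 G →L[ℂ] l2 G)) z ∧
      ∀ (K : Type) [Group K] (θ : G →* K) {S' R' : K} (hS' : S' * S' = 1)
      (hR' : R' * R' * R' = 1), θ S = S' → θ R = R' →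
      πG hA hS' hR' x = MonoidAlgebra.lift ℂ (l2 K →L[ℂ] l2 K) G
        (({ toFun := lam, map_one' := lam_one, map_mul' := lam_mul } :
          K →* (l2 K →L[ℂ] l2 K)).comp θ) z by
    obtain ⟨z, h1, h2⟩ := h
    refine ⟨z.coeff.support, z.coeff, ?_, ?_⟩
    · rw [h1, MonoidAlgebra.lift_apply]
      rfl
    · intro K _ θ S' R' hS' hR' hθS hθR
      rw [h2 K θ hS' hR' hθS hθR, MonoidAlgebra.lift_apply]
      rfl
  induction hx using Algebra.adjoin_induction with
  | mem x hx =>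
    obtain ⟨⟨i, j⟩, rfl⟩ := hx
    refine ⟨sr m (MonoidAlgebra.of ℂ G S) (MonoidAlgebra.of ℂ G R) i j, ?_, ?_⟩
    · rw [πG_apply, map_sr, MonoidAlgebra.lift_of, MonoidAlgebra.lift_of]
      rfl
    · intro K _ θ S' R' hS' hR' hθS hθR
      rw [πG_apply, map_sr, MonoidAlgebra.lift_of, MonoidAlgebra.lift_of, ← hθS, ← hθR]
      rfl
  | algebraMap r =>
    refine ⟨algebraMap ℂ _ r, ?_, ?_⟩
    · rw [AlgHomClass.commutes, AlgHomClass.commutes]
    · intro K _ θ S' R' hS' hR' hθS hθR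
      rw [AlgHomClass.commutes, AlgHomClass.commutes]
  | add x y _ _ hx hy =>
    obtain ⟨z, h1, h2⟩ := hx
    obtain ⟨w, h3, h4⟩ := hy
    refine ⟨z + w, by rw [map_add, map_add, h1, h3], ?_⟩
    intro K _ θ S' R' hS' hR' hθS hθR
    rw [map_add, map_add, h2 K θ hS' hR' hθS hθR, h4 K θ hS' hR' hθS hθR]
  | mul x y _ _ hx hy =>
    obtain ⟨z, h1, h2⟩ := hx
    obtain ⟨w, h3, h4⟩ := hy
    refine ⟨z * w, by rw [map_mul, map_mul, h1, h3], ?_⟩
    intro K _ θ S' R' hS' hR' hθS hθR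
    rw [map_mul, map_mul, h2 K θ hS' hR' hθS hθR, h4 K θ hS' hR' hθS hθR]

end Main

end Helper45.QPerm
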