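import Pool.Agent.Helper45.QPerm.Free2

open scoped InnerProductSpace ComplexOrder ENNReal Topology

namespace Helper45.QPerm

abbrev GZ : Type := (Matrix (Fin 2) (Fin 2) ℤ)ˣ

/-- an involution in `GL₂(ℤ)` -/
def Sg : GZ where
  val := !![1, 0; 0, -1]
  inv := !![1, 0; 0, -1]
  val_inv := by decide
  inv_val := by decide

/-- an element of order three in `GL₂(ℤ)` -/
def Rg : GZ where
  val := !![0, -1; 1, -1]
  inv := !![-1, 1; -1, 0]
  val_inv := by decide
  inv_val := by decide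

lemma Sg_sq : Sg * Sg = 1 := by
  apply Units.ext
  simp only [Units.val_mul, Sg, Units.val_one]
  decide

lemma Rg_cube : Rg * Rg * Rg = 1 := by
  apply Units.ext
  simp only [Units.val_mul, Rg, Units.val_one]
  decide

/-- the two coordinates of `g (√2, 1)` -/
noncomputable def xx (g : GZ) : ℝ := √2 * (g.val 0 0 : ℝ) + (g.val 0 1 : ℝ)
noncomputable def yy (g : GZ) : ℝ := √2 * (g.val 1 0 : ℝ) + (g.val 1 1 : ℝ)

lemma sqrt2_lin {a b : ℤ} (h : √2 * (a : ℝ) + b = 0) : a = 0 ∧ b = 0 := by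
  by_cases ha : a = 0
  · subst ha
    simp only [Int.cast_zero, mul_zero, zero_add, Int.cast_eq_zero] at h
    exact ⟨rfl, h⟩
  · exfalso
    have ha' : (a : ℝ) ≠ 0 := by exact_mod_cast ha
    apply irrational_sqrt_two
    refine ⟨(-b / a : ℚ), ?_⟩
    push_cast
    rw [div_eq_iff ha']
    linarith

lemma xx_ne (g : GZ) : xx g ≠ 0 := by
  intro h
  obtain ⟨h1, h2⟩ := sqrt2_lin h
  have h3 : (g.val * g.inv) 0 0 = 1 := by rw [g.val_inv]; rfl
  rw [Matrix.mul_apply, Fin.sum_univ_two, h1, h2] at h3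
  simp at h3

lemma yy_ne (g : GZ) : yy g ≠ 0 := by
  intro h
  obtain ⟨h1, h2⟩ := sqrt2_lin h
  have h3 : (g.val * g.inv) 1 1 = 1 := by rw [g.val_inv]; rfl
  rw [Matrix.mul_apply, Fin.sum_univ_two, h1, h2] at h3
  simp at h3

lemma xx_S (g : GZ) : xx (Sg * g) = xx g := by
  simp [xx, Sg, Matrix.mul_apply, Fin.sum_univ_two]

lemma yy_S (g : GZ) : yy (Sg * g) = -yy g := by
  simp [yy, Sg, Matrix.mul_apply, Fin.sum_univ_two]
  ring

lemma xx_R (g : GZ) : xx (Rg * g) = -yy g := by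
  simp [xx, yy, Rg, Matrix.mul_apply, Fin.sum_univ_two]
  ring

lemma yy_R (g : GZ) : yy (Rg * g) = xx g - yy g := by
  simp [xx, yy, Rg, Matrix.mul_apply, Fin.sum_univ_two]
  ring

/-- the ping-pong set -/
def NN : Set GZ := {g | xx g * yy g < 0}

lemma gap_GZ : ‖(2 : ℂ) • (1 : l2 GZ →L[ℂ] l2 GZ) + lam Sg + lam Rg + lam (Rg * Rg)‖ ≤
    497 / 100 := by
  apply gap Sg_sq Rg_cube NN
  · intro g
    simp only [NN, Set.mem_ofPred_eq, xx_S, yy_S]
    have := mul_ne_zero (xx_ne g) (yy_ne g)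
    constructor
    · intro h; linarith
    · intro h
      rcases lt_or_gt_of_ne this with h1 | h1
      · exact h1
      · exfalso; apply h; linarith
  · intro g hg
    simp only [NN, Set.mem_ofPred_eq, xx_R, yy_R] at hg ⊢
    nlinarith [sq_nonneg (yy g)]
  · intro g hg
    rw [mul_assoc]
    simp only [NN, Set.mem_ofPred_eq, xx_R, yy_R] at hg ⊢
    nlinarith [sq_nonneg (xx g)]

/-- the finite quotients -/
abbrev GK (k : ℕ) : Type := (Matrix (Fin 2) (Fin 2) (ZMod (k + 2)))ˣ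

/-- reduction modulo `k + 2` -/
def θk (k : ℕ) : GZ →* GK k :=
  Units.map (RingHom.mapMatrix (Int.castRingHom (ZMod (k + 2)))).toMonoidHom

lemma θk_ne {g : GZ} (hg : g ≠ 1) : ∃ K, ∀ k ≥ K, θk k g ≠ 1 := by
  have h1 : ∃ i j, g.val i j ≠ (1 : Matrix (Fin 2) (Fin 2) ℤ) i j := by
    by_contra hcon
    push Not at hcon
    apply hg
    apply Units.ext
    ext i j
    exact hcon i j
  obtain ⟨i, j, hij⟩ := h1
  refine ⟨(g.val i j - (1 : Matrix (Fin 2) (Fin 2) ℤ) i j).natAbs, fun k hk h => ?_⟩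
  have h2 : (((g.val i j : ℤ)) : ZMod (k + 2)) =
      (((1 : Matrix (Fin 2) (Fin 2) ℤ) i j : ℤ) : ZMod (k + 2)) := by
    have h3 := congrArg (fun x : GK k => x.val i j) h
    have h4 : (θk k g).val i j = ((g.val i j : ℤ) : ZMod (k + 2)) := rfl
    have h5 : (((1 : Matrix (Fin 2) (Fin 2) ℤ) i j : ℤ) : ZMod (k + 2)) =
        (1 : Matrix (Fin 2) (Fin 2) (ZMod (k + 2))) i j := by
      rw [Matrix.one_apply, Matrix.one_apply]
      split_ifs <;> simp
    rw [h5, ← h4]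
    exact h3
  rw [← sub_eq_zero, ← Int.cast_sub, ZMod.intCast_zmod_eq_zero_iff_dvd] at h2
  have h6 := Int.natAbs_dvd_natAbs.mpr h2
  have h7 := Nat.le_of_dvd (Int.natAbs_pos.mpr (sub_ne_zero.mpr hij)) h6
  have h8 : ((k + 2 : ℕ) : ℤ).natAbs = k + 2 := Int.natAbs_natCast _
  rw [h8] at h7
  omega

lemma θS_sq (k : ℕ) : θk k Sg * θk k Sg = 1 := by
  rw [← map_mul, Sg_sq, map_one]

lemma θR_cube (k : ℕ) : θk k Rg * θk k Rg * θk k Rg = 1 := by
  rw [← map_mul, ← map_mul, Rg_cube, map_one]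

section Main

variable {m : ℕ} {A : Type} [CStarAlgebra A] {u : Fin (2 + 3 + m) → Fin (2 + 3 + m) → A}
variable (hA : IsQuantumPermutationAlgebra (2 + 3 + m) A u)

lemma tendsto_stG (a : A) : Filter.Tendsto
    (fun k => (stG hA (θS_sq k) (θR_cube k)).1 a) Filter.atTop
    (nhds ((stG hA Sg_sq Rg_cube).1 a)) := by
  classical
  rw [Metric.tendsto_atTop]
  intro ε hε
  obtain ⟨x, hx, hxa⟩ := Metric.mem_closure_iff.mp (hA.dense a) (ε / 2) (by positivity)
  rw [dist_eq_norm] at hxa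
  obtain ⟨F, z, h1, h2⟩ := exists_groupAlgebra hA Sg_sq Rg_cube hx
  have h3 : ∃ K, ∀ k ≥ K, ∀ g ∈ F, g ≠ 1 → θk k g ≠ 1 := by
    clear h1 h2
    induction F using Finset.induction_on with
    | empty => exact ⟨0, fun k _ g hg => absurd hg (Finset.notMem_empty g)⟩
    | insert b F _ ih =>
      obtain ⟨K, hK⟩ := ih
      by_cases hb : b = 1
      · refine ⟨K, fun k hk g hg hg1 => ?_⟩
        rcases Finset.mem_insert.mp hg with rfl | hg'
        · exact absurd hb hg1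
        · exact hK k hk g hg' hg1
      · obtain ⟨K', hK'⟩ := θk_ne hb
        refine ⟨max K K', fun k hk g hg hg1 => ?_⟩
        rcases Finset.mem_insert.mp hg with rfl | hg'
        · exact hK' k ((le_max_right _ _).trans hk)
        · exact hK k ((le_max_left _ _).trans hk) g hg' hg1
  obtain ⟨K, hK⟩ := h3
  refine ⟨K, fun k hk => ?_⟩
  have e1 : (stG hA (θS_sq k) (θR_cube k)).1 x = (stG hA Sg_sq Rg_cube).1 x := by
    rw [stG, pull_apply, stG, pull_apply, h1, h2 (GK k) (θk k) (θS_sq k) (θR_cube k) rfl rfl,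
      TracialVN.tr_sum, TracialVN.tr_sum]
    refine Finset.sum_congr rfl fun g hg => ?_
    rw [TracialVN.tr_smul, TracialVN.tr_smul, tr_lam, tr_lam]
    congr 1
    by_cases hg1 : g = 1
    · rw [if_pos hg1, if_pos (by rw [hg1, map_one])]
    · rw [if_neg hg1, if_neg (hK k hk g hg hg1)]
  have e2 : ‖(stG hA (θS_sq k) (θR_cube k)).1 a - (stG hA (θS_sq k) (θR_cube k)).1 x‖ ≤
      ‖a - x‖ := by
    rw [← map_sub]
    exact (MG (GK k)).norm_tr_apply_le _ _
  have e3 : ‖(stG hA Sg_sq Rg_cube).1 x - (stG hA Sg_sq Rg_cube).1 a‖ ≤ ‖a - x‖ := by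
    rw [← map_sub, norm_sub_rev a x]
    exact (MG GZ).norm_tr_apply_le _ _
  rw [dist_eq_norm]
  calc _ = ‖((stG hA (θS_sq k) (θR_cube k)).1 a - (stG hA (θS_sq k) (θR_cube k)).1 x) +
        ((stG hA Sg_sq Rg_cube).1 x - (stG hA Sg_sq Rg_cube).1 a)‖ := by
        rw [e1]; congr 1; ring
    _ ≤ _ := norm_add_le _ _
    _ < ε := by linarith

/-- `𝒪₁ ≠ 𝒪₂` for `n ≥ 5`: the relevant set. -/
theorem exists_open_one_not_weak (hA : IsQuantumPermutationAlgebra (2 + 3 + m) A u) :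
    ∃ U : Set (TracialState A), IsOpen[topOne u] U ∧ ¬ IsOpen[topWeak A] U := by
  obtain ⟨c0, hc0, h⟩ := free_costOne_ge hA Sg_sq Rg_cube gap_GZ
  have hsep : ∀ k, (c0 : EReal) ≤ dOne u (stG hA Sg_sq Rg_cube)
      (stG hA (θS_sq k) (θR_cube k)) := by
    intro k
    have : Fintype (GK k) := Fintype.ofFinite _
    exact le_iInf fun c => by
      exact_mod_cast h (GK k) (θk k) (θS_sq k) (θR_cube k) rfl rfl c
  refine ⟨(Set.range fun k => stG hA (θS_sq k) (θR_cube k))ᶜ, ?_, ?_⟩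
  · exact isOpen_compl_range (controls_one hA) (φ := stG hA Sg_sq Rg_cube)
      (tendsto_stG hA) hc0 hsep
  · refine not_isOpen_weak (φ := stG hA Sg_sq Rg_cube) (fun k hk => ?_) (tendsto_stG hA)
    have h1 := hsep k
    rw [hk] at h1
    have h2 : dOne u (stG hA Sg_sq Rg_cube) (stG hA Sg_sq Rg_cube) ≤ 0 := dOne_self _ _ _
    have h3 : (0 : EReal) < (c0 : EReal) := by exact_mod_cast hc0
    exact absurd (h3.trans_le (h1.trans h2)) (lt_irrefl _)

end Main

end Helper45.QPerm
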