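import Pool.Agent.Helper45.QPerm.Dihedral2

open scoped InnerProductSpace ComplexOrder ENNReal Topology
open UniformSpace Completion

namespace Helper45.QPerm

attribute [local instance] CStarAlgebra.spectralOrder CStarAlgebra.spectralOrderedRing

section PosFun

variable {B : Type} [CStarAlgebra B]

/-- a positive functional as a `PositiveLinearMap` -/
noncomputable def pf (ψ : StrongDual ℂ B) (h : ∀ a, 0 ≤ ψ (star a * a)) : B →ₚ[ℂ] ℂ :=
  PositiveLinearMap.mk₀ ψ.toLinearMap (fun a ha => by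
    obtain ⟨b, rfl⟩ := CStarAlgebra.nonneg_iff_eq_star_mul_self.mp ha
    exact h b)

lemma pf_apply (ψ : StrongDual ℂ B) (h : ∀ a, 0 ≤ ψ (star a * a)) (a : B) : pf ψ h a = ψ a := rfl

variable {ψ : StrongDual ℂ B} (h : ∀ a, 0 ≤ ψ (star a * a))

/-- the GNS space -/
abbrev HG (ψ : StrongDual ℂ B) (h : ∀ a, 0 ≤ ψ (star a * a)) : Type := (pf ψ h).GNS

/-- the canonical map -/
noncomputable def η (a : B) : HG ψ h := (((pf ψ h).toPreGNS a : (pf ψ h).PreGNS) : (pf ψ h).GNS)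

/-- the GNS representation -/
noncomputable def πη : B →⋆ₐ[ℂ] (HG ψ h →L[ℂ] HG ψ h) := (pf ψ h).gnsStarAlgHom

lemma πη_apply (a b : B) : πη h a (η h b) = η h (a * b) := by
  change (pf ψ h).gnsNonUnitalStarAlgHom a _ = _
  unfold η
  rw [PositiveLinearMap.gnsNonUnitalStarAlgHom_apply_coe]
  simp

lemma inner_η (a b : B) : ⟪η h a, η h b⟫_ℂ = ψ (star a * b) := by
  unfold η
  rw [Completion.inner_coe, PositiveLinearMap.preGNS_inner_def]
  rfl

lemma norm_η_sq (a : B) : ‖η h a‖ ^ 2 = (ψ (star a * a)).re := by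
  have h1 := inner_self_eq_norm_sq_to_K (𝕜 := ℂ) (η h a)
  rw [inner_η] at h1
  rw [h1]
  norm_cast

lemma η_dense : DenseRange (η h) := by
  have h1 : DenseRange ((↑) : (pf ψ h).PreGNS → (pf ψ h).GNS) := denseRange_coe
  have h2 : Function.Surjective (pf ψ h).toPreGNS := (pf ψ h).toPreGNS.surjective
  exact h1.comp h2.denseRange (Completion.continuous_coe _)

lemma η_add (a b : B) : η h (a + b) = η h a + η h b := by
  unfold η
  rw [map_add, Completion.coe_add]

lemma η_sub (a b : B) : η h (a - b) = η h a - η h b := by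
  unfold η
  rw [map_sub, Completion.coe_sub]

lemma η_smul (c : ℂ) (a : B) : η h (c • a) = c • η h a := by
  unfold η
  rw [map_smul, Completion.coe_smul]

lemma norm_η_mul_le (a b : B) : ‖η h (a * b)‖ ≤ ‖a‖ * ‖η h b‖ := by
  rw [← πη_apply]
  refine (ContinuousLinearMap.le_opNorm _ _).trans ?_
  gcongr
  exact NonUnitalStarAlgHom.norm_apply_le (πη h) a

include h in
lemma norm_le_of_pos (a : B) : ‖ψ a‖ ≤ (ψ 1).re * ‖a‖ := by
  have h1 : ψ a = ⟪η h 1, η h a⟫_ℂ := by rw [inner_η, star_one, one_mul]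
  have h2 : ‖η h 1‖ ^ 2 = (ψ 1).re := by rw [norm_η_sq, star_one, one_mul]
  have h3 : ‖η h a‖ ≤ ‖a‖ * ‖η h 1‖ := by
    have := norm_η_mul_le h a 1
    rwa [mul_one] at this
  rw [h1]
  refine (norm_inner_le_norm _ _).trans ?_
  nlinarith [norm_nonneg (η h 1), norm_nonneg a]

end PosFun

section Tracial

variable {B : Type} [CStarAlgebra B] (ω : TracialState B)

/-- abbreviations for a tracial state -/
noncomputable abbrev HT : Type := HG ω.1 ω.2.1

lemma norm_η_star {ψ : StrongDual ℂ B} (h : ∀ a, 0 ≤ ψ (star a * a))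
    (ht : ∀ a b, ψ (a * b) = ψ (b * a)) (a : B) : ‖η h (star a)‖ = ‖η h a‖ := by
  have h1 : ‖η h (star a)‖ ^ 2 = ‖η h a‖ ^ 2 := by
    rw [norm_η_sq, norm_η_sq, star_star, ht]
  exact (pow_left_inj₀ (norm_nonneg _) (norm_nonneg _) two_ne_zero).mp h1

lemma norm_η_mul_le' {ψ : StrongDual ℂ B} (h : ∀ a, 0 ≤ ψ (star a * a))
    (ht : ∀ a b, ψ (a * b) = ψ (b * a)) (a b : B) : ‖η h (a * b)‖ ≤ ‖η h a‖ * ‖b‖ := by
  rw [← norm_η_star h ht, star_mul, mul_comm ‖η h a‖]
  refine (norm_η_mul_le h _ _).trans ?_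
  rw [norm_star, norm_η_star h ht]

/-- right multiplication on the pre-GNS space -/
noncomputable def rPre (b : B) : (pf ω.1 ω.2.1).PreGNS →L[ℂ] (pf ω.1 ω.2.1).PreGNS :=
  LinearMap.mkContinuous
    { toFun := fun x => (pf ω.1 ω.2.1).toPreGNS ((pf ω.1 ω.2.1).ofPreGNS x * b)
      map_add' := fun x y => by rw [map_add, add_mul, map_add]
      map_smul' := fun c x => by rw [map_smul, smul_mul_assoc, map_smul]; rfl } ‖b‖
    (fun x => by
      have h1 := norm_η_mul_le' ω.2.1 ω.2.2.2 ((pf ω.1 ω.2.1).ofPreGNS x) b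
      rw [mul_comm]
      unfold η at h1
      rw [Completion.norm_coe, Completion.norm_coe] at h1
      exact h1)

/-- right multiplication -/
noncomputable def ρη (b : B) : HT ω →L[ℂ] HT ω := (rPre ω b).completion

lemma ρη_apply (a b : B) : ρη ω b (η ω.2.1 a) = η ω.2.1 (a * b) := by
  unfold ρη η
  rw [ContinuousLinearMap.completion_apply_coe]
  rfl

lemma ext_η {x y : HT ω →L[ℂ] HT ω} (h : ∀ a, x (η ω.2.1 a) = y (η ω.2.1 a)) : x = y := by
  apply ContinuousLinearMap.ext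
  have := (η_dense ω.2.1).equalizer x.continuous y.continuous (funext h)
  exact fun v => congrFun this v

lemma ρη_comm (a b : B) : πη ω.2.1 a * ρη ω b = ρη ω b * πη ω.2.1 a := by
  apply ext_η
  intro c
  change πη ω.2.1 a (ρη ω b (η ω.2.1 c)) = ρη ω b (πη ω.2.1 a (η ω.2.1 c))
  rw [ρη_apply, πη_apply, πη_apply, ρη_apply, mul_assoc]

lemma ρη_star (b : B) : star (ρη ω b) = ρη ω (star b) := by
  rw [ContinuousLinearMap.star_eq_adjoint]
  symm
  rw [ContinuousLinearMap.eq_adjoint_iff]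
  intro x y
  have hc : Continuous fun p : HT ω × HT ω => ⟪ρη ω (star b) p.1, p.2⟫_ℂ := by fun_prop
  have hc' : Continuous fun p : HT ω × HT ω => ⟪p.1, ρη ω b p.2⟫_ℂ := by fun_prop
  have hd : DenseRange (Prod.map (η ω.2.1) (η ω.2.1)) := (η_dense ω.2.1).prodMap (η_dense ω.2.1)
  have := hd.equalizer hc hc' (by
    funext ⟨a, c⟩
    simp only [Function.comp, Prod.map]
    rw [ρη_apply, ρη_apply, inner_η, inner_η, star_mul, star_star, mul_assoc,
      ω.2.2.2 b (star a * c), mul_assoc])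
  exact congrFun this (x, y)

/-- the involution `J` -/
noncomputable def Jη : HT ω → HT ω :=
  Completion.map (fun x => (pf ω.1 ω.2.1).toPreGNS (star ((pf ω.1 ω.2.1).ofPreGNS x)))

lemma J_uc : UniformContinuous
    (fun x : (pf ω.1 ω.2.1).PreGNS => (pf ω.1 ω.2.1).toPreGNS (star ((pf ω.1 ω.2.1).ofPreGNS x))) := by
  apply Isometry.uniformContinuous
  apply Isometry.of_dist_eq
  intro x y
  rw [dist_eq_norm, dist_eq_norm, ← map_sub, ← star_sub, ← map_sub]
  have h1 := norm_η_star ω.2.1 ω.2.2.2 ((pf ω.1 ω.2.1).ofPreGNS (x - y))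
  unfold η at h1
  rw [Completion.norm_coe, Completion.norm_coe] at h1
  exact h1

lemma J_continuous : Continuous (Jη ω) := Completion.continuous_map

lemma J_η (a : B) : Jη ω (η ω.2.1 a) = η ω.2.1 (star a) := by
  unfold Jη η
  rw [Completion.map_coe (J_uc ω)]
  rfl

lemma inner_J (x y : HT ω) : ⟪Jη ω x, Jη ω y⟫_ℂ = ⟪y, x⟫_ℂ := by
  have hJ := J_continuous ω
  have hc : Continuous fun p : HT ω × HT ω => ⟪Jη ω p.1, Jη ω p.2⟫_ℂ := by fun_prop
  have hc' : Continuous fun p : HT ω × HT ω => ⟪p.2, p.1⟫_ℂ := by fun_prop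
  have hd : DenseRange (Prod.map (η ω.2.1) (η ω.2.1)) := (η_dense ω.2.1).prodMap (η_dense ω.2.1)
  have := hd.equalizer hc hc' (by
    funext ⟨a, c⟩
    simp only [Function.comp, Prod.map]
    rw [J_η, J_η, inner_η, inner_η, star_star, ω.2.2.2])
  exact congrFun this (x, y)

lemma mem_vnComm {H : Type} [NormedAddCommGroup H] [InnerProductSpace ℂ H] [CompleteSpace H]
    {S : Set (H →L[ℂ] H)} {x : H →L[ℂ] H} :
    x ∈ vnComm S ↔ ∀ g ∈ S, g * x = x * g ∧ star g * x = x * star g := by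
  change x ∈ StarSubalgebra.centralizer ℂ S ↔ _
  exact StarSubalgebra.mem_centralizer_iff ℂ

/-- the von Neumann algebra generated by the GNS representation -/
noncomputable def vnGNS : VonNeumannAlgebra (HT ω) :=
  vnComm (vnComm (Set.range (πη ω.2.1)) : Set (HT ω →L[ℂ] HT ω))

lemma πη_mem (a : B) : πη ω.2.1 a ∈ vnGNS ω := by
  unfold vnGNS
  rw [mem_vnComm]
  intro g hg
  have h1 := mem_vnComm.mp hg
  have h2 := h1 _ ⟨a, rfl⟩
  refine ⟨h2.1.symm, ?_⟩
  have h3 := h1 _ ⟨star a, rfl⟩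
  have h4 := congrArg star h3.1
  rw [star_mul, star_mul, map_star, star_star] at h4
  exact h4

lemma ρη_mem_comm (b : B) : ρη ω b ∈ vnComm (Set.range (πη ω.2.1)) := by
  rw [mem_vnComm]
  rintro _ ⟨a, rfl⟩
  refine ⟨ρη_comm ω a b, ?_⟩
  rw [← map_star]
  exact ρη_comm ω (star a) b

lemma comm_of_mem {x : HT ω →L[ℂ] HT ω} (hx : x ∈ vnGNS ω) (b : B) :
    ρη ω b * x = x * ρη ω b := by
  unfold vnGNS at hx
  exact ((mem_vnComm.mp hx) _ (ρη_mem_comm ω b)).1

/-- mixed trace property -/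
lemma mixed {x : HT ω →L[ℂ] HT ω} (hx : x ∈ vnGNS ω) (b : B) :
    ⟪η ω.2.1 1, x (η ω.2.1 b)⟫_ℂ = ⟪η ω.2.1 (star b), x (η ω.2.1 1)⟫_ℂ := by
  have h1 : η ω.2.1 b = ρη ω b (η ω.2.1 1) := by rw [ρη_apply, one_mul]
  have h2 : x (ρη ω b (η ω.2.1 1)) = ρη ω b (x (η ω.2.1 1)) :=
    (congrArg (fun f : HT ω →L[ℂ] HT ω => f (η ω.2.1 1)) (comm_of_mem ω hx b)).symm
  rw [h1, h2, ← ContinuousLinearMap.adjoint_inner_left, ← ContinuousLinearMap.star_eq_adjoint,
    ρη_star, ρη_apply, one_mul]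

lemma J_apply {y : HT ω →L[ℂ] HT ω} (hy : y ∈ vnGNS ω) :
    Jη ω (y (η ω.2.1 1)) = (star y) (η ω.2.1 1) := by
  have h1 : ∀ a, ⟪Jη ω (y (η ω.2.1 1)), η ω.2.1 a⟫_ℂ = ⟪(star y) (η ω.2.1 1), η ω.2.1 a⟫_ℂ := by
    intro a
    have h2 : η ω.2.1 a = Jη ω (η ω.2.1 (star a)) := by rw [J_η, star_star]
    conv_lhs => rw [h2]
    rw [inner_J, ← mixed ω hy a, ContinuousLinearMap.star_eq_adjoint,
      ContinuousLinearMap.adjoint_inner_left]
  have hc : Continuous fun v : HT ω => ⟪Jη ω (y (η ω.2.1 1)), v⟫_ℂ := by fun_prop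
  have hc' : Continuous fun v : HT ω => ⟪(star y) (η ω.2.1 1), v⟫_ℂ := by fun_prop
  have h3 := (η_dense ω.2.1).equalizer hc hc' (funext h1)
  exact ext_inner_right ℂ (fun v => congrFun h3 v)

/-- the GNS von Neumann algebra with its trace -/
noncomputable def gnsVN : TracialVN (HT ω) where
  alg := vnGNS ω
  vec := fun k => if k = 0 then η ω.2.1 1 else 0
  summable_vec := by
    apply summable_of_ne_finset_zero (s := {0})
    intro k hk
    have : k ≠ 0 := by simpa using hk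
    simp [this]
  unital := by
    unfold vecFunctional
    rw [tsum_eq_single 0 (fun k hk => by simp [hk])]
    simp only [if_true, one_apply_eq_self]
    rw [inner_η, star_one, one_mul, ω.2.2.1]
  tracial := by
    intro x hx y hy
    have hv : ∀ z : HT ω →L[ℂ] HT ω, vecFunctional (fun k => if k = 0 then η ω.2.1 1 else 0) z =
        ⟪η ω.2.1 1, z (η ω.2.1 1)⟫_ℂ := by
      intro z
      unfold vecFunctional
      rw [tsum_eq_single 0 (fun k hk => by simp [hk])]
      simp only [if_true]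
    rw [hv, hv]
    have h1 : ⟪η ω.2.1 1, (x * y) (η ω.2.1 1)⟫_ℂ =
        ⟪(star x) (η ω.2.1 1), y (η ω.2.1 1)⟫_ℂ := by
      rw [ContinuousLinearMap.star_eq_adjoint, ContinuousLinearMap.adjoint_inner_left]
      rfl
    have h2 : y (η ω.2.1 1) = Jη ω ((star y) (η ω.2.1 1)) := by
      rw [J_apply ω (star_mem hy), star_star]
    rw [h1, ← J_apply ω hx, h2, inner_J, ContinuousLinearMap.star_eq_adjoint,
      ContinuousLinearMap.adjoint_inner_left]
    rfl
  faithful := by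
    intro x hx h0
    have hv : ∀ z : HT ω →L[ℂ] HT ω, vecFunctional (fun k => if k = 0 then η ω.2.1 1 else 0) z =
        ⟪η ω.2.1 1, z (η ω.2.1 1)⟫_ℂ := by
      intro z
      unfold vecFunctional
      rw [tsum_eq_single 0 (fun k hk => by simp [hk])]
      simp only [if_true]
    rw [hv] at h0
    have h1 : ⟪η ω.2.1 1, (star x * x) (η ω.2.1 1)⟫_ℂ = ⟪x (η ω.2.1 1), x (η ω.2.1 1)⟫_ℂ := by
      rw [mul_apply_eq_comp, ContinuousLinearMap.star_eq_adjoint,
        ContinuousLinearMap.adjoint_inner_right]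
    rw [h1, inner_self_eq_zero] at h0
    apply ext_η
    intro b
    have h2 : η ω.2.1 b = ρη ω b (η ω.2.1 1) := by rw [ρη_apply, one_mul]
    have h3 : x (ρη ω b (η ω.2.1 1)) = ρη ω b (x (η ω.2.1 1)) :=
      (congrArg (fun f : HT ω →L[ℂ] HT ω => f (η ω.2.1 1)) (comm_of_mem ω hx b)).symm
    rw [h2, h3, h0, map_zero, zero_apply]

lemma tr_gnsVN (x : HT ω →L[ℂ] HT ω) : (gnsVN ω).tr x = ⟪η ω.2.1 1, x (η ω.2.1 1)⟫_ℂ := by
  change vecFunctional (fun k => if k = 0 then η ω.2.1 1 else 0) x = _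
  unfold vecFunctional
  rw [tsum_eq_single 0 (fun k hk => by simp [hk])]
  simp only [if_true]

lemma tr_πη (b : B) : (gnsVN ω).tr (πη ω.2.1 b) = ω.1 b := by
  rw [tr_gnsVN, πη_apply, mul_one, inner_η, star_one, one_mul]

/-- A coupling from two homomorphisms into a C*-algebra with a tracial state. -/
noncomputable def csCoupling {A : Type} [CStarAlgebra A] {φ ψ : TracialState A}
    (α β : A →⋆ₐ[ℂ] B) (h1 : ∀ a, ω.1 (α a) = φ.1 a) (h2 : ∀ a, ω.1 (β a) = ψ.1 a) :
    Coupling φ ψ :=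
  mkCoupling (gnsVN ω) ((πη ω.2.1).comp α) ((πη ω.2.1).comp β)
    (fun a => πη_mem ω _) (fun a => πη_mem ω _)
    (fun a => by rw [StarAlgHom.comp_apply, tr_πη, h1])
    (fun a => by rw [StarAlgHom.comp_apply, tr_πη, h2])

end Tracial

end Helper45.QPerm
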