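import Pool.Agent.Helper45.QPerm.Dihedral2

open scoped InnerProductSpace ComplexOrder ENNReal Topology

namespace Helper45.QPerm

section Gap

variable {X : Type}

lemma norm_sq_l2 (f : l2 X) : HasSum (fun x => ‖f x‖ ^ 2) (‖f‖ ^ 2) := by
  have h := lp.hasSum_norm (p := 2) (by norm_num) f
  simpa using h

/-- edge estimate: `Re ⟨f, U_σ f⟩ ≤ ∑ (k(x) |f(x)|² + k(x)⁻¹ |f(σ⁻¹ x)|²)/2` -/
lemma re_inner_permOp_le (σ : Equiv.Perm X) (k : X → ℝ) (hk : ∀ x, 0 < k x) {C : ℝ}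
    (hkC : ∀ x, k x ≤ C) (hkC' : ∀ x, (k x)⁻¹ ≤ C) (f : l2 X) :
    (⟪f, permOp σ f⟫_ℂ).re ≤ ∑' x, (1 / 2) * (k x + (k (σ x))⁻¹) * ‖f x‖ ^ 2 := by
  have hs1 : Summable fun x => ‖f x‖ ^ 2 := (norm_sq_l2 f).summable
  have hs2 : Summable fun x => k x * ‖f x‖ ^ 2 := by
    refine Summable.of_nonneg_of_le (fun x => by have := hk x; positivity) (fun x => ?_)
      (hs1.mul_left C)
    gcongr
    exact hkC x
  have hs3 : Summable fun x => (k (σ x))⁻¹ * ‖f x‖ ^ 2 := by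
    refine Summable.of_nonneg_of_le (fun x => by have := hk (σ x); positivity) (fun x => ?_)
      (hs1.mul_left C)
    gcongr
    exact hkC' _
  have hs3' : Summable fun x => (k x)⁻¹ * ‖f (σ.symm x)‖ ^ 2 := by
    have h := (σ.symm.summable_iff (f := fun x => (k (σ x))⁻¹ * ‖f x‖ ^ 2)).mpr hs3
    refine h.congr fun x => ?_
    simp
  have h1 : HasSum (fun x => ⟪f x, permOp σ f x⟫_ℂ) ⟪f, permOp σ f⟫_ℂ := lp.hasSum_inner _ _
  have h2 := (Complex.hasSum_iff _ _).mp h1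
  have h3 : ∀ x, (⟪f x, permOp σ f x⟫_ℂ).re ≤
      (1 / 2) * (k x * ‖f x‖ ^ 2 + (k x)⁻¹ * ‖f (σ.symm x)‖ ^ 2) := by
    intro x
    refine (Complex.re_le_norm _).trans ((norm_inner_le_norm _ _).trans ?_)
    rw [permOp_apply]
    have hk' := hk x
    have h4 : 0 ≤ (k x)⁻¹ * (k x * ‖f x‖ - ‖f (σ.symm x)‖) ^ 2 := by positivity
    have h5 : (k x)⁻¹ * (k x * ‖f x‖ - ‖f (σ.symm x)‖) ^ 2 =
        k x * ‖f x‖ ^ 2 - 2 * (‖f x‖ * ‖f (σ.symm x)‖) + (k x)⁻¹ * ‖f (σ.symm x)‖ ^ 2 := by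
      field_simp
      ring
    linarith
  have h6 : (⟪f, permOp σ f⟫_ℂ).re ≤
      ∑' x, (1 / 2) * (k x * ‖f x‖ ^ 2 + (k x)⁻¹ * ‖f (σ.symm x)‖ ^ 2) :=
    hasSum_le h3 h2.1 ((hs2.add hs3').mul_left _).hasSum
  refine h6.trans (le_of_eq ?_)
  rw [tsum_mul_left, hs2.tsum_add hs3']
  have h7 : ∑' x, (k x)⁻¹ * ‖f (σ.symm x)‖ ^ 2 = ∑' x, (k (σ x))⁻¹ * ‖f x‖ ^ 2 := by
    rw [← σ.tsum_eq (fun x => (k x)⁻¹ * ‖f (σ.symm x)‖ ^ 2)]
    simp
  rw [h7, ← hs2.tsum_add hs3, ← tsum_mul_left]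
  congr 1
  funext x
  ring

lemma re_inner_permOp_inv (σ : Equiv.Perm X) (f : l2 X) :
    (⟪f, permOp σ⁻¹ f⟫_ℂ).re = (⟪f, permOp σ f⟫_ℂ).re := by
  rw [← permOp_adjoint, ContinuousLinearMap.star_eq_adjoint,
    ContinuousLinearMap.adjoint_inner_right, ← inner_conj_symm, Complex.conj_re]

end Gap

lemma norm_le_of_le_smul {B : Type*} [CStarAlgebra B] [PartialOrder B] [StarOrderedRing B]
    {a : B} {r : ℝ} (hr : 0 ≤ r) (ha : 0 ≤ a) (h : a ≤ (r : ℂ) • 1) : ‖a‖ ≤ r := by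
  rw [CStarAlgebra.norm_le_iff_le_algebraMap _ hr ha]
  rw [Algebra.algebraMap_eq_smul_one, ← Complex.coe_smul]
  exact h

section Group

variable {G : Type} [Group G]

/-- left translation -/
noncomputable def lam (g : G) : l2 G →L[ℂ] l2 G := permOp (Equiv.mulLeft g)

lemma lam_one : lam (1 : G) = 1 := by
  unfold lam
  rw [show Equiv.mulLeft (1 : G) = 1 by ext; simp, permOp_one]

lemma lam_mul (g h : G) : lam (g * h) = lam g * lam h := by
  unfold lam
  rw [← permOp_mul]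
  congr 1
  ext x
  simp

lemma lam_star (g : G) : star (lam g) = lam g⁻¹ := by
  unfold lam
  rw [permOp_adjoint]
  congr 1
  apply inv_eq_of_mul_eq_one_right
  ext x
  simp

lemma lam_δ (g h : G) : lam g (δ h) = δ (g * h) := permOp_δ _ _

/-- spectral gap for a pair of elements playing ping-pong -/
theorem gap {S R : G} (hS : S * S = 1) (hR : R * R * R = 1) (N : Set G)
    (h1 : ∀ g, g ∈ N ↔ S * g ∉ N) (h2 : ∀ g ∈ N, R * g ∉ N) (h3 : ∀ g ∈ N, R * R * g ∉ N) :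
    ‖(2 : ℂ) • (1 : l2 G →L[ℂ] l2 G) + lam S + lam R + lam (R * R)‖ ≤ 497 / 100 := by
  classical
  have hSi : S⁻¹ = S := inv_eq_of_mul_eq_one_left hS
  have hRi : R⁻¹ = R * R := inv_eq_of_mul_eq_one_left hR
  set T : l2 G →L[ℂ] l2 G := (2 : ℂ) • (1 : l2 G →L[ℂ] l2 G) + lam S + lam R + lam (R * R) with hT
  -- positivity
  have hT0 : 0 ≤ T := by
    have e1 : 0 ≤ (2 : ℂ) • half (Equiv.mulLeft S) := by
      have := (isStarProjection_half (σ := Equiv.mulLeft S) (by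
        ext x; simp [← mul_assoc, hS])).nonneg
      rw [two_smul]
      exact add_nonneg this this
    have e2 : 0 ≤ (1 : l2 G →L[ℂ] l2 G) + lam R + lam (R * R) := by
      have e3 : star ((1 : l2 G →L[ℂ] l2 G) + lam R + lam (R * R)) *
          ((1 : l2 G →L[ℂ] l2 G) + lam R + lam (R * R)) =
          (3 : ℂ) • ((1 : l2 G →L[ℂ] l2 G) + lam R + lam (R * R)) := by
        have r1 : R * R * R = 1 := hR
        have r2 : R * (R * R) = 1 := by rw [← mul_assoc]; exact hR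
        have r3 : R * R * (R * R) = R := by rw [mul_assoc, r2, mul_one]
        have i2 : (R * R)⁻¹ = R := by rw [← hRi, inv_inv]
        rw [star_add, star_add, star_one, lam_star, lam_star, hRi, i2]
        simp only [add_mul, mul_add, one_mul, mul_one, ← lam_mul, r1, r2, r3, lam_one]
        module
      have e4 : (1 : l2 G →L[ℂ] l2 G) + lam R + lam (R * R) =
          star ((((√3)⁻¹ : ℝ) : ℂ) • ((1 : l2 G →L[ℂ] l2 G) + lam R + lam (R * R))) *
          ((((√3)⁻¹ : ℝ) : ℂ) • ((1 : l2 G →L[ℂ] l2 G) + lam R + lam (R * R))) := by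
        rw [star_smul, smul_mul_smul_comm, e3, smul_smul]
        have e5 : star ((((√3)⁻¹ : ℝ) : ℂ)) * (((√3)⁻¹ : ℝ) : ℂ) * 3 = 1 := by
          have e50 : star ((((√3)⁻¹ : ℝ) : ℂ)) = (((√3)⁻¹ : ℝ) : ℂ) := Complex.conj_ofReal _
          rw [e50, ← Complex.ofReal_mul, ← mul_inv, Real.mul_self_sqrt (by norm_num)]
          norm_num
        rw [e5, one_smul]
      rw [e4]
      exact star_mul_self_nonneg _
    have e6 : T = (2 : ℂ) • half (Equiv.mulLeft S) + ((1 : l2 G →L[ℂ] l2 G) + lam R + lam (R * R)) := by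
      rw [hT]
      unfold half
      change _ = (2 : ℂ) • (1 / 2 : ℂ) • (1 + lam S) + _
      module
    rw [e6]
    exact add_nonneg e1 e2
  apply norm_le_of_le_smul (by norm_num) hT0
  rw [← sub_nonneg, ContinuousLinearMap.nonneg_iff_isPositive]
  have hsaT : IsSelfAdjoint T := hT0.isSelfAdjoint
  have hsa : IsSelfAdjoint ((((497 / 100 : ℝ)) : ℂ) • (1 : l2 G →L[ℂ] l2 G) - T) := by
    apply IsSelfAdjoint.sub _ hsaT
    change star _ = _
    rw [star_smul, star_one]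
    congr 1
    exact Complex.conj_ofReal _
  rw [ContinuousLinearMap.isPositive_def']
  refine ⟨hsa, fun f => ?_⟩
  rw [ContinuousLinearMap.reApplyInnerSelf_apply]
  have hTf : RCLike.re ⟪(((((497 / 100 : ℝ)) : ℂ) • (1 : l2 G →L[ℂ] l2 G)) - T) f, f⟫_ℂ =
      497 / 100 * ‖f‖ ^ 2 - (⟪f, T f⟫_ℂ).re := by
    rw [inner_re_symm, _root_.sub_apply, inner_sub_right, _root_.smul_apply, one_apply_eq_self,
      inner_smul_right, inner_self_eq_norm_sq_to_K]
    have h0 : (((497 / 100 : ℝ)) : ℂ) * ((‖f‖ : ℂ)) ^ 2 = ((497 / 100 * ‖f‖ ^ 2 : ℝ) : ℂ) := by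
      push_cast; rfl
    have h0' : (((497 / 100 : ℝ)) : ℂ) * (((‖f‖ : ℝ) : ℂ)) ^ 2 - ⟪f, T f⟫_ℂ =
      ((497 / 100 * ‖f‖ ^ 2 : ℝ) : ℂ) - ⟪f, T f⟫_ℂ := by rw [← h0]
    change (((((497 / 100 : ℝ)) : ℂ) * (((‖f‖ : ℝ) : ℂ)) ^ 2 - ⟪f, T f⟫_ℂ)).re = _
    rw [h0', Complex.sub_re, Complex.ofReal_re]
  rw [hTf]
  -- the three edge estimates
  let kS : G → ℝ := fun g => if g ∈ N then 7 / 6 else 6 / 7
  let kR : G → ℝ := fun g => if g ∈ N then 9 / 10 else if R * R * g ∈ N then 10 / 9 else 1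
  have eS := re_inner_permOp_le (Equiv.mulLeft S) kS (C := 2) (fun g => by
    simp only [kS]; split_ifs <;> norm_num) (fun g => by
    simp only [kS]; split_ifs <;> norm_num) (fun g => by
    simp only [kS]; split_ifs <;> norm_num) f
  have eR := re_inner_permOp_le (Equiv.mulLeft R) kR (C := 2) (fun g => by
    simp only [kR]; split_ifs <;> norm_num) (fun g => by
    simp only [kR]; split_ifs <;> norm_num) (fun g => by
    simp only [kR]; split_ifs <;> norm_num) f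
  have eRR : (⟪f, lam (R * R) f⟫_ℂ).re = (⟪f, lam R f⟫_ℂ).re := by
    have h0 : lam (R * R) = permOp (Equiv.mulLeft R)⁻¹ := by
      rw [← permOp_adjoint, ← hRi, ← lam_star]
      rfl
    rw [h0, re_inner_permOp_inv]
    rfl
  have hsum := norm_sq_l2 f
  have hT1 : (⟪f, T f⟫_ℂ).re = 2 * ‖f‖ ^ 2 + (⟪f, lam S f⟫_ℂ).re + 2 * (⟪f, lam R f⟫_ℂ).re := by
    rw [hT, _root_.add_apply, _root_.add_apply, _root_.add_apply, inner_add_right, inner_add_right,
      inner_add_right, Complex.add_re, Complex.add_re, Complex.add_re, eRR, _root_.smul_apply,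
      one_apply_eq_self, inner_smul_right]
    have h0 : ((2 : ℂ) * ⟪f, f⟫_ℂ).re = 2 * ‖f‖ ^ 2 := by
      rw [inner_self_eq_norm_sq_to_K]
      have h0 : ((2 : ℂ) * (((‖f‖ : ℝ) : ℂ)) ^ 2) = ((2 * ‖f‖ ^ 2 : ℝ) : ℂ) := by push_cast; rfl
      change ((2 : ℂ) * (((‖f‖ : ℝ) : ℂ)) ^ 2).re = _
      rw [h0, Complex.ofReal_re]
    rw [h0]
    ring
  -- pointwise bound of the coefficients
  have hcoef : ∀ g, (1 / 2) * (kS g + (kS (S * g))⁻¹) + 2 * ((1 / 2) * (kR g + (kR (R * g))⁻¹)) ≤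
      297 / 100 := by
    intro g
    have a1 := h1 g
    have a2 := h2 g
    have a3 := h3 g
    have a4 := h2 (R * g)
    have a5 := h3 (R * g)
    have a6 := h2 (R * R * g)
    have a7 := h3 (R * R * g)
    have r1 : R * R * (R * g) = g := by rw [← mul_assoc, hR, one_mul]
    have r2 : R * (R * g) = R * R * g := by rw [mul_assoc]
    have r3 : R * (R * R * g) = g := by rw [← mul_assoc, ← mul_assoc, hR, one_mul]
    have r4 : R * R * (R * R * g) = R * g := by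
      rw [← mul_assoc, ← mul_assoc, hR, one_mul]
    rw [r1] at a5
    rw [r2] at a4
    rw [r3] at a6
    rw [r4] at a7
    simp only [kS, kR, r1]
    by_cases hg : g ∈ N
    · have b1 := a1.mp hg
      have b2 := a2 hg
      have b3 := a3 hg
      simp only [hg, b1, b2, if_true, if_false]
      norm_num
    · have b1 : S * g ∈ N := by
        by_contra hcon
        exact hg (a1.mpr hcon)
      by_cases hg2 : R * R * g ∈ N
      · have b2 : R * g ∉ N := a7 hg2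
        simp only [hg, b1, b2, hg2, if_true, if_false]
        norm_num
      · by_cases hg3 : R * g ∈ N
        · simp only [hg, b1, hg3, hg2, if_true, if_false]
          norm_num
        · simp only [hg, b1, hg3, hg2, if_true, if_false]
          norm_num
  have hsum' : ∀ (k : G → ℝ) (C : ℝ), (∀ g, 0 ≤ k g) → (∀ g, k g ≤ C) →
      Summable fun g => k g * ‖f g‖ ^ 2 := by
    intro k C hk0 hkC
    refine Summable.of_nonneg_of_le (fun g => by have := hk0 g; positivity) (fun g => ?_)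
      (hsum.summable.mul_left C)
    gcongr
    exact hkC g
  have s1 := hsum' (fun g => (1 / 2) * (kS g + (kS (Equiv.mulLeft S g))⁻¹)) 2 (fun g => by
    simp only [kS]; split_ifs <;> norm_num) (fun g => by
    simp only [kS]; split_ifs <;> norm_num)
  have s2 := hsum' (fun g => (1 / 2) * (kR g + (kR (Equiv.mulLeft R g))⁻¹)) 2 (fun g => by
    simp only [kR]; split_ifs <;> norm_num) (fun g => by
    simp only [kR]; split_ifs <;> norm_num)
  have h5 : (⟪f, lam S f⟫_ℂ).re + 2 * (⟪f, lam R f⟫_ℂ).re ≤ 297 / 100 * ‖f‖ ^ 2 := by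
    have h6 : (∑' g, (1 / 2) * (kS g + (kS (Equiv.mulLeft S g))⁻¹) * ‖f g‖ ^ 2) +
        2 * (∑' g, (1 / 2) * (kR g + (kR (Equiv.mulLeft R g))⁻¹) * ‖f g‖ ^ 2) ≤
        297 / 100 * ‖f‖ ^ 2 := by
      rw [← tsum_mul_left, ← s1.tsum_add (s2.mul_left 2), ← hsum.tsum_eq, ← tsum_mul_left]
      refine Summable.tsum_le_tsum (fun g => ?_) (s1.add (s2.mul_left 2)) (hsum.summable.mul_left _)
      have := hcoef g
      have h7 : (0 : ℝ) ≤ ‖f g‖ ^ 2 := by positivity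
      simp only [Equiv.coe_mulLeft]
      nlinarith
    have h8 : (⟪f, lam S f⟫_ℂ).re ≤
      ∑' g, (1 / 2) * (kS g + (kS (Equiv.mulLeft S g))⁻¹) * ‖f g‖ ^ 2 := eS
    have h9 : (⟪f, lam R f⟫_ℂ).re ≤
      ∑' g, (1 / 2) * (kR g + (kR (Equiv.mulLeft R g))⁻¹) * ‖f g‖ ^ 2 := eR
    linarith
  rw [hT1]
  nlinarith

end Group

end Helper45.QPerm
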