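import Pool.Agent.Helper45.QPerm.Dim

open scoped InnerProductSpace ComplexOrder ENNReal Topology

namespace Helper45.QPerm

/-! ### Permutation operators on `ℓ²(X)` -/

abbrev l2 (X : Type) : Type := lp (fun _ : X => ℂ) 2

section Perm

variable {X : Type}

lemma memlp_perm (σ : Equiv.Perm X) (f : l2 X) : Memℓp (fun i => f (σ.symm i)) 2 := by
  rw [memℓp_gen_iff (by norm_num)]
  have h := (memℓp_gen_iff (p := 2) (by norm_num)).mp (lp.memℓp f)
  exact (σ.symm.summable_iff (f := fun i => ‖f i‖ ^ (2 : ℝ≥0∞).toReal)).mpr h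

/-- `(U_σ f)(x) = f(σ⁻¹ x)` -/
noncomputable def permOp (σ : Equiv.Perm X) : l2 X →L[ℂ] l2 X :=
  LinearMap.mkContinuous
    { toFun := fun f => ⟨fun i => f (σ.symm i), memlp_perm σ f⟩
      map_add' := fun f g => by ext i; rfl
      map_smul' := fun c f => by ext i; rfl } 1 (fun f => by
        rw [one_mul]
        apply le_of_eq
        have h1 := lp.norm_rpow_eq_tsum (p := 2) (by norm_num)
          (⟨fun i => f (σ.symm i), memlp_perm σ f⟩ : l2 X)
        have h2 := lp.norm_rpow_eq_tsum (p := 2) (by norm_num) f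
        have h3 : ∑' i, ‖f (σ.symm i)‖ ^ (2 : ℝ≥0∞).toReal = ∑' i, ‖f i‖ ^ (2 : ℝ≥0∞).toReal :=
          σ.symm.tsum_eq (fun i => ‖f i‖ ^ (2 : ℝ≥0∞).toReal)
        have h4 := h1.trans (h3.trans h2.symm)
        simp only [ENNReal.toReal_ofNat, Real.rpow_ofNat] at h4
        exact (pow_left_inj₀ (norm_nonneg _) (norm_nonneg _) two_ne_zero).mp h4)

@[simp] lemma permOp_apply (σ : Equiv.Perm X) (f : l2 X) (i : X) :
    permOp σ f i = f (σ.symm i) := rfl

lemma permOp_one : permOp (1 : Equiv.Perm X) = 1 := by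
  ext f i; rfl

lemma permOp_mul (σ τ : Equiv.Perm X) : permOp (σ * τ) = permOp σ * permOp τ := by
  ext f i; rfl

open Classical in
/-- the basis vectors -/
noncomputable def δ (x : X) : l2 X := lp.single 2 x (1 : ℂ)

lemma inner_δ_left (x : X) (f : l2 X) : ⟪δ x, f⟫_ℂ = f x := by
  classical
  rw [δ, lp.inner_single_left]
  simp

lemma inner_δ_right (x : X) (f : l2 X) : ⟪f, δ x⟫_ℂ = star (f x) := by
  rw [← inner_conj_symm, inner_δ_left]
  rfl

open Classical in
lemma δ_apply (x y : X) : δ x y = if x = y then (1 : ℂ) else 0 := by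
  rw [δ, lp.single_apply, Pi.single_apply]
  simp only [eq_comm]

lemma permOp_δ (σ : Equiv.Perm X) (x : X) : permOp σ (δ x) = δ (σ x) := by
  classical
  ext i
  rw [permOp_apply, δ_apply, δ_apply]
  simp only [Equiv.eq_symm_apply]

lemma norm_δ (x : X) : ‖δ x‖ = 1 := by
  classical
  rw [δ, lp.norm_single (by norm_num)]
  simp

lemma permOp_adjoint (σ : Equiv.Perm X) : star (permOp σ) = permOp σ⁻¹ := by
  rw [ContinuousLinearMap.star_eq_adjoint]
  refine (ContinuousLinearMap.eq_adjoint_iff _ _).mpr (fun f g => ?_) |>.symm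
  rw [lp.inner_eq_tsum, lp.inner_eq_tsum]
  simp only [permOp_apply]
  have h := σ.tsum_eq (fun i => ⟪f i, g (σ.symm i)⟫_ℂ)
  simp only [Equiv.symm_apply_apply] at h
  rw [← h]
  rfl

lemma eq_zero_of_δ {x : l2 X →L[ℂ] l2 X} (h : ∀ i, x (δ i) = 0) : x = 0 := by
  have h1 : star x = 0 := by
    ext f i
    rw [← inner_δ_left, ContinuousLinearMap.star_eq_adjoint,
      ContinuousLinearMap.adjoint_inner_right, h]
    simp
  rw [← star_star x, h1, star_zero]

/-- matrix coefficients -/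
lemma inner_permOp (σ : Equiv.Perm X) {x : l2 X →L[ℂ] l2 X} (hx : permOp σ * x = x * permOp σ)
    (a b : X) : ⟪δ (σ a), x (δ (σ b))⟫_ℂ = ⟪δ a, x (δ b)⟫_ℂ := by
  rw [← permOp_δ, ← permOp_δ]
  have h1 : x (permOp σ (δ b)) = permOp σ (x (δ b)) :=
    (congrArg (fun f : l2 X →L[ℂ] l2 X => f (δ b)) hx).symm
  rw [h1, ← ContinuousLinearMap.adjoint_inner_left, ← ContinuousLinearMap.star_eq_adjoint,
    permOp_adjoint]
  have h2 : permOp σ⁻¹ (permOp σ (δ a)) = δ a := by
    rw [permOp_δ, permOp_δ]; simp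
  rw [h2]

end Perm

/-! ### Tracial von Neumann algebras from free actions with finitely many orbits -/

section Model

variable {X G : Type} [Group G]

/-- the commutant of the permutation operators of a group action -/
noncomputable def commAlg (σ : G →* Equiv.Perm X) : VonNeumannAlgebra (l2 X) where
  toStarSubalgebra := StarSubalgebra.centralizer ℂ (Set.range fun g => permOp (σ g))
  centralizer_centralizer' := by
    have h : ((StarSubalgebra.centralizer ℂ (Set.range fun g => permOp (σ g))).carrier :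
        Set (l2 X →L[ℂ] l2 X)) = Set.centralizer (Set.range fun g => permOp (σ g)) := by
      change Set.centralizer _ = _
      congr 1
      apply Set.union_eq_self_of_subset_right
      rintro x ⟨g, hg⟩
      refine ⟨g⁻¹, ?_⟩
      change permOp (σ g⁻¹) = x
      change permOp (σ g) = star x at hg
      rw [← star_star x, ← hg, permOp_adjoint, map_inv]
    rw [h, Set.centralizer_centralizer_centralizer]

lemma mem_commAlg {σ : G →* Equiv.Perm X} {x : l2 X →L[ℂ] l2 X} :
    x ∈ commAlg σ ↔ ∀ g, permOp (σ g) * x = x * permOp (σ g) := by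
  have h : x ∈ commAlg σ ↔ x ∈ StarSubalgebra.centralizer ℂ (Set.range fun g => permOp (σ g)) :=
    Iff.rfl
  rw [h, StarSubalgebra.mem_centralizer_iff]
  constructor
  · intro h g
    exact (h _ ⟨g, rfl⟩).1
  · rintro h _ ⟨g, rfl⟩
    refine ⟨h g, ?_⟩
    rw [permOp_adjoint, ← map_inv]
    exact h g⁻¹

/-- vectors defining the trace -/
noncomputable def modelVec {N : ℕ} (r : Fin N → X) (k : ℕ) : l2 X :=
  if h : k < N then ((√N : ℝ) : ℂ)⁻¹ • δ (r ⟨k, h⟩) else 0

lemma summable_modelVec {N : ℕ} (r : Fin N → X) : Summable fun k => ‖modelVec r k‖ ^ 2 := by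
  apply summable_of_ne_finset_zero (s := Finset.range N)
  intro k hk
  rw [Finset.mem_range] at hk
  simp [modelVec, hk]

lemma vecFunctional_modelVec {N : ℕ} (r : Fin N → X) (x : l2 X →L[ℂ] l2 X) :
    vecFunctional (modelVec r) x = (N : ℂ)⁻¹ * ∑ i, ⟪δ (r i), x (δ (r i))⟫_ℂ := by
  unfold vecFunctional
  rw [tsum_eq_sum (s := Finset.range N) (fun k hk => by
    rw [Finset.mem_range] at hk
    simp [modelVec, hk])]
  rw [← Fin.sum_univ_eq_sum_range (fun k => ⟪modelVec r k, x (modelVec r k)⟫_ℂ) N,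
    Finset.mul_sum]
  refine Finset.sum_congr rfl fun i _ => ?_
  have h1 : modelVec r (i : ℕ) = ((√N : ℝ) : ℂ)⁻¹ • δ (r i) := by
    unfold modelVec
    rw [dif_pos i.2]
  rw [h1, map_smul, inner_smul_left, inner_smul_right, ← mul_assoc]
  congr 1
  rw [map_inv₀, Complex.conj_ofReal, ← mul_inv]
  congr 1
  rw [← Complex.ofReal_mul, Real.mul_self_sqrt (Nat.cast_nonneg N)]
  simp

lemma inner_mul_eq_tsum (x y : l2 X →L[ℂ] l2 X) (a b : X) :
    HasSum (fun z => ⟪δ a, x (δ z)⟫_ℂ * ⟪δ z, y (δ b)⟫_ℂ) ⟪δ a, (x * y) (δ b)⟫_ℂ := by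
  have h1 : ⟪δ a, (x * y) (δ b)⟫_ℂ = ⟪(star x) (δ a), y (δ b)⟫_ℂ := by
    rw [ContinuousLinearMap.star_eq_adjoint, ContinuousLinearMap.adjoint_inner_left]
    rfl
  rw [h1]
  have h2 := lp.hasSum_inner (𝕜 := ℂ) ((star x) (δ a)) (y (δ b))
  have h4 : (fun z => ⟪δ a, x (δ z)⟫_ℂ * ⟪δ z, y (δ b)⟫_ℂ) =
      fun i => ⟪((star x) (δ a)) i, (y (δ b)) i⟫_ℂ := by
    funext z
    have h3 : ⟪δ a, x (δ z)⟫_ℂ = star ((star x) (δ a) z) := by
      rw [← inner_δ_right, ContinuousLinearMap.star_eq_adjoint,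
        ContinuousLinearMap.adjoint_inner_left]
    rw [h3, inner_δ_left, mul_comm]
    rfl
  rw [h4]
  exact h2

/-- the tracial von Neumann algebra of a free action with `N` orbits -/
noncomputable def modelVN (σ : G →* Equiv.Perm X) {N : ℕ} (hN : 0 < N) (r : Fin N → X)
    (hb : Function.Bijective fun p : G × Fin N => σ p.1 (r p.2)) : TracialVN (l2 X) where
  alg := commAlg σ
  vec := modelVec r
  summable_vec := summable_modelVec r
  unital := by
    rw [vecFunctional_modelVec]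
    have h1 : ∀ i, ⟪δ (r i), (1 : l2 X →L[ℂ] l2 X) (δ (r i))⟫_ℂ = 1 := by
      intro i
      rw [one_apply_eq_self, inner_self_eq_norm_sq_to_K, norm_δ]
      simp
    simp only [h1]
    have hN' : (N : ℂ) ≠ 0 := by exact_mod_cast hN.ne'
    simp [hN']
  tracial := by
    intro x hx y hy
    rw [mem_commAlg] at hx hy
    rw [vecFunctional_modelVec, vecFunctional_modelVec]
    congr 1
    -- expand
    let e : G × Fin N ≃ X := Equiv.ofBijective _ hb
    have hxy : ∀ (x y : l2 X →L[ℂ] l2 X) (i : Fin N),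
        HasSum (fun p : G × Fin N => ⟪δ (r i), x (δ (σ p.1 (r p.2)))⟫_ℂ *
          ⟪δ (σ p.1 (r p.2)), y (δ (r i))⟫_ℂ) ⟪δ (r i), (x * y) (δ (r i))⟫_ℂ := by
      intro x y i
      exact (e.hasSum_iff (f := fun z => ⟪δ (r i), x (δ z)⟫_ℂ * ⟪δ z, y (δ (r i))⟫_ℂ)).mpr
        (inner_mul_eq_tsum x y (r i) (r i))
    let S : (l2 X →L[ℂ] l2 X) → (l2 X →L[ℂ] l2 X) → Fin N → Fin N → ℂ := fun x y i j =>
      ∑' g : G, ⟪δ (r i), x (δ (σ g (r j)))⟫_ℂ * ⟪δ (σ g (r j)), y (δ (r i))⟫_ℂ
    have hA : ∀ (x y : l2 X →L[ℂ] l2 X) (i : Fin N),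
        ⟪δ (r i), (x * y) (δ (r i))⟫_ℂ = ∑ j, S x y i j := by
      intro x y i
      have h1 := (Equiv.prodComm (Fin N) G).hasSum_iff.mpr (hxy x y i)
      rw [← h1.tsum_eq, h1.summable.tsum_prod, tsum_fintype]
      rfl
    have hB : ∀ i j, S x y i j = S y x j i := by
      intro i j
      change ∑' g : G, _ = ∑' g : G, _
      rw [← (Equiv.inv G).tsum_eq (fun g => ⟪δ (r j), y (δ (σ g (r i)))⟫_ℂ *
        ⟪δ (σ g (r i)), x (δ (r j))⟫_ℂ)]
      congr 1
      funext g
      have h1 := inner_permOp (σ g⁻¹) (hx g⁻¹) (r i) (σ g (r j))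
      have h2 := inner_permOp (σ g⁻¹) (hy g⁻¹) (σ g (r j)) (r i)
      have h3 : σ g⁻¹ (σ g (r j)) = r j := by
        rw [← Equiv.Perm.mul_apply, ← map_mul, inv_mul_cancel, map_one]
        rfl
      rw [h3] at h1 h2
      rw [← h1, ← h2, mul_comm]
      rfl
    simp only [hA]
    rw [Finset.sum_comm]
    refine Finset.sum_congr rfl fun j _ => Finset.sum_congr rfl fun i _ => hB i j
  faithful := by
    intro x hx h
    rw [mem_commAlg] at hx
    rw [vecFunctional_modelVec] at h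
    have hN' : (N : ℂ) ≠ 0 := by exact_mod_cast hN.ne'
    rw [mul_eq_zero] at h
    have h1 := h.resolve_left (inv_ne_zero hN')
    have h2 : ∀ i, ⟪δ (r i), (star x * x) (δ (r i))⟫_ℂ = ((‖x (δ (r i))‖ ^ 2 : ℝ) : ℂ) := by
      intro i
      have : ⟪δ (r i), (star x * x) (δ (r i))⟫_ℂ = ⟪x (δ (r i)), x (δ (r i))⟫_ℂ := by
        rw [mul_apply_eq_comp, ContinuousLinearMap.star_eq_adjoint,
          ContinuousLinearMap.adjoint_inner_right]
      rw [this, inner_self_eq_norm_sq_to_K]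
      norm_cast
    simp only [h2] at h1
    have h3 : ∑ i, ‖x (δ (r i))‖ ^ 2 = 0 := by exact_mod_cast h1
    rw [Finset.sum_eq_zero_iff_of_nonneg (fun i _ => by positivity)] at h3
    apply eq_zero_of_δ
    intro z
    obtain ⟨⟨g, i⟩, rfl⟩ := hb.2 z
    have h4 : x (δ (r i)) = 0 := by
      have := h3 i (Finset.mem_univ i)
      exact norm_eq_zero.mp (pow_eq_zero_iff two_ne_zero |>.mp this)
    have h5 : x (permOp (σ g) (δ (r i))) = permOp (σ g) (x (δ (r i))) :=
      (congrArg (fun f : l2 X →L[ℂ] l2 X => f (δ (r i))) (hx g)).symm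
    change x (δ (σ g (r i))) = 0
    rw [← permOp_δ, h5, h4, map_zero]

end Model

end Helper45.QPerm
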