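import Pool.Agent.Helper45.QPerm.Rep
import Pool.Agent.Helper45.QPerm.Density

open scoped InnerProductSpace ComplexOrder ENNReal Topology
open scoped Matrix.Norms.L2Operator
open MeasureTheory

namespace Helper45.QPerm

section MatState

/-- normalised trace on matrices -/
noncomputable def trF (N : ℕ) : StrongDual ℂ (Matrix (Fin N) (Fin N) ℂ) :=
  LinearMap.toContinuousLinearMap ((1 / N : ℂ) • Matrix.traceLinearMap (Fin N) ℂ ℂ)

variable {N : ℕ}

lemma trF_apply (x : Matrix (Fin N) (Fin N) ℂ) : trF N x = (1 / N : ℂ) * x.trace := rfl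

/-- normalised Hilbert-Schmidt norm squared -/
noncomputable def hs (x : Matrix (Fin N) (Fin N) ℂ) : ℝ := (1 / N : ℝ) * ∑ j, ∑ i, ‖x i j‖ ^ 2

lemma hs_nonneg (x : Matrix (Fin N) (Fin N) ℂ) : 0 ≤ hs x := by
  unfold hs
  positivity

lemma trF_star_mul (x : Matrix (Fin N) (Fin N) ℂ) : trF N (star x * x) = (hs x : ℂ) := by
  rw [trF_apply, hs]
  push_cast
  congr 1
  unfold Matrix.trace
  refine Finset.sum_congr rfl fun j _ => ?_
  rw [Matrix.diag_apply, Matrix.mul_apply]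
  refine Finset.sum_congr rfl fun i _ => ?_
  rw [Matrix.star_apply]
  have := RCLike.conj_mul (x i j)
  exact_mod_cast this

lemma trF_one (hN : 0 < N) : trF N 1 = 1 := by
  rw [trF_apply, Matrix.trace_one, Fintype.card_fin, one_div,
    inv_mul_cancel₀ (by exact_mod_cast hN.ne')]

lemma trF_comm (x y : Matrix (Fin N) (Fin N) ℂ) : trF N (x * y) = trF N (y * x) := by
  rw [trF_apply, trF_apply, Matrix.trace_mul_comm]

lemma trF_pos (x : Matrix (Fin N) (Fin N) ℂ) : 0 ≤ trF N (star x * x) := by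
  rw [trF_star_mul]
  exact_mod_cast hs_nonneg x

lemma norm_trF_le (hN : 0 < N) (x : Matrix (Fin N) (Fin N) ℂ) : ‖trF N x‖ ≤ ‖x‖ := by
  have := norm_le_of_pos trF_pos x
  rwa [trF_one hN, Complex.one_re, one_mul] at this

lemma hs_le (hN : 0 < N) (x : Matrix (Fin N) (Fin N) ℂ) : hs x ≤ ‖x‖ ^ 2 := by
  have h1 := norm_trF_le hN (star x * x)
  rw [trF_star_mul, Complex.norm_real, Real.norm_of_nonneg (hs_nonneg x),
    CStarRing.norm_star_mul_self] at h1
  rw [pow_two]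
  exact h1

lemma hs_continuous : Continuous (hs : Matrix (Fin N) (Fin N) ℂ → ℝ) := by
  unfold hs
  refine continuous_const.mul (continuous_finsetSum _ fun j _ => continuous_finsetSum _ fun i _ => ?_)
  exact ((continuous_apply_apply i j).norm).pow 2

end MatState

section Omega

variable {K : Type} [MetricSpace K] [CompactSpace K] [MeasurableSpace K] [BorelSpace K] {N : ℕ}

/-- the state given by a density on `K × K` -/
noncomputable def omega (hN : 0 < N) (μ ν : Measure K) [IsProbabilityMeasure μ]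
    [IsProbabilityMeasure ν] (ρ : K × K → ℝ) (hρ : Continuous ρ) (hρ0 : ∀ p, 0 ≤ ρ p)
    (hρ1 : ∫ p, ρ p ∂(μ.prod ν) = 1) : TracialState C(K × K, Matrix (Fin N) (Fin N) ℂ) :=
  have hc : ∀ F : C(K × K, Matrix (Fin N) (Fin N) ℂ),
      Continuous fun p => trF N (F p) * (ρ p : ℂ) := fun F =>
    ((trF N).continuous.comp F.continuous).mul (Complex.continuous_ofReal.comp hρ)
  have hi : ∀ F : C(K × K, Matrix (Fin N) (Fin N) ℂ),
      Integrable (fun p => trF N (F p) * (ρ p : ℂ)) (μ.prod ν) := fun F =>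
    integrable_cont _ (hc F)
  ⟨LinearMap.mkContinuous
    { toFun := fun F => ∫ p, trF N (F p) * (ρ p : ℂ) ∂(μ.prod ν)
      map_add' := fun F G => by
        rw [← integral_add (hi F) (hi G)]
        refine integral_congr_ae (Filter.Eventually.of_forall fun p => ?_)
        change trF N (F p + G p) * (ρ p : ℂ) = _
        rw [map_add, add_mul]
      map_smul' := fun c F => by
        rw [RingHom.id_apply, smul_eq_mul, ← integral_const_mul]
        refine integral_congr_ae (Filter.Eventually.of_forall fun p => ?_)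
        change trF N (c • F p) * (ρ p : ℂ) = _
        rw [map_smul, smul_eq_mul, mul_assoc] } 1 (fun F => by
      rw [one_mul]
      change ‖∫ p, trF N (F p) * (ρ p : ℂ) ∂(μ.prod ν)‖ ≤ _
      refine (norm_integral_le_integral_norm _).trans ?_
      calc ∫ p, ‖trF N (F p) * (ρ p : ℂ)‖ ∂(μ.prod ν) ≤ ∫ p, ‖F‖ * ρ p ∂(μ.prod ν) := by
            refine integral_mono (hi F).norm (integrable_cont _ (continuous_const.mul hρ))
              fun p => ?_
            change ‖trF N (F p) * (ρ p : ℂ)‖ ≤ ‖F‖ * ρ p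
            rw [norm_mul, Complex.norm_real, Real.norm_of_nonneg (hρ0 p)]
            exact mul_le_mul_of_nonneg_right
              ((norm_trF_le hN _).trans (ContinuousMap.norm_coe_le_norm F p)) (hρ0 p)
        _ = ‖F‖ := by rw [integral_const_mul, hρ1, mul_one]),
    fun F => by
      change 0 ≤ ∫ p, trF N (star (F p) * F p) * (ρ p : ℂ) ∂(μ.prod ν)
      have e : ∀ p, trF N (star (F p) * F p) * (ρ p : ℂ) = ((hs (F p) * ρ p : ℝ) : ℂ) := fun p => by
        rw [trF_star_mul, Complex.ofReal_mul]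
      simp only [e]
      rw [integral_complex_ofReal]
      exact_mod_cast integral_nonneg fun p => mul_nonneg (hs_nonneg _) (hρ0 p),
    by
      change ∫ p, trF N (1 : Matrix (Fin N) (Fin N) ℂ) * (ρ p : ℂ) ∂(μ.prod ν) = 1
      rw [trF_one hN]
      simp only [one_mul]
      rw [integral_complex_ofReal, hρ1, Complex.ofReal_one],
    fun F G => by
      change ∫ p, trF N (F p * G p) * (ρ p : ℂ) ∂(μ.prod ν) =
        ∫ p, trF N (G p * F p) * (ρ p : ℂ) ∂(μ.prod ν)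
      simp only [trF_comm (F _) (G _)]⟩

lemma omega_apply (hN : 0 < N) (μ ν : Measure K) [IsProbabilityMeasure μ]
    [IsProbabilityMeasure ν] (ρ : K × K → ℝ) (hρ : Continuous ρ) (hρ0 : ∀ p, 0 ≤ ρ p)
    (hρ1 : ∫ p, ρ p ∂(μ.prod ν) = 1) (F : C(K × K, Matrix (Fin N) (Fin N) ℂ)) :
    (omega hN μ ν ρ hρ hρ0 hρ1).1 F = ∫ p, trF N (F p) * (ρ p : ℂ) ∂(μ.prod ν) := rfl

lemma omega_star_mul (hN : 0 < N) (μ ν : Measure K) [IsProbabilityMeasure μ]
    [IsProbabilityMeasure ν] (ρ : K × K → ℝ) (hρ : Continuous ρ) (hρ0 : ∀ p, 0 ≤ ρ p)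
    (hρ1 : ∫ p, ρ p ∂(μ.prod ν) = 1) (F : C(K × K, Matrix (Fin N) (Fin N) ℂ)) :
    ((omega hN μ ν ρ hρ hρ0 hρ1).1 (star F * F)).re = ∫ p, hs (F p) * ρ p ∂(μ.prod ν) := by
  rw [omega_apply]
  have e : ∀ p, trF N ((star F * F) p) * (ρ p : ℂ) = ((hs (F p) * ρ p : ℝ) : ℂ) := fun p => by
    change trF N (star (F p) * F p) * (ρ p : ℂ) = _
    rw [trF_star_mul, Complex.ofReal_mul]
  simp only [e]
  rw [integral_complex_ofReal]
  exact Complex.ofReal_re _

end Omega

section Cost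

variable {n : ℕ} {A : Type} [CStarAlgebra A] {φ ψ : TracialState A}

lemma mkCoupling_cost {H : Type} [NormedAddCommGroup H] [InnerProductSpace ℂ H] [CompleteSpace H]
    (u : Fin n → Fin n → A) (M : TracialVN H)
    (π ρ : A →⋆ₐ[ℂ] (H →L[ℂ] H))
    (hπ : ∀ a, π a ∈ M.alg) (hρ : ∀ a, ρ a ∈ M.alg) (h1 : ∀ a, M.tr (π a) = φ.1 a)
    (h2 : ∀ a, M.tr (ρ a) = ψ.1 a) {s : ℝ}
    (hs : ∀ i j, ‖M.L (π (u i j) - ρ (u i j))‖ ≤ s) :
    costOne u (mkCoupling M π ρ hπ hρ h1 h2) ≤ n * s := by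
  have h3 : ∀ i j, (M.tr (CFC.abs (π (u i j) - ρ (u i j)))).re ≤ s := fun i j =>
    (M.tr_abs_le _).trans (hs i j)
  have h0 : ∀ i j, 0 ≤ (M.tr (CFC.abs (π (u i j) - ρ (u i j)))).re := fun i j =>
    M.tr_abs_nonneg _
  change (1 / n : ℝ) * ∑ i, ∑ j, (1 / 2 : ℝ) * (M.tr (CFC.abs (π (u i j) - ρ (u i j)))).re ≤ _
  calc (1 / n : ℝ) * ∑ i, ∑ j, (1 / 2 : ℝ) * (M.tr (CFC.abs (π (u i j) - ρ (u i j)))).re
      ≤ (1 / n : ℝ) * ∑ i : Fin n, ∑ j : Fin n, s := by
        gcongr with i _ j _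
        linarith [h3 i j, h0 i j]
    _ ≤ n * s := by
        rcases Nat.eq_zero_or_pos n with h | h
        · subst h; simp
        · simp only [Finset.sum_const, Finset.card_univ, Fintype.card_fin, nsmul_eq_mul]
          have : (0 : ℝ) < n := by exact_mod_cast h
          field_simp
          exact le_rfl

lemma norm_L_hom {H : Type} [NormedAddCommGroup H] [InnerProductSpace ℂ H] [CompleteSpace H]
    {B : Type} [CStarAlgebra B] (M : TracialVN H) (ω : TracialState B)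
    (π : B →⋆ₐ[ℂ] (H →L[ℂ] H)) (hπ : ∀ b, M.tr (π b) = ω.1 b) (b : B) :
    ‖M.L (π b)‖ ^ 2 = (ω.1 (star b * b)).re := by
  rw [M.norm_L_sq', ← map_star, ← map_mul, hπ]

lemma hom_cost {H : Type} [NormedAddCommGroup H] [InnerProductSpace ℂ H] [CompleteSpace H]
    {B : Type} [CStarAlgebra B] (M : TracialVN H) (ω : TracialState B)
    (π : B →⋆ₐ[ℂ] (H →L[ℂ] H)) (hm : ∀ b, π b ∈ M.alg) (hπ : ∀ b, M.tr (π b) = ω.1 b)
    (u : Fin n → Fin n → A) (α β : A →⋆ₐ[ℂ] B)
    (h1 : ∀ a, ω.1 (α a) = φ.1 a) (h2 : ∀ a, ω.1 (β a) = ψ.1 a) {s : ℝ} (hs0 : 0 ≤ s)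
    (hs : ∀ i j, (ω.1 (star (α (u i j) - β (u i j)) * (α (u i j) - β (u i j)))).re ≤ s ^ 2) :
    costOne u (φ := φ) (ψ := ψ) (mkCoupling M (π.comp α) (π.comp β) (fun a => hm _) (fun a => hm _)
      (fun a => by rw [StarAlgHom.comp_apply, hπ, h1])
      (fun a => by rw [StarAlgHom.comp_apply, hπ, h2])) ≤ n * s := by
  refine mkCoupling_cost u M _ _ _ _ _ _ fun i j => ?_
  rw [StarAlgHom.comp_apply, StarAlgHom.comp_apply, ← map_sub]
  have h4 := norm_L_hom M ω π hπ (α (u i j) - β (u i j))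
  exact abs_le_of_sq_le_sq' (h4.le.trans (hs i j)) hs0 |>.2

/-- A coupling with small cost from two homomorphisms into a C*-algebra with a tracial state. -/
lemma dOne_le_of_hom {B : Type} [CStarAlgebra B]
    (u : Fin n → Fin n → A) (ω : TracialState B) (α β : A →⋆ₐ[ℂ] B)
    (h1 : ∀ a, ω.1 (α a) = φ.1 a) (h2 : ∀ a, ω.1 (β a) = ψ.1 a) {s : ℝ} (hs0 : 0 ≤ s)
    (hs : ∀ i j, (ω.1 (star (α (u i j) - β (u i j)) * (α (u i j) - β (u i j)))).re ≤ s ^ 2) :
    dOne u φ ψ ≤ ((n * s : ℝ) : EReal) := by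
  refine (iInf_le _ _).trans (EReal.coe_le_coe_iff.mpr
    (hom_cost (gnsVN ω) ω (πη ω.2.1) (πη_mem ω) (tr_πη ω) u α β h1 h2 hs0 hs))

end Cost

end Helper45.QPerm
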