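import Pool.Agent.Helper45.QPerm.Extreme

open scoped InnerProductSpace ComplexOrder ENNReal Topology

namespace Helper45.QPerm

attribute [local instance] CStarAlgebra.spectralOrder CStarAlgebra.spectralOrderedRing

section MatHom

variable {H : Type*} [NormedAddCommGroup H] [InnerProductSpace ℂ H] [CompleteSpace H] {D : ℕ}

/-- matrix of an operator in an orthonormal basis -/
noncomputable def matHom (b : OrthonormalBasis (Fin D) ℂ H) :
    (H →L[ℂ] H) →⋆ₐ[ℂ] Matrix (Fin D) (Fin D) ℂ where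
  toFun x := Matrix.of fun i j => ⟪b i, x (b j)⟫_ℂ
  map_one' := by
    ext i j
    simp only [Matrix.of_apply, one_apply_eq_self, Matrix.one_apply]
    exact orthonormal_iff_ite.mp b.orthonormal i j
  map_mul' x y := by
    ext i j
    simp only [Matrix.of_apply, Matrix.mul_apply]
    rw [mul_apply_eq_comp, ← ContinuousLinearMap.adjoint_inner_left,
      ← OrthonormalBasis.sum_inner_mul_inner b]
    refine Finset.sum_congr rfl fun k _ => ?_
    rw [ContinuousLinearMap.adjoint_inner_left]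
  map_zero' := by
    ext i j
    simp
  map_add' x y := by
    ext i j
    simp [inner_add_right]
  commutes' r := by
    ext i j
    simp only [Matrix.of_apply, Algebra.algebraMap_eq_smul_one, Matrix.smul_apply,
      Matrix.one_apply, smul_apply, one_apply_eq_self, inner_smul_right, smul_eq_mul]
    rw [orthonormal_iff_ite.mp b.orthonormal i j]
  map_star' x := by
    ext i j
    rw [Matrix.star_apply]
    simp only [Matrix.of_apply]
    rw [ContinuousLinearMap.star_eq_adjoint, ContinuousLinearMap.adjoint_inner_right,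
      ← inner_conj_symm]
    rfl

lemma matHom_apply (b : OrthonormalBasis (Fin D) ℂ H) (x : H →L[ℂ] H) (i j : Fin D) :
    matHom b x i j = ⟪b i, x (b j)⟫_ℂ := rfl

lemma trace_matHom (b : OrthonormalBasis (Fin D) ℂ H) (x : H →L[ℂ] H) :
    (matHom b x).trace = ∑ i, ⟪b i, x (b i)⟫_ℂ := rfl

end MatHom

section BlkHom

variable {D m N : ℕ}

/-- block diagonal amplification -/
def blkHom (e : Fin D × Fin m ≃ Fin N) :
    Matrix (Fin D) (Fin D) ℂ →⋆ₐ[ℂ] Matrix (Fin N) (Fin N) ℂ where
  toFun x := Matrix.of fun i j =>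
    if (e.symm i).2 = (e.symm j).2 then x (e.symm i).1 (e.symm j).1 else 0
  map_one' := by
    ext i j
    simp only [Matrix.of_apply, Matrix.one_apply]
    by_cases h : i = j
    · subst h; simp
    · rw [if_neg h]
      by_cases h2 : (e.symm i).2 = (e.symm j).2
      · rw [if_pos h2, if_neg]
        intro h3
        exact h (e.symm.injective (Prod.ext h3 h2))
      · rw [if_neg h2]
  map_mul' x y := by
    ext i j
    simp only [Matrix.of_apply, Matrix.mul_apply]
    rw [← Equiv.sum_comp e, Fintype.sum_prod_type, Finset.sum_comm]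
    simp only [Equiv.symm_apply_apply]
    rw [Finset.sum_eq_single (e.symm i).2]
    · by_cases h : (e.symm i).2 = (e.symm j).2
      · simp only [if_pos h, if_true]
      · simp [if_neg h]
    · intro k _ hk
      apply Finset.sum_eq_zero
      intro l _
      rw [if_neg (fun h => hk h.symm), zero_mul]
    · intro h
      exact absurd (Finset.mem_univ _) h
  map_zero' := by
    ext i j
    simp
  map_add' x y := by
    ext i j
    simp only [Matrix.of_apply, Matrix.add_apply]
    split_ifs <;> simp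
  commutes' r := by
    ext i j
    simp only [Matrix.of_apply, Matrix.algebraMap_matrix_apply]
    by_cases h : i = j
    · subst h; simp
    · rw [if_neg h]
      by_cases h2 : (e.symm i).2 = (e.symm j).2
      · rw [if_pos h2, if_neg]
        intro h3
        exact h (e.symm.injective (Prod.ext h3 h2))
      · rw [if_neg h2]
  map_star' x := by
    ext i j
    simp only [Matrix.of_apply, Matrix.star_apply]
    by_cases h2 : (e.symm i).2 = (e.symm j).2
    · rw [if_pos h2, if_pos h2.symm]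
    · rw [if_neg h2, if_neg (fun h => h2 h.symm), star_zero]

lemma trace_blkHom (e : Fin D × Fin m ≃ Fin N) (x : Matrix (Fin D) (Fin D) ℂ) :
    (blkHom e x).trace = m * x.trace := by
  unfold Matrix.trace
  rw [← Equiv.sum_comp e, Fintype.sum_prod_type, Finset.mul_sum]
  refine Finset.sum_congr rfl fun i _ => ?_
  have h : ∀ k : Fin m, (blkHom e x).diag (e (i, k)) = x.diag i := by
    intro k
    change (if (e.symm (e (i, k))).2 = (e.symm (e (i, k))).2 then
      x (e.symm (e (i, k))).1 (e.symm (e (i, k))).1 else 0) = x i i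
    simp
  simp only [h, Finset.sum_const, Finset.card_univ, Fintype.card_fin, nsmul_eq_mul]

end BlkHom

section ExtremeRep

variable {A : Type} [CStarAlgebra A] {u : Fin 4 → Fin 4 → A} {φ : TracialState A}

lemma η_surj (φ : TracialState A) [FiniteDimensional ℂ (HT φ)] (v : HT φ) :
    ∃ a, η φ.2.1 a = v := by
  let R : A →ₗ[ℂ] HT φ :=
    { toFun := η φ.2.1, map_add' := η_add φ.2.1, map_smul' := η_smul φ.2.1 }
  have hcl : IsClosed (LinearMap.range R : Set (HT φ)) := Submodule.closed_of_finiteDimensional _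
  have h1 : closure (Set.range (η φ.2.1)) ⊆ (LinearMap.range R : Set (HT φ)) := by
    apply closure_minimal _ hcl
    rintro _ ⟨a, rfl⟩
    exact ⟨a, rfl⟩
  exact h1 (η_dense φ.2.1 v)

lemma extreme_trace {H : Type*} [NormedAddCommGroup H] [InnerProductSpace ℂ H] [CompleteSpace H]
    (hφ : (fun a => φ.1 a) ∈ (TS A).extremePoints ℝ)
    (π : A →⋆ₐ[ℂ] (H →L[ℂ] H)) (v : A → H) (hπv : ∀ a b, π a (v b) = v (a * b))
    (hv : ∀ a b, ‖v (a * b)‖ ≤ ‖v a‖ * ‖b‖) (hv' : ∀ a, ‖v a‖ ≤ ‖a‖)
    (hvv : ∀ a, φ.1 (star a * a) = ((‖v a‖ ^ 2 : ℝ) : ℂ))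
    {D : ℕ} (hD : 0 < D) (b : OrthonormalBasis (Fin D) ℂ H) (hb : ∀ i, ∃ c, v c = b i)
    (a : A) : φ.1 a = (1 / D : ℂ) * (matHom b (π a)).trace := by
  choose c hc using hb
  have hbd : ∀ x i, ‖π x (b i)‖ ≤ ‖v x‖ * ‖c i‖ := by
    intro x i
    rw [← hc, hπv]
    exact hv x (c i)
  let ψ₀ : A →ₗ[ℂ] ℂ :=
    { toFun := fun x => (1 / D : ℂ) * (matHom b (π x)).trace
      map_add' := fun x y => by rw [map_add, map_add, Matrix.trace_add, mul_add]
      map_smul' := fun c x => by
        rw [map_smul, map_smul, Matrix.trace_smul, smul_eq_mul, RingHom.id_apply, smul_eq_mul]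
        ring }
  let ψ : StrongDual ℂ A := ψ₀.mkContinuous ((1 / D : ℝ) * ∑ i, ‖c i‖) (by
    intro x
    change ‖(1 / D : ℂ) * (matHom b (π x)).trace‖ ≤ _
    rw [norm_mul, mul_assoc]
    have h1 : ‖(1 / D : ℂ)‖ = 1 / D := by simp
    rw [h1]
    gcongr
    rw [trace_matHom, Finset.sum_mul]
    refine (norm_sum_le _ _).trans (Finset.sum_le_sum fun i _ => ?_)
    refine (norm_inner_le_norm _ _).trans ?_
    rw [b.orthonormal.1 i, one_mul, mul_comm]
    exact (hbd x i).trans (mul_le_mul_of_nonneg_right (hv' x) (norm_nonneg _)))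
  have hψ : ∀ x, ψ x = (1 / D : ℂ) * (matHom b (π x)).trace := fun x => rfl
  have hsq : ∀ x, (matHom b (π (star x * x))).trace =
      ((∑ i, ‖π x (b i)‖ ^ 2 : ℝ) : ℂ) := by
    intro x
    rw [trace_matHom]
    push_cast
    refine Finset.sum_congr rfl fun i _ => ?_
    rw [map_mul, map_star, mul_apply_eq_comp, ContinuousLinearMap.star_eq_adjoint,
      ContinuousLinearMap.adjoint_inner_right, inner_self_eq_norm_sq_to_K]
    rfl
  have hD' : (1 / D : ℂ) = ((1 / D : ℝ) : ℂ) := by push_cast; rfl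
  have hψ2 : ∀ x, ψ (star x * x) = (((1 / D : ℝ) * ∑ i, ‖π x (b i)‖ ^ 2 : ℝ) : ℂ) := by
    intro x
    rw [hψ, hsq, hD', ← Complex.ofReal_mul]
  have h0 : ∀ x, 0 ≤ ψ (star x * x) := by
    intro x
    rw [hψ2]
    have : (0 : ℝ) ≤ (1 / D : ℝ) * ∑ i, ‖π x (b i)‖ ^ 2 := by positivity
    exact_mod_cast this
  have ht : ∀ x y, ψ (x * y) = ψ (y * x) := by
    intro x y
    rw [hψ, hψ, map_mul, map_mul, map_mul, map_mul, Matrix.trace_mul_comm]
  have hC : ∀ x, ψ (star x * x) ≤ ((1 / D : ℝ) * ∑ i, ‖c i‖ ^ 2 : ℝ) * φ.1 (star x * x) := by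
    intro x
    rw [hψ2, hvv, ← Complex.ofReal_mul]
    have h2 : (1 / D : ℝ) * ∑ i, ‖π x (b i)‖ ^ 2 ≤
        (1 / D : ℝ) * (∑ i, ‖c i‖ ^ 2) * ‖v x‖ ^ 2 := by
      rw [mul_assoc, Finset.sum_mul]
      gcongr with i _
      rw [← mul_pow]
      refine pow_le_pow_left₀ (norm_nonneg _) ?_ 2
      rw [mul_comm]
      exact hbd x i
    exact_mod_cast h2
  have h1 : ψ 1 = 1 := by
    rw [hψ, map_one, map_one, Matrix.trace_one, Fintype.card_fin, one_div,
      inv_mul_cancel₀ (by exact_mod_cast hD.ne')]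
  have := extreme_dom hφ ψ h0 ht _ hC a
  rw [h1, one_mul] at this
  rw [← this, hψ]

/-- every extreme tracial state comes from an `N`-dimensional representation -/
lemma extreme_rep (hA : IsQuantumPermutationAlgebra 4 A u)
    (hφ : (fun a => φ.1 a) ∈ (TS A).extremePoints ℝ) {N : ℕ} (hN0 : 0 < N)
    (hN : ∀ D, 0 < D → D ≤ 512 → D ∣ N) :
    ∃ g : A →⋆ₐ[ℂ] Matrix (Fin N) (Fin N) ℂ, ∀ a, φ.1 a = (1 / N : ℂ) * (g a).trace := by
  obtain ⟨hfd, hle⟩ := HT_finite hA hφ
  have hD : 0 < Module.finrank ℂ (HT φ) := by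
    rw [Module.finrank_pos_iff]
    refine ⟨⟨η φ.2.1 1, 0, fun h => ?_⟩⟩
    have := norm_η_one φ
    rw [h, norm_zero] at this
    exact zero_ne_one this
  set D := Module.finrank ℂ (HT φ) with hDdef
  obtain ⟨m, hm⟩ := hN D hD hle
  have e : Fin D × Fin m ≃ Fin N := finProdFinEquiv.trans (finCongr hm.symm)
  refine ⟨((blkHom e).comp (matHom (stdOrthonormalBasis ℂ (HT φ)))).comp (πη φ.2.1), fun a => ?_⟩
  have key := extreme_trace hφ (πη φ.2.1) (η φ.2.1) (πη_apply φ.2.1)
    (norm_η_mul_le' φ.2.1 φ.2.2.2)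
    (fun a => by
      have := norm_η_mul_le φ.2.1 a 1
      rwa [mul_one, norm_η_one, mul_one] at this)
    (fun a => by
      rw [← inner_η φ.2.1, inner_self_eq_norm_sq_to_K]
      norm_cast)
    hD (stdOrthonormalBasis ℂ (HT φ)) (fun i => η_surj φ _) a
  rw [StarAlgHom.comp_apply, StarAlgHom.comp_apply, trace_blkHom, key, hm]
  have hm0 : (m : ℂ) ≠ 0 := by
    rintro h
    have : m = 0 := by exact_mod_cast h
    rw [this] at hm
    omega
  have hD0 : (D : ℂ) ≠ 0 := by exact_mod_cast hD.ne'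
  push_cast
  field_simp

end ExtremeRep

end Helper45.QPerm
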