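import Pool.Agent.Helper45.QPerm.Weak

open scoped InnerProductSpace ComplexOrder ENNReal Topology

namespace Helper45.QPerm

section Costs

variable {n : ℕ} {A : Type} [CStarAlgebra A] {u : Fin n → Fin n → A}

lemma costOne_nonneg {φ ψ : TracialState A} (c : Coupling φ ψ) : 0 ≤ costOne u c := by
  rw [costOne_eq]
  refine mul_nonneg (by positivity) (Finset.sum_nonneg fun i _ => Finset.sum_nonneg fun j _ => ?_)
  have := c.M.tr_abs_nonneg (c.α (u i j) - c.β (u i j))
  positivity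

lemma proj_map {B : Type} [CStarAlgebra B] (hu : IsMagic n u) (f : A →⋆ₐ[ℂ] B) (i j : Fin n) :
    IsStarProjection (f (u i j)) := (hu.proj i j).map f

lemma norm_proj_le {B : Type} [CStarAlgebra B] {p : B} (hp : IsStarProjection p) : ‖p‖ ≤ 1 := by
  have h1 : ‖p‖ * ‖p‖ = ‖p‖ := by
    rw [← CStarRing.norm_star_mul_self, hp.isSelfAdjoint.star_eq, hp.isIdempotentElem.eq]
  nlinarith [norm_nonneg p]

lemma sq_le_costOne (hu : IsMagic n u) {φ ψ : TracialState A} (c : Coupling φ ψ) (i j : Fin n) :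
    ‖c.M.L (c.α (u i j) - c.β (u i j))‖ ^ 2 ≤ 4 * n * costOne u c := by
  have hn : 0 < n := i.pos
  have hn' : (0 : ℝ) < n := by exact_mod_cast hn
  have h1 : (1 / 2 : ℝ) * (c.M.tr (CFC.abs (c.α (u i j) - c.β (u i j)))).re ≤
      ∑ i, ∑ j, (1 / 2 : ℝ) * (c.M.tr (CFC.abs (c.α (u i j) - c.β (u i j)))).re := by
    have h2 : ∀ i j, 0 ≤ (1 / 2 : ℝ) * (c.M.tr (CFC.abs (c.α (u i j) - c.β (u i j)))).re :=
      fun i j => mul_nonneg (by norm_num) (c.M.tr_abs_nonneg _)
    refine le_trans ?_ (Finset.single_le_sum (f := fun i => ∑ j, (1 / 2 : ℝ) *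
      (c.M.tr (CFC.abs (c.α (u i j) - c.β (u i j)))).re)
      (fun i _ => Finset.sum_nonneg fun j _ => h2 i j) (Finset.mem_univ i))
    exact Finset.single_le_sum (f := fun j => (1 / 2 : ℝ) *
      (c.M.tr (CFC.abs (c.α (u i j) - c.β (u i j)))).re) (fun j _ => h2 i j) (Finset.mem_univ j)
  have h3 : ‖c.α (u i j) - c.β (u i j)‖ ≤ 2 := by
    refine (norm_sub_le _ _).trans ?_
    linarith [norm_proj_le (proj_map hu c.α i j), norm_proj_le (proj_map hu c.β i j)]
  have h4 := c.M.norm_sq_le_tr_abs (c.α (u i j) - c.β (u i j))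
  have h5 := c.M.tr_abs_nonneg (c.α (u i j) - c.β (u i j))
  have h6 : n * costOne u c = ∑ i, ∑ j, (1 / 2 : ℝ) *
      (c.M.tr (CFC.abs (c.α (u i j) - c.β (u i j)))).re := by
    rw [costOne_eq]
    field_simp
  have h7 : ‖c.α (u i j) - c.β (u i j)‖ * (c.M.tr (CFC.abs (c.α (u i j) - c.β (u i j)))).re ≤
      2 * (c.M.tr (CFC.abs (c.α (u i j) - c.β (u i j)))).re := by gcongr
  nlinarith

lemma n_mul_costWedge (hu : IsMagic n u) (hn : 0 < n) {φ ψ : TracialState A}
    (c : Coupling φ ψ) :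
    n * costWedge u c = ∑ i, ∑ j, ((c.M.tr (c.α (u i j))).re -
      (c.M.tr (meet (c.α (u i j)) (c.β (u i j)))).re) := by
  have hn' : (0 : ℝ) < n := by exact_mod_cast hn
  have h1 : ∑ i, ∑ j, (c.M.tr (c.α (u i j))).re = n := by
    have h2 : ∀ i, ∑ j, (c.M.tr (c.α (u i j))).re = 1 := by
      intro i
      rw [← Complex.re_sum, ← c.M.tr_sum, ← map_sum, hu.row, map_one, c.M.tr_one, Complex.one_re]
    simp [h2]
  simp only [Finset.sum_sub_distrib, h1]
  rw [costWedge_eq]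
  field_simp

lemma n_mul_costWedge' (hu : IsMagic n u) (hn : 0 < n) {φ ψ : TracialState A}
    (c : Coupling φ ψ) :
    n * costWedge u c = ∑ i, ∑ j, ((c.M.tr (c.β (u i j))).re -
      (c.M.tr (meet (c.α (u i j)) (c.β (u i j)))).re) := by
  have hn' : (0 : ℝ) < n := by exact_mod_cast hn
  have h1 : ∑ i, ∑ j, (c.M.tr (c.β (u i j))).re = n := by
    have h2 : ∀ i, ∑ j, (c.M.tr (c.β (u i j))).re = 1 := by
      intro i
      rw [← Complex.re_sum, ← c.M.tr_sum, ← map_sum, hu.row, map_one, c.M.tr_one, Complex.one_re]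
    simp [h2]
  simp only [Finset.sum_sub_distrib, h1]
  rw [costWedge_eq]
  field_simp

lemma sq_le_costWedge (hu : IsMagic n u) {φ ψ : TracialState A} (c : Coupling φ ψ) (i j : Fin n) :
    ‖c.M.L (c.α (u i j) - meet (c.α (u i j)) (c.β (u i j)))‖ ^ 2 ≤ n * costWedge u c := by
  have hn : 0 < n := i.pos
  rw [n_mul_costWedge hu hn]
  have h2 : ∀ i j, 0 ≤ (c.M.tr (c.α (u i j))).re -
      (c.M.tr (meet (c.α (u i j)) (c.β (u i j)))).re := by
    intro i j
    rw [← c.M.norm_sub_meet_sq (proj_map hu c.α i j) (proj_map hu c.β i j)]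
    positivity
  rw [c.M.norm_sub_meet_sq (proj_map hu c.α i j) (proj_map hu c.β i j)]
  refine le_trans ?_ (Finset.single_le_sum (f := fun i => ∑ j, ((c.M.tr (c.α (u i j))).re -
      (c.M.tr (meet (c.α (u i j)) (c.β (u i j)))).re))
      (fun i _ => Finset.sum_nonneg fun j _ => h2 i j) (Finset.mem_univ i))
  exact Finset.single_le_sum (f := fun j => ((c.M.tr (c.α (u i j))).re -
      (c.M.tr (meet (c.α (u i j)) (c.β (u i j)))).re)) (fun j _ => h2 i j) (Finset.mem_univ j)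

lemma sq_le_costWedge' (hu : IsMagic n u) {φ ψ : TracialState A} (c : Coupling φ ψ)
    (i j : Fin n) :
    ‖c.M.L (c.β (u i j) - meet (c.α (u i j)) (c.β (u i j)))‖ ^ 2 ≤ n * costWedge u c := by
  have hn : 0 < n := i.pos
  rw [n_mul_costWedge' hu hn]
  have h2 : ∀ i j, 0 ≤ (c.M.tr (c.β (u i j))).re -
      (c.M.tr (meet (c.α (u i j)) (c.β (u i j)))).re := by
    intro i j
    rw [← c.M.norm_sub_meet_sq' (proj_map hu c.α i j) (proj_map hu c.β i j)]
    positivity
  rw [c.M.norm_sub_meet_sq' (proj_map hu c.α i j) (proj_map hu c.β i j)]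
  refine le_trans ?_ (Finset.single_le_sum (f := fun i => ∑ j, ((c.M.tr (c.β (u i j))).re -
      (c.M.tr (meet (c.α (u i j)) (c.β (u i j)))).re))
      (fun i _ => Finset.sum_nonneg fun j _ => h2 i j) (Finset.mem_univ i))
  exact Finset.single_le_sum (f := fun j => ((c.M.tr (c.β (u i j))).re -
      (c.M.tr (meet (c.α (u i j)) (c.β (u i j)))).re)) (fun j _ => h2 i j) (Finset.mem_univ j)

lemma norm_le_costWedge (hu : IsMagic n u) {φ ψ : TracialState A} (c : Coupling φ ψ)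
    (i j : Fin n) :
    ‖c.M.L (c.α (u i j) - c.β (u i j))‖ ≤ 2 * √(n * costWedge u c) := by
  have h1 := Real.le_sqrt_of_sq_le (sq_le_costWedge hu c i j)
  have h2 := Real.le_sqrt_of_sq_le (sq_le_costWedge' hu c i j)
  have h3 : c.α (u i j) - c.β (u i j) = (c.α (u i j) - meet (c.α (u i j)) (c.β (u i j))) -
    (c.β (u i j) - meet (c.α (u i j)) (c.β (u i j))) := by abel
  rw [h3, c.M.L_sub]
  refine (norm_sub_le _ _).trans ?_
  linarith

lemma costWedge_nonneg (hu : IsMagic n u) (hn : 0 < n) {φ ψ : TracialState A}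
    (c : Coupling φ ψ) : 0 ≤ costWedge u c := by
  have hn' : (0 : ℝ) < n := by exact_mod_cast hn
  have h := sq_le_costWedge hu c ⟨0, hn⟩ ⟨0, hn⟩
  have h2 : 0 ≤ (n : ℝ) * costWedge u c := le_trans (sq_nonneg _) h
  exact nonneg_of_mul_nonneg_right h2 hn'

lemma costOne_le (hu : IsMagic n u) {φ ψ : TracialState A} (c : Coupling φ ψ) :
    costOne u c ≤ n * √(n * costWedge u c) := by
  rcases Nat.eq_zero_or_pos n with rfl | hn
  · simp [costOne_eq]
  have hn' : (0 : ℝ) < n := by exact_mod_cast hn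
  have h1 : ∀ i j, (1 / 2 : ℝ) * (c.M.tr (CFC.abs (c.α (u i j) - c.β (u i j)))).re ≤
      √(n * costWedge u c) := by
    intro i j
    have := (c.M.tr_abs_le (c.α (u i j) - c.β (u i j))).trans (norm_le_costWedge hu c i j)
    linarith
  have h2 : ∑ i, ∑ j, (1 / 2 : ℝ) * (c.M.tr (CFC.abs (c.α (u i j) - c.β (u i j)))).re ≤
      ∑ _i : Fin n, ∑ _j : Fin n, √(n * costWedge u c) :=
    Finset.sum_le_sum fun i _ => Finset.sum_le_sum fun j _ => h1 i j
  simp only [Finset.sum_const, Finset.card_univ, Fintype.card_fin, nsmul_eq_mul] at h2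
  rw [costOne_eq]
  rw [div_mul_eq_mul_div, one_mul, div_le_iff₀ hn']
  linarith

end Costs

section Control

variable {n : ℕ} {A : Type} [CStarAlgebra A] {u : Fin n → Fin n → A}

/-- a distance function controls the weak topology -/
def Controls {A : Type} [CStarAlgebra A] (d : TracialState A → TracialState A → EReal) : Prop :=
  ∀ (a : A) (ε : ℝ), 0 < ε → ∃ δ : ℝ, 0 < δ ∧ ∀ φ ψ, d φ ψ < δ → ‖φ.1 a - ψ.1 a‖ < ε

lemma controls_one (hA : IsQuantumPermutationAlgebra n A u) : Controls (dOne u) := by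
  intro a ε hε
  obtain ⟨δ, hδ, h⟩ := weak_control hA a hε
  refine ⟨δ ^ 2 / (4 * n + 1), by positivity, fun φ ψ hd => ?_⟩
  obtain ⟨c, hc⟩ := iInf_lt_iff.mp hd
  have hc' : costOne u c < δ ^ 2 / (4 * n + 1) := by exact_mod_cast hc
  apply h φ ψ c
  intro i j
  have h1 := sq_le_costOne hA.magic c i j
  have h0 := costOne_nonneg (u := u) c
  rw [lt_div_iff₀ (by positivity)] at hc'
  refine le_of_sq_le_sq (h1.trans ?_) hδ.le
  nlinarith

lemma controls_wedge (hA : IsQuantumPermutationAlgebra n A u) : Controls (dWedge u) := by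
  intro a ε hε
  obtain ⟨δ, hδ, h⟩ := weak_control hA a hε
  refine ⟨δ ^ 2 / (4 * n + 1), by positivity, fun φ ψ hd => ?_⟩
  obtain ⟨c, hc⟩ := iInf_lt_iff.mp hd
  have hc' : costWedge u c < δ ^ 2 / (4 * n + 1) := by exact_mod_cast hc
  apply h φ ψ c
  intro i j
  have h1 := norm_le_costWedge hA.magic c i j
  have h0 := costWedge_nonneg hA.magic i.pos c
  rw [lt_div_iff₀ (by positivity)] at hc'
  have h2 : √(n * costWedge u c) ≤ δ / 2 := by
    rw [Real.sqrt_le_left (by positivity)]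
    nlinarith
  linarith

lemma controls_TV : Controls (dTV (A := A)) := by
  intro a ε hε
  refine ⟨ε / (2 * (‖a‖ + 1)), by positivity, fun φ ψ hd => ?_⟩
  have h1 : 1 / 2 * ‖φ.1 - ψ.1‖ < ε / (2 * (‖a‖ + 1)) := by
    unfold dTV at hd
    exact_mod_cast hd
  rw [lt_div_iff₀ (by positivity)] at h1
  have h2 : ‖φ.1 a - ψ.1 a‖ ≤ ‖φ.1 - ψ.1‖ * ‖a‖ := by
    rw [← _root_.sub_apply]
    exact ContinuousLinearMap.le_opNorm _ _
  nlinarith [norm_nonneg (φ.1 - ψ.1), norm_nonneg a]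

lemma distTopology_le_weak {d : TracialState A → TracialState A → EReal} (hd : Controls d) :
    distTopology d ≤ topWeak A := by
  unfold topWeak
  rw [← continuous_iff_le_induced]
  let _ : TopologicalSpace (TracialState A) := distTopology d
  refine continuous_pi fun a => ?_
  rw [continuous_def]
  intro V hV φ hφ
  obtain ⟨ε, hε, hb⟩ := Metric.isOpen_iff.mp hV (φ.1 a) hφ
  obtain ⟨δ, hδ, h⟩ := hd a ε hε
  refine ⟨δ, hδ, fun ψ hψ => hb ?_⟩
  rw [Metric.mem_ball, dist_comm, dist_eq_norm]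
  exact h φ ψ hψ

lemma topOne_le_topWeak (hA : IsQuantumPermutationAlgebra n A u) : topOne u ≤ topWeak A :=
  distTopology_le_weak (controls_one hA)

lemma topWedge_le_topOne (hA : IsQuantumPermutationAlgebra n A u) : topWedge u ≤ topOne u := by
  rcases Nat.eq_zero_or_pos n with rfl | hn
  · -- for `n = 0` both cost functions are constant
    intro U hU φ hφ
    obtain ⟨ε, hε, h⟩ := hU φ hφ
    have key : ∀ ψ : TracialState A, ∀ c : Coupling φ ψ, ψ ∈ U := by
      intro ψ c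
      apply h
      refine iInf_lt_iff.mpr ⟨c, ?_⟩
      simp only [costOne_eq, Finset.univ_eq_empty, Finset.sum_empty, mul_zero]
      exact_mod_cast hε
    refine ⟨ε, hε, fun ψ hψ => ?_⟩
    obtain ⟨c, -⟩ := iInf_lt_iff.mp hψ
    exact key ψ c
  · have hn' : (0 : ℝ) < n := by exact_mod_cast hn
    intro U hU φ hφ
    obtain ⟨ε, hε, h⟩ := hU φ hφ
    refine ⟨(ε / n) ^ 2 / n, by positivity, fun ψ hψ => ?_⟩
    obtain ⟨c, hc⟩ := iInf_lt_iff.mp hψ
    have hc' : costWedge u c < (ε / n) ^ 2 / n := by exact_mod_cast hc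
    apply h
    refine iInf_lt_iff.mpr ⟨c, ?_⟩
    have h1 : costOne u c < ε := by
      refine lt_of_le_of_lt (costOne_le hA.magic c) ?_
      have h2 : √(n * costWedge u c) < ε / n := by
        rw [Real.sqrt_lt' (by positivity)]
        rw [lt_div_iff₀ hn'] at hc'
        linarith
      rw [lt_div_iff₀ hn'] at h2
      linarith
    exact_mod_cast h1

/-- A sequence which converges weakly, but not in `d`, has a `d`-closed range. -/
lemma isOpen_compl_range {d : TracialState A → TracialState A → EReal} (hd : Controls d)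
    {φ : TracialState A} {s : ℕ → TracialState A}
    (hs : ∀ a, Filter.Tendsto (fun k => (s k).1 a) Filter.atTop (nhds (φ.1 a)))
    {c : ℝ} (hc : 0 < c) (hsep : ∀ k, (c : EReal) ≤ d φ (s k)) :
    IsOpen[distTopology d] (Set.range s)ᶜ := by
  intro ψ hψ
  by_cases hψφ : ψ = φ
  · subst hψφ
    refine ⟨c, hc, ?_⟩
    rintro y hy ⟨k, rfl⟩
    exact absurd hy (not_lt.mpr (hsep k))
  · have hne : ∃ a, ψ.1 a ≠ φ.1 a := by
      by_contra hcon
      push Not at hcon
      exact hψφ (TracialState.ext (ContinuousLinearMap.ext hcon))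
    obtain ⟨a, ha⟩ := hne
    have hη : 0 < ‖ψ.1 a - φ.1 a‖ := norm_pos_iff.mpr (sub_ne_zero.mpr ha)
    obtain ⟨δ, hδ, h⟩ := hd a (‖ψ.1 a - φ.1 a‖ / 2) (by positivity)
    obtain ⟨K, hK⟩ := (Metric.tendsto_atTop.mp (hs a)) (‖ψ.1 a - φ.1 a‖ / 2) (by positivity)
    have hfin : ∀ k : ℕ, ∃ e : ℝ, 0 < e ∧ ¬ d ψ (s k) < e := by
      intro k
      have hne : ∃ b, ψ.1 b ≠ (s k).1 b := by
        by_contra hcon
        push Not at hcon
        exact hψ ⟨k, (TracialState.ext (ContinuousLinearMap.ext hcon)).symm⟩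
      obtain ⟨b, hb⟩ := hne
      obtain ⟨e, he, h'⟩ := hd b ‖ψ.1 b - (s k).1 b‖ (norm_pos_iff.mpr (sub_ne_zero.mpr hb))
      exact ⟨e, he, fun hlt => lt_irrefl _ (h' _ _ hlt)⟩
    choose e he hne using hfin
    have hmin : ∃ m : ℝ, 0 < m ∧ ∀ k < K, m ≤ e k := by
      clear hK
      induction K with
      | zero => exact ⟨1, one_pos, fun k hk => absurd hk (Nat.not_lt_zero _)⟩
      | succ K ih =>
        obtain ⟨m, hm, h⟩ := ih
        refine ⟨min m (e K), lt_min hm (he K), fun k hk => ?_⟩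
        rcases Nat.lt_succ_iff_lt_or_eq.mp hk with h1 | h1
        · exact (min_le_left _ _).trans (h k h1)
        · subst h1; exact min_le_right _ _
    obtain ⟨m, hm, hmk⟩ := hmin
    refine ⟨min m δ, lt_min hm hδ, ?_⟩
    rintro y hy ⟨k, rfl⟩
    have hy1 : d ψ (s k) < (m : ℝ) := lt_of_lt_of_le hy (by exact_mod_cast min_le_left m δ)
    have hy2 : d ψ (s k) < (δ : ℝ) := lt_of_lt_of_le hy (by exact_mod_cast min_le_right m δ)
    have h1 := h _ _ hy2
    by_cases hkK : k < K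
    · exact hne k (lt_of_lt_of_le hy1 (by exact_mod_cast hmk k hkK))
    · have h2 := hK k (not_lt.mp hkK)
      rw [dist_eq_norm] at h2
      have h3 : ‖ψ.1 a - φ.1 a‖ ≤ ‖ψ.1 a - (s k).1 a‖ + ‖(s k).1 a - φ.1 a‖ := by
        have : ψ.1 a - φ.1 a = (ψ.1 a - (s k).1 a) + ((s k).1 a - φ.1 a) := by ring
        rw [this]
        exact norm_add_le _ _
      linarith

lemma not_isOpen_compl_range {d : TracialState A → TracialState A → EReal}
    {φ : TracialState A} {s : ℕ → TracialState A} (hne : ∀ k, s k ≠ φ)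
    (happ : ∀ ε : ℝ, 0 < ε → ∃ k, d φ (s k) < ε) :
    ¬ IsOpen[distTopology d] (Set.range s)ᶜ := by
  intro h
  obtain ⟨ε, hε, hb⟩ := h φ (by rintro ⟨k, hk⟩; exact hne k hk)
  obtain ⟨k, hk⟩ := happ ε hε
  exact hb _ hk ⟨k, rfl⟩

lemma not_isOpen_weak {φ : TracialState A} {s : ℕ → TracialState A} (hne : ∀ k, s k ≠ φ)
    (hs : ∀ a, Filter.Tendsto (fun k => (s k).1 a) Filter.atTop (nhds (φ.1 a))) :
    ¬ IsOpen[topWeak A] (Set.range s)ᶜ := by
  intro h
  obtain ⟨V, hV, hVe⟩ := isOpen_induced_iff.mp h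
  have hφ : (fun a => φ.1 a) ∈ V := by
    have h1 : φ ∈ (Set.range s)ᶜ := by rintro ⟨k, hk⟩; exact hne k hk
    rw [← hVe] at h1
    exact h1
  have h2 : Filter.Tendsto (fun k => (fun a => (s k).1 a)) Filter.atTop (nhds (fun a => φ.1 a)) :=
    tendsto_pi_nhds.mpr hs
  have h3 := h2 (hV.mem_nhds hφ)
  rw [Filter.mem_map, Filter.mem_atTop_sets] at h3
  obtain ⟨k, hk⟩ := h3
  have h4 : s k ∈ (Set.range s)ᶜ := by
    rw [← hVe]
    exact hk k le_rfl
  exact h4 ⟨k, rfl⟩

end Control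

end Helper45.QPerm
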