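import Pool.Agent.Helper45.QPerm.Basic

open scoped InnerProductSpace ComplexOrder ENNReal

namespace Helper45.QPerm

section Vec

variable {H : Type} [NormedAddCommGroup H] [InnerProductSpace ℂ H]
variable {ξ : ℕ → H}

lemma summable_sq_apply (hξ : Summable fun k => ‖ξ k‖ ^ 2) (x : H →L[ℂ] H) :
    Summable fun k => ‖x (ξ k)‖ ^ 2 := by
  refine Summable.of_nonneg_of_le (fun k => by positivity) (fun k => ?_)
    (hξ.mul_left (‖x‖ ^ 2))
  rw [← mul_pow]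
  exact pow_le_pow_left₀ (norm_nonneg _) (x.le_opNorm _) 2

lemma memlp_apply (hξ : Summable fun k => ‖ξ k‖ ^ 2) (x : H →L[ℂ] H) :
    Memℓp (fun k => x (ξ k)) 2 := by
  rw [memℓp_gen_iff (by norm_num)]
  simpa using summable_sq_apply hξ x

/-- the vector `(x ξ_k)_k` in `ℓ²(ℕ, H)` -/
noncomputable def emb (hξ : Summable fun k => ‖ξ k‖ ^ 2) (x : H →L[ℂ] H) :
    lp (fun _ : ℕ => H) 2 := ⟨fun k => x (ξ k), memlp_apply hξ x⟩

@[simp] lemma emb_apply (hξ : Summable fun k => ‖ξ k‖ ^ 2) (x : H →L[ℂ] H) (k : ℕ) :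
    (emb hξ x : ∀ _, H) k = x (ξ k) := rfl

lemma emb_add (hξ : Summable fun k => ‖ξ k‖ ^ 2) (x y : H →L[ℂ] H) :
    emb hξ (x + y) = emb hξ x + emb hξ y := by
  ext k; simp

lemma emb_sub (hξ : Summable fun k => ‖ξ k‖ ^ 2) (x y : H →L[ℂ] H) :
    emb hξ (x - y) = emb hξ x - emb hξ y := by
  ext k; simp

lemma emb_smul (hξ : Summable fun k => ‖ξ k‖ ^ 2) (c : ℂ) (x : H →L[ℂ] H) :
    emb hξ (c • x) = c • emb hξ x := by
  ext k; simp

lemma vec_summable (hξ : Summable fun k => ‖ξ k‖ ^ 2) (x : H →L[ℂ] H) :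
    Summable fun k => ⟪ξ k, x (ξ k)⟫_ℂ := by
  refine Summable.of_norm (Summable.of_nonneg_of_le (fun k => norm_nonneg _) (fun k => ?_)
    (hξ.mul_left ‖x‖))
  calc ‖⟪ξ k, x (ξ k)⟫_ℂ‖ ≤ ‖ξ k‖ * ‖x (ξ k)‖ := norm_inner_le_norm _ _
    _ ≤ ‖ξ k‖ * (‖x‖ * ‖ξ k‖) := by gcongr; exact x.le_opNorm _
    _ = ‖x‖ * ‖ξ k‖ ^ 2 := by ring

variable [CompleteSpace H]

lemma inner_emb (hξ : Summable fun k => ‖ξ k‖ ^ 2) (x y : H →L[ℂ] H) :
    ⟪emb hξ y, emb hξ x⟫_ℂ = vecFunctional ξ (star y * x) := by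
  rw [lp.inner_eq_tsum]
  simp only [vecFunctional, emb_apply]
  congr 1
  ext k
  rw [ContinuousLinearMap.star_eq_adjoint, mul_apply_eq_comp,
    ContinuousLinearMap.adjoint_inner_right]

end Vec

namespace TracialVN

variable {H : Type} [NormedAddCommGroup H] [InnerProductSpace ℂ H] [CompleteSpace H]
variable (M : TracialVN H)

noncomputable def L (x : H →L[ℂ] H) : lp (fun _ : ℕ => H) 2 := emb M.summable_vec x

lemma L_add (x y : H →L[ℂ] H) : M.L (x + y) = M.L x + M.L y := emb_add _ x y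
lemma L_sub (x y : H →L[ℂ] H) : M.L (x - y) = M.L x - M.L y := emb_sub _ x y
lemma L_smul (c : ℂ) (x : H →L[ℂ] H) : M.L (c • x) = c • M.L x := emb_smul _ c x

lemma inner_L (x y : H →L[ℂ] H) : ⟪M.L y, M.L x⟫_ℂ = M.tr (star y * x) := inner_emb _ x y

lemma tr_eq_inner (x : H →L[ℂ] H) : M.tr x = ⟪M.L 1, M.L x⟫_ℂ := by
  rw [inner_L]; simp

lemma tr_one : M.tr 1 = 1 := M.unital

lemma tr_add (x y : H →L[ℂ] H) : M.tr (x + y) = M.tr x + M.tr y := by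
  simp only [tr_eq_inner, L_add, inner_add_right]

lemma tr_sub (x y : H →L[ℂ] H) : M.tr (x - y) = M.tr x - M.tr y := by
  simp only [tr_eq_inner, L_sub, inner_sub_right]

lemma tr_smul (c : ℂ) (x : H →L[ℂ] H) : M.tr (c • x) = c * M.tr x := by
  simp only [tr_eq_inner, L_smul, inner_smul_right]

lemma tr_zero : M.tr 0 = 0 := by
  have := M.tr_smul 0 0
  simpa using this

lemma tr_sum {ι : Type*} (s : Finset ι) (f : ι → H →L[ℂ] H) :
    M.tr (∑ i ∈ s, f i) = ∑ i ∈ s, M.tr (f i) := by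
  classical
  induction s using Finset.induction_on with
  | empty => simp [tr_zero]
  | insert a s ha ih => rw [Finset.sum_insert ha, Finset.sum_insert ha, tr_add, ih]

lemma tr_comm {x y : H →L[ℂ] H} (hx : x ∈ M.alg) (hy : y ∈ M.alg) :
    M.tr (x * y) = M.tr (y * x) := M.tracial x hx y hy

lemma norm_L_sq (x : H →L[ℂ] H) : ((‖M.L x‖ ^ 2 : ℝ) : ℂ) = M.tr (star x * x) := by
  rw [← inner_L, inner_self_eq_norm_sq_to_K]
  norm_cast

lemma norm_L_sq' (x : H →L[ℂ] H) : ‖M.L x‖ ^ 2 = (M.tr (star x * x)).re := by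
  rw [← norm_L_sq, Complex.ofReal_re]

lemma norm_L_one : ‖M.L 1‖ = 1 := by
  have := M.norm_L_sq' 1
  rw [star_one, mul_one, tr_one, Complex.one_re] at this
  exact (pow_eq_one_iff_of_nonneg (norm_nonneg _) two_ne_zero).mp this

lemma norm_tr_le (x : H →L[ℂ] H) : ‖M.tr x‖ ≤ ‖M.L x‖ := by
  rw [tr_eq_inner]
  simpa [norm_L_one] using norm_inner_le_norm (𝕜 := ℂ) (M.L 1) (M.L x)

lemma norm_tr_star_mul_le (x y : H →L[ℂ] H) : ‖M.tr (star x * y)‖ ≤ ‖M.L x‖ * ‖M.L y‖ := by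
  rw [← inner_L]
  exact norm_inner_le_norm _ _

lemma norm_L_mul_le (a x : H →L[ℂ] H) : ‖M.L (a * x)‖ ≤ ‖a‖ * ‖M.L x‖ := by
  rw [← sq_le_sq₀ (norm_nonneg _) (by positivity)]
  have h1 : ‖M.L (a * x)‖ ^ 2 = ∑' k, ‖a (x (M.vec k))‖ ^ 2 := by
    have := lp.norm_rpow_eq_tsum (p := 2) (by norm_num) (M.L (a * x))
    simpa [L] using this
  have h2 : ‖M.L x‖ ^ 2 = ∑' k, ‖x (M.vec k)‖ ^ 2 := by
    have := lp.norm_rpow_eq_tsum (p := 2) (by norm_num) (M.L x)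
    simpa [L] using this
  rw [mul_pow, h1, h2, ← tsum_mul_left]
  refine Summable.tsum_le_tsum (fun k => ?_) ?_ ?_
  · rw [← mul_pow]
    exact pow_le_pow_left₀ (norm_nonneg _) (a.le_opNorm _) 2
  · exact summable_sq_apply M.summable_vec (a * x)
  · exact (summable_sq_apply M.summable_vec x).mul_left _

lemma norm_L_star {x : H →L[ℂ] H} (hx : x ∈ M.alg) : ‖M.L (star x)‖ = ‖M.L x‖ := by
  have h : ‖M.L (star x)‖ ^ 2 = ‖M.L x‖ ^ 2 := by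
    rw [norm_L_sq', norm_L_sq', star_star, M.tr_comm hx (star_mem hx)]
  exact (pow_left_inj₀ (norm_nonneg _) (norm_nonneg _) two_ne_zero).mp h

lemma norm_L_mul_le' {x a : H →L[ℂ] H} (hx : x ∈ M.alg) (ha : a ∈ M.alg) :
    ‖M.L (x * a)‖ ≤ ‖M.L x‖ * ‖a‖ := by
  rw [← M.norm_L_star (mul_mem hx ha), star_mul, mul_comm ‖M.L x‖]
  refine (M.norm_L_mul_le _ _).trans ?_
  rw [norm_star, M.norm_L_star hx]

lemma tr_star (x : H →L[ℂ] H) : M.tr (star x) = star (M.tr x) := by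
  have h1 : M.tr (star x) = ⟪M.L x, M.L 1⟫_ℂ := by rw [inner_L, mul_one]
  rw [h1, tr_eq_inner, ← inner_conj_symm]
  rfl

lemma tr_nonneg {x : H →L[ℂ] H} (hx : 0 ≤ x) : 0 ≤ M.tr x := by
  obtain ⟨y, rfl⟩ := CStarAlgebra.nonneg_iff_eq_star_mul_self.mp hx
  rw [← norm_L_sq]
  exact_mod_cast (sq_nonneg ‖M.L y‖ : (0:ℝ) ≤ ‖M.L y‖ ^ 2)

lemma tr_mono {x y : H →L[ℂ] H} (hxy : x ≤ y) : M.tr x ≤ M.tr y := by
  have := M.tr_nonneg (sub_nonneg.mpr hxy)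
  rw [tr_sub] at this
  exact sub_nonneg.mp this

lemma norm_L_abs (x : H →L[ℂ] H) : ‖M.L (CFC.abs x)‖ = ‖M.L x‖ := by
  have h : ‖M.L (CFC.abs x)‖ ^ 2 = ‖M.L x‖ ^ 2 := by
    rw [norm_L_sq', norm_L_sq', (CFC.abs_nonneg x).isSelfAdjoint.star_eq, CFC.abs_mul_abs]
  exact (pow_left_inj₀ (norm_nonneg _) (norm_nonneg _) two_ne_zero).mp h

lemma tr_abs_le (x : H →L[ℂ] H) : (M.tr (CFC.abs x)).re ≤ ‖M.L x‖ := by
  refine (Complex.re_le_norm _).trans ?_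
  rw [← M.norm_L_abs x]
  exact M.norm_tr_le _

lemma tr_abs_nonneg (x : H →L[ℂ] H) : 0 ≤ (M.tr (CFC.abs x)).re :=
  (Complex.le_def.mp (M.tr_nonneg (CFC.abs_nonneg x))).1

lemma norm_sq_le_tr_abs (x : H →L[ℂ] H) :
    ‖M.L x‖ ^ 2 ≤ ‖x‖ * (M.tr (CFC.abs x)).re := by
  have h0 : 0 ≤ CFC.abs x := CFC.abs_nonneg x
  have h1 : CFC.abs x ≤ ((‖x‖ : ℝ) : ℂ) • (1 : H →L[ℂ] H) := by
    have h2 := IsSelfAdjoint.le_algebraMap_norm_self h0.isSelfAdjoint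
    rw [CFC.norm_abs, Algebra.algebraMap_eq_smul_one, ← Complex.coe_smul] at h2
    exact h2
  have hs : IsSelfAdjoint (CFC.sqrt (CFC.abs x)) := (CFC.sqrt_nonneg _).isSelfAdjoint
  have h4 := hs.conjugate_nonneg (sub_nonneg.mpr h1)
  have h5 : CFC.sqrt (CFC.abs x) * CFC.sqrt (CFC.abs x) = CFC.abs x :=
    CFC.sqrt_mul_sqrt_self _ h0
  have key : ∀ s a : H →L[ℂ] H, s * s = a → s * (((‖x‖ : ℝ) : ℂ) • (1 : H →L[ℂ] H) - a) * s =
      ((‖x‖ : ℝ) : ℂ) • a - a * a := by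
    rintro s a rfl
    rw [mul_sub, sub_mul, mul_smul_comm, mul_one, smul_mul_assoc]
    congr 1
  rw [key _ _ h5] at h4
  have h6 := Complex.le_def.mp (M.tr_nonneg h4)
  rw [tr_sub, tr_smul] at h6
  have h7 := h6.1
  rw [Complex.sub_re, Complex.re_ofReal_mul, Complex.zero_re] at h7
  rw [← norm_L_abs, norm_L_sq', h0.isSelfAdjoint.star_eq]
  linarith

lemma eq_zero_of_L {x : H →L[ℂ] H} (hx : x ∈ M.alg) (h : M.L x = 0) : x = 0 := by
  apply M.faithful x hx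
  change M.tr (star x * x) = 0
  rw [← norm_L_sq, h]
  simp

end TracialVN

end Helper45.QPerm
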