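import Pool.Agent.Helper45.QPerm.VN

open scoped InnerProductSpace ComplexOrder ENNReal

namespace Helper45.QPerm

section Universal

variable {n : ℕ} {A : Type} [CStarAlgebra A] {u : Fin n → Fin n → A}

lemma IsQuantumPermutationAlgebra.hom_ext (hA : IsQuantumPermutationAlgebra n A u)
    {B : Type} [CStarAlgebra B] {f g : A →⋆ₐ[ℂ] B} (h : ∀ i j, f (u i j) = g (u i j)) : f = g := by
  have hm : IsMagic n (fun i j => g (u i j)) :=
    { proj := fun i j => (hA.magic.proj i j).map g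
      row := fun i => by rw [← map_sum, hA.magic.row, map_one]
      col := fun j => by rw [← map_sum, hA.magic.col, map_one] }
  obtain ⟨k, -, hk⟩ := hA.universal B _ hm
  rw [hk f h, hk g (fun i j => rfl)]

lemma IsQuantumPermutationAlgebra.mem_of_closed (hA : IsQuantumPermutationAlgebra n A u)
    (S : StarSubalgebra ℂ A) (hS : IsClosed (S : Set A)) (h : ∀ i j, u i j ∈ S) (a : A) :
    a ∈ S := by
  have hm : IsMagic n (fun i j => (⟨u i j, h i j⟩ : S)) :=
    { proj := fun i j => by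
        have := hA.magic.proj i j
        refine ⟨?_, ?_⟩
        · exact Subtype.ext this.isIdempotentElem
        · exact Subtype.ext this.isSelfAdjoint
      row := fun i => by
        apply Subtype.ext
        simp [hA.magic.row i]
      col := fun j => by
        apply Subtype.ext
        simp [hA.magic.col j] }
  obtain ⟨k, hk, -⟩ := hA.universal S _ hm
  have h1 : (S.subtype.comp k) = StarAlgHom.id ℂ A := by
    apply hA.hom_ext
    intro i j
    simp [hk i j]
  have h2 := congrArg (fun f : A →⋆ₐ[ℂ] A => f a) h1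
  simp only [StarAlgHom.comp_apply, StarAlgHom.coe_id, id_eq] at h2
  rw [← h2]
  exact (k a).2

/-- the (non-closed) algebra generated by the entries of `u` -/
def genAlg (u : Fin n → Fin n → A) : Subalgebra ℂ A :=
  Algebra.adjoin ℂ (Set.range fun p : Fin n × Fin n => u p.1 p.2)

lemma IsQuantumPermutationAlgebra.dense (hA : IsQuantumPermutationAlgebra n A u) (a : A) :
    a ∈ closure (genAlg u : Set A) := by
  let S : StarSubalgebra ℂ A :=
    StarAlgebra.adjoin ℂ (Set.range fun p : Fin n × Fin n => u p.1 p.2)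
  have h1 : a ∈ S.topologicalClosure := by
    apply hA.mem_of_closed
    · exact StarSubalgebra.isClosed_topologicalClosure _
    · intro i j
      apply StarSubalgebra.le_topologicalClosure
      exact StarAlgebra.subset_adjoin ℂ _ ⟨(i, j), rfl⟩
  rw [← SetLike.mem_coe, StarSubalgebra.topologicalClosure_coe] at h1
  have h2 : (S : Set A) = (genAlg u : Set A) := by
    have h3 : S.toSubalgebra = genAlg u := by
      rw [StarAlgebra.adjoin_toSubalgebra, genAlg]
      congr 1
      apply Set.union_eq_self_of_subset_right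
      rintro x ⟨⟨i, j⟩, hx⟩
      refine ⟨(i, j), ?_⟩
      have := (hA.magic.proj i j).isSelfAdjoint
      rw [← star_star x, ← hx]
      exact this.star_eq.symm
    rw [← h3]
    rfl
  rwa [h2] at h1

end Universal

section Meet

variable {H : Type} [NormedAddCommGroup H] [InnerProductSpace ℂ H] [CompleteSpace H]

lemma meet_isStarProjection (p q : H →L[ℂ] H) : IsStarProjection (meet p q) :=
  isStarProjection_starProjection

lemma proj_apply_of_mem {p : H →L[ℂ] H} (hp : IsStarProjection p) {x : H}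
    (hx : x ∈ LinearMap.range (p : H →ₗ[ℂ] H)) : p x = x := by
  obtain ⟨y, rfl⟩ := hx
  have := congrArg (fun f : H →L[ℂ] H => f y) hp.isIdempotentElem
  exact this

lemma mem_range_iff {p : H →L[ℂ] H} (hp : IsStarProjection p) {x : H} :
    x ∈ LinearMap.range (p : H →ₗ[ℂ] H) ↔ p x = x :=
  ⟨proj_apply_of_mem hp, fun h => ⟨x, h⟩⟩

lemma meet_apply_mem {p q : H →L[ℂ] H} (hp : IsStarProjection p) (hq : IsStarProjection q)
    (x : H) : p (meet p q x) = meet p q x ∧ q (meet p q x) = meet p q x := by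
  have h1 : meet p q x ∈ (LinearMap.range (p : H →ₗ[ℂ] H) ⊓
      LinearMap.range (q : H →ₗ[ℂ] H)).topologicalClosure := by
    simp [meet]
  have h2 : (LinearMap.range (p : H →ₗ[ℂ] H) ⊓
      LinearMap.range (q : H →ₗ[ℂ] H)).topologicalClosure ≤
      LinearMap.eqLocus (p : H →ₗ[ℂ] H) LinearMap.id ⊓ LinearMap.eqLocus (q : H →ₗ[ℂ] H) LinearMap.id := by
    apply Submodule.topologicalClosure_minimal
    · rintro y ⟨hy1, hy2⟩
      exact ⟨proj_apply_of_mem hp hy1, proj_apply_of_mem hq hy2⟩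
    · have e : ((LinearMap.eqLocus (p : H →ₗ[ℂ] H) LinearMap.id ⊓
          LinearMap.eqLocus (q : H →ₗ[ℂ] H) LinearMap.id : Submodule ℂ H) : Set H) =
          {y | p y = y} ∩ {y | q y = y} := rfl
      rw [e]
      exact (isClosed_eq p.continuous continuous_id).inter (isClosed_eq q.continuous continuous_id)
  exact h2 h1

lemma meet_mul {p q : H →L[ℂ] H} (hp : IsStarProjection p) (hq : IsStarProjection q) :
    p * meet p q = meet p q ∧ q * meet p q = meet p q :=
  ⟨by ext x; exact (meet_apply_mem hp hq x).1, by ext x; exact (meet_apply_mem hp hq x).2⟩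

lemma mul_meet {p q : H →L[ℂ] H} (hp : IsStarProjection p) (hq : IsStarProjection q) :
    meet p q * p = meet p q ∧ meet p q * q = meet p q := by
  have h := meet_mul hp hq
  constructor
  · have := congrArg star h.1
    rwa [star_mul, hp.isSelfAdjoint.star_eq, (meet_isStarProjection p q).isSelfAdjoint.star_eq]
      at this
  · have := congrArg star h.2
    rwa [star_mul, hq.isSelfAdjoint.star_eq, (meet_isStarProjection p q).isSelfAdjoint.star_eq]
      at this

lemma sub_isStarProjection {p e : H →L[ℂ] H} (hp : IsStarProjection p) (he : IsStarProjection e)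
    (h1 : p * e = e) (h2 : e * p = e) : IsStarProjection (p - e) := by
  refine ⟨?_, hp.isSelfAdjoint.sub he.isSelfAdjoint⟩
  change (p - e) * (p - e) = p - e
  rw [mul_sub, sub_mul, sub_mul, h1, h2, hp.isIdempotentElem.eq, he.isIdempotentElem.eq]
  simp

/-- if a projection `e` lies below both `p` and `q`, it lies below the meet -/
lemma mul_meet_of_le {p q e : H →L[ℂ] H} (h1 : p * e = e) (h2 : q * e = e) :
    meet p q * e = e := by
  ext x
  have hx : e x ∈ (LinearMap.range (p : H →ₗ[ℂ] H) ⊓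
      LinearMap.range (q : H →ₗ[ℂ] H)).topologicalClosure := by
    apply Submodule.le_topologicalClosure
    refine ⟨⟨e x, ?_⟩, ⟨e x, ?_⟩⟩
    · exact congrArg (fun f : H →L[ℂ] H => f x) h1
    · exact congrArg (fun f : H →L[ℂ] H => f x) h2
  exact Submodule.starProjection_eq_self_iff.mpr hx

end Meet

namespace TracialVN

variable {H : Type} [NormedAddCommGroup H] [InnerProductSpace ℂ H] [CompleteSpace H]
variable (M : TracialVN H)

lemma norm_L_proj_sq {p : H →L[ℂ] H} (hp : IsStarProjection p) :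
    ‖M.L p‖ ^ 2 = (M.tr p).re := by
  rw [norm_L_sq', hp.isSelfAdjoint.star_eq, hp.isIdempotentElem.eq]

lemma norm_sub_meet_sq {p q : H →L[ℂ] H} (hp : IsStarProjection p) (hq : IsStarProjection q) :
    ‖M.L (p - meet p q)‖ ^ 2 = (M.tr p).re - (M.tr (meet p q)).re := by
  rw [M.norm_L_proj_sq (sub_isStarProjection hp (meet_isStarProjection p q) (meet_mul hp hq).1
    (mul_meet hp hq).1), tr_sub, Complex.sub_re]

lemma norm_sub_meet_sq' {p q : H →L[ℂ] H} (hp : IsStarProjection p) (hq : IsStarProjection q) :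
    ‖M.L (q - meet p q)‖ ^ 2 = (M.tr q).re - (M.tr (meet p q)).re := by
  rw [M.norm_L_proj_sq (sub_isStarProjection hq (meet_isStarProjection p q) (meet_mul hp hq).2
    (mul_meet hp hq).2), tr_sub, Complex.sub_re]

lemma tr_proj_le {p e : H →L[ℂ] H} (hp : IsStarProjection p) (he : IsStarProjection e)
    (h1 : p * e = e) : (M.tr e).re ≤ (M.tr p).re := by
  have h2 : e * p = e := by
    have := congrArg star h1
    rwa [star_mul, hp.isSelfAdjoint.star_eq, he.isSelfAdjoint.star_eq] at this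
  have := M.norm_L_proj_sq (sub_isStarProjection hp he h1 h2)
  rw [tr_sub, Complex.sub_re] at this
  nlinarith [sq_nonneg ‖M.L (p - e)‖]

end TracialVN

section Control

variable {n : ℕ} {A : Type} [CStarAlgebra A] {u : Fin n → Fin n → A}

lemma Coupling.norm_apply_le {φ ψ : TracialState A} (c : Coupling φ ψ) (a : A) :
    ‖φ.1 a‖ ≤ ‖a‖ := by
  rw [← c.α_tr]
  calc ‖c.M.tr (c.α a)‖ ≤ ‖c.M.L (c.α a)‖ := c.M.norm_tr_le _
    _ = ‖c.M.L (c.α a * 1)‖ := by rw [mul_one]
    _ ≤ ‖c.α a‖ * ‖c.M.L 1‖ := c.M.norm_L_mul_le _ _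
    _ ≤ ‖a‖ := by rw [c.M.norm_L_one, mul_one]; exact NonUnitalStarAlgHom.norm_apply_le c.α a

lemma Coupling.norm_apply_le' {φ ψ : TracialState A} (c : Coupling φ ψ) (a : A) :
    ‖ψ.1 a‖ ≤ ‖a‖ := by
  rw [← c.β_tr]
  calc ‖c.M.tr (c.β a)‖ ≤ ‖c.M.L (c.β a)‖ := c.M.norm_tr_le _
    _ = ‖c.M.L (c.β a * 1)‖ := by rw [mul_one]
    _ ≤ ‖c.β a‖ * ‖c.M.L 1‖ := c.M.norm_L_mul_le _ _
    _ ≤ ‖a‖ := by rw [c.M.norm_L_one, mul_one]; exact NonUnitalStarAlgHom.norm_apply_le c.β a

/-- Control of the difference of the two homomorphisms on the generated algebra. -/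
lemma control {x : A} (hx : x ∈ genAlg u) : ∃ C : ℝ, 0 ≤ C ∧ ∀ (φ ψ : TracialState A)
    (c : Coupling φ ψ) (δ : ℝ), (∀ i j, ‖c.M.L (c.α (u i j) - c.β (u i j))‖ ≤ δ) → 0 ≤ δ →
    ‖c.M.L (c.α x - c.β x)‖ ≤ C * δ := by
  induction hx using Algebra.adjoin_induction with
  | mem x hx =>
    obtain ⟨⟨i, j⟩, rfl⟩ := hx
    refine ⟨1, zero_le_one, fun φ ψ c δ h _ => ?_⟩
    rw [one_mul]
    exact h i j
  | algebraMap r =>
    refine ⟨0, le_rfl, fun φ ψ c δ h _ => ?_⟩
    have h1 : c.α (algebraMap ℂ A r) - c.β (algebraMap ℂ A r) = 0 := by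
      rw [AlgHomClass.commutes, AlgHomClass.commutes, sub_self]
    rw [h1, zero_mul]
    have : c.M.L 0 = 0 := by
      have := c.M.L_smul 0 0
      simpa using this
    rw [this, norm_zero]
  | add x y _ _ hx hy =>
    obtain ⟨C, hC, h1⟩ := hx
    obtain ⟨D, hD, h2⟩ := hy
    refine ⟨C + D, add_nonneg hC hD, fun φ ψ c δ h hδ => ?_⟩
    have h3 : c.α (x + y) - c.β (x + y) = (c.α x - c.β x) + (c.α y - c.β y) := by
      rw [map_add, map_add]; abel
    rw [h3, c.M.L_add, add_mul]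
    exact (norm_add_le _ _).trans (add_le_add (h1 φ ψ c δ h hδ) (h2 φ ψ c δ h hδ))
  | mul x y _ _ hx hy =>
    obtain ⟨C, hC, h1⟩ := hx
    obtain ⟨D, hD, h2⟩ := hy
    refine ⟨‖x‖ * D + C * ‖y‖, by positivity, fun φ ψ c δ h hδ => ?_⟩
    have h3 : c.α (x * y) - c.β (x * y) = c.α x * (c.α y - c.β y) + (c.α x - c.β x) * c.β y := by
      rw [map_mul, map_mul]; noncomm_ring
    rw [h3, c.M.L_add]
    refine (norm_add_le _ _).trans ?_
    have h4 : ‖c.M.L (c.α x * (c.α y - c.β y))‖ ≤ ‖x‖ * (D * δ) := by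
      refine (c.M.norm_L_mul_le _ _).trans ?_
      gcongr
      · exact NonUnitalStarAlgHom.norm_apply_le c.α x
      · exact h2 φ ψ c δ h hδ
    have h5 : ‖c.M.L ((c.α x - c.β x) * c.β y)‖ ≤ (C * δ) * ‖y‖ := by
      refine (c.M.norm_L_mul_le' (sub_mem (c.α_mem x) (c.β_mem x)) (c.β_mem y)).trans ?_
      gcongr
      · exact h1 φ ψ c δ h hδ
      · exact NonUnitalStarAlgHom.norm_apply_le c.β y
    calc _ ≤ ‖x‖ * (D * δ) + (C * δ) * ‖y‖ := add_le_add h4 h5
      _ = _ := by ring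

lemma weak_control (hA : IsQuantumPermutationAlgebra n A u) (a : A) {ε : ℝ} (hε : 0 < ε) :
    ∃ δ : ℝ, 0 < δ ∧ ∀ (φ ψ : TracialState A) (c : Coupling φ ψ),
      (∀ i j, ‖c.M.L (c.α (u i j) - c.β (u i j))‖ ≤ δ) → ‖φ.1 a - ψ.1 a‖ < ε := by
  obtain ⟨x, hx, hxa⟩ := Metric.mem_closure_iff.mp (hA.dense a) (ε / 3) (by positivity)
  obtain ⟨C, hC, h⟩ := control (u := u) hx
  refine ⟨ε / 3 / (C + 1), by positivity, fun φ ψ c hc => ?_⟩
  have h1 := h φ ψ c _ hc (by positivity)
  have h2 : ‖φ.1 x - ψ.1 x‖ ≤ ε / 3 := by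
    rw [← c.α_tr, ← c.β_tr, ← c.M.tr_sub]
    refine (c.M.norm_tr_le _).trans (h1.trans ?_)
    rw [mul_div_assoc', div_le_iff₀ (by positivity)]
    nlinarith
  have h3 : ‖φ.1 a - φ.1 x‖ ≤ ‖a - x‖ := by
    rw [← map_sub]
    exact c.norm_apply_le _
  have h4 : ‖ψ.1 x - ψ.1 a‖ ≤ ‖a - x‖ := by
    rw [← map_sub, norm_sub_rev a x]
    exact c.norm_apply_le' _
  rw [dist_eq_norm] at hxa
  calc ‖φ.1 a - ψ.1 a‖ = ‖(φ.1 a - φ.1 x) + (φ.1 x - ψ.1 x) + (ψ.1 x - ψ.1 a)‖ := by
        congr 1; ring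
    _ ≤ ‖φ.1 a - φ.1 x‖ + ‖φ.1 x - ψ.1 x‖ + ‖ψ.1 x - ψ.1 a‖ := norm_add₃_le
    _ < ε := by linarith

end Control

end Helper45.QPerm
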