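import Pool.Agent.Helper45.QPerm.Gap

open scoped InnerProductSpace ComplexOrder ENNReal Topology

namespace Helper45.QPerm

section Words

/-- product of a word -/
def wd {B : Type*} [Monoid B] {ι : Type*} (x : ι → B) {m : ℕ} (f : Fin m → ι) : B :=
  (List.ofFn fun i => x (f i)).prod

lemma wd_zero {B : Type*} [Monoid B] {ι : Type*} (x : ι → B) (f : Fin 0 → ι) : wd x f = 1 := by
  simp [wd]

lemma wd_cons {B : Type*} [Monoid B] {ι : Type*} (x : ι → B) {m : ℕ} (s : ι) (f : Fin m → ι) :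
    wd x (Fin.cons s f : Fin (m + 1) → ι) = x s * wd x f := by
  simp [wd, List.ofFn_succ]

lemma map_wd {B C : Type*} [Monoid B] [Monoid C] {F : Type*} [FunLike F B C]
    [MonoidHomClass F B C] (φ : F) {ι : Type*} (x : ι → B) {m : ℕ} (f : Fin m → ι) :
    φ (wd x f) = wd (fun i => φ (x i)) f := by
  unfold wd
  rw [map_list_prod, List.map_ofFn]
  rfl

lemma sum_cons {ι : Type*} [Fintype ι] {E : Type*} [AddCommMonoid E] {m : ℕ}
    (F : (Fin (m + 1) → ι) → E) :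
    ∑ f, F f = ∑ s : ι, ∑ f : Fin m → ι, F (Fin.cons s f) := by
  rw [← (Fin.consEquiv (fun _ : Fin (m + 1) => ι)).sum_comp, Fintype.sum_prod_type]
  rfl

lemma pow_eq_sum_wd {B : Type*} [Ring B] {ι : Type*} [Fintype ι] (x : ι → B) (m : ℕ) :
    (∑ s, x s) ^ m = ∑ f : Fin m → ι, wd x f := by
  induction m with
  | zero => simp [wd_zero]
  | succ m ih =>
    rw [pow_succ', ih, sum_cons, Finset.sum_mul]
    refine Finset.sum_congr rfl fun s _ => ?_
    rw [Finset.mul_sum]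
    refine Finset.sum_congr rfl fun f _ => ?_
    rw [wd_cons]

end Words

section Abstract

variable {H : Type} [NormedAddCommGroup H] [InnerProductSpace ℂ H] [CompleteSpace H]

lemma wd_mem (N : VonNeumannAlgebra H) {ι : Type*} {x : ι → H →L[ℂ] H} (hx : ∀ s, x s ∈ N)
    {m : ℕ} (f : Fin m → ι) : wd x f ∈ N := by
  induction m with
  | zero => rw [wd_zero]; exact one_mem _
  | succ m ih =>
    rw [← Fin.cons_self_tail f, wd_cons]
    exact mul_mem (hx _) (ih _)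

/-- log-convex sequences -/
lemma pow_le_of_logconvex {a : ℕ → ℝ} (h0 : a 0 = 1) (hnn : ∀ m, 0 ≤ a m)
    (h : ∀ m, a (m + 1) ^ 2 ≤ a m * a (m + 2)) (m : ℕ) : a 1 ^ m ≤ a m := by
  have h1 : ∀ m, a 1 * a m ≤ a (m + 1) := by
    intro m
    induction m with
    | zero => rw [h0, mul_one]
    | succ m ih =>
      rcases (hnn m).eq_or_lt with hm | hm
      · have h2 := h m
        rw [← hm, zero_mul] at h2
        have h3 : a (m + 1) = 0 := pow_eq_zero_iff two_ne_zero |>.mp (le_antisymm h2 (sq_nonneg _))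
        rw [h3, mul_zero]
        exact hnn _
      · have h2 := h m
        have h3 : a m * (a 1 * a (m + 1)) ≤ a m * a (m + 2) := by
          calc a m * (a 1 * a (m + 1)) = (a 1 * a m) * a (m + 1) := by ring
            _ ≤ a (m + 1) * a (m + 1) := mul_le_mul_of_nonneg_right ih (hnn _)
            _ = a (m + 1) ^ 2 := by ring
            _ ≤ _ := h2
        exact le_of_mul_le_mul_left h3 hm
  induction m with
  | zero => rw [pow_zero, h0]
  | succ m ih =>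
    calc a 1 ^ (m + 1) = a 1 * a 1 ^ m := pow_succ' _ _
      _ ≤ a 1 * a m := mul_le_mul_of_nonneg_left ih (hnn 1)
      _ ≤ a (m + 1) := h1 m

lemma le_of_pow_le {x ρ C : ℝ} (hx : 0 ≤ x) (hρ : 0 < ρ)
    (h : ∀ m : ℕ, x ^ (2 * m) ≤ C * ρ ^ (2 * m)) : x ≤ ρ := by
  by_contra hcon
  push Not at hcon
  have h1 : 1 < (x / ρ) ^ 2 := by
    have : 1 < x / ρ := by rwa [one_lt_div hρ]
    nlinarith
  obtain ⟨m, hm⟩ := pow_unbounded_of_one_lt C h1
  have h2 := h m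
  rw [← pow_mul, div_pow, lt_div_iff₀ (by positivity)] at hm
  linarith

/-- The rigidity lemma. -/
theorem rigidity (M : TracialVN H) (V W : Fin 5 → H →L[ℂ] H) (hV : ∀ s, V s ∈ M.alg)
    (hW : ∀ s, W s ∈ M.alg) (ι : Equiv.Perm (Fin 5)) (hVι : ∀ s, star (V s) = V (ι s))
    (hWι : ∀ s, star (W s) = W (ι s)) (hVu : ∀ s, star (V s) * V s = 1)
    (hWu : ∀ s, star (W s) * W s = 1) {C ρ : ℝ} (hρ : 0 < ρ)
    (hC : ∀ m, ‖∑ f : Fin m → Fin 5, ⟪M.L (wd W f), M.L (wd V f)⟫_ℂ‖ ≤ C * ρ ^ m) :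
    ∑ s, (1 - ‖M.L (V s - W s)‖ ^ 2 / 2) ≤ ρ := by
  let T : (H →L[ℂ] H) → (H →L[ℂ] H) := fun y => ∑ s, V s * y * star (W s)
  let D : ℕ → (H →L[ℂ] H) := fun m => ∑ f : Fin m → Fin 5, wd V f * star (wd W f)
  have hD0 : D 0 = 1 := by simp [D, wd_zero]
  have hDs : ∀ m, D (m + 1) = T (D m) := by
    intro m
    simp only [D, T]
    rw [sum_cons]
    refine Finset.sum_congr rfl fun s _ => ?_
    rw [Finset.mul_sum, Finset.sum_mul]
    refine Finset.sum_congr rfl fun f _ => ?_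
    rw [wd_cons, wd_cons, star_mul]
    simp only [mul_assoc]
  have hDm : ∀ m, D m ∈ M.alg := by
    intro m
    exact sum_mem fun f _ => mul_mem (wd_mem _ hV f) (star_mem (wd_mem _ hW f))
  have hLsum : ∀ {κ : Type} (S : Finset κ) (F : κ → H →L[ℂ] H),
      M.L (∑ i ∈ S, F i) = ∑ i ∈ S, M.L (F i) := by
    intro κ S F
    classical
    induction S using Finset.induction_on with
    | empty =>
      have := M.L_smul 0 0
      simpa using this
    | insert a S ha ih => rw [Finset.sum_insert ha, Finset.sum_insert ha, M.L_add, ih]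
  have hsym : ∀ y z, y ∈ M.alg → z ∈ M.alg → ⟪M.L (T y), M.L z⟫_ℂ = ⟪M.L y, M.L (T z)⟫_ℂ := by
    intro y z hy hz
    simp only [T]
    rw [hLsum, hLsum, sum_inner, inner_sum,
      ← Equiv.sum_comp ι (fun s => ⟪M.L (V s * y * star (W s)), M.L z⟫_ℂ)]
    refine Finset.sum_congr rfl fun s _ => ?_
    rw [M.inner_L, M.inner_L, ← hVι, ← hWι]
    simp only [star_mul, star_star, mul_assoc]
    rw [M.tr_comm (star_mem (hW s))
      (mul_mem (star_mem hy) (mul_mem (hV s) hz))]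
    simp only [mul_assoc]
  have hmove : ∀ j k, ⟪M.L (D (j + 1)), M.L (D k)⟫_ℂ = ⟪M.L (D j), M.L (D (k + 1))⟫_ℂ := by
    intro j k
    rw [hDs j, hDs k, hsym _ _ (hDm _) (hDm _)]
  have hmove' : ∀ j k, ⟪M.L (D j), M.L (D k)⟫_ℂ = ⟪M.L (D 0), M.L (D (j + k))⟫_ℂ := by
    intro j
    induction j with
    | zero => intro k; rw [zero_add]
    | succ j ih => intro k; rw [hmove, ih, show j + (k + 1) = j + 1 + k by ring]
  let a : ℕ → ℝ := fun m => ‖M.L (D m)‖
  have ha0 : a 0 = 1 := by simp only [a, hD0, M.norm_L_one]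
  have hnn : ∀ m, 0 ≤ a m := fun m => norm_nonneg _
  have hsq : ∀ m, ((a m ^ 2 : ℝ) : ℂ) = ⟪M.L (D m), M.L (D m)⟫_ℂ := by
    intro m
    rw [inner_self_eq_norm_sq_to_K]
    push_cast
    rfl
  have hlog : ∀ m, a (m + 1) ^ 2 ≤ a m * a (m + 2) := by
    intro m
    have h1 : ((a (m + 1) ^ 2 : ℝ) : ℂ) = ⟪M.L (D m), M.L (D (m + 2))⟫_ℂ := by
      rw [hsq, hmove]
    have h2 : a (m + 1) ^ 2 = ‖⟪M.L (D m), M.L (D (m + 2))⟫_ℂ‖ := by
      rw [← h1, Complex.norm_real, Real.norm_of_nonneg (sq_nonneg _)]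
    rw [h2]
    exact norm_inner_le_norm _ _
  have hbound : ∀ m, a m ^ 2 ≤ C * ρ ^ (2 * m) := by
    intro m
    have h1 : ((a m ^ 2 : ℝ) : ℂ) = ⟪M.L (D 0), M.L (D (2 * m))⟫_ℂ := by
      rw [hsq, hmove', two_mul]
    have h2 : a m ^ 2 = ‖⟪M.L (D 0), M.L (D (2 * m))⟫_ℂ‖ := by
      rw [← h1, Complex.norm_real, Real.norm_of_nonneg (sq_nonneg _)]
    rw [h2, hD0]
    have h3 : ⟪M.L 1, M.L (D (2 * m))⟫_ℂ =
        ∑ f : Fin (2 * m) → Fin 5, ⟪M.L (wd W f), M.L (wd V f)⟫_ℂ := by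
      rw [hLsum, inner_sum]
      refine Finset.sum_congr rfl fun f _ => ?_
      rw [M.inner_L, M.inner_L, star_one, one_mul,
        M.tr_comm (wd_mem _ hV f) (star_mem (wd_mem _ hW f))]
    rw [h3]
    exact hC _
  have h1 : a 1 ≤ ρ := by
    apply le_of_pow_le (hnn 1) hρ (C := C)
    intro m
    have h2 := pow_le_of_logconvex ha0 hnn hlog m
    calc a 1 ^ (2 * m) = (a 1 ^ m) ^ 2 := by rw [← pow_mul, mul_comm]
      _ ≤ a m ^ 2 := pow_le_pow_left₀ (pow_nonneg (hnn 1) m) h2 2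
      _ ≤ _ := hbound m
  refine le_trans ?_ h1
  -- lower bound for `a 1`
  have h2 : ⟪M.L 1, M.L (D 1)⟫_ℂ = ∑ s, ⟪M.L (W s), M.L (V s)⟫_ℂ := by
    have e1 : D 1 = ∑ s, V s * star (W s) := by
      rw [show (1 : ℕ) = 0 + 1 from rfl, hDs 0, hD0]
      simp only [T, mul_one]
    rw [e1, hLsum, inner_sum]
    refine Finset.sum_congr rfl fun s _ => ?_
    rw [M.inner_L, M.inner_L, star_one, one_mul, M.tr_comm (hV s) (star_mem (hW s))]
  have h3 : ∀ s, 1 - ‖M.L (V s - W s)‖ ^ 2 / 2 = (⟪M.L (W s), M.L (V s)⟫_ℂ).re := by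
    intro s
    have e1 : ‖M.L (V s)‖ ^ 2 = 1 := by
      rw [M.norm_L_sq', hVu, M.tr_one, Complex.one_re]
    have e2 : ‖M.L (W s)‖ ^ 2 = 1 := by
      rw [M.norm_L_sq', hWu, M.tr_one, Complex.one_re]
    have e3 := norm_sub_sq (𝕜 := ℂ) (M.L (V s)) (M.L (W s))
    rw [← M.L_sub, e1, e2, inner_re_symm] at e3
    change _ = 1 - 2 * (⟪M.L (W s), M.L (V s)⟫_ℂ).re + 1 at e3
    linarith
  have h4 : ∑ s, (1 - ‖M.L (V s - W s)‖ ^ 2 / 2) = (⟪M.L 1, M.L (D 1)⟫_ℂ).re := by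
    rw [h2, Complex.re_sum]
    exact Finset.sum_congr rfl fun s _ => h3 s
  rw [h4]
  refine (Complex.re_le_norm _).trans ((norm_inner_le_norm _ _).trans ?_)
  rw [M.norm_L_one, one_mul]

end Abstract

end Helper45.QPerm
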